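import Mathlib
import Pool.Agent.Lib_helper42.RST.Defs

/-! indicator lemmas -/

open Finset

namespace Pool.Agent.RST

theorem ind_nonneg (p : Prop) : 0 ≤ ind p := by
  unfold ind; split_ifs <;> norm_num
theorem ind_le_one (p : Prop) : ind p ≤ 1 := by
  unfold ind; split_ifs <;> norm_num
theorem ind_mono {p q : Prop} (h : p → q) : ind p ≤ ind q := by
  by_cases hp : p
  · simp [ind, hp, h hp]
  · unfold ind; split_ifs <;> norm_num
theorem ind_true {p : Prop} (h : p) : ind p = 1 := by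
  unfold ind; simp [h]
theorem ind_false {p : Prop} (h : ¬ p) : ind p = 0 := by
  unfold ind; simp [h]

theorem pw_nonneg {Ω : Type} [Fintype Ω] (w : Ω → ℝ) (h0 : ∀ T, 0 ≤ w T) (m : ℕ) (θ : Fin m → Ω) :
    0 ≤ pw w m θ := by
  exact Finset.prod_nonneg (fun i _ => h0 _)

/-- trees on `[n]` -/
abbrev TreeN (n : ℕ) := {G : SimpleGraph (Fin n) // G.IsTree}

end Pool.Agent.RST
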