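import Mathlib
import Pool.Agent.Lib_helper42.RST.Defs
import Pool.Agent.Lib_helper42.RST.Stmt
import Pool.Agent.Lib_helper42.RSTF.Base

/- block AMGM proved by helper93 -/

/-! # RST, blocks AMGM, GRE, EXT, FIN -/

set_option autoImplicit false
set_option linter.unusedSectionVars false

open Finset

namespace Pool.Agent.RST

theorem const_bound (n k : ℝ) (hk : 0 ≤ k) (hkn : k ≤ n) :
    (n - k) * Real.sqrt (Real.pi * k / 2) ≤ Real.sqrt (2 * Real.pi / 27) * n ^ (3 / 2 : ℝ) := by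
  have hn : 0 ≤ n := hk.trans hkn
  have hpi := Real.pi_pos
  have h1 : n ^ (3 / 2 : ℝ) = Real.sqrt (n ^ 3) := by
    rw [Real.sqrt_eq_rpow, ← Real.rpow_natCast, ← Real.rpow_mul hn]
    norm_num
  have h2 : (n - k) * Real.sqrt (Real.pi * k / 2) =
      Real.sqrt ((n - k) ^ 2 * (Real.pi * k / 2)) := by
    rw [Real.sqrt_mul (sq_nonneg _), Real.sqrt_sq (by linarith)]
  rw [h1, h2, ← Real.sqrt_mul (by positivity)]
  apply Real.sqrt_le_sqrt
  have h3 : 0 ≤ (n - 3 * k) ^ 2 * (4 * n - 3 * k) := mul_nonneg (sq_nonneg _) (by linarith)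
  have h4 : 2 * Real.pi / 27 * n ^ 3 - (n - k) ^ 2 * (Real.pi * k / 2) =
      Real.pi / 54 * ((n - 3 * k) ^ 2 * (4 * n - 3 * k)) := by ring
  have h5 : 0 ≤ Real.pi / 54 * ((n - 3 * k) ^ 2 * (4 * n - 3 * k)) := by positivity
  linarith

end Pool.Agent.RST
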