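import Mathlib
import Pool.Agent.Lib_helper42.RST.Defs
import Pool.Agent.Lib_helper42.RST.Stmt
import Pool.Agent.Lib_helper42.RSTF.Base

/- block EL1 proved by helper77 -/

/-! # Block EL1 -/

set_option autoImplicit false

open Finset

namespace Pool.Agent.RST

section EL1
variable {Ω : Type} [Fintype Ω] (w : Ω → ℝ)

theorem EL_mono (h0 : ∀ T, 0 ≤ w T) (s : ℕ) (f g : List Ω → ℝ)
    (h : ∀ l, l.length = s → f l ≤ g l) : EL w s f ≤ EL w s g := by
  induction s generalizing f g with
  | zero => exact h [] rfl
  | succ s ih =>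
    unfold EL
    apply Finset.sum_le_sum
    intro T _
    apply mul_le_mul_of_nonneg_left _ (h0 T)
    apply ih
    intro l hl
    exact h (T :: l) (by simp [hl])

theorem EL_congr (s : ℕ) (f g : List Ω → ℝ)
    (h : ∀ l, l.length = s → f l = g l) : EL w s f = EL w s g := by
  induction s generalizing f g with
  | zero => exact h [] rfl
  | succ s ih =>
    unfold EL
    apply Finset.sum_congr rfl
    intro T _
    rw [ih (fun l => f (T :: l)) (fun l => g (T :: l))]
    intro l hl
    exact h (T :: l) (by simp [hl])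

theorem EL_const (h1 : ∑ T, w T = 1) (s : ℕ) (c : ℝ) : EL w s (fun _ => c) = c := by
  induction s with
  | zero => rfl
  | succ s ih =>
    change ∑ T, w T * EL w s (fun _ => c) = c
    rw [ih, ← Finset.sum_mul, h1, one_mul]

theorem EL_add (s : ℕ) (f g : List Ω → ℝ) :
    EL w s (fun l => f l + g l) = EL w s f + EL w s g := by
  induction s generalizing f g with
  | zero => rfl
  | succ s ih =>
    unfold EL
    rw [← Finset.sum_add_distrib]
    apply Finset.sum_congr rfl
    intro T _
    rw [ih (fun l => f (T :: l)) (fun l => g (T :: l)), mul_add]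

theorem EL_smul (s : ℕ) (c : ℝ) (f : List Ω → ℝ) :
    EL w s (fun l => c * f l) = c * EL w s f := by
  induction s generalizing f with
  | zero => rfl
  | succ s ih =>
    unfold EL
    rw [Finset.mul_sum]
    apply Finset.sum_congr rfl
    intro T _
    rw [ih (fun l => f (T :: l))]
    ring

theorem EL_sum {ι : Type} (s : ℕ) (S : Finset ι) (f : ι → List Ω → ℝ) :
    EL w s (fun l => ∑ i ∈ S, f i l) = ∑ i ∈ S, EL w s (f i) := by
  induction s generalizing f with
  | zero => rfl
  | succ s ih =>
    unfold EL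
    rw [Finset.sum_comm]
    apply Finset.sum_congr rfl
    intro T _
    rw [ih (fun i l => f i (T :: l)), Finset.mul_sum]

theorem EL_append (a b : ℕ) (f : List Ω → ℝ) :
    EL w (a + b) f = EL w a (fun l1 => EL w b (fun l2 => f (l1 ++ l2))) := by
  induction a generalizing f with
  | zero =>
    rw [zero_add]
    rfl
  | succ a ih =>
    rw [show a + 1 + b = (a + b) + 1 by omega]
    change ∑ T, w T * EL w (a + b) (fun l => f (T :: l)) =
      ∑ T, w T * EL w a (fun l1 => EL w b (fun l2 => f ((T :: l1) ++ l2)))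
    apply Finset.sum_congr rfl
    intro T _
    rw [ih]
    rfl

theorem EL_comm (a b : ℕ) (f : List Ω → List Ω → ℝ) :
    EL w a (fun l1 => EL w b (fun l2 => f l1 l2)) = EL w b (fun l2 => EL w a (fun l1 => f l1 l2)) := by
  induction a generalizing f with
  | zero => rfl
  | succ a ih =>
    change ∑ T, w T * EL w a (fun l1 => EL w b (fun l2 => f (T :: l1) l2)) =
      EL w b (fun l2 => ∑ T, w T * EL w a (fun l1 => f (T :: l1) l2))
    rw [EL_sum]
    apply Finset.sum_congr rfl
    intro T _
    rw [EL_smul, ih]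

theorem EL_one (f : List Ω → ℝ) : EL w 1 f = ∑ T, w T * f [T] := rfl

theorem EL_reverse (s : ℕ) (f : List Ω → ℝ) :
    EL w s (fun l => f l.reverse) = EL w s f := by
  induction s generalizing f with
  | zero => rfl
  | succ s ih =>
    rw [EL_append w s 1 f]
    change ∑ T, w T * EL w s (fun l => f (T :: l).reverse) =
      EL w s (fun l1 => ∑ T, w T * f (l1 ++ [T]))
    rw [EL_sum]
    apply Finset.sum_congr rfl
    intro T _
    rw [EL_smul]
    congr 1
    have h := ih (fun l => f (l ++ [T]))
    rw [← h]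
    apply EL_congr
    intro l _
    rw [List.reverse_cons]

theorem EL_eq_EX (s : ℕ) (f : List Ω → ℝ) :
    EL w s f = EX (ι := Fin s) w (fun θ => f (List.ofFn θ)) := by
  induction s generalizing f with
  | zero =>
    simp [EL, EX]
  | succ s ih =>
    change ∑ T, w T * EL w s (fun l => f (T :: l)) = _
    unfold EX
    rw [← (Fin.consEquiv (fun _ : Fin (s + 1) => Ω)).sum_comp, Fintype.sum_prod_type]
    apply Finset.sum_congr rfl
    intro T _
    rw [ih (fun l => f (T :: l))]
    unfold EX
    rw [Finset.mul_sum]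
    apply Finset.sum_congr rfl
    intro θ _
    change w T * ((∏ i, w (θ i)) * f (T :: List.ofFn θ)) =
      (∏ i, w ((Fin.cons T θ : Fin (s + 1) → Ω) i)) *
        f (List.ofFn (Fin.cons T θ : Fin (s + 1) → Ω))
    rw [Fin.prod_univ_succ, List.ofFn_succ]
    simp only [Fin.cons_zero, Fin.cons_succ]
    ring

theorem EL_nonneg (h0 : ∀ T, 0 ≤ w T) (s : ℕ) (f : List Ω → ℝ)
    (h : ∀ l, l.length = s → 0 ≤ f l) : 0 ≤ EL w s f := by
  have h1 := EL_mono w h0 s (fun _ => 0) f h
  have h2 : EL w s (fun _ => (0 : ℝ)) = 0 := by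
    have := EL_smul w s 0 (fun _ => (0 : ℝ))
    simpa using this
  rw [h2] at h1
  exact h1

theorem EL_ind_not (h1 : ∑ T, w T = 1) (s : ℕ) (p : List Ω → Prop) :
    EL w s (fun l => ind (¬ p l)) = 1 - EL w s (fun l => ind (p l)) := by
  have e := EL_add w s (fun l => ind (¬ p l)) (fun l => ind (p l))
  have e2 : EL w s (fun l => ind (¬ p l) + ind (p l)) = 1 := by
    rw [← EL_const w h1 s 1]
    apply EL_congr
    intro l _
    by_cases h : p l
    · rw [ind_true h, ind_false (not_not_intro h), zero_add]
    · rw [ind_false h, ind_true (p := ¬ p l) h, add_zero]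
  linarith

theorem EL_ind_compl_le (h0 : ∀ T, 0 ≤ w T) (h1 : ∑ T, w T = 1) (s : ℕ) (p q : List Ω → Prop)
    (h : ∀ l, l.length = s → p l ∨ q l) :
    1 - EL w s (fun l => ind (q l)) ≤ EL w s (fun l => ind (p l)) := by
  rw [← EL_ind_not w h1]
  apply EL_mono w h0
  intro l hl
  apply ind_mono
  intro hq
  rcases h l hl with h | h
  · exact h
  · exact absurd h hq

end EL1

end Pool.Agent.RST
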