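import Mathlib
import Pool.Agent.Lib_helper42.RST.Defs
import Pool.Agent.Lib_helper42.RST.Stmt
import Pool.Agent.Lib_helper42.RSTF.Base
import Pool.Agent.Lib_helper42.RSTF.EL1

/- block EE1 proved by helper24 -/

/-!
# Block EE1 (helper24): rules for exit parts, Fubini, recovering parts
-/

set_option autoImplicit false

open Finset

namespace Pool.Agent.RST

section EE1
variable {Ω : Type} [Fintype Ω] (w : Ω → ℝ)

theorem EE_mono (h0 : ∀ T, 0 ≤ w T) (qs : List ℕ) (f g : List (List Ω) → ℝ)
    (h : ∀ E, E.map List.length = qs → f E ≤ g E) : EE w qs f ≤ EE w qs g := by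
  induction qs generalizing f g with
  | nil => exact h [] rfl
  | cons q qs ih =>
    refine EL_mono w h0 q _ _ fun e he => ?_
    refine ih _ _ fun E hE => h (e :: E) ?_
    rw [List.map_cons, he, hE]

theorem EE_congr (qs : List ℕ) (f g : List (List Ω) → ℝ)
    (h : ∀ E, E.map List.length = qs → f E = g E) : EE w qs f = EE w qs g := by
  induction qs generalizing f g with
  | nil => exact h [] rfl
  | cons q qs ih =>
    refine EL_congr w q _ _ fun e he => ?_
    refine ih _ _ fun E hE => h (e :: E) ?_
    rw [List.map_cons, he, hE]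

theorem EE_const (h1 : ∑ T, w T = 1) (qs : List ℕ) (c : ℝ) : EE w qs (fun _ => c) = c := by
  induction qs with
  | nil => rfl
  | cons q qs ih =>
    show EL w q (fun _ => EE w qs (fun _ => c)) = c
    rw [ih]
    exact EL_const w h1 q c

theorem EE_add (qs : List ℕ) (f g : List (List Ω) → ℝ) :
    EE w qs (fun E => f E + g E) = EE w qs f + EE w qs g := by
  induction qs generalizing f g with
  | nil => rfl
  | cons q qs ih =>
    show EL w q (fun e => EE w qs (fun E => f (e :: E) + g (e :: E))) = _
    rw [EL_congr w q _ (fun e => EE w qs (fun E => f (e :: E)) + EE w qs (fun E => g (e :: E)))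
      (fun e _ => ih _ _)]
    exact EL_add w q _ _

theorem EE_smul (qs : List ℕ) (c : ℝ) (f : List (List Ω) → ℝ) :
    EE w qs (fun E => c * f E) = c * EE w qs f := by
  induction qs generalizing f with
  | nil => rfl
  | cons q qs ih =>
    show EL w q (fun e => EE w qs (fun E => c * f (e :: E))) = _
    rw [EL_congr w q _ (fun e => c * EE w qs (fun E => f (e :: E)))
      (fun e _ => ih _)]
    exact EL_smul w q c _

theorem EE_append (qs1 qs2 : List ℕ) (f : List (List Ω) → ℝ) :
    EE w (qs1 ++ qs2) f = EE w qs1 (fun E1 => EE w qs2 (fun E2 => f (E1 ++ E2))) := by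
  induction qs1 generalizing f with
  | nil => rfl
  | cons q qs ih =>
    show EL w q (fun e => EE w (qs ++ qs2) (fun E => f (e :: E))) = _
    exact EL_congr w q _ _ (fun e _ => ih _)

/-- commutation of `EL` and `EE` -/
theorem ee1_comm (q : ℕ) (qs : List ℕ) (F : List Ω → List (List Ω) → ℝ) :
    EL w q (fun e => EE w qs (fun E => F e E)) = EE w qs (fun E => EL w q (fun e => F e E)) := by
  induction qs generalizing F with
  | nil => rfl
  | cons r qs ih =>
    show EL w q (fun e => EL w r (fun e' => EE w qs (fun E => F e (e' :: E)))) =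
      EL w r (fun e' => EE w qs (fun E => EL w q (fun e => F e (e' :: E))))
    rw [EL_comm]
    exact EL_congr w r _ _ (fun e' _ => ih (fun e E => F e (e' :: E)))

theorem EE_reverse (m q : ℕ) (f : List (List Ω) → ℝ) :
    EE w (List.replicate m q) (fun E => f E.reverse) = EE w (List.replicate m q) f := by
  induction m generalizing f with
  | zero => rfl
  | succ m ih =>
    have h1 : EE w (List.replicate (m + 1) q) (fun E => f E.reverse) =
        EL w q (fun e => EE w (List.replicate m q) (fun E => f (E ++ [e]))) := by
      rw [List.replicate_succ]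
      show EL w q (fun e => EE w (List.replicate m q) (fun E => f (e :: E).reverse)) = _
      refine EL_congr w q _ _ (fun e _ => ?_)
      rw [← ih (fun E => f (E ++ [e]))]
      refine EE_congr w _ _ _ (fun E _ => ?_)
      rw [List.reverse_cons]
    have h2 : EE w (List.replicate (m + 1) q) f =
        EE w (List.replicate m q) (fun E => EL w q (fun e => f (E ++ [e]))) := by
      rw [List.replicate_succ', EE_append]
      rfl
    rw [h1, h2, ee1_comm]

theorem ee1_col_cons (e : List Ω) (E : List (List Ω)) (b : ℕ) (hb : b < e.length) :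
    col (e :: E) b = e[b] :: col E b := by
  unfold col
  rw [List.filterMap_cons, List.getElem?_eq_getElem hb]

theorem EE_cols (m q : ℕ) (G : (Fin q → List Ω) → ℝ) :
    EE w (List.replicate m q) (fun E => G (fun b => col E b)) =
      EX (ι := Fin q) (pw w m) (fun κ => G (fun b => List.ofFn (κ b))) := by
  induction m generalizing G with
  | zero =>
    have h1 : EE w (List.replicate 0 q) (fun E => G (fun b => col E b)) = G (fun _ => []) := rfl
    rw [h1]
    unfold EX
    rw [Fintype.sum_unique]
    have h2 : ∀ θ : Fin 0 → Ω, pw w 0 θ = 1 := fun θ => by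
      unfold pw
      exact Finset.prod_of_isEmpty _
    simp [h2]
  | succ m ih =>
    have h1 : EE w (List.replicate (m + 1) q) (fun E => G (fun b => col E b)) =
        EX (ι := Fin q) w (fun θ => EX (ι := Fin q) (pw w m)
          (fun κ => G (fun b => θ b :: List.ofFn (κ b)))) := by
      rw [List.replicate_succ]
      show EL w q (fun e => EE w (List.replicate m q) (fun E => G (fun b => col (e :: E) b))) = _
      have h2 : EL w q (fun e => EE w (List.replicate m q)
            (fun E => G (fun b => col (e :: E) b))) =
          EL w q (fun e => EE w (List.replicate m q) (fun E => G (fun b : Fin q =>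
            ((e[(b : ℕ)]?).toList ++ col E b)))) := by
        refine EL_congr w q _ _ (fun e he => ?_)
        refine EE_congr w _ _ _ (fun E _ => ?_)
        congr 1
        funext b
        have hb : (b : ℕ) < e.length := by rw [he]; exact b.2
        rw [ee1_col_cons e E b hb, List.getElem?_eq_getElem hb]
        rfl
      rw [h2, EL_eq_EX]
      unfold EX
      refine Finset.sum_congr rfl fun θ _ => ?_
      congr 1
      have h3 := ih (fun c => G (fun b => θ b :: c b))
      unfold EX at h3
      show EE w (List.replicate m q) (fun E => G (fun b : Fin q =>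
        (((List.ofFn θ)[(b : ℕ)]?).toList ++ col E b))) = _
      refine Eq.trans ?_ h3
      refine EE_congr w _ _ _ (fun E _ => ?_)
      congr 1
      funext b
      have hb : (b : ℕ) < (List.ofFn θ).length := by rw [List.length_ofFn]; exact b.2
      rw [List.getElem?_eq_getElem hb, List.getElem_ofFn]
      rfl
    rw [h1]
    unfold EX
    let e1 : (Fin q → Fin (m + 1) → Ω) ≃ (Fin q → Ω × (Fin m → Ω)) :=
      Equiv.piCongrRight (fun _ : Fin q => (Fin.consEquiv (fun _ => Ω)).symm)
    let e2 : (Fin q → Ω × (Fin m → Ω)) ≃ (Fin q → Ω) × (Fin q → Fin m → Ω) :=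
      Equiv.arrowProdEquivProdArrow (Fin q) (fun _ => Ω) (fun _ => Fin m → Ω)
    rw [← (e1.trans e2).symm.sum_comp, Fintype.sum_prod_type]
    refine Finset.sum_congr rfl fun θ _ => ?_
    rw [Finset.mul_sum]
    refine Finset.sum_congr rfl fun κ _ => ?_
    have h4 : ∀ b, (e1.trans e2).symm (θ, κ) b = Fin.cons (θ b) (κ b) := fun b => rfl
    have h5 : ∏ b, pw w (m + 1) ((e1.trans e2).symm (θ, κ) b) =
        (∏ b, w (θ b)) * ∏ b, pw w m (κ b) := by
      rw [← Finset.prod_mul_distrib]
      refine Finset.prod_congr rfl fun b _ => ?_
      rw [h4]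
      unfold pw
      rw [Fin.prod_univ_succ]
      simp
    rw [h5, mul_assoc]
    congr 2
    show G (fun b => θ b :: List.ofFn (κ b)) =
      G (fun b => List.ofFn ((e1.trans e2).symm (θ, κ) b))
    congr 1
    funext b
    rw [h4, List.ofFn_succ]
    simp

theorem EE_row (m : ℕ) (f : List Ω → ℝ) :
    EE w (List.replicate m 1) (fun E => f (col E 0)) = EL w m f := by
  induction m generalizing f with
  | zero => rfl
  | succ m ih =>
    rw [List.replicate_succ]
    show EL w 1 (fun e => EE w (List.replicate m 1) (fun E => f (col (e :: E) 0))) = _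
    rw [EL_one]
    show _ = ∑ T, w T * EL w m (fun l => f (T :: l))
    refine Finset.sum_congr rfl fun T _ => ?_
    congr 1
    rw [← ih (fun l => f (T :: l))]
    refine EE_congr w _ _ _ (fun E _ => ?_)
    rw [ee1_col_cons [T] E 0 (by simp)]
    rfl

theorem EP_mono (h0 : ∀ T, 0 ≤ w T) (P : ℕ) (E : List (List Ω)) (f g : List Ω → ℝ)
    (h : ∀ k, k.length = (E.length + 1) * P + (E.map List.length).sum → f k ≤ g k) :
    EP w P E f ≤ EP w P E g := by
  induction E generalizing f g with
  | nil =>
    refine EL_mono w h0 P _ _ fun k hk => h k ?_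
    simp [hk]
  | cons e E ih =>
    refine EL_mono w h0 P _ _ fun c hc => ?_
    refine ih _ _ fun l hl => h _ ?_
    rw [List.length_append, List.length_append, hc, hl, List.length_cons, List.map_cons,
      List.sum_cons]
    ring

theorem ee1_EP_congr (P : ℕ) (E : List (List Ω)) (f g : List Ω → ℝ)
    (h : ∀ k, k.length = (E.length + 1) * P + (E.map List.length).sum → f k = g k) :
    EP w P E f = EP w P E g := by
  induction E generalizing f g with
  | nil =>
    refine EL_congr w P _ _ fun k hk => h k ?_
    simp [hk]
  | cons e E ih =>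
    refine EL_congr w P _ _ fun c hc => ?_
    refine ih _ _ fun l hl => h _ ?_
    rw [List.length_append, List.length_append, hc, hl, List.length_cons, List.map_cons,
      List.sum_cons]
    ring

theorem EP_smul (P : ℕ) (E : List (List Ω)) (c : ℝ) (f : List Ω → ℝ) :
    EP w P E (fun k => c * f k) = c * EP w P E f := by
  induction E generalizing f with
  | nil => exact EL_smul w P c f
  | cons e E ih =>
    show EL w P (fun c' => EP w P E (fun l => c * f (c' ++ (e ++ l)))) = _
    rw [EL_congr w P _ (fun c' => c * EP w P E (fun l => f (c' ++ (e ++ l))))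
      (fun c' _ => ih _)]
    exact EL_smul w P c _

theorem EP_const (h1 : ∑ T, w T = 1) (P : ℕ) (E : List (List Ω)) (c : ℝ) :
    EP w P E (fun _ => c) = c := by
  induction E with
  | nil => exact EL_const w h1 P c
  | cons e E ih =>
    show EL w P (fun _ => EP w P E (fun _ => c)) = c
    rw [ih]
    exact EL_const w h1 P c

/-- Fubini: the whole window = exit parts, then cover parts -/
theorem FUB (P : ℕ) (qs : List ℕ) (f : List Ω → ℝ) :
    EL w ((qs.length + 1) * P + qs.sum) f = EE w qs (fun E => EP w P E f) := by
  induction qs generalizing f with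
  | nil =>
    have h : (([] : List ℕ).length + 1) * P + ([] : List ℕ).sum = P := by simp
    rw [h]
    rfl
  | cons q qs ih =>
    have h : ((q :: qs).length + 1) * P + (q :: qs).sum =
        P + (q + ((qs.length + 1) * P + qs.sum)) := by
      rw [List.length_cons, List.sum_cons]
      ring
    rw [h, EL_append]
    show _ = EL w q (fun e => EE w qs (fun E => EL w P (fun c =>
      EP w P E (fun l => f (c ++ (e ++ l))))))
    have h2 : EL w q (fun e => EE w qs (fun E => EL w P (fun c =>
        EP w P E (fun l => f (c ++ (e ++ l)))))) =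
        EL w q (fun e => EL w P (fun c => EE w qs (fun E =>
        EP w P E (fun l => f (c ++ (e ++ l)))))) := by
      refine EL_congr w q _ _ (fun e _ => ?_)
      exact (ee1_comm w P qs (fun c E => EP w P E (fun l => f (c ++ (e ++ l))))).symm
    rw [h2, EL_comm w q P (fun e c => EE w qs (fun E => EP w P E (fun l => f (c ++ (e ++ l)))))]
    refine EL_congr w P _ _ (fun c _ => ?_)
    rw [EL_append]
    refine EL_congr w q _ _ (fun e _ => ?_)
    exact ih (fun l => f (c ++ (e ++ l)))

/-- the exit parts can be recovered from the whole list -/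
theorem EP_prt (P : ℕ) (E : List (List Ω)) (F : List (List Ω) → List Ω → ℝ) :
    EP w P E (fun k => F (prt P (E.map List.length) k) k) = EP w P E (fun k => F E k) := by
  induction E generalizing F with
  | nil => rfl
  | cons e E ih =>
    show EL w P (fun c => EP w P E (fun l => F (prt P ((e :: E).map List.length)
      (c ++ (e ++ l))) (c ++ (e ++ l)))) = EL w P (fun c => EP w P E (fun l => F (e :: E)
      (c ++ (e ++ l))))
    refine EL_congr w P _ _ (fun c hc => ?_)
    rw [← ih (fun E' l => F (e :: E') (c ++ (e ++ l)))]
    refine ee1_EP_congr w P E _ _ (fun l _ => ?_)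
    congr 1
    rw [List.map_cons]
    show ((c ++ (e ++ l)).drop P).take e.length ::
      prt P (E.map List.length) ((c ++ (e ++ l)).drop (P + e.length)) = _
    have h1 : (c ++ (e ++ l)).drop P = e ++ l := by
      rw [← hc, List.drop_left]
    have h2 : (c ++ (e ++ l)).drop (P + e.length) = l := by
      rw [← List.drop_drop, h1, List.drop_left]
    rw [h1, h2, List.take_left]

end EE1

end Pool.Agent.RST
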