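import Mathlib
import Pool.Agent.Lib_helper42.RST.Defs
import Pool.Agent.Lib_helper42.RST.Stmt
import Pool.Agent.Lib_helper42.RSTF.Base

/- block EX1 proved by helper50 -/

set_option autoImplicit false

open Finset

namespace Pool.Agent.RST

section EX1
variable {Θ : Type} [Fintype Θ] (v : Θ → ℝ) {ι : Type} [Fintype ι] [DecidableEq ι]

theorem EX_mono (h0 : ∀ t, 0 ≤ v t) (F G : (ι → Θ) → ℝ) (h : ∀ θ, F θ ≤ G θ) :
    EX v F ≤ EX v G := by
  unfold EX
  exact Finset.sum_le_sum (fun θ _ =>
    mul_le_mul_of_nonneg_left (h θ) (Finset.prod_nonneg (fun i _ => h0 _)))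

/-- a product of functions of distinct coordinates -/
theorem EX_prod (f : ι → Θ → ℝ) : EX v (fun θ => ∏ i, f i (θ i)) = ∏ i, ∑ t, v t * f i t := by
  unfold EX
  rw [Finset.prod_univ_sum, Fintype.piFinset_univ]
  refine Finset.sum_congr rfl (fun θ _ => ?_)
  rw [Finset.prod_mul_distrib]

theorem EX_add (F G : (ι → Θ) → ℝ) : EX v (fun θ => F θ + G θ) = EX v F + EX v G := by
  unfold EX
  rw [← Finset.sum_add_distrib]
  exact Finset.sum_congr rfl (fun θ _ => by ring)

theorem EX_smul (c : ℝ) (F : (ι → Θ) → ℝ) : EX v (fun θ => c * F θ) = c * EX v F := by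
  unfold EX
  rw [Finset.mul_sum]
  exact Finset.sum_congr rfl (fun θ _ => by ring)

theorem EX_sum {κ : Type} (S : Finset κ) (F : κ → (ι → Θ) → ℝ) :
    EX v (fun θ => ∑ i ∈ S, F i θ) = ∑ i ∈ S, EX v (F i) := by
  unfold EX
  rw [Finset.sum_comm]
  exact Finset.sum_congr rfl (fun θ _ => by rw [Finset.mul_sum])

theorem EX_const (h1 : ∑ t, v t = 1) (c : ℝ) : EX (ι := ι) v (fun _ => c) = c := by
  have h := EX_prod v (ι := ι) (fun _ _ => (1 : ℝ))
  simp only [Finset.prod_const_one, mul_one, h1] at h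
  have h2 := EX_smul v (ι := ι) c (fun _ => (1 : ℝ))
  simp only [mul_one] at h2
  rw [h2, h, mul_one]

theorem EX_coord (h1 : ∑ t, v t = 1) (i : ι) (f : Θ → ℝ) :
    EX v (fun θ : ι → Θ => f (θ i)) = ∑ t, v t * f t := by
  have h := EX_prod v (ι := ι) (fun j t => if j = i then f t else 1)
  have e1 : (fun θ : ι → Θ => ∏ j, (if j = i then f (θ j) else 1)) = fun θ => f (θ i) := by
    funext θ
    rw [Finset.prod_eq_single i]
    · simp
    · intro b _ hb; simp [hb]
    · intro h; exact absurd (Finset.mem_univ i) h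
  rw [e1] at h
  rw [h, Finset.prod_eq_single i]
  · simp
  · intro b _ hb; simp [hb, h1]
  · intro h; exact absurd (Finset.mem_univ i) h

theorem EX_coord2 (h1 : ∑ t, v t = 1) (i j : ι) (hij : i ≠ j) (f : Θ → Θ → ℝ) :
    EX v (fun θ : ι → Θ => f (θ i) (θ j)) = ∑ t, v t * ∑ t', v t' * f t t' := by
  classical
  have e1 : (fun θ : ι → Θ => f (θ i) (θ j)) = fun θ => ∑ c, (∏ k, (if k = i then
      (if θ k = c then (1 : ℝ) else 0) else if k = j then f c (θ k) else 1)) := by
    funext θ
    have h : ∀ c, (∏ k, (if k = i then (if θ k = c then (1 : ℝ) else 0)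
        else if k = j then f c (θ k) else 1)) =
        (if θ i = c then (1 : ℝ) else 0) * f c (θ j) := by
      intro c
      rw [← Finset.prod_subset (Finset.subset_univ {i, j}), Finset.prod_pair hij]
      · simp [hij.symm]
      · intro k _ hk
        simp only [Finset.mem_insert, Finset.mem_singleton, not_or] at hk
        simp [hk.1, hk.2]
    simp only [h]
    rw [Finset.sum_eq_single (θ i)]
    · simp
    · intro b _ hb; simp [Ne.symm hb]
    · intro h; exact absurd (Finset.mem_univ _) h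
  rw [e1, EX_sum]
  refine Finset.sum_congr rfl (fun c _ => ?_)
  have h := EX_prod v (ι := ι) (fun k t => if k = i then (if t = c then (1 : ℝ) else 0)
    else if k = j then f c t else 1)
  rw [h, ← Finset.prod_subset (Finset.subset_univ {i, j}), Finset.prod_pair hij]
  · simp [hij.symm]
  · intro k _ hk
    simp only [Finset.mem_insert, Finset.mem_singleton, not_or] at hk
    simp [hk.1, hk.2, h1]

theorem EX_comm {Θ' : Type} [Fintype Θ'] (v' : Θ' → ℝ) {κ : Type} [Fintype κ] [DecidableEq κ]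
    (F : (ι → Θ) → (κ → Θ') → ℝ) :
    EX v (fun θ => EX v' (fun θ' => F θ θ')) = EX v' (fun θ' => EX v (fun θ => F θ θ')) := by
  unfold EX
  simp only [Finset.mul_sum]
  rw [Finset.sum_comm]
  refine Finset.sum_congr rfl (fun θ _ => Finset.sum_congr rfl (fun θ' _ => ?_))
  ring

theorem pw_sum {Ω : Type} [Fintype Ω] (w : Ω → ℝ) (h1 : ∑ T, w T = 1) (m : ℕ) :
    ∑ θ : Fin m → Ω, pw w m θ = 1 := by
  have h := EX_const w (ι := Fin m) h1 1
  unfold EX at h
  simpa [pw] using h

/-- all coordinates miss: product bound -/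
theorem EX_miss (h0 : ∀ t, 0 ≤ v t) (h1 : ∑ t, v t = 1) (p : ι → Θ → Prop) :
    EX v (fun θ : ι → Θ => ind (∀ i, ¬ p i (θ i))) ≤
      Real.exp (-∑ i, ∑ t, v t * ind (p i t)) := by
  classical
  have e1 : (fun θ : ι → Θ => ind (∀ i, ¬ p i (θ i))) = fun θ => ∏ i, ind (¬ p i (θ i)) := by
    funext θ
    by_cases h : ∀ i, ¬ p i (θ i)
    · rw [Finset.prod_eq_one]
      · simp [ind, h]
      · intro i _; simp [ind, h i]
    · have h' := h
      push Not at h'
      obtain ⟨i, hi⟩ := h'
      rw [Finset.prod_eq_zero (Finset.mem_univ i)]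
      · simp only [ind, if_neg h]
      · simp [ind, hi]
  rw [e1, EX_prod v (fun i t => ind (¬ p i t)), ← Finset.sum_neg_distrib, Real.exp_sum]
  refine Finset.prod_le_prod (fun i _ => ?_) (fun i _ => ?_)
  · refine Finset.sum_nonneg (fun t _ => mul_nonneg (h0 t) ?_)
    unfold ind; split_ifs <;> norm_num
  · have e2 : ∑ t, v t * ind (¬ p i t) = 1 - ∑ t, v t * ind (p i t) := by
      rw [← h1, ← Finset.sum_sub_distrib]
      refine Finset.sum_congr rfl (fun t _ => ?_)
      unfold ind
      by_cases h : p i t <;> simp [h]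
    rw [e2]
    have := Real.add_one_le_exp (-∑ t, v t * ind (p i t))
    linarith
end EX1

end Pool.Agent.RST
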