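import Mathlib
import Pool.Agent.Lib_helper42.RST.Defs
import Pool.Agent.Lib_helper42.RST.Stmt
import Pool.Agent.Lib_helper42.RSTF.Base

/- block FB proved by helper24 -/

/-!
# Block FB (helper24): forward and backward columns
-/

set_option autoImplicit false

open Finset

namespace Pool.Agent.RST

section FB
variable {V Ω : Type} [Fintype Ω] [DecidableEq V]

theorem fb_wait (M : Mdl V Ω) (e : List Ω) (x : V) : Wlk M e x x {x} := by
  induction e with
  | nil => exact ⟨rfl, Finset.Subset.refl _⟩
  | cons T e ih => exact ⟨x, {x}, Or.inl rfl, ih, by simp⟩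

theorem fb_mono (M : Mdl V Ω) {l : List Ω} {x y : V} {B B' : Finset V} (h : Wlk M l x y B)
    (hB : B' ⊆ B) : Wlk M l x y B' := by
  cases l with
  | nil => exact ⟨h.1, hB.trans h.2⟩
  | cons T l =>
    obtain ⟨z, B1, h1, h2, h3⟩ := h
    exact ⟨z, B1, h1, h2, hB.trans h3⟩

theorem fb_cross (M : Mdl V Ω) (e : List Ω) (b : ℕ) (T : Ω) (hT : e[b]? = some T) (u v : V)
    (h : Stp M T u v) : Wlk M e u v {u, v} := by
  induction e generalizing b with
  | nil => simp at hT
  | cons T0 e ih =>
    cases b with
    | zero =>
      have h0 : T0 = T := by simpa using hT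
      subst h0
      exact ⟨v, {v}, h, fb_wait M e v, Finset.Subset.refl _⟩
    | succ b =>
      refine ⟨u, {u, v}, Or.inl rfl, ih b (by simpa using hT), by simp⟩

theorem fb_cross2 (M : Mdl V Ω) (e : List Ω) (i j : ℕ) (hij : i < j) (T T' : Ω)
    (hT : e[i]? = some T) (hT' : e[j]? = some T') (u v w : V)
    (h : Stp M T u v) (h' : Stp M T' v w) : Wlk M e u w ∅ := by
  induction e generalizing i j with
  | nil => simp at hT
  | cons T0 e ih =>
    cases i with
    | zero =>
      have h0 : T0 = T := by simpa using hT
      subst h0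
      cases j with
      | zero => exact absurd hij (lt_irrefl _)
      | succ j =>
        exact ⟨v, {v, w}, h, fb_cross M e j T' (by simpa using hT') v w h',
          Finset.empty_subset _⟩
    | succ i =>
      cases j with
      | zero => exact absurd hij (Nat.not_lt_zero _)
      | succ j =>
        exact ⟨u, ∅, Or.inl rfl, ih i j (Nat.lt_of_succ_lt_succ hij) (by simpa using hT)
          (by simpa using hT'), Finset.empty_subset _⟩

theorem fb_col_cons (e : List Ω) (E : List (List Ω)) (b : ℕ) (hb : b < e.length) :
    col (e :: E) b = e[b] :: col E b := by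
  unfold col
  rw [List.filterMap_cons, List.getElem?_eq_getElem hb]

theorem fb_col_snoc (e : List Ω) (E : List (List Ω)) (b : ℕ) (hb : b < e.length) :
    col (E ++ [e]) b = col E b ++ [e[b]] := by
  unfold col
  rw [List.filterMap_append, List.filterMap_cons, List.getElem?_eq_getElem hb]
  rfl

theorem fb_col_length (E : List (List Ω)) (q b : ℕ) (hE : ∀ e ∈ E, e.length = q) (hb : b < q) :
    (col E b).length = E.length := by
  induction E with
  | nil => rfl
  | cons e E ih =>
    have he : e.length = q := hE e (List.mem_cons_self ..)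
    rw [fb_col_cons e E b (he ▸ hb), List.length_cons, List.length_cons,
      ih (fun e' h' => hE e' (List.mem_cons_of_mem _ h'))]

theorem fb_stay (M : Mdl V Ω) (pc : V → V) (E : List (List Ω)) (x : V) : PW M pc E x x ∅ := by
  induction E with
  | nil => exact ⟨rfl, rfl⟩
  | cons e E ih => exact ⟨x, x, {x}, ∅, rfl, fb_wait M e x, ih, Finset.empty_subset _⟩

theorem fwd {M : Mdl V Ω} {pc : V → V} {a : Ω → V → V} (he : Ext M pc a) (E : List (List Ω))
    (q b : ℕ) (hE : ∀ e ∈ E, e.length = q) (hb : b < q) (j : ℕ) (hj : j ≤ E.length) (x : V) :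
    PW M pc E x (ch a ((col E b).take j) x) (ents a ((col E b).take j) x) := by
  induction E generalizing j x with
  | nil =>
    have hj0 : j = 0 := by simpa using hj
    subst hj0
    exact ⟨rfl, rfl⟩
  | cons e E ih =>
    have hel : e.length = q := hE e (List.mem_cons_self ..)
    have hbe : b < e.length := hel ▸ hb
    cases j with
    | zero =>
      rw [List.take_zero]
      exact fb_stay M pc (e :: E) x
    | succ j =>
      rw [fb_col_cons e E b hbe, List.take_succ_cons]
      obtain ⟨u, hu1, hu2⟩ := he.edge e[b] x
      refine ⟨u, a e[b] x, {u, a e[b] x}, _, hu1,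
        fb_cross M e b e[b] (List.getElem?_eq_getElem hbe) u _ (Or.inr hu2),
        ih (fun e' h' => hE e' (List.mem_cons_of_mem _ h')) j (by simpa using hj) (a e[b] x), ?_⟩
      intro y hy
      rcases Finset.mem_insert.1 hy with h | h
      · exact Finset.mem_union_left _ (by simp [h])
      · exact Finset.mem_union_right _ h

theorem fb_ch_append (a : Ω → V → V) (k1 k2 : List Ω) (z : V) :
    ch a (k1 ++ k2) z = ch a k2 (ch a k1 z) := by
  induction k1 generalizing z with
  | nil => rfl
  | cons T k1 ih => exact ih (a T z)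

theorem bwd {M : Mdl V Ω} {pc : V → V} {a : Ω → V → V} (he : Ext M pc a) (E : List (List Ω))
    (q b : ℕ) (hE : ∀ e ∈ E, e.length = q) (hb : b < q) (j : ℕ) (hj1 : 1 ≤ j)
    (hj : j ≤ E.length) (x : V) (Wt : Set V)
    (hN : ∀ T, (col E.reverse b).head? = some T → ∃ u ∈ Wt, Stp M T (a T x) u) (z : V)
    (hz : pc z = pc (ch a ((col E.reverse b).take j) x)) :
    ∃ u ∈ Wt, PW M pc E z u ∅ := by
  induction E generalizing j z with
  | nil =>
    simp at hj
    omega
  | cons e E ih =>
    have hel : e.length = q := hE e (List.mem_cons_self ..)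
    have hbe : b < e.length := hel ▸ hb
    have hE' : ∀ e' ∈ E, e'.length = q := fun e' h' => hE e' (List.mem_cons_of_mem _ h')
    have hcol : col (e :: E).reverse b = col E.reverse b ++ [e[b]] := by
      rw [List.reverse_cons, fb_col_snoc e E.reverse b hbe]
    have hlen : (col E.reverse b).length = E.length := by
      rw [fb_col_length E.reverse q b (fun e' h' => hE' e' (List.mem_reverse.1 h')) hb,
        List.length_reverse]
    have hhead : E ≠ [] → (col (e :: E).reverse b).head? = (col E.reverse b).head? := by
      intro hne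
      rw [hcol]
      have h1 : col E.reverse b ≠ [] := by
        intro h2
        rw [h2] at hlen
        exact hne (List.length_eq_zero_iff.1 hlen.symm)
      rw [List.head?_append_of_ne_nil _ h1]
    by_cases hjE : j ≤ E.length
    · have hne : E ≠ [] := by
        intro h
        rw [h] at hjE
        simp at hjE
        omega
      have h1 : (col (e :: E).reverse b).take j = (col E.reverse b).take j := by
        rw [hcol, List.take_append_of_le_length (by rw [hlen]; exact hjE)]
      rw [h1] at hz
      obtain ⟨u, hu, hPW⟩ := ih hE' j hj1 hjE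
        (fun T hT => hN T (by rw [hhead hne]; exact hT)) z hz
      exact ⟨u, hu, z, z, {z}, ∅, rfl, fb_wait M e z, hPW, Finset.empty_subset _⟩
    · have hj2 : j = E.length + 1 := by
        have : j ≤ E.length + 1 := by simpa using hj
        omega
      have h1 : (col (e :: E).reverse b).take j = col E.reverse b ++ [e[b]] := by
        rw [hcol]
        refine List.take_of_length_le ?_
        rw [List.length_append, hlen, hj2]
        simp
      rw [h1, fb_ch_append] at hz
      by_cases hne : E = []
      · subst hne
        have h2 : col ([] : List (List Ω)).reverse b = [] := rfl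
        rw [h2] at hz
        obtain ⟨u, hu, hst⟩ := hN e[b] (by rw [hcol, h2]; rfl)
        refine ⟨u, hu, a e[b] x, u, {a e[b] x, u}, ∅, hz.symm,
          fb_cross M e b e[b] (List.getElem?_eq_getElem hbe) _ _ hst, ⟨rfl, rfl⟩,
          Finset.empty_subset _⟩
      · set y := ch a (col E.reverse b) x with hy
        obtain ⟨u', hu1, hu2⟩ := he.edge e[b] y
        have hE1 : 1 ≤ E.length := Nat.one_le_iff_ne_zero.2
          (fun h => hne (List.length_eq_zero_iff.1 h))
        have hz' : pc u' = pc (ch a ((col E.reverse b).take E.length) x) := by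
          rw [List.take_of_length_le (by rw [hlen])]
          exact hu1
        obtain ⟨u, hu, hPW⟩ := ih hE' E.length hE1 le_rfl
          (fun T hT => hN T (by rw [hhead hne]; exact hT)) u' hz'
        refine ⟨u, hu, a e[b] y, u', {a e[b] y, u'}, ∅, hz.symm,
          fb_cross M e b e[b] (List.getElem?_eq_getElem hbe) _ _ (Or.inr hu2.symm), hPW,
          Finset.empty_subset _⟩

/-- a repeat: if the walker waits in the piece of `z`, sees `T i` and `T j`, `i < j`, with the same
exit `y` of `z`, and the piece of `u` exits at `y` in `T j`, then it can go to (the piece of) `u` -/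
theorem rep_walk {M : Mdl V Ω} {pc : V → V} {a : Ω → V → V} (he : Ext M pc a) (e : List Ω)
    (i j : ℕ) (hij : i < j) (Ti Tj : Ω) (hi : e[i]? = some Ti) (hj : e[j]? = some Tj) (z u : V)
    (h1 : a Ti z = a Tj z) (h2 : a Tj u = a Tj z) :
    PW M pc [e] z u ∅ := by
  obtain ⟨u0, hu0, hadj0⟩ := he.edge Ti z
  obtain ⟨u1, hu1, hadj1⟩ := he.edge Tj u
  rw [h2, ← h1] at hadj1
  exact ⟨u0, u1, ∅, ∅, hu0, fb_cross2 M e i j hij Ti Tj hi hj u0 (a Ti z) u1 (Or.inr hadj0)
    (Or.inr hadj1.symm), ⟨hu1, rfl⟩, Finset.empty_subset _⟩

end FB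

end Pool.Agent.RST
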