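import Mathlib
import Pool.Agent.Lib_helper42.RST.Defs
import Pool.Agent.Lib_helper42.RST.Stmt
import Pool.Agent.Lib_helper42.RSTF.Base
import Pool.Agent.Lib_helper42.RSTF.EL1

/- block GLW proved by helper24 -/

/-!
# Block GLW (helper24): laws of the chain
-/

set_option autoImplicit false

open Finset

namespace Pool.Agent.RST

section GLW
variable {V Ω : Type} [Fintype Ω] [Fintype V] [DecidableEq V] (M : Mdl V Ω) (a : Ω → V → V)

theorem ch_append (k1 k2 : List Ω) (z : V) : ch a (k1 ++ k2) z = ch a k2 (ch a k1 z) := by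
  induction k1 generalizing z with
  | nil => rfl
  | cons T k1 ih => exact ih (a T z)

theorem gl_nonneg (x : V) (l : ℕ) (y : V) : 0 ≤ gl M a x l y :=
  EL_nonneg M.w M.w0 l _ (fun _ _ => ind_nonneg _)

theorem glw_sum_ind (f : V → ℝ) (z : V) : ∑ y, ind (z = y) * f y = f z := by
  rw [Finset.sum_eq_single z]
  · rw [ind_true rfl, one_mul]
  · intro y _ hy
    rw [ind_false (fun h => hy h.symm), zero_mul]
  · intro h
    exact absurd (Finset.mem_univ z) h

theorem EL_ch (x : V) (l : ℕ) (f : V → ℝ) :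
    EL M.w l (fun k => f (ch a k x)) = ∑ y, gl M a x l y * f y := by
  have h1 : EL M.w l (fun k => f (ch a k x)) =
      EL M.w l (fun k => ∑ y ∈ (Finset.univ : Finset V), f y * ind (ch a k x = y)) := by
    refine EL_congr M.w l _ _ (fun k _ => ?_)
    rw [← glw_sum_ind f (ch a k x)]
    exact Finset.sum_congr rfl fun y _ => mul_comm _ _
  rw [h1, EL_sum]
  refine Finset.sum_congr rfl fun y _ => ?_
  rw [EL_smul, mul_comm]
  rfl

theorem gl_sum (x : V) (l : ℕ) : ∑ y, gl M a x l y = 1 := by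
  have h := EL_ch M a x l (fun _ => 1)
  rw [EL_const M.w M.w1] at h
  rw [h]
  exact Finset.sum_congr rfl fun y _ => (mul_one _).symm

theorem gl_succ (x : V) (l : ℕ) (y : V) :
    gl M a x (l + 1) y = ∑ z, gl M a x l z * P1 M (fun T => a T z = y) := by
  rw [← EL_ch M a x l (fun z => P1 M (fun T => a T z = y))]
  unfold gl
  rw [EL_append]
  refine EL_congr M.w l _ _ (fun k _ => ?_)
  rw [EL_one]
  unfold P1
  refine Finset.sum_congr rfl fun T _ => ?_
  rw [ch_append]
  rfl

theorem gl_col (x : V) (m j : ℕ) (hj : j ≤ m) (y : V) :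
    ∑ θ : Fin m → Ω, pw M.w m θ * ind (ch a ((List.ofFn θ).take j) x = y) = gl M a x j y := by
  have h1 : ∑ θ : Fin m → Ω, pw M.w m θ * ind (ch a ((List.ofFn θ).take j) x = y) =
      EL M.w m (fun k => ind (ch a (k.take j) x = y)) := by
    rw [EL_eq_EX]
    rfl
  obtain ⟨r, rfl⟩ := Nat.exists_eq_add_of_le hj
  rw [h1, EL_append]
  refine EL_congr M.w j _ _ (fun k hk => ?_)
  have h2 : EL M.w r (fun l2 => ind (ch a ((k ++ l2).take j) x = y)) =
      EL M.w r (fun _ => ind (ch a k x = y)) := by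
    refine EL_congr M.w r _ _ (fun l2 _ => ?_)
    rw [← hk, List.take_left]
  rw [h2, EL_const M.w M.w1]

theorem sum_levels (L q : ℕ) (hL : 1 ≤ L) (f : ℕ → ℝ) :
    ∑ b : Fin (L * q), f ((b : ℕ) % L + 1) = q * ∑ l ∈ range L, f (l + 1) := by
  rw [Fin.sum_univ_eq_sum_range (fun b => f (b % L + 1)) (L * q)]
  induction q with
  | zero => simp
  | succ q ih =>
    rw [Nat.mul_succ, Finset.sum_range_add, ih]
    have h : ∑ x ∈ range L, f ((L * q + x) % L + 1) = ∑ l ∈ range L, f (l + 1) := by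
      refine Finset.sum_congr rfl fun l hl => ?_
      rw [Nat.mul_add_mod, Nat.mod_eq_of_lt (Finset.mem_range.1 hl)]
    rw [h]
    push_cast
    ring

theorem etaH_nonneg (L : ℕ) (x y : V) : 0 ≤ etaH M a L x y :=
  div_nonneg (Finset.sum_nonneg fun l _ => gl_nonneg M a x (l + 1) y) (Nat.cast_nonneg L)

theorem etaH_sum (L : ℕ) (hL : 1 ≤ L) (x : V) : ∑ y, etaH M a L x y = 1 := by
  unfold etaH
  rw [← Finset.sum_div, Finset.sum_comm]
  have h : ∑ l ∈ range L, ∑ y, gl M a x (l + 1) y = L := by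
    rw [Finset.sum_congr rfl fun l _ => gl_sum M a x (l + 1)]
    simp
  rw [h]
  have hL' : (L : ℝ) ≠ 0 := by
    have : (1 : ℝ) ≤ L := by exact_mod_cast hL
    linarith
  exact div_self hL'

end GLW

end Pool.Agent.RST
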