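import Mathlib
import Pool.Agent.Lib_helper42.RST.Defs
import Pool.Agent.Lib_helper42.RST.Stmt
import Pool.Agent.Lib_helper42.RSTF.Base

/- block RW proved by helper77 -/

/-! # Block RW -/

set_option autoImplicit false

open Finset

namespace Pool.Agent.RST

section RW
variable {V Ω : Type} [Fintype Ω] (M : Mdl V Ω)

theorem rw_stp_symm (T : Ω) (x z : V) : Stp M T x z ↔ Stp M T z x := by
  unfold Stp
  constructor
  · rintro (h | h)
    · exact Or.inl h.symm
    · exact Or.inr h.symm
  · rintro (h | h)
    · exact Or.inl h.symm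
    · exact Or.inr h.symm

theorem Reach_append (l1 l2 : List Ω) (x z : V) :
    Reach M (l1 ++ l2) x z ↔ ∃ y, Reach M l1 x y ∧ Reach M l2 y z := by
  induction l1 generalizing x with
  | nil =>
    constructor
    · intro h
      exact ⟨x, rfl, h⟩
    · rintro ⟨y, rfl, h⟩
      exact h
  | cons T l ih =>
    change (∃ u, Stp M T x u ∧ Reach M (l ++ l2) u z) ↔
      ∃ y, (∃ u, Stp M T x u ∧ Reach M l u y) ∧ Reach M l2 y z
    constructor
    · rintro ⟨u, h1, h2⟩
      obtain ⟨y, h3, h4⟩ := (ih u).1 h2
      exact ⟨y, ⟨u, h1, h3⟩, h4⟩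
    · rintro ⟨y, ⟨u, h1, h3⟩, h4⟩
      exact ⟨u, h1, (ih u).2 ⟨y, h3, h4⟩⟩

theorem Reach_refl (l : List Ω) (x : V) : Reach M l x x := by
  induction l with
  | nil => exact rfl
  | cons T l ih => exact ⟨x, Or.inl rfl, ih⟩

theorem Reach_reverse (l : List Ω) (x y : V) : Reach M l.reverse y x ↔ Reach M l x y := by
  induction l generalizing x with
  | nil => exact eq_comm
  | cons T l ih =>
    rw [List.reverse_cons, Reach_append]
    change (∃ z, Reach M l.reverse y z ∧ ∃ u, Stp M T z u ∧ u = x) ↔
      ∃ z, Stp M T x z ∧ Reach M l z y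
    constructor
    · rintro ⟨z, h1, u, h2, rfl⟩
      exact ⟨z, (rw_stp_symm M T u z).2 h2, (ih z).1 h1⟩
    · rintro ⟨z, h1, h2⟩
      exact ⟨z, (ih z).2 h2, x, (rw_stp_symm M T x z).1 h1, rfl⟩

theorem Reach_full [Fintype V] (l : List Ω) (h : Fintype.card V ≤ l.length + 1) (x y : V) :
    Reach M l x y := by
  classical
  have key : ∀ l : List Ω, min (l.length + 1) (Fintype.card V) ≤
      (univ.filter (fun y => Reach M l x y)).card := by
    intro l
    induction l using List.reverseRecOn with
    | nil =>
      have : 0 < (univ.filter (fun y => Reach M [] x y)).card := by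
        apply Finset.card_pos.2
        exact ⟨x, Finset.mem_filter.2 ⟨Finset.mem_univ _, rfl⟩⟩
      simp only [List.length_nil, zero_add]
      exact (min_le_left _ _).trans this
    | append_singleton l T ih =>
      have hsub : univ.filter (fun y => Reach M l x y) ⊆
          univ.filter (fun y => Reach M (l ++ [T]) x y) := by
        intro z hz
        rw [Finset.mem_filter] at hz ⊢
        exact ⟨hz.1, (Reach_append M l [T] x z).2 ⟨z, hz.2, z, Or.inl rfl, rfl⟩⟩
      by_cases hall : ∀ z, Reach M l x z
      · have e : univ.filter (fun y => Reach M (l ++ [T]) x y) = univ := by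
          apply Finset.eq_univ_of_forall
          intro z
          exact hsub (Finset.mem_filter.2 ⟨Finset.mem_univ _, hall z⟩)
        rw [e, Finset.card_univ]
        exact min_le_right _ _
      · push Not at hall
        obtain ⟨z, hz⟩ := hall
        obtain ⟨p⟩ := (M.conn T).preconnected x z
        obtain ⟨d, _, hd1, hd2⟩ := p.exists_boundary_dart {y | Reach M l x y}
          (Reach_refl M l x) hz
        have hlt : (univ.filter (fun y => Reach M l x y)).card <
            (univ.filter (fun y => Reach M (l ++ [T]) x y)).card := by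
          apply Finset.card_lt_card
          rw [Finset.ssubset_iff_of_subset hsub]
          refine ⟨d.snd, ?_, ?_⟩
          · rw [Finset.mem_filter]
            exact ⟨Finset.mem_univ _, (Reach_append M l [T] x d.snd).2
              ⟨d.fst, hd1, d.snd, Or.inr d.adj, rfl⟩⟩
          · rw [Finset.mem_filter]
            intro hh
            exact hd2 hh.2
        rw [List.length_append, List.length_singleton]
        have : min (l.length + 1 + 1) (Fintype.card V) ≤ min (l.length + 1) (Fintype.card V) + 1 := by
          omega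
        omega
  have h1 := key l
  have h2 : min (l.length + 1) (Fintype.card V) = Fintype.card V := by omega
  rw [h2] at h1
  have h3 : univ.filter (fun y => Reach M l x y) = univ := by
    rw [← Finset.card_eq_iff_eq_univ]
    exact le_antisymm (Finset.card_le_univ _) h1
  have h4 := Finset.mem_univ y
  rw [← h3, Finset.mem_filter] at h4
  exact h4.2

variable [DecidableEq V]

theorem Wlk_mono {l : List Ω} {x y : V} {B B' : Finset V} (h : Wlk M l x y B) (hB : B' ⊆ B) :
    Wlk M l x y B' := by
  cases l with
  | nil => exact ⟨h.1, hB.trans h.2⟩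
  | cons T l =>
    obtain ⟨z, C, h1, h2, h3⟩ := h
    exact ⟨z, C, h1, h2, hB.trans h3⟩

theorem rw_start {l : List Ω} {x y : V} {B : Finset V} (h : Wlk M l x y B) :
    Wlk M l x y (insert x B) := by
  cases l with
  | nil =>
    refine ⟨h.1, ?_⟩
    intro z hz
    rcases Finset.mem_insert.1 hz with h1 | h1
    · rw [h1]; exact Finset.mem_singleton_self _
    · exact h.2 h1
  | cons T l =>
    obtain ⟨z, C, h1, h2, h3⟩ := h
    refine ⟨z, C, h1, h2, ?_⟩
    intro u hu
    rcases Finset.mem_insert.1 hu with h4 | h4
    · rw [h4]; exact Finset.mem_insert_self _ _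
    · exact h3 h4

theorem Wlk_append {l1 l2 : List Ω} {x y z : V} {B1 B2 : Finset V} (h1 : Wlk M l1 x y B1)
    (h2 : Wlk M l2 y z B2) : Wlk M (l1 ++ l2) x z (B1 ∪ B2) := by
  induction l1 generalizing x B1 with
  | nil =>
    obtain ⟨rfl, hB⟩ := h1
    apply Wlk_mono M (rw_start M h2)
    intro u hu
    rcases Finset.mem_union.1 hu with h | h
    · rw [Finset.mem_singleton.1 (hB h)]
      exact Finset.mem_insert_self _ _
    · exact Finset.mem_insert_of_mem h
  | cons T l ih =>
    obtain ⟨u, C, h3, h4, h5⟩ := h1
    refine ⟨u, C ∪ B2, h3, ih h4, ?_⟩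
    intro a ha
    rcases Finset.mem_union.1 ha with h | h
    · rcases Finset.mem_insert.1 (h5 h) with h6 | h6
      · rw [h6]; exact Finset.mem_insert_self _ _
      · exact Finset.mem_insert_of_mem (Finset.mem_union_left _ h6)
    · exact Finset.mem_insert_of_mem (Finset.mem_union_right _ h)

theorem Wlk_ends {l : List Ω} {x y : V} {B : Finset V} (h : Wlk M l x y B) :
    Wlk M l x y (insert x (insert y B)) := by
  induction l generalizing x B with
  | nil =>
    obtain ⟨rfl, hB⟩ := h
    refine ⟨rfl, ?_⟩
    intro u hu
    rcases Finset.mem_insert.1 hu with h | h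
    · rw [h]; exact Finset.mem_singleton_self _
    · rcases Finset.mem_insert.1 h with h | h
      · rw [h]; exact Finset.mem_singleton_self _
      · exact hB h
  | cons T l ih =>
    obtain ⟨u, C, h3, h4, h5⟩ := h
    refine ⟨u, insert u (insert y C), h3, ih h4, ?_⟩
    intro a ha
    rcases Finset.mem_insert.1 ha with h | h
    · rw [h]; exact Finset.mem_insert_self _ _
    · rcases Finset.mem_insert.1 h with h | h
      · rw [h]
        exact Finset.mem_insert_of_mem (Finset.mem_insert_of_mem (Finset.mem_insert_self _ _))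
      · rcases Finset.mem_insert.1 (h5 h) with h6 | h6
        · rw [h6]; exact Finset.mem_insert_self _ _
        · exact Finset.mem_insert_of_mem (Finset.mem_insert_of_mem (Finset.mem_insert_of_mem h6))

theorem Reach_iff_Wlk (l : List Ω) (x y : V) : Reach M l x y ↔ Wlk M l x y ∅ := by
  induction l generalizing x with
  | nil =>
    constructor
    · intro h
      exact ⟨h, Finset.empty_subset _⟩
    · intro h
      exact h.1
  | cons T l ih =>
    constructor
    · rintro ⟨z, h1, h2⟩
      exact ⟨z, ∅, h1, (ih z).1 h2, Finset.empty_subset _⟩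
    · rintro ⟨z, C, h1, h2, _⟩
      exact ⟨z, h1, (ih z).2 (Wlk_mono M h2 (Finset.empty_subset _))⟩

end RW

end Pool.Agent.RST
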