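import Mathlib
import Pool.Agent.Lib_helper42.RST.Defs
import Pool.Agent.Lib_helper42.RST.Stmt
import Pool.Agent.Lib_helper42.RSTF.Base
import Pool.Agent.Lib_helper42.RSTF.EL1
import Pool.Agent.Lib_helper42.RSTF.RW

/- block PR proved by helper77 -/

/-! # Block PR -/

set_option autoImplicit false

open Finset

namespace Pool.Agent.RST

section PR
variable {V Ω : Type} [Fintype Ω] (M : Mdl V Ω)

theorem pr_nonneg (s : ℕ) (x : V) (W : Set V) : 0 ≤ pr M s x W :=
  EL_nonneg M.w M.w0 s _ fun _ _ => ind_nonneg _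

theorem pr_le_one (s : ℕ) (x : V) (W : Set V) : pr M s x W ≤ 1 := by
  have h := EL_mono M.w M.w0 s (fun l => ind (∃ y ∈ W, Reach M l x y)) (fun _ => 1)
    fun _ _ => ind_le_one _
  rw [EL_const M.w M.w1] at h
  exact h

theorem pr_mono {s t : ℕ} (h : s ≤ t) (x : V) (W : Set V) : pr M s x W ≤ pr M t x W := by
  obtain ⟨d, rfl⟩ := Nat.exists_eq_add_of_le h
  unfold pr
  rw [EL_append]
  apply EL_mono M.w M.w0
  intro l1 _
  have h1 := EL_mono M.w M.w0 d (fun _ => ind (∃ y ∈ W, Reach M l1 x y))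
    (fun l2 => ind (∃ y ∈ W, Reach M (l1 ++ l2) x y)) ?_
  · rw [EL_const M.w M.w1] at h1
    exact h1
  · intro l2 _
    apply ind_mono
    rintro ⟨y, hy, hr⟩
    exact ⟨y, hy, (Reach_append M l1 l2 x y).2 ⟨y, hr, Reach_refl M l2 y⟩⟩

theorem pr_subset (s : ℕ) (x : V) {W W' : Set V} (h : W ⊆ W') :
    pr M s x W ≤ pr M s x W' := by
  apply EL_mono M.w M.w0
  intro l _
  apply ind_mono
  rintro ⟨y, hy, hr⟩
  exact ⟨y, h hy, hr⟩

theorem pr_symm (s : ℕ) (x y : V) : pr M s x {y} = pr M s y {x} := by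
  unfold pr
  rw [← EL_reverse M.w s (fun l => ind (∃ z ∈ ({x} : Set V), Reach M l y z))]
  apply EL_congr
  intro l _
  have h : (∃ z ∈ ({y} : Set V), Reach M l x z) ↔ ∃ z ∈ ({x} : Set V), Reach M l.reverse y z := by
    constructor
    · rintro ⟨z, rfl, h⟩
      exact ⟨x, rfl, (Reach_reverse M l x z).2 h⟩
    · rintro ⟨z, rfl, h⟩
      exact ⟨y, rfl, (Reach_reverse M l z y).1 h⟩
  rw [h]

theorem pr_mul (s t : ℕ) (x y : V) (W : Set V) :
    pr M s x {y} * pr M t y W ≤ pr M (s + t) x W := by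
  have e : pr M s x {y} * pr M t y W =
      EL M.w s (fun l1 => EL M.w t (fun l2 => ind (∃ z ∈ ({y} : Set V), Reach M l1 x z) *
        ind (∃ z ∈ W, Reach M l2 y z))) := by
    rw [mul_comm]
    unfold pr
    rw [← EL_smul]
    apply EL_congr
    intro l1 _
    rw [EL_smul, mul_comm]
  rw [e]
  unfold pr
  rw [EL_append]
  apply EL_mono M.w M.w0
  intro l1 _
  apply EL_mono M.w M.w0
  intro l2 _
  by_cases h1 : ∃ z ∈ ({y} : Set V), Reach M l1 x z
  · rw [ind_true h1, one_mul]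
    apply ind_mono
    rintro ⟨z, hz, hr⟩
    obtain ⟨u, rfl, hu⟩ := h1
    exact ⟨z, hz, (Reach_append M l1 l2 x z).2 ⟨u, hu, hr⟩⟩
  · rw [ind_false h1, zero_mul]
    exact ind_nonneg _

theorem pr_self (s : ℕ) (x : V) (W : Set V) (h : x ∈ W) : pr M s x W = 1 := by
  unfold pr
  rw [← EL_const M.w M.w1 s 1]
  apply EL_congr
  intro l _
  exact ind_true ⟨x, h, Reach_refl M l x⟩

end PR

end Pool.Agent.RST
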