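import Mathlib
import Pool.Agent.Lib_helper42.RST.Defs
import Pool.Agent.Lib_helper42.RST.Stmt
import Pool.Agent.Lib_helper42.RSTF.Base
import Pool.Agent.Lib_helper42.RSTF.EE1
import Pool.Agent.Lib_helper42.RSTF.EL1
import Pool.Agent.Lib_helper42.RSTF.PR
import Pool.Agent.Lib_helper42.RSTF.RW

/- block LIFT proved by helper24 -/

/-!
# Block LIFT (helper24): from piece walks to walks
-/

set_option autoImplicit false

open Finset

namespace Pool.Agent.RST

section LIFT
variable {V Ω : Type} [Fintype Ω] [Fintype V] [DecidableEq V]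

theorem lift_start (M : Mdl V Ω) (pc : V → V) {E : List (List Ω)} {x x' y : V}
    {B : Finset V} (h : PW M pc E x y B) (hx : pc x = pc x') : PW M pc E x' y B := by
  cases E with
  | nil => exact ⟨hx.symm.trans h.1, h.2⟩
  | cons e E =>
    obtain ⟨u, v, B1, B2, h1, h2, h3, h4⟩ := h
    exact ⟨u, v, B1, B2, h1.trans hx, h2, h3, h4⟩

theorem PW_mono (M : Mdl V Ω) (pc : V → V) {E : List (List Ω)} {x y : V}
    {B B' : Finset V} (h : PW M pc E x y B) (hB : B' ⊆ B) : PW M pc E x y B' := by
  cases E with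
  | nil =>
    refine ⟨h.1, ?_⟩
    rw [h.2] at hB
    exact Finset.subset_empty.1 hB
  | cons e E =>
    obtain ⟨u, v, B1, B2, h1, h2, h3, h4⟩ := h
    exact ⟨u, v, B1, B2, h1, h2, h3, hB.trans h4⟩

theorem PW_append (M : Mdl V Ω) (pc : V → V) {E1 E2 : List (List Ω)} {x y y' z : V}
    {B1 B2 : Finset V} (h1 : PW M pc E1 x y B1) (hy : pc y = pc y') (h2 : PW M pc E2 y' z B2) :
    PW M pc (E1 ++ E2) x z (B1 ∪ B2) := by
  induction E1 generalizing x B1 with
  | nil =>
    obtain ⟨h3, h4⟩ := h1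
    rw [h4, Finset.empty_union]
    exact lift_start M pc h2 (hy.symm.trans h3.symm)
  | cons e E ih =>
    obtain ⟨u, v, C1, C2, g1, g2, g3, g4⟩ := h1
    refine ⟨u, v, C1, C2 ∪ B2, g1, g2, ih g3, ?_⟩
    rw [← Finset.union_assoc]
    exact Finset.union_subset_union_left g4

theorem lift_wlk_empty (M : Mdl V Ω) {k : List Ω} {x y : V} {B : Finset V}
    (h : Wlk M k x y B) : Reach M k x y :=
  (Reach_iff_Wlk M k x y).2 (Wlk_mono M h (Finset.empty_subset _))

theorem lift {M : Mdl V Ω} {P W : ℕ} {κ δ : ℝ} (pcs : Pieces M P W κ δ) (hδ : 0 ≤ δ)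
    (E : List (List Ω)) (x y : V) (B : Finset V) (h : PW M pcs.pc E x y B) :
    1 - (E.length + 1) * δ ≤ EP M.w P E (fun k => ind (Wlk M k x y B)) := by
  induction E generalizing x B with
  | nil =>
    obtain ⟨h1, h2⟩ := h
    subst h2
    have h3 := pcs.cover x y h1
    have h4 : pr M P x {y} = EL M.w P (fun k => ind (Wlk M k x y ∅)) := by
      unfold pr
      refine EL_congr M.w P _ _ (fun k _ => ?_)
      congr 1
      refine propext ⟨?_, ?_⟩
      · rintro ⟨y', hy', hr⟩
        rw [Set.mem_singleton_iff.1 hy'] at hr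
        exact (Reach_iff_Wlk M k x y).1 hr
      · intro hw
        exact ⟨y, rfl, (Reach_iff_Wlk M k x y).2 hw⟩
    show 1 - (((([] : List (List Ω)).length : ℕ) : ℝ) + 1) * δ ≤
      EL M.w P (fun k => ind (Wlk M k x y ∅))
    rw [← h4]
    simpa using h3
  | cons e E ih =>
    obtain ⟨u, v, B1, B2, h1, h2, h3, h4⟩ := h
    have hq := ih v B2 h3
    set q := EP M.w P E (fun k => ind (Wlk M k v y B2)) with hqdef
    have hq1 : q ≤ 1 := by
      have h5 := EP_mono M.w M.w0 P E (fun k => ind (Wlk M k v y B2)) (fun _ => (1 : ℝ))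
        (fun k _ => ind_le_one _)
      rwa [EP_const M.w M.w1] at h5
    have hp := pcs.cover x u h1.symm
    have hp1 := pr_le_one M P x {u}
    have hmain : pr M P x {u} * q ≤ EP M.w P (e :: E) (fun k => ind (Wlk M k x y B)) := by
      show _ ≤ EL M.w P (fun c => EP M.w P E (fun l => ind (Wlk M (c ++ (e ++ l)) x y B)))
      have h5 : pr M P x {u} * q =
          EL M.w P (fun c => q * ind (∃ y ∈ ({u} : Set V), Reach M c x y)) := by
        rw [EL_smul, mul_comm]
        rfl
      rw [h5]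
      refine EL_mono M.w M.w0 P _ _ (fun c _ => ?_)
      rw [mul_comm, hqdef, ← EP_smul]
      refine EP_mono M.w M.w0 P E _ _ (fun l _ => ?_)
      by_cases hc : ∃ y ∈ ({u} : Set V), Reach M c x y
      · by_cases hl : Wlk M l v y B2
        · obtain ⟨u', hu', hr⟩ := hc
          rw [Set.mem_singleton_iff.1 hu'] at hr
          have hw := Wlk_append M ((Reach_iff_Wlk M c x u).1 hr) (Wlk_append M h2 hl)
          rw [Finset.empty_union] at hw
          rw [ind_true (Wlk_mono M hw h4)]
          calc ind (∃ y ∈ ({u} : Set V), Reach M c x y) * ind (Wlk M l v y B2) ≤ 1 * 1 :=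
                mul_le_mul (ind_le_one _) (ind_le_one _) (ind_nonneg _) zero_le_one
            _ = 1 := one_mul 1
        · rw [ind_false hl, mul_zero]
          exact ind_nonneg _
      · rw [ind_false hc, zero_mul]
        exact ind_nonneg _
    have h6 : pr M P x {u} + q - 1 ≤ pr M P x {u} * q := by
      nlinarith [mul_nonneg (sub_nonneg.2 hp1) (sub_nonneg.2 hq1)]
    have h7 : (((e :: E).length : ℕ) : ℝ) = (E.length : ℝ) + 1 := by
      rw [List.length_cons]
      push_cast
      ring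
    rw [h7]
    nlinarith [hmain, h6, hp, hq]

theorem lift_stay (M : Mdl V Ω) (k : List Ω) (x : V) : Wlk M k x x ∅ :=
  (Reach_iff_Wlk M k x x).1 (Reach_refl M k x)

/-- windows with payload -/
theorem window {M : Mdl V Ω} {P W : ℕ} {κ δ : ℝ} (pcs : Pieces M P W κ δ) (hδ : 0 ≤ δ)
    (qs : List ℕ) (x : V) (G : List (List Ω) → Prop) (wf : List (List Ω) → V)
    (Bf : List (List Ω) → Finset V)
    (hG : ∀ E, E.map List.length = qs → G E → PW M pcs.pc E x (wf E) (Bf E)) :
    ∃ (y : List Ω → V) (B : List Ω → Finset V),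
      (∀ k, k.length = (qs.length + 1) * P + qs.sum → Wlk M k x (y k) (B k)) ∧
      (∀ k, (y k = x ∧ B k = ∅) ∨
        ∃ E, E.map List.length = qs ∧ G E ∧ y k = wf E ∧ B k = Bf E) ∧
      ∀ (h : V → Finset V → ℝ) (H : ℝ), (∀ v C, 0 ≤ h v C) →
        (∀ E, E.map List.length = qs → G E → h (wf E) (Bf E) ≤ H) → 0 ≤ H →
        EE M.w qs (fun E => ind (G E) * h (wf E) (Bf E)) - H * ((qs.length + 1) * δ) ≤
          EL M.w ((qs.length + 1) * P + qs.sum) (fun k => h (y k) (B k)) := by
  classical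
  let good : List (List Ω) → List Ω → Prop := fun E k =>
    E.map List.length = qs ∧ G E ∧ Wlk M k x (wf E) (Bf E)
  let yf : List (List Ω) → List Ω → V := fun E k => if good E k then wf E else x
  let Bg : List (List Ω) → List Ω → Finset V := fun E k => if good E k then Bf E else ∅
  refine ⟨fun k => yf (prt P qs k) k, fun k => Bg (prt P qs k) k, ?_, ?_, ?_⟩
  · intro k _
    by_cases hg : good (prt P qs k) k
    · simp only [yf, Bg, if_pos hg]
      exact hg.2.2
    · simp only [yf, Bg, if_neg hg]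
      exact lift_stay M k x
  · intro k
    by_cases hg : good (prt P qs k) k
    · right
      refine ⟨prt P qs k, hg.1, hg.2.1, ?_, ?_⟩
      · simp only [yf, if_pos hg]
      · simp only [Bg, if_pos hg]
    · left
      refine ⟨?_, ?_⟩
      · show (if good (prt P qs k) k then wf (prt P qs k) else x) = x
        rw [if_neg hg]
      · show (if good (prt P qs k) k then Bf (prt P qs k) else ∅) = ∅
        rw [if_neg hg]
  · intro h H hh0 hH hH0
    rw [FUB]
    have hδ' : 0 ≤ ((qs.length : ℝ) + 1) * δ := mul_nonneg (by positivity) hδ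
    have h1 : EE M.w qs (fun E => ind (G E) * h (wf E) (Bf E)) - H * ((qs.length + 1) * δ) =
        EE M.w qs (fun E => ind (G E) * h (wf E) (Bf E) + -(H * ((qs.length + 1) * δ))) := by
      rw [EE_add, EE_const M.w M.w1]
      ring
    rw [h1]
    refine EE_mono M.w M.w0 qs _ _ (fun E hE => ?_)
    have h2 : EP M.w P E (fun k => h (yf (prt P qs k) k) (Bg (prt P qs k) k)) =
        EP M.w P E (fun k => h (yf E k) (Bg E k)) := by
      have h3 := EP_prt M.w P E (fun E' k => h (yf E' k) (Bg E' k))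
      rw [hE] at h3
      exact h3
    rw [h2]
    have hlen : E.length = qs.length := by rw [← hE, List.length_map]
    by_cases hGE : G E
    · have h4 := lift pcs hδ E x (wf E) (Bf E) (hG E hE hGE)
      rw [hlen] at h4
      have h5 : h (wf E) (Bf E) * EP M.w P E (fun k => ind (Wlk M k x (wf E) (Bf E))) ≤
          EP M.w P E (fun k => h (yf E k) (Bg E k)) := by
        rw [← EP_smul]
        refine EP_mono M.w M.w0 P E _ _ (fun k _ => ?_)
        by_cases hw : Wlk M k x (wf E) (Bf E)
        · have hg : good E k := ⟨hE, hGE, hw⟩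
          simp only [yf, Bg, if_pos hg]
          rw [ind_true hw, mul_one]
        · rw [ind_false hw, mul_zero]
          exact hh0 _ _
      rw [ind_true hGE, one_mul]
      have h6 := mul_le_mul_of_nonneg_left h4 (hh0 (wf E) (Bf E))
      have h7 := hH E hE hGE
      have h8 : h (wf E) (Bf E) * (((qs.length : ℝ) + 1) * δ) ≤ H * ((qs.length + 1) * δ) :=
        mul_le_mul_of_nonneg_right h7 hδ'
      linarith
    · rw [ind_false hGE, zero_mul]
      have h4 : (0 : ℝ) ≤ EP M.w P E (fun k => h (yf E k) (Bg E k)) := by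
        have h5 := EP_mono M.w M.w0 P E (fun _ => (0 : ℝ)) (fun k => h (yf E k) (Bg E k))
          (fun k _ => hh0 _ _)
        rwa [EP_const M.w M.w1] at h5
      have h5 : 0 ≤ H * (((qs.length : ℝ) + 1) * δ) := mul_nonneg hH0 hδ'
      linarith

theorem window_pr {M : Mdl V Ω} {P W : ℕ} {κ δ : ℝ} (pcs : Pieces M P W κ δ) (hδ : 0 ≤ δ)
    (qs : List ℕ) (x : V) (Wt : Set V) :
    EE M.w qs (fun E => ind (∃ u ∈ Wt, PW M pcs.pc E x u ∅)) - (qs.length + 1) * δ ≤
      pr M ((qs.length + 1) * P + qs.sum) x Wt := by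
  classical
  obtain ⟨y, B, h1, -, h3⟩ := window pcs hδ qs x
    (fun E => ∃ u ∈ Wt, PW M pcs.pc E x u ∅)
    (fun E => if h : ∃ u ∈ Wt, PW M pcs.pc E x u ∅ then h.choose else x) (fun _ => ∅)
    (fun E _ hE => by
      simp only [dif_pos hE]
      exact hE.choose_spec.2)
  have h4 := h3 (fun v _ => ind (v ∈ Wt)) 1 (fun _ _ => ind_nonneg _) (fun _ _ _ => ind_le_one _)
    zero_le_one
  rw [one_mul] at h4
  have h5 : EE M.w qs (fun E => ind (∃ u ∈ Wt, PW M pcs.pc E x u ∅) *
      ind ((if h : ∃ u ∈ Wt, PW M pcs.pc E x u ∅ then h.choose else x) ∈ Wt)) =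
      EE M.w qs (fun E => ind (∃ u ∈ Wt, PW M pcs.pc E x u ∅)) := by
    refine EE_congr M.w qs _ _ (fun E _ => ?_)
    by_cases hE : ∃ u ∈ Wt, PW M pcs.pc E x u ∅
    · rw [dif_pos hE, ind_true hE.choose_spec.1, mul_one]
    · rw [ind_false hE, zero_mul]
  have h6 : EL M.w ((qs.length + 1) * P + qs.sum) (fun k => ind (y k ∈ Wt)) ≤
      pr M ((qs.length + 1) * P + qs.sum) x Wt := by
    unfold pr
    refine EL_mono M.w M.w0 _ _ _ (fun k hk => ind_mono fun hy => ?_)
    exact ⟨y k, hy, lift_wlk_empty M (h1 k hk)⟩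
  rw [← h5]
  exact h4.trans h6

end LIFT

end Pool.Agent.RST
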