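import Mathlib
import Pool.Agent.Lib_helper42.RST.Defs
import Pool.Agent.Lib_helper42.RST.Stmt
import Pool.Agent.Lib_helper42.RSTF.Base
import Pool.Agent.Lib_helper42.RSTF.EE1
import Pool.Agent.Lib_helper42.RSTF.EL1
import Pool.Agent.Lib_helper42.RSTF.EX1
import Pool.Agent.Lib_helper42.RSTF.FB
import Pool.Agent.Lib_helper42.RSTF.GLW
import Pool.Agent.Lib_helper42.RSTF.LIFT

/- block CO proved by helper50 -/

set_option autoImplicit false

open Finset

namespace Pool.Agent.RST

set_option linter.unusedSectionVars false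
set_option linter.unusedVariables false
set_option linter.unusedSimpArgs false

section CO
variable {V Ω : Type} [Fintype Ω] [Fintype V] [DecidableEq V]

theorem CO_P1_nonneg (M : Mdl V Ω) (p : Ω → Prop) : 0 ≤ P1 M p :=
  Finset.sum_nonneg (fun T _ => mul_nonneg (M.w0 T) (ind_nonneg _))

theorem CO_P1_compl (M : Mdl V Ω) (p : Ω → Prop) :
    P1 M (fun T => ¬ p T) = 1 - P1 M p := by
  unfold P1
  rw [← M.w1, ← Finset.sum_sub_distrib]
  refine Finset.sum_congr rfl (fun T _ => ?_)
  unfold ind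
  by_cases h : p T <;> simp [h]

/-- the event of a backward column -/
def CO_ev (M : Mdl V Ω) (a : Ω → V → V) (L : ℕ) (x : V) (Wt : Set V) (T0 : Ω) (y : V) (b : ℕ)
    (k : List Ω) : Prop :=
  a T0 (ch a (k.take (b % L + 1)) x) = y ∧
    ∀ T, k.head? = some T → ∃ u ∈ Wt, Stp M T (a T x) u

/-- probability that the backward column `b` is good -/
theorem CO_col {M : Mdl V Ω} {a : Ω → V → V} (L : ℕ) (hL : 1 ≤ L) (x : V) (Wt : Set V) (cb : ℝ)
    (hN : CondN M a cb x Wt) (T0 : Ω) (y : V) (b : ℕ) :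
    ∑ z, gl M a x (b % L + 1) z * ind (a T0 z = y) - cb ≤
      ∑ θ : Fin L → Ω, pw M.w L θ * ind (CO_ev M a L x Wt T0 y b (List.ofFn θ)) := by
  have hj : b % L + 1 ≤ L := Nat.mod_lt b hL
  -- the law of the chain
  have h1 : ∑ z, gl M a x (b % L + 1) z * ind (a T0 z = y) =
      ∑ θ : Fin L → Ω, pw M.w L θ *
        ind (a T0 (ch a ((List.ofFn θ).take (b % L + 1)) x) = y) := by
    have h2 : ∀ z, gl M a x (b % L + 1) z * ind (a T0 z = y) =
        ∑ θ : Fin L → Ω, pw M.w L θ * ind (ch a ((List.ofFn θ).take (b % L + 1)) x = z) *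
          ind (a T0 z = y) := by
      intro z
      rw [← gl_col M a x L (b % L + 1) hj z, Finset.sum_mul]
    simp only [h2]
    rw [Finset.sum_comm]
    refine Finset.sum_congr rfl (fun θ _ => ?_)
    rw [Finset.sum_eq_single (ch a ((List.ofFn θ).take (b % L + 1)) x)]
    · rw [ind_true rfl, mul_one]
    · intro z _ hz
      rw [ind_false (Ne.symm hz)]
      ring
    · intro h; exact absurd (Finset.mem_univ _) h
  -- the first snapshot
  have h3 : ∑ θ : Fin L → Ω, pw M.w L θ * ind (¬ ∃ u ∈ Wt, Stp M (θ ⟨0, hL⟩) (a (θ ⟨0, hL⟩) x) u)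
      ≤ cb := by
    have h4 := EX_coord M.w (ι := Fin L) M.w1 ⟨0, hL⟩
      (fun T => ind (¬ ∃ u ∈ Wt, Stp M T (a T x) u))
    unfold EX at h4
    have h5 : ∑ T, M.w T * ind (¬ ∃ u ∈ Wt, Stp M T (a T x) u) =
        1 - P1 M (fun T => ∃ u ∈ Wt, Stp M T (a T x) u) :=
      CO_P1_compl M (fun T => ∃ u ∈ Wt, Stp M T (a T x) u)
    unfold CondN at hN
    unfold pw
    rw [h4, h5]
    linarith
  rw [h1]
  have h6 : ∑ θ : Fin L → Ω, pw M.w L θ *
        ind (a T0 (ch a ((List.ofFn θ).take (b % L + 1)) x) = y) ≤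
      ∑ θ : Fin L → Ω, pw M.w L θ * ind (CO_ev M a L x Wt T0 y b (List.ofFn θ)) +
      ∑ θ : Fin L → Ω, pw M.w L θ *
        ind (¬ ∃ u ∈ Wt, Stp M (θ ⟨0, hL⟩) (a (θ ⟨0, hL⟩) x) u) := by
    rw [← Finset.sum_add_distrib]
    refine Finset.sum_le_sum (fun θ _ => ?_)
    rw [← mul_add]
    refine mul_le_mul_of_nonneg_left ?_ (pw_nonneg M.w M.w0 L θ)
    by_cases hg : ∃ u ∈ Wt, Stp M (θ ⟨0, hL⟩) (a (θ ⟨0, hL⟩) x) u
    · have h7 : a T0 (ch a ((List.ofFn θ).take (b % L + 1)) x) = y →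
          CO_ev M a L x Wt T0 y b (List.ofFn θ) := by
        intro h8
        refine ⟨h8, fun T hT => ?_⟩
        have h9 : (List.ofFn θ).head? = some (θ ⟨0, hL⟩) := by
          obtain ⟨L', rfl⟩ : ∃ L', L = L' + 1 := ⟨L - 1, by omega⟩
          rw [List.ofFn_succ]
          rfl
        rw [h9] at hT
        obtain rfl := Option.some.inj hT
        exact hg
      have := ind_mono h7
      have h10 := ind_nonneg (¬ ∃ u ∈ Wt, Stp M (θ ⟨0, hL⟩) (a (θ ⟨0, hL⟩) x) u)
      linarith
    · rw [ind_true hg]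
      have := ind_le_one (a T0 (ch a ((List.ofFn θ).take (b % L + 1)) x) = y)
      have h10 := ind_nonneg (CO_ev M a L x Wt T0 y b (List.ofFn θ))
      linarith
  linarith

/-- the backward part -/
theorem CO_back {M : Mdl V Ω} {a : Ω → V → V} (L K2 : ℕ) (hL : 1 ≤ L) (x : V) (Wt : Set V)
    (cb c1 δ7 : ℝ) (hN : CondN M a cb x Wt) (hc : cb ≤ c1)
    (hδ7 : Real.exp (-(K2 * L * (c1 - cb))) ≤ δ7) (T0 : Ω) (y : V)
    (hg : c1 ≤ gam M a L x T0 y) :
    1 - δ7 ≤ EE M.w (List.replicate L (L * K2))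
      (fun E => ind (∃ b : Fin (L * K2), CO_ev M a L x Wt T0 y b (col E.reverse b))) := by
  rw [EE_reverse M.w L (L * K2)
    (fun E => ind (∃ b : Fin (L * K2), CO_ev M a L x Wt T0 y b (col E b)))]
  rw [EE_cols M.w L (L * K2)
    (fun κ => ind (∃ b : Fin (L * K2), CO_ev M a L x Wt T0 y b (κ b)))]
  have h1 := EX_miss (ι := Fin (L * K2)) (pw M.w L) (pw_nonneg M.w M.w0 L) (pw_sum M.w M.w1 L)
    (fun b θ => CO_ev M a L x Wt T0 y b (List.ofFn θ))
  have h2 : EX (ι := Fin (L * K2)) (pw M.w L)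
      (fun κ => ind (∃ b : Fin (L * K2), CO_ev M a L x Wt T0 y b (List.ofFn (κ b)))) =
      1 - EX (ι := Fin (L * K2)) (pw M.w L)
      (fun κ => ind (∀ b : Fin (L * K2), ¬ CO_ev M a L x Wt T0 y b (List.ofFn (κ b)))) := by
    have h3 := EX_add (ι := Fin (L * K2)) (pw M.w L)
      (fun κ => ind (∃ b : Fin (L * K2), CO_ev M a L x Wt T0 y b (List.ofFn (κ b))))
      (fun κ => ind (∀ b : Fin (L * K2), ¬ CO_ev M a L x Wt T0 y b (List.ofFn (κ b))))
    have h4 : (fun κ : Fin (L * K2) → Fin L → Ω =>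
        ind (∃ b : Fin (L * K2), CO_ev M a L x Wt T0 y b (List.ofFn (κ b))) +
        ind (∀ b : Fin (L * K2), ¬ CO_ev M a L x Wt T0 y b (List.ofFn (κ b)))) = fun _ => 1 := by
      funext κ
      by_cases h : ∃ b : Fin (L * K2), CO_ev M a L x Wt T0 y b (List.ofFn (κ b))
      · rw [ind_true h, ind_false]
        · ring
        · push Not; exact h
      · rw [ind_false h, ind_true]
        · ring
        · push Not at h; exact h
    rw [h4, EX_const (pw M.w L) (pw_sum M.w M.w1 L)] at h3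
    linarith
  rw [h2]
  have h5 : (K2 : ℝ) * L * (c1 - cb) ≤ ∑ b : Fin (L * K2), ∑ θ : Fin L → Ω,
      pw M.w L θ * ind (CO_ev M a L x Wt T0 y b (List.ofFn θ)) := by
    have h6 : ∑ b : Fin (L * K2), (∑ z, gl M a x ((b : ℕ) % L + 1) z * ind (a T0 z = y) - cb) ≤
        ∑ b : Fin (L * K2), ∑ θ : Fin L → Ω,
          pw M.w L θ * ind (CO_ev M a L x Wt T0 y b (List.ofFn θ)) :=
      Finset.sum_le_sum (fun b _ => CO_col L hL x Wt cb hN T0 y b)
    refine le_trans ?_ h6
    rw [Finset.sum_sub_distrib]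
    rw [sum_levels L K2 hL (fun j => ∑ z, gl M a x j z * ind (a T0 z = y))]
    rw [Finset.sum_const, Finset.card_univ, Fintype.card_fin, nsmul_eq_mul]
    have h7 : ∑ l ∈ range L, ∑ z, gl M a x (l + 1) z * ind (a T0 z = y) =
        L * gam M a L x T0 y := by
      unfold gam etaH
      rw [Finset.mul_sum, Finset.sum_comm]
      refine Finset.sum_congr rfl (fun z _ => ?_)
      rw [← Finset.sum_mul]
      have hL' : (L : ℝ) ≠ 0 := by
        have : (1 : ℝ) ≤ L := by exact_mod_cast hL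
        linarith
      field_simp
    rw [h7]
    push_cast
    have h8 : 0 ≤ (K2 : ℝ) * L := by positivity
    nlinarith [mul_le_mul_of_nonneg_left hg h8]
  have h9 : Real.exp (-∑ b : Fin (L * K2), ∑ θ : Fin L → Ω,
      pw M.w L θ * ind (CO_ev M a L x Wt T0 y b (List.ofFn θ))) ≤ δ7 :=
    (Real.exp_le_exp.mpr (neg_le_neg h5)).trans hδ7
  linarith

/-- deterministic part -/
theorem CO_walk {M : Mdl V Ω} {pc : V → V} {a : Ω → V → V} (he : Ext M pc a)
    (L K2 : ℕ) (hL : 1 ≤ L) (l s : ℕ) (x : V) (Wt : Set V) (K : Set V) (c1 : ℝ)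
    (E1 E3 : List (List Ω)) (e : List Ω) (hE1 : E1.map List.length = List.replicate l 1)
    (hE3 : E3.map List.length = List.replicate L (L * K2))
    (i j : ℕ) (hij : i < j) (Ti Tj : Ω) (hi : e[i]? = some Ti) (hj : e[j]? = some Tj)
    (y : V) (hyi : a Ti (ch a (col E1 0) x) = y) (hyj : a Tj (ch a (col E1 0) x) = y)
    (b : Fin (L * K2)) (hb : CO_ev M a L x Wt Tj y b (col E3.reverse b)) :
    ∃ u ∈ Wt, PW M pc (E1 ++ [e] ++ E3) x u (ents a (col E1 0) x) := by
  have hlen1 : E1.length = l := by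
    have := congrArg List.length hE1
    simpa using this
  have hlen3 : E3.length = L := by
    have := congrArg List.length hE3
    simpa using this
  have hel1 : ∀ e ∈ E1, e.length = 1 := by
    intro e he
    have : e.length ∈ E1.map List.length := List.mem_map_of_mem he
    rw [hE1] at this
    exact (List.mem_replicate.mp this).2
  have hel3 : ∀ e ∈ E3, e.length = L * K2 := by
    intro e he
    have : e.length ∈ E3.map List.length := List.mem_map_of_mem he
    rw [hE3] at this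
    exact (List.mem_replicate.mp this).2
  have h1 := fwd he E1 1 0 hel1 one_pos E1.length le_rfl x
  have htake : (col E1 0).take E1.length = col E1 0 := by
    apply List.take_of_length_le
    unfold col
    exact List.length_filterMap_le _ _
  rw [htake] at h1
  obtain ⟨hb1, hb2⟩ := hb
  have hj' : (b : ℕ) % L + 1 ≤ E3.length := by
    rw [hlen3]; exact Nat.mod_lt _ hL
  have h2 := rep_walk (M := M) he e i j hij Ti Tj hi hj (ch a (col E1 0) x)
    (ch a ((col E3.reverse b).take ((b : ℕ) % L + 1)) x) (hyi.trans hyj.symm)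
    (hb1.trans hyj.symm)
  obtain ⟨u, hu, h3⟩ := bwd he E3 (L * K2) b hel3 b.2 ((b : ℕ) % L + 1) (by omega) hj' x Wt hb2
    (ch a ((col E3.reverse b).take ((b : ℕ) % L + 1)) x) rfl
  refine ⟨u, hu, ?_⟩
  have h4 := PW_append M pc (PW_append M pc h1 rfl h2) rfl h3
  rw [Finset.union_empty, Finset.union_empty] at h4
  exact h4

/-- a list whose outcomes are not distinct has a repeat -/
theorem CO_repeat {α β : Type} (o : α → Option β) (e : List α)
    (h : ¬ (e.filterMap o).Nodup) :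
    ∃ i j : ℕ, i < j ∧ ∃ Ti Tj y, e[i]? = some Ti ∧ e[j]? = some Tj ∧ o Ti = some y ∧
      o Tj = some y := by
  induction e with
  | nil => simp at h
  | cons T e ih =>
    cases hT : o T with
    | none =>
      rw [List.filterMap_cons_none hT] at h
      obtain ⟨i, j, hij, Ti, Tj, y, h1, h2, h3, h4⟩ := ih h
      exact ⟨i + 1, j + 1, by omega, Ti, Tj, y, by simpa using h1, by simpa using h2, h3, h4⟩
    | some y =>
      rw [List.filterMap_cons_some hT, List.nodup_cons] at h
      by_cases h5 : y ∈ e.filterMap o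
      · rw [List.mem_filterMap] at h5
        obtain ⟨Tj, h6, h7⟩ := h5
        obtain ⟨j, hj⟩ := List.mem_iff_getElem?.mp h6
        exact ⟨0, j + 1, by omega, T, Tj, y, by simp, by simpa using hj, hT, h7⟩
      · have h8 : ¬ (e.filterMap o).Nodup := fun h9 => h ⟨h5, h9⟩
        obtain ⟨i, j, hij, Ti, Tj, y, h1, h2, h3, h4⟩ := ih h8
        exact ⟨i + 1, j + 1, by omega, Ti, Tj, y, by simpa using h1, by simpa using h2, h3, h4⟩

theorem CO_outc (M : Mdl V Ω) (a : Ω → V → V) (L : ℕ) (c1 : ℝ) (x : V) (K : Set V) (z : V)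
    (T : Ω) (y : V) (h : outc M a L c1 x K z T = some y) :
    a T z = y ∧ c1 ≤ gam M a L x T y := by
  unfold outc at h
  split_ifs at h with h1
  obtain rfl := Option.some.inj h
  exact ⟨rfl, h1.1⟩

theorem co_exit {M : Mdl V Ω} {pc : V → V} {a : Ω → V → V} (he : Ext M pc a)
    (L K2 : ℕ) (hL : 1 ≤ L) (l s : ℕ) (hl : 1 ≤ l) (x : V) (Wt : Set V) (K : Set V)
    (cb c1 r qs δ7 : ℝ) (hcb0 : 0 ≤ cb) (hN : CondN M a cb x Wt) (hr : 0 < r) (hc : cb ≤ c1)
    (hqs0 : 0 ≤ qs)
    (hqs : ∀ z, P1 M (fun T => outc M a L c1 x K z T = none) ≤ r →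
      EL M.w s (fun k => ind ((k.filterMap (outc M a L c1 x K z)).Nodup)) ≤ qs)
    (hδ7 : Real.exp (-(K2 * L * (c1 - cb))) ≤ δ7) :
    1 - (bet M a L c1 x K l / r + qs + δ7) ≤
      EE M.w (List.replicate l 1 ++ [s] ++ List.replicate L (L * K2))
        (fun E => ind (∃ u ∈ Wt, PW M pc E x u (ents a (col (E.take l) 0) x))) := by
  have hδ0 : 0 ≤ δ7 := (Real.exp_pos _).le.trans hδ7
  rw [EE_append, EE_append]
  -- step 1: for fixed E1
  have key : ∀ E1 : List (List Ω), E1.map List.length = List.replicate l 1 →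
      1 - (δ7 + qs) - P1 M (fun T => outc M a L c1 x K (ch a (col E1 0) x) T = none) / r ≤
      EE M.w [s] (fun E2 => EE M.w (List.replicate L (L * K2)) (fun E3 =>
        ind (∃ u ∈ Wt, PW M pc (E1 ++ E2 ++ E3) x u
          (ents a (col ((E1 ++ E2 ++ E3).take l) 0) x)))) := by
    intro E1 hE1
    have hlen1 : E1.length = l := by
      have := congrArg List.length hE1
      simpa using this
    have htk : ∀ E2 E3 : List (List Ω), (E1 ++ E2 ++ E3).take l = E1 := by
      intro E2 E3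
      rw [List.append_assoc, ← hlen1, List.take_left]
    simp only [htk]
    -- the wait part
    have h1 : ∀ e : List Ω, (1 - δ7) * (1 - ind ((e.filterMap
          (outc M a L c1 x K (ch a (col E1 0) x))).Nodup)) ≤
        EE M.w (List.replicate L (L * K2)) (fun E3 =>
        ind (∃ u ∈ Wt, PW M pc (E1 ++ [e] ++ E3) x u (ents a (col E1 0) x))) := by
      intro e
      by_cases hnd : (e.filterMap (outc M a L c1 x K (ch a (col E1 0) x))).Nodup
      · rw [ind_true hnd, sub_self, mul_zero]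
        rw [← EE_const M.w M.w1 (List.replicate L (L * K2)) 0]
        exact EE_mono M.w M.w0 _ _ _ (fun E _ => ind_nonneg _)
      · rw [ind_false hnd, sub_zero, mul_one]
        obtain ⟨i, j, hij, Ti, Tj, y, h2, h3, h4, h5⟩ := CO_repeat _ e hnd
        obtain ⟨h6, -⟩ := CO_outc M a L c1 x K _ Ti y h4
        obtain ⟨h7, h8⟩ := CO_outc M a L c1 x K _ Tj y h5
        refine (CO_back L K2 hL x Wt cb c1 δ7 hN hc hδ7 Tj y h8).trans ?_
        refine EE_mono M.w M.w0 _ _ _ (fun E3 hE3 => ind_mono ?_)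
        rintro ⟨b, hb⟩
        exact CO_walk he L K2 hL l s x Wt K c1 E1 E3 e hE1 hE3 i j hij Ti Tj h2 h3 y h6 h7 b hb
    have h9 : EE M.w [s] (fun E2 => EE M.w (List.replicate L (L * K2)) (fun E3 =>
        ind (∃ u ∈ Wt, PW M pc (E1 ++ E2 ++ E3) x u (ents a (col E1 0) x)))) =
        EL M.w s (fun e => EE M.w (List.replicate L (L * K2)) (fun E3 =>
        ind (∃ u ∈ Wt, PW M pc (E1 ++ [e] ++ E3) x u (ents a (col E1 0) x)))) := rfl
    rw [h9]
    refine le_trans ?_ (EL_mono M.w M.w0 s _ _ (fun e _ => h1 e))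
    have h10 : EL M.w s (fun e => (1 - δ7) * (1 - ind ((e.filterMap
          (outc M a L c1 x K (ch a (col E1 0) x))).Nodup))) =
        (1 - δ7) * (1 - EL M.w s (fun e => ind ((e.filterMap
          (outc M a L c1 x K (ch a (col E1 0) x))).Nodup))) := by
      rw [EL_smul, ← EL_ind_not M.w M.w1]
      congr 1
      refine EL_congr _ _ _ _ (fun e _ => ?_)
      unfold ind
      by_cases h : (e.filterMap (outc M a L c1 x K (ch a (col E1 0) x))).Nodup <;> simp [h]
    rw [h10]
    set q := EL M.w s (fun e => ind ((e.filterMap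
          (outc M a L c1 x K (ch a (col E1 0) x))).Nodup)) with hq
    have hq0 : 0 ≤ q := EL_nonneg M.w M.w0 s _ (fun _ _ => ind_nonneg _)
    have hq1 : q ≤ 1 := by
      rw [← EL_const M.w M.w1 s 1]
      exact EL_mono M.w M.w0 s _ _ (fun _ _ => ind_le_one _)
    have hP0 := CO_P1_nonneg M (fun T => outc M a L c1 x K (ch a (col E1 0) x) T = none)
    have h11 : q ≤ qs + P1 M (fun T => outc M a L c1 x K (ch a (col E1 0) x) T = none) / r := by
      by_cases h12 : P1 M (fun T => outc M a L c1 x K (ch a (col E1 0) x) T = none) ≤ r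
      · have := hqs _ h12
        have h13 := div_nonneg hP0 hr.le
        linarith
      · have h13 : 1 ≤ P1 M (fun T => outc M a L c1 x K (ch a (col E1 0) x) T = none) / r := by
          rw [le_div_iff₀ hr, one_mul]
          exact (not_le.mp h12).le
        linarith
    have h14 : 0 ≤ δ7 * q := mul_nonneg hδ0 hq0
    nlinarith
  refine le_trans ?_ (EE_mono M.w M.w0 _ _ _ key)
  have h2 : EE M.w (List.replicate l 1) (fun E1 => 1 - (δ7 + qs) -
      P1 M (fun T => outc M a L c1 x K (ch a (col E1 0) x) T = none) / r) =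
      EL M.w l (fun k => 1 - (δ7 + qs) -
      P1 M (fun T => outc M a L c1 x K (ch a k x) T = none) / r) :=
    EE_row M.w l (fun k => 1 - (δ7 + qs) -
      P1 M (fun T => outc M a L c1 x K (ch a k x) T = none) / r)
  rw [h2]
  have h3 : EL M.w l (fun k => 1 - (δ7 + qs) -
      P1 M (fun T => outc M a L c1 x K (ch a k x) T = none) / r) =
      EL M.w l (fun k => (1 - (δ7 + qs)) + (-(1 / r)) *
      P1 M (fun T => outc M a L c1 x K (ch a k x) T = none)) := by
    refine EL_congr _ _ _ _ (fun k _ => ?_)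
    ring
  rw [h3, EL_add, EL_const M.w M.w1, EL_smul]
  unfold bet
  apply le_of_eq
  ring
end CO

end Pool.Agent.RST
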