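import Mathlib
import Pool.Agent.Lib_helper42.RST.Defs
import Pool.Agent.Lib_helper42.RST.Stmt
import Pool.Agent.Lib_helper42.RSTF.Base
import Pool.Agent.Lib_helper42.RSTF.CO
import Pool.Agent.Lib_helper42.RSTF.EE1
import Pool.Agent.Lib_helper42.RSTF.LIFT

/- block COW proved by helper50 -/

set_option autoImplicit false

open Finset

namespace Pool.Agent.RST

set_option linter.unusedSectionVars false
set_option linter.unusedVariables false
set_option linter.unusedSimpArgs false

section COW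
variable {V Ω : Type} [Fintype Ω] [Fintype V] [DecidableEq V]

/-- law of the entries in the window of `co_exit` -/
theorem co_ents (M : Mdl V Ω) (a : Ω → V → V) (l s : ℕ) (qs : List ℕ) (x : V)
    (h : Finset V → ℝ) :
    EE M.w (List.replicate l 1 ++ [s] ++ qs) (fun E => h (ents a (col (E.take l) 0) x)) =
      EL M.w l (fun k => h (ents a k x)) := by
  rw [EE_append, EE_append]
  have h1 : EE M.w (List.replicate l 1) (fun E1 => EE M.w [s] (fun E2 => EE M.w qs (fun E3 =>
      h (ents a (col ((E1 ++ E2 ++ E3).take l) 0) x)))) =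
      EE M.w (List.replicate l 1) (fun E1 => h (ents a (col E1 0) x)) := by
    refine EE_congr M.w _ _ _ (fun E1 hE1 => ?_)
    have hlen1 : E1.length = l := by
      have := congrArg List.length hE1
      simpa using this
    have htk : ∀ E2 E3 : List (List Ω), (E1 ++ E2 ++ E3).take l = E1 := by
      intro E2 E3
      rw [List.append_assoc, ← hlen1, List.take_left]
    simp only [htk, EE_const M.w M.w1]
  rw [h1]
  exact EE_row M.w l (fun k => h (ents a k x))

theorem ents_card_le (a : Ω → V → V) (k : List Ω) (x : V) : (ents a k x).card ≤ k.length := by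
  induction k generalizing x with
  | nil => simp [ents]
  | cons S k ih =>
    simp only [ents, List.length_cons]
    refine (Finset.card_insert_le _ _).trans ?_
    exact Nat.add_le_add_right (ih _) 1

/-- CO moves: total length `(l+L+2)P + l + s + L*L*K2` -/
theorem co_pr {M : Mdl V Ω} {P W : ℕ} {κ δ : ℝ} (pcs : Pieces M P W κ δ) (hδ : 0 ≤ δ)
    {a : Ω → V → V} (he : Ext M pcs.pc a)
    (L K2 : ℕ) (hL : 1 ≤ L) (l s : ℕ) (hl : 1 ≤ l) (x : V) (Wt : Set V) (K : Set V)
    (cb c1 r qs δ7 : ℝ) (hcb0 : 0 ≤ cb) (hN : CondN M a cb x Wt) (hr : 0 < r) (hc : cb ≤ c1)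
    (hqs0 : 0 ≤ qs)
    (hqs : ∀ z, P1 M (fun T => outc M a L c1 x K z T = none) ≤ r →
      EL M.w s (fun k => ind ((k.filterMap (outc M a L c1 x K z)).Nodup)) ≤ qs)
    (hδ7 : Real.exp (-(K2 * L * (c1 - cb))) ≤ δ7) :
    1 - (bet M a L c1 x K l / r + qs + δ7 + (l + L + 2) * δ) ≤
      pr M ((l + L + 2) * P + (l + s + L * (L * K2))) x Wt := by
  classical
  set QS : List ℕ := List.replicate l 1 ++ [s] ++ List.replicate L (L * K2) with hQS
  have hQlen : QS.length + 1 = l + L + 2 := by
    rw [hQS]; simp; omega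
  have hQsum : QS.sum = l + s + L * (L * K2) := by
    rw [hQS]; simp [add_assoc]
  have hex := co_exit he L K2 hL l s hl x Wt K cb c1 r qs δ7 hcb0 hN hr hc hqs0 hqs hδ7
  rw [← hQS] at hex
  have h1 := window_pr pcs hδ QS x Wt
  have hcast : ((QS.length : ℝ) + 1) = (l : ℝ) + L + 2 := by exact_mod_cast hQlen
  rw [hQlen, hQsum, hcast] at h1
  have h2 : EE M.w QS (fun E => ind (∃ u ∈ Wt, PW M pcs.pc E x u
      (ents a (col (E.take l) 0) x))) ≤
      EE M.w QS (fun E => ind (∃ u ∈ Wt, PW M pcs.pc E x u ∅)) := by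
    refine EE_mono M.w M.w0 _ _ _ (fun E _ => ind_mono ?_)
    rintro ⟨u, hu, h3⟩
    exact ⟨u, hu, PW_mono M pcs.pc h3 (Finset.empty_subset _)⟩
  linarith

/-- CO loops (closed walks from `x` to `x` visiting the entries) -/
theorem co_loop {M : Mdl V Ω} {P W : ℕ} {κ δ : ℝ} (pcs : Pieces M P W κ δ) (hδ : 0 ≤ δ)
    {a : Ω → V → V} (he : Ext M pcs.pc a)
    (L K2 : ℕ) (hL : 1 ≤ L) (l s : ℕ) (hl : 1 ≤ l) (x : V) (K : Set V)
    (c1 r qs δ7 : ℝ) (hr : 0 < r) (hc : 0 ≤ c1) (hqs0 : 0 ≤ qs)
    (hqs : ∀ z, P1 M (fun T => outc M a L c1 x K z T = none) ≤ r →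
      EL M.w s (fun k => ind ((k.filterMap (outc M a L c1 x K z)).Nodup)) ≤ qs)
    (hδ7 : Real.exp (-(K2 * L * c1)) ≤ δ7) :
    ∃ (B : List Ω → Finset V),
      (∀ k, k.length = (l + L + 2) * P + (l + s + L * (L * K2)) → Wlk M k x x (B k)) ∧
      (∀ k, (B k).card ≤ l) ∧
      (∀ K' : Finset V, EL M.w l (fun k => ((ents a k x \ K').card : ℝ)) -
          l * (bet M a L c1 x K l / r + qs + δ7 + (l + L + 2) * δ) ≤
        EL M.w ((l + L + 2) * P + (l + s + L * (L * K2)))
          (fun k => ((B k \ K').card : ℝ))) := by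
  classical
  set Wt : Set V := {u | pcs.pc u = pcs.pc x} with hWt
  have hN : CondN M a 0 x Wt := by
    unfold CondN P1
    rw [sub_zero, ← M.w1]
    refine Finset.sum_le_sum (fun T _ => ?_)
    rw [ind_true, mul_one]
    obtain ⟨u, hu1, hu2⟩ := he.edge T x
    exact ⟨u, hu1, Or.inr hu2.symm⟩
  set QS : List ℕ := List.replicate l 1 ++ [s] ++ List.replicate L (L * K2) with hQS
  let G : List (List Ω) → Prop := fun E =>
    ∃ u ∈ Wt, PW M pcs.pc E x u (ents a (col (E.take l) 0) x)
  let Bf : List (List Ω) → Finset V := fun E => ents a (col (E.take l) 0) x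
  have hwf : ∀ E, G E → PW M pcs.pc E x x (Bf E) := by
    rintro E ⟨u, hu, hE⟩
    have h1 := PW_append M pcs.pc (E2 := []) (y' := x) (z := x) (B2 := ∅) hE hu ⟨rfl, rfl⟩
    rw [List.append_nil, Finset.union_empty] at h1
    exact h1
  have hQlen : QS.length + 1 = l + L + 2 := by
    rw [hQS]; simp; omega
  have hQsum : QS.sum = l + s + L * (L * K2) := by
    rw [hQS]; simp [add_assoc]
  have hδ7' : Real.exp (-(K2 * L * (c1 - 0))) ≤ δ7 := by rw [sub_zero]; exact hδ7
  have hex := co_exit he L K2 hL l s hl x Wt K 0 c1 r qs δ7 le_rfl hN hr hc hqs0 hqs hδ7'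
  rw [← hQS] at hex
  obtain ⟨y, B, h1, h2, h3⟩ := window pcs hδ QS x G (fun _ => x) Bf (fun E _ hG => hwf E hG)
  have hcast : ((QS.length : ℝ) + 1) = (l : ℝ) + L + 2 := by exact_mod_cast hQlen
  rw [hQlen, hQsum] at h1
  have hBf : ∀ E, (Bf E).card ≤ l := by
    intro E
    refine (ents_card_le a _ x).trans ?_
    unfold col
    refine (List.length_filterMap_le _ _).trans ?_
    rw [List.length_take]
    exact min_le_left _ _
  have hBfr : ∀ (E : List (List Ω)) (K' : Finset V), ((Bf E \ K').card : ℝ) ≤ l := by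
    intro E K'
    have h4 : (Bf E \ K').card ≤ l := (Finset.card_le_card Finset.sdiff_subset).trans (hBf E)
    exact_mod_cast h4
  refine ⟨B, ?_, ?_, ?_⟩
  · intro k hk
    have h4 := h1 k hk
    have h5 : y k = x := by
      rcases h2 k with ⟨h5, _⟩ | ⟨E, _, _, h5, _⟩
      · exact h5
      · exact h5
    rwa [h5] at h4
  · intro k
    rcases h2 k with ⟨_, h5⟩ | ⟨E, _, _, _, h5⟩
    · rw [h5]; simp
    · rw [h5]; exact hBf E
  · intro K'
    have h6 := h3 (fun _ C => ((C \ K').card : ℝ)) l (fun _ _ => by positivity)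
      (fun E _ _ => hBfr E K') (by positivity)
    rw [hQlen, hQsum, hcast] at h6
    refine le_trans ?_ h6
    have h8 : EE M.w QS (fun E => ((Bf E \ K').card : ℝ) + (-(l : ℝ)) * (1 + (-1) * ind (G E))) ≤
        EE M.w QS (fun E => ind (G E) * ((Bf E \ K').card : ℝ)) := by
      refine EE_mono M.w M.w0 _ _ _ (fun E _ => ?_)
      by_cases hG : G E
      · rw [ind_true hG]; linarith
      · rw [ind_false hG]; linarith [hBfr E K']
    rw [EE_add, EE_smul, EE_add, EE_smul, EE_const M.w M.w1] at h8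
    have h9 : EE M.w QS (fun E => ((Bf E \ K').card : ℝ)) =
        EL M.w l (fun k => ((ents a k x \ K').card : ℝ)) :=
      co_ents M a l s (List.replicate L (L * K2)) x (fun C => ((C \ K').card : ℝ))
    rw [h9] at h8
    have h10 : (l : ℝ) * (1 - EE M.w QS (fun E => ind (G E))) ≤
        l * (bet M a L c1 x K l / r + qs + δ7) := by
      refine mul_le_mul_of_nonneg_left ?_ (by positivity)
      have : EE M.w QS (fun E => ind (G E)) = EE M.w QS
        (fun E => ind (∃ u ∈ Wt, PW M pcs.pc E x u (ents a (col (E.take l) 0) x))) := rfl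
      rw [this]
      linarith
    linarith
end COW

end Pool.Agent.RST
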