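import Mathlib
import Pool.Agent.Lib_helper42.RST.Defs
import Pool.Agent.Lib_helper42.RST.Stmt
import Pool.Agent.Lib_helper42.RSTF.Base
import Pool.Agent.Lib_helper42.RSTF.EL1
import Pool.Agent.Lib_helper42.RSTF.PR
import Pool.Agent.Lib_helper42.RSTF.RW

/- block HT proved by helper93 -/

/-! # RST, block HT: rules for `Hit` -/

set_option autoImplicit false
set_option linter.unusedSectionVars false

open Finset

namespace Pool.Agent.RST

section
variable {V Ω : Type} [Fintype Ω] [Fintype V] [DecidableEq V] {M : Mdl V Ω} {lam : ℝ}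
  {Φ : V → Finset V → ℝ}

theorem hit_mono (hlam : 0 ≤ lam) {x : V} {W : Set V} {c c' : ℝ} (h : Hit Φ lam x W c)
    (hc : c ≤ c') : Hit Φ lam x W c' := by
  intro A M0 hM0 hu
  have h1 := h A M0 hM0 hu
  have h2 : Real.exp (lam * c) ≤ Real.exp (lam * c') :=
    Real.exp_le_exp.2 (mul_le_mul_of_nonneg_left hc hlam)
  have h3 : M0 * Real.exp (lam * c) ≤ M0 * Real.exp (lam * c') :=
    mul_le_mul_of_nonneg_left h2 (by linarith)
  linarith

theorem hit_subset (hlam : 0 ≤ lam) {x : V} {W W' : Set V} {c : ℝ} (h : Hit Φ lam x W c)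
    (hW : W ⊆ W') : Hit Φ lam x W' c := by
  have _ := hlam
  intro A M0 hM0 hu
  exact h A M0 hM0 fun u hu' => hu u (hW hu')

theorem hit_self (hlam : 0 ≤ lam) {x : V} {W : Set V} (h : x ∈ W) {c : ℝ} (hc : 0 ≤ c) :
    Hit Φ lam x W c := by
  intro A M0 hM0 hu
  have h1 := hu x h
  have h2 : 1 ≤ Real.exp (lam * c) := Real.one_le_exp (mul_nonneg hlam hc)
  nlinarith

theorem hit_trans (hlam : 0 ≤ lam) {x : V} {W W' : Set V} {c c' : ℝ} (hc' : 0 ≤ c')
    (h : Hit Φ lam x W c)
    (h' : ∀ u ∈ W, Hit Φ lam u W' c') : Hit Φ lam x W' (c + c') := by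
  intro A M0 hM0 hu
  have h2 : 1 ≤ Real.exp (lam * c') := Real.one_le_exp (mul_nonneg hlam hc')
  have h3 := h A (M0 * Real.exp (lam * c')) (by nlinarith) fun u hu' => h' u hu' A M0 hM0 hu
  have h4 : M0 * Real.exp (lam * c') * Real.exp (lam * c) = M0 * Real.exp (lam * (c + c')) := by
    rw [mul_assoc, ← Real.exp_add]
    congr 2
    ring
  rwa [h4] at h3

theorem ht_exp_le {u : ℝ} (h0 : 0 ≤ u) (h1 : u ≤ 1) : Real.exp u ≤ 1 + 2 * u := by
  have h := Real.abs_exp_sub_one_le (x := u) (by rw [abs_of_nonneg h0]; exact h1)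
  rw [abs_of_nonneg h0] at h
  have := (abs_le.1 h).2
  linarith

theorem hit_leg (C : Calc M lam Φ) (hlam : 0 ≤ lam) {x : V} {W : Set V} {s : ℕ} {p : ℝ}
    (hp : 0 < p) (h : p ≤ pr M s x W) (hs : lam * s ≤ p / 4) : Hit Φ lam x W (4 * s / p) := by
  intro A M0 hM0 hu
  have p1 := pr_le_one M s x W
  have u0 : 0 ≤ lam * (s : ℝ) := mul_nonneg hlam (Nat.cast_nonneg s)
  have e1 : Real.exp (lam * s) ≤ 1 + 2 * (lam * s) := ht_exp_le u0 (by linarith)
  have e0 : 1 ≤ Real.exp (lam * s) := Real.one_le_exp u0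
  have e2 : Real.exp (lam * s) ≤ 1 + p / 2 := by linarith
  have hd : p / 2 ≤ 1 - (1 - pr M s x W) * Real.exp (lam * s) := by
    have h2 : (1 - pr M s x W) * Real.exp (lam * s) ≤ (1 - p) * (1 + p / 2) :=
      mul_le_mul (by linarith) e2 (by linarith) (by linarith)
    nlinarith
  have hE : ∑ j ∈ range s, (1 - pr M j x W) ≤ (s : ℝ) := by
    calc ∑ j ∈ range s, (1 - pr M j x W) ≤ ∑ j ∈ range s, (1 : ℝ) :=
          Finset.sum_le_sum fun j _ => by linarith [pr_nonneg M j x W]
      _ = s := by simp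
  have key := C.hit x A W s M0 s hM0 hu hE (by linarith)
  have h3 : (s : ℝ) * Real.exp (lam * s) / (1 - (1 - pr M s x W) * Real.exp (lam * s)) ≤
      4 * s / p := by
    rw [div_le_div_iff₀ (by linarith) hp]
    have hs0 : (0 : ℝ) ≤ s := Nat.cast_nonneg s
    have h5 : Real.exp (lam * s) ≤ 2 := by linarith
    calc (s : ℝ) * Real.exp (lam * s) * p ≤ s * 2 * p := by
          apply mul_le_mul_of_nonneg_right _ hp.le
          exact mul_le_mul_of_nonneg_left h5 hs0
      _ = 4 * s * (p / 2) := by ring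
      _ ≤ 4 * s * (1 - (1 - pr M s x W) * Real.exp (lam * s)) :=
          mul_le_mul_of_nonneg_left hd (by positivity)
  have h4 : Real.exp (lam * ((s : ℝ) * Real.exp (lam * s) /
      (1 - (1 - pr M s x W) * Real.exp (lam * s)))) ≤ Real.exp (lam * (4 * s / p)) :=
    Real.exp_le_exp.2 (mul_le_mul_of_nonneg_left h3 hlam)
  exact key.trans (mul_le_mul_of_nonneg_left h4 (by linarith))

theorem hit_tail (C : Calc M lam Φ) (hlam : 0 ≤ lam) {x : V} {W : Set V} {S : ℕ} {E0 q : ℝ}
    (hE : ∑ s ∈ range S, (1 - pr M s x W) ≤ E0) (hq : 1 - pr M S x W ≤ q)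
    (hq1 : q * Real.exp (lam * S) < 1) :
    Hit Φ lam x W (E0 * Real.exp (lam * S) / (1 - q * Real.exp (lam * S))) := by
  intro A M0 hM0 hu
  have e0 : 0 < Real.exp (lam * S) := Real.exp_pos _
  have h1 : (1 - pr M S x W) * Real.exp (lam * S) ≤ q * Real.exp (lam * S) :=
    mul_le_mul_of_nonneg_right hq e0.le
  have hE0 : 0 ≤ E0 := by
    refine le_trans ?_ hE
    exact Finset.sum_nonneg fun s _ => by linarith [pr_le_one M s x W]
  have key := C.hit x A W S M0 E0 hM0 hu hE (lt_of_le_of_lt h1 hq1)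
  have h3 : E0 * Real.exp (lam * S) / (1 - (1 - pr M S x W) * Real.exp (lam * S)) ≤
      E0 * Real.exp (lam * S) / (1 - q * Real.exp (lam * S)) :=
    div_le_div_of_nonneg_left (mul_nonneg hE0 e0.le) (by linarith) (by linarith)
  exact key.trans (mul_le_mul_of_nonneg_left
    (Real.exp_le_exp.2 (mul_le_mul_of_nonneg_left h3 hlam)) (by linarith))

theorem hit_det (C : Calc M lam Φ) (hlam : 0 ≤ lam) (x y : V) :
    Hit Φ lam x {y} (Fintype.card V) := by
  have _ := hlam
  intro A M0 hM0 hu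
  have key := C.win x A (Fintype.card V) (fun _ => y) (fun _ => ∅) (by
    intro l hl
    rw [← Reach_iff_Wlk]
    exact Reach_full M l (by omega) x y)
  rw [EL_const M.w M.w1, Finset.union_empty] at key
  have h1 := hu y rfl
  calc Φ x A ≤ Real.exp (lam * (Fintype.card V : ℝ)) * Φ y A := key
    _ ≤ Real.exp (lam * (Fintype.card V : ℝ)) * M0 :=
        mul_le_mul_of_nonneg_left h1 (Real.exp_nonneg _)
    _ = M0 * Real.exp (lam * (Fintype.card V : ℝ)) := mul_comm _ _

theorem ht_tour (C : Calc M lam Φ) (hlam : 0 ≤ lam) (D : Finset V) (t : ℝ) (ht : 0 ≤ t)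
    (hD : ∀ u ∈ D, ∀ v ∈ D, Hit Φ lam u {v} t) (v : V) (hv : v ∈ D) :
    ∀ (k : ℕ) (R : Finset V), R.card = k → R ⊆ D → ∀ (x : V), x ∈ D → ∀ A : Finset V,
      D ⊆ A ∪ R → Φ x A ≤ Φ v (A ∪ D) * Real.exp (lam * (t * (k + 1))) := by
  intro k
  induction k with
  | zero =>
    intro R hR _ x hx A hA
    rw [Finset.card_eq_zero] at hR
    rw [hR, Finset.union_empty] at hA
    have h1 := hD x hx v hv A (Φ v A) (C.one_le v A) (by
      intro u hu
      rw [Set.mem_singleton_iff] at hu
      rw [hu])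
    rw [Finset.union_eq_left.2 hA]
    simpa using h1
  | succ k ih =>
    intro R hR hRD x hx A hA
    obtain ⟨u, hu⟩ : R.Nonempty := by
      rw [← Finset.card_pos]
      omega
    have huD := hRD hu
    have h1 := ih (R.erase u) (by rw [Finset.card_erase_of_mem hu]; omega)
      ((Finset.erase_subset _ _).trans hRD) u huD (insert u A) (by
        intro z hz
        have h2 := hA hz
        rw [Finset.mem_union] at h2
        rw [Finset.mem_union, Finset.mem_insert, Finset.mem_erase]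
        by_cases hzu : z = u
        · exact Or.inl (Or.inl hzu)
        · rcases h2 with h2 | h2
          · exact Or.inl (Or.inr h2)
          · exact Or.inr ⟨hzu, h2⟩)
    have h2 : insert u A ∪ D = A ∪ D := by
      ext z
      simp only [Finset.mem_union, Finset.mem_insert]
      constructor
      · rintro ((h | h) | h)
        · rw [h]; exact Or.inr huD
        · exact Or.inl h
        · exact Or.inr h
      · rintro (h | h)
        · exact Or.inl (Or.inr h)
        · exact Or.inr h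
    rw [h2] at h1
    have h3 := C.here u A
    have hE : 1 ≤ Real.exp (lam * (t * (k + 1))) := by
      apply Real.one_le_exp
      positivity
    have hM : 1 ≤ Φ v (A ∪ D) * Real.exp (lam * (t * (k + 1))) := by
      have := C.one_le v (A ∪ D)
      nlinarith
    have h4 := hD x hx u huD A _ hM (by
      intro z hz
      rw [Set.mem_singleton_iff] at hz
      rw [hz]
      exact h3.trans h1)
    have h5 : Φ v (A ∪ D) * Real.exp (lam * (t * (k + 1))) * Real.exp (lam * t) =
        Φ v (A ∪ D) * Real.exp (lam * (t * ((k + 1 : ℕ) + 1))) := by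
      rw [mul_assoc, ← Real.exp_add]
      congr 2
      push_cast
      ring
    rw [h5] at h4
    exact h4

theorem tour_cell (C : Calc M lam Φ) (hlam : 0 ≤ lam) (D : Finset V) (t : ℝ) (ht : 0 ≤ t)
    (hD : ∀ u ∈ D, ∀ v ∈ D, Hit Φ lam u {v} t) (x v : V) (hx : x ∈ D) (hv : v ∈ D) (A : Finset V) :
    Φ x A ≤ Φ v (A ∪ D) * Real.exp (lam * (t * (D.card + 1))) :=
  ht_tour C hlam D t ht hD v hv D.card D rfl (Finset.Subset.refl _) x hx A
    Finset.subset_union_right

end

end Pool.Agent.RST
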