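import Mathlib
import Pool.Agent.Lib_helper42.RST.Defs
import Pool.Agent.Lib_helper42.RST.Stmt
import Pool.Agent.Lib_helper42.RSTF.Base
import Pool.Agent.Lib_helper42.RSTF.EX1

/- block CL proved by helper93 -/

/-! # RST, block CL: the collision lemma -/

set_option autoImplicit false

open Finset

namespace Pool.Agent.RST

theorem cl_ind_nonneg (p : Prop) : 0 ≤ ind p := by
  unfold ind; split_ifs <;> norm_num

theorem cl_ind_mul {D : Type} (o : Option D) (d e : D) [DecidableEq D] :
    ind (o = some d) * ind (o = some e) = if d = e then ind (o = some d) else 0 := by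
  unfold ind
  by_cases h : d = e
  · subst h
    by_cases h1 : o = some d <;> simp [h1]
  · by_cases h1 : o = some d
    · have h2 : o ≠ some e := by
        rw [h1]
        intro h3
        exact h (Option.some.inj h3)
      simp [h1, h]
    · simp [h1, h]

/-- second moments -/
theorem cl_second {Θ ι D : Type} [Fintype Θ] [Fintype ι] [DecidableEq ι] [DecidableEq D]
    (v : Θ → ℝ) (h0 : ∀ t, 0 ≤ v t) (h1 : ∑ t, v t = 1) (X : ι → Θ → Option D) (A : D → ℝ)
    (hA : ∀ d, A d = ∑ i, ∑ t, v t * ind (X i t = some d)) (d e : D) :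
    EX v (fun θ : ι → Θ => (∑ i, ind (X i (θ i) = some d)) * ∑ i, ind (X i (θ i) = some e)) ≤
      A d * A e + if d = e then A d else 0 := by
  have e1 : (fun θ : ι → Θ => (∑ i, ind (X i (θ i) = some d)) * ∑ i, ind (X i (θ i) = some e)) =
      fun θ : ι → Θ => ∑ i, ∑ j, ind (X i (θ i) = some d) * ind (X j (θ j) = some e) := by
    funext θ
    rw [Finset.sum_mul_sum]
  rw [e1, EX_sum]
  have e2 : ∀ i, EX v (fun θ : ι → Θ => ∑ j, ind (X i (θ i) = some d) * ind (X j (θ j) = some e)) =
      ∑ j, EX v (fun θ : ι → Θ => ind (X i (θ i) = some d) * ind (X j (θ j) = some e)) :=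
    fun i => EX_sum v _ _
  simp only [e2]
  set p : ι → D → ℝ := fun i d => ∑ t, v t * ind (X i t = some d) with hp
  have p0 : ∀ i d, 0 ≤ p i d := fun i d =>
    Finset.sum_nonneg fun t _ => mul_nonneg (h0 t) (cl_ind_nonneg _)
  have e3 : ∀ i j, EX v (fun θ : ι → Θ => ind (X i (θ i) = some d) * ind (X j (θ j) = some e)) ≤
      p i d * p j e + if i = j then (if d = e then p i d else 0) else 0 := by
    intro i j
    by_cases hij : i = j
    · subst hij
      rw [if_pos rfl]
      have e4 : EX v (fun θ : ι → Θ => ind (X i (θ i) = some d) * ind (X i (θ i) = some e)) =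
          ∑ t, v t * (ind (X i t = some d) * ind (X i t = some e)) :=
        EX_coord v h1 i (fun t => ind (X i t = some d) * ind (X i t = some e))
      rw [e4]
      have e5 : ∑ t, v t * (ind (X i t = some d) * ind (X i t = some e)) =
          if d = e then p i d else 0 := by
        simp only [cl_ind_mul]
        by_cases hde : d = e
        · simp only [if_pos hde, hp]
        · simp only [if_neg hde, mul_zero, Finset.sum_const_zero]
      rw [e5]
      have := mul_nonneg (p0 i d) (p0 i e)
      linarith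
    · rw [if_neg hij, add_zero]
      rw [EX_coord2 v h1 i j hij (fun t t' => ind (X i t = some d) * ind (X j t' = some e))]
      apply le_of_eq
      simp only [hp]
      rw [Finset.sum_mul_sum]
      apply Finset.sum_congr rfl
      intro t _
      rw [Finset.mul_sum]
      apply Finset.sum_congr rfl
      intro t' _
      ring
  calc ∑ i, ∑ j, EX v (fun θ : ι → Θ => ind (X i (θ i) = some d) * ind (X j (θ j) = some e))
      ≤ ∑ i, ∑ j, (p i d * p j e + if i = j then (if d = e then p i d else 0) else 0) :=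
        Finset.sum_le_sum fun i _ => Finset.sum_le_sum fun j _ => e3 i j
    _ = A d * A e + if d = e then A d else 0 := by
        rw [hA d, hA e, Finset.sum_mul_sum]
        simp only [Finset.sum_add_distrib, Finset.sum_ite_eq, Finset.mem_univ, if_true]
        congr 1
        by_cases hde : d = e
        · simp only [if_pos hde, hp]
        · simp only [if_neg hde, Finset.sum_const_zero]

theorem collision {Θ Θ' ι κ D : Type} [Fintype Θ] [Fintype Θ'] [Fintype ι] [Fintype κ] [Fintype D]
    [DecidableEq ι] [DecidableEq κ] [DecidableEq D]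
    (v : Θ → ℝ) (v' : Θ' → ℝ) (h0 : ∀ t, 0 ≤ v t) (h1 : ∑ t, v t = 1)
    (h0' : ∀ t, 0 ≤ v' t) (h1' : ∑ t, v' t = 1)
    (X : ι → Θ → Option D) (Y : κ → Θ' → Option D) (A B : D → ℝ)
    (hA : ∀ d, A d = ∑ i, ∑ t, v t * ind (X i t = some d))
    (hB : ∀ d, B d = ∑ j, ∑ t, v' t * ind (Y j t = some d))
    (E Q : ℝ) (hE : E = ∑ d, A d * B d) (hQ0 : 0 ≤ Q)
    (hQ : ∑ d, (A d ^ 2 * B d + A d * B d ^ 2) ≤ Q * E) :
    E ≤ (E + 1 + Q) * EX v (fun θ : ι → Θ => EX v' (fun θ' : κ → Θ' =>
      ind (∃ i j d, X i (θ i) = some d ∧ Y j (θ' j) = some d))) := by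
  classical
  set P := EX v (fun θ : ι → Θ => EX v' (fun θ' : κ → Θ' =>
      ind (∃ i j d, X i (θ i) = some d ∧ Y j (θ' j) = some d))) with hP
  set XX : (ι → Θ) → D → ℝ := fun θ d => ∑ i, ind (X i (θ i) = some d) with hXX
  set YY : (κ → Θ') → D → ℝ := fun θ d => ∑ i, ind (Y i (θ i) = some d) with hYY
  set N : (ι → Θ) → (κ → Θ') → ℝ := fun θ θ' => ∑ d, XX θ d * YY θ' d with hN
  have XX0 : ∀ θ d, 0 ≤ XX θ d := fun θ d => Finset.sum_nonneg fun i _ => cl_ind_nonneg _
  have YY0 : ∀ θ d, 0 ≤ YY θ d := fun θ d => Finset.sum_nonneg fun i _ => cl_ind_nonneg _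
  have A0 : ∀ d, 0 ≤ A d := fun d => by
    rw [hA]
    exact Finset.sum_nonneg fun i _ => Finset.sum_nonneg fun t _ =>
      mul_nonneg (h0 t) (cl_ind_nonneg _)
  have B0 : ∀ d, 0 ≤ B d := fun d => by
    rw [hB]
    exact Finset.sum_nonneg fun i _ => Finset.sum_nonneg fun t _ =>
      mul_nonneg (h0' t) (cl_ind_nonneg _)
  have E0 : 0 ≤ E := by
    rw [hE]
    exact Finset.sum_nonneg fun d _ => mul_nonneg (A0 d) (B0 d)
  -- first moments
  have mX : ∀ d, EX v (fun θ => XX θ d) = A d := by
    intro d
    rw [hA, hXX, EX_sum]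
    apply Finset.sum_congr rfl
    intro i _
    exact EX_coord v h1 i (fun t => ind (X i t = some d))
  have mY : ∀ d, EX v' (fun θ => YY θ d) = B d := by
    intro d
    rw [hB, hYY, EX_sum]
    apply Finset.sum_congr rfl
    intro i _
    exact EX_coord v' h1' i (fun t => ind (Y i t = some d))
  have m1 : EX v (fun θ => EX v' (fun θ' => N θ θ')) = E := by
    have e1 : ∀ θ, EX v' (fun θ' => N θ θ') = ∑ d, B d * XX θ d := by
      intro θ
      rw [hN, EX_sum]
      apply Finset.sum_congr rfl
      intro d _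
      rw [EX_smul, mY, mul_comm]
    simp only [e1]
    rw [EX_sum, hE]
    apply Finset.sum_congr rfl
    intro d _
    rw [EX_smul, mX, mul_comm]
  -- second moment
  have m2 : EX v (fun θ => EX v' (fun θ' => N θ θ' ^ 2)) ≤ E * (E + 1 + Q) := by
    have e1 : ∀ θ θ', N θ θ' ^ 2 = ∑ d, ∑ e, (XX θ d * XX θ e) * (YY θ' d * YY θ' e) := by
      intro θ θ'
      rw [sq, hN, Finset.sum_mul_sum]
      apply Finset.sum_congr rfl
      intro d _
      apply Finset.sum_congr rfl
      intro e _
      ring
    have e2 : ∀ θ, EX v' (fun θ' => N θ θ' ^ 2) =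
        ∑ d, ∑ e, EX v' (fun θ' => YY θ' d * YY θ' e) * (XX θ d * XX θ e) := by
      intro θ
      simp only [e1]
      rw [EX_sum]
      apply Finset.sum_congr rfl
      intro d _
      rw [EX_sum]
      apply Finset.sum_congr rfl
      intro e _
      rw [EX_smul, mul_comm]
    have e3 : EX v (fun θ => EX v' (fun θ' => N θ θ' ^ 2)) =
        ∑ d, ∑ e, EX v' (fun θ' => YY θ' d * YY θ' e) * EX v (fun θ => XX θ d * XX θ e) := by
      simp only [e2]
      rw [EX_sum]
      apply Finset.sum_congr rfl
      intro d _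
      rw [EX_sum]
      apply Finset.sum_congr rfl
      intro e _
      rw [EX_smul]
    rw [e3]
    have nX : ∀ d e, 0 ≤ EX v (fun θ => XX θ d * XX θ e) := by
      intro d e
      have := EX_mono v h0 (fun _ => 0) (fun θ => XX θ d * XX θ e)
        (fun θ => mul_nonneg (XX0 θ d) (XX0 θ e))
      rwa [EX_const v h1] at this
    have e4 : ∀ d e, EX v' (fun θ' => YY θ' d * YY θ' e) * EX v (fun θ => XX θ d * XX θ e) ≤
        (B d * B e + if d = e then B d else 0) * (A d * A e + if d = e then A d else 0) := by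
      intro d e
      apply mul_le_mul (cl_second v' h0' h1' Y B hB d e) (cl_second v h0 h1 X A hA d e) (nX d e)
      have g1 := mul_nonneg (B0 d) (B0 e)
      split_ifs
      · linarith [B0 d]
      · linarith
    calc ∑ d, ∑ e, EX v' (fun θ' => YY θ' d * YY θ' e) * EX v (fun θ => XX θ d * XX θ e)
        ≤ ∑ d, ∑ e, (B d * B e + if d = e then B d else 0) *
          (A d * A e + if d = e then A d else 0) :=
          Finset.sum_le_sum fun d _ => Finset.sum_le_sum fun e _ => e4 d e
      _ = ∑ d, ∑ e, (A d * B d) * (A e * B e) +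
          ∑ d, ∑ e, (if d = e then (A d * B d + (A d * A e * B d + A d * (B d * B e))) else 0) := by
          rw [← Finset.sum_add_distrib]
          apply Finset.sum_congr rfl
          intro d _
          rw [← Finset.sum_add_distrib]
          apply Finset.sum_congr rfl
          intro e _
          by_cases hde : d = e
          · simp only [if_pos hde]
            ring
          · simp only [if_neg hde]
            ring
      _ = E ^ 2 + ∑ d, (A d * B d + (A d ^ 2 * B d + A d * B d ^ 2)) := by
          congr 1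
          · rw [sq, hE, Finset.sum_mul_sum]
          · apply Finset.sum_congr rfl
            intro d _
            rw [Finset.sum_ite_eq, if_pos (Finset.mem_univ d)]
            ring
      _ = E ^ 2 + (E + ∑ d, (A d ^ 2 * B d + A d * B d ^ 2)) := by
          rw [Finset.sum_add_distrib, ← hE]
      _ ≤ E * (E + 1 + Q) := by nlinarith
  -- comparison with the indicator
  have hI : ∀ (s : ℝ) θ θ', 2 * s * N θ θ' - s ^ 2 * N θ θ' ^ 2 ≤
      ind (∃ i j d, X i (θ i) = some d ∧ Y j (θ' j) = some d) := by
    intro s θ θ'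
    by_cases h : ∃ i j d, X i (θ i) = some d ∧ Y j (θ' j) = some d
    · rw [ind_true h]
      nlinarith [sq_nonneg (1 - s * N θ θ')]
    · have hN0 : N θ θ' = 0 := by
        rw [hN]
        apply Finset.sum_eq_zero
        intro d _
        rw [hXX, hYY]
        simp only
        rw [Finset.sum_mul_sum]
        apply Finset.sum_eq_zero
        intro i _
        apply Finset.sum_eq_zero
        intro j _
        by_cases h2 : X i (θ i) = some d
        · have h3 : ¬ (Y j (θ' j) = some d) := fun h3 => h ⟨i, j, d, h2, h3⟩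
          rw [ind_false h3, mul_zero]
        · rw [ind_false h2, zero_mul]
      rw [hN0, ind_false h]
      norm_num
  have key : ∀ s : ℝ, 2 * s * E - s ^ 2 * (E * (E + 1 + Q)) ≤ P := by
    intro s
    have e1 : EX v (fun θ => EX v' (fun θ' => 2 * s * N θ θ' + (-s ^ 2) * N θ θ' ^ 2)) ≤ P := by
      rw [hP]
      apply EX_mono v h0
      intro θ
      apply EX_mono v' h0'
      intro θ'
      have := hI s θ θ'
      linarith
    have e2 : EX v (fun θ => EX v' (fun θ' => 2 * s * N θ θ' + (-s ^ 2) * N θ θ' ^ 2)) =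
        2 * s * E + (-s ^ 2) * EX v (fun θ => EX v' (fun θ' => N θ θ' ^ 2)) := by
      have e3 : ∀ θ, EX v' (fun θ' => 2 * s * N θ θ' + (-s ^ 2) * N θ θ' ^ 2) =
          2 * s * EX v' (fun θ' => N θ θ') + (-s ^ 2) * EX v' (fun θ' => N θ θ' ^ 2) := by
        intro θ
        rw [EX_add, EX_smul, EX_smul]
      simp only [e3]
      rw [EX_add, EX_smul, EX_smul, m1]
    rw [e2] at e1
    nlinarith [mul_le_mul_of_nonneg_left m2 (sq_nonneg s)]
  have hpos : 0 < E + 1 + Q := by linarith
  have k := key (1 / (E + 1 + Q))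
  have k2 : 2 * (1 / (E + 1 + Q)) * E - (1 / (E + 1 + Q)) ^ 2 * (E * (E + 1 + Q)) =
      E / (E + 1 + Q) := by
    field_simp
    ring
  rw [k2, div_le_iff₀ hpos] at k
  linarith

end Pool.Agent.RST
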