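import Mathlib
import Pool.Agent.Lib_helper42.RST.Defs
import Pool.Agent.Lib_helper42.RST.Stmt
import Pool.Agent.Lib_helper42.RSTF.Base
import Pool.Agent.Lib_helper42.RSTF.CL
import Pool.Agent.Lib_helper42.RSTF.EE1
import Pool.Agent.Lib_helper42.RSTF.EX1
import Pool.Agent.Lib_helper42.RSTF.FB
import Pool.Agent.Lib_helper42.RSTF.GLW
import Pool.Agent.Lib_helper42.RSTF.LIFT

/- block HV proved by helper94 -/

set_option autoImplicit false
set_option linter.unusedSectionVars false
set_option linter.unusedVariables false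

open Finset

namespace Pool.Agent.RST

section HV
variable {V Ω : Type} [Fintype Ω] [Fintype V] [DecidableEq V]

theorem hv_sum_ind {D : Type} [Fintype D] [DecidableEq D] (e : D) (f : D → ℝ) :
    ∑ d, ind (e = d) * f d = f e := by
  rw [Finset.sum_eq_single e]
  · rw [ind_true rfl, one_mul]
  · intro d _ h
    rw [ind_false (fun h' => h h'.symm), zero_mul]
  · intro h; exact absurd (Finset.mem_univ _) h

theorem hv_ind_and (p q : Prop) : ind (p ∧ q) = ind p * ind q := by
  by_cases hp : p
  · by_cases hq : q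
    · rw [ind_true ⟨hp, hq⟩, ind_true hp, ind_true hq, one_mul]
    · rw [ind_false (fun h => hq h.2), ind_false hq, mul_zero]
  · rw [ind_false (fun h => hp h.1), ind_false hp, zero_mul]

/-- condition N for a list -/
def hvN (M : Mdl V Ω) (a : Ω → V → V) (x : V) (Wt : Set V) (k : List Ω) : Prop :=
  ∀ T, k.head? = some T → ∃ u ∈ Wt, Stp M T (a T x) u

/-- mass of a piece -/
noncomputable def hvH (M : Mdl V Ω) (pc : V → V) (a : Ω → V → V) (L : ℕ) (x : V) (d : V) : ℝ :=
  etaS M a L x (fun u => pc u = d)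

/-- mass of a piece, condition N -/
noncomputable def hvP (M : Mdl V Ω) (pc : V → V) (a : Ω → V → V) (L : ℕ) (x : V) (Wt : Set V)
    (d : V) : ℝ :=
  (∑ l ∈ range L, ∑ θ : Fin L → Ω, pw M.w L θ *
    ind (pc (ch a ((List.ofFn θ).take (l + 1)) x) = d ∧ hvN M a x Wt (List.ofFn θ))) / L

/-- good pieces -/
def hvGood (M : Mdl V Ω) (pc : V → V) (a : Ω → V → V) (L : ℕ) (M' : ℝ) (x : V) (Wt : Set V)
    (d : V) : Prop :=
  M' / Fintype.card V ≤ hvH M pc a L x d ∧ hvH M pc a L x d ≤ 2 * hvP M pc a L x Wt d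

theorem hvH_eq (M : Mdl V Ω) (pc : V → V) (a : Ω → V → V) (L : ℕ) (x : V) (d : V) :
    hvH M pc a L x d = (∑ l ∈ range L, ∑ θ : Fin L → Ω, pw M.w L θ *
      ind (pc (ch a ((List.ofFn θ).take (l + 1)) x) = d)) / L := by
  unfold hvH etaS etaH
  rw [Finset.sum_div]
  simp_rw [Finset.sum_div, Finset.sum_mul]
  rw [Finset.sum_comm]
  apply Finset.sum_congr rfl
  intro l hl
  have hl' : l + 1 ≤ L := Finset.mem_range.mp hl
  simp_rw [← gl_col M a x L (l + 1) hl']
  simp_rw [Finset.sum_div, Finset.sum_mul]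
  rw [Finset.sum_comm]
  apply Finset.sum_congr rfl
  intro θ _
  have : ∀ y : V, pw M.w L θ * ind (ch a ((List.ofFn θ).take (l + 1)) x = y) / L *
      ind (pc y = d) = ind (ch a ((List.ofFn θ).take (l + 1)) x = y) *
      (pw M.w L θ * ind (pc y = d) / L) := fun y => by ring
  simp_rw [this]
  rw [hv_sum_ind (ch a ((List.ofFn θ).take (l + 1)) x) (fun y => pw M.w L θ * ind (pc y = d) / L)]

theorem hvP_nonneg (M : Mdl V Ω) (pc : V → V) (a : Ω → V → V) (L : ℕ) (x : V) (Wt : Set V)
    (d : V) : 0 ≤ hvP M pc a L x Wt d := by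
  unfold hvP
  exact div_nonneg (Finset.sum_nonneg (fun l _ => Finset.sum_nonneg (fun θ _ =>
    mul_nonneg (pw_nonneg _ M.w0 _ _) (ind_nonneg _)))) (Nat.cast_nonneg _)

theorem hvP_le (M : Mdl V Ω) (pc : V → V) (a : Ω → V → V) (L : ℕ) (x : V) (Wt : Set V)
    (d : V) : hvP M pc a L x Wt d ≤ hvH M pc a L x d := by
  rw [hvH_eq]
  unfold hvP
  apply div_le_div_of_nonneg_right _ (Nat.cast_nonneg _)
  apply Finset.sum_le_sum; intro l _
  apply Finset.sum_le_sum; intro θ _
  exact mul_le_mul_of_nonneg_left (ind_mono (fun h => h.1)) (pw_nonneg _ M.w0 _ _)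

theorem hv_head (w : Ω → ℝ) (h1 : ∑ T, w T = 1) (L : ℕ) (hL : 1 ≤ L) (p : Ω → Prop) :
    ∑ θ : Fin L → Ω, pw w L θ * ind (∀ T, (List.ofFn θ).head? = some T → p T) =
      ∑ T, w T * ind (p T) := by
  obtain ⟨m, rfl⟩ : ∃ m, L = m + 1 := ⟨L - 1, by omega⟩
  have := EX_coord (ι := Fin (m + 1)) w h1 0 (fun T => ind (p T))
  rw [← this]
  unfold EX pw
  apply Finset.sum_congr rfl; intro θ _
  congr 1
  have : (∀ T, (List.ofFn θ).head? = some T → p T) ↔ p (θ 0) := by
    rw [List.ofFn_succ]
    simp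
  rw [this]

theorem hv_defect (M : Mdl V Ω) (pc : V → V) (a : Ω → V → V) (L : ℕ) (hL : 1 ≤ L) (x : V)
    (Wt : Set V) (cb : ℝ) (hN : CondN M a cb x Wt) :
    ∑ d, (hvH M pc a L x d - hvP M pc a L x Wt d) ≤ cb := by
  have hL0 : (0 : ℝ) < L := by exact_mod_cast hL
  rw [Finset.sum_sub_distrib]
  have e1 : ∑ d, hvH M pc a L x d = 1 := by
    unfold hvH etaS
    rw [Finset.sum_comm]
    simp_rw [← Finset.mul_sum]
    have : ∀ y : V, ∑ d, ind (pc y = d) = 1 := by
      intro y
      have := hv_sum_ind (pc y) (fun _ => (1 : ℝ))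
      simpa using this
    simp_rw [this, mul_one]
    exact etaH_sum M a L hL x
  have e2 : ∑ d, hvP M pc a L x Wt d =
      ∑ θ : Fin L → Ω, pw M.w L θ * ind (hvN M a x Wt (List.ofFn θ)) := by
    unfold hvP
    rw [← Finset.sum_div, Finset.sum_comm]
    have : ∀ l ∈ range L, ∑ d : V, ∑ θ : Fin L → Ω, pw M.w L θ *
        ind (pc (ch a ((List.ofFn θ).take (l + 1)) x) = d ∧ hvN M a x Wt (List.ofFn θ)) =
        ∑ θ : Fin L → Ω, pw M.w L θ * ind (hvN M a x Wt (List.ofFn θ)) := by
      intro l _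
      rw [Finset.sum_comm]
      apply Finset.sum_congr rfl; intro θ _
      rw [← Finset.mul_sum]
      congr 1
      simp_rw [hv_ind_and]
      rw [hv_sum_ind (pc (ch a ((List.ofFn θ).take (l + 1)) x))
        (fun _ => ind (hvN M a x Wt (List.ofFn θ)))]
    rw [Finset.sum_congr rfl this, Finset.sum_const, Finset.card_range, nsmul_eq_mul]
    field_simp
  rw [e1, e2]
  have e3 := hv_head M.w M.w1 L hL (fun T => ∃ u ∈ Wt, Stp M T (a T x) u)
  unfold hvN
  rw [e3]
  have : 1 - cb ≤ P1 M (fun T => ∃ u ∈ Wt, Stp M T (a T x) u) := hN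
  unfold P1 at this
  linarith

/-- the walk given by a collision -/
theorem hv_walk {M : Mdl V Ω} {pc : V → V} {a : Ω → V → V} (he : Ext M pc a)
    (L q : ℕ) (x : V) (Wt : Set V) (E1 E2 : List (List Ω))
    (hE1 : E1.map List.length = List.replicate L (L * q))
    (hE2 : E2.map List.length = List.replicate L (L * q)) (b b' : Fin (L * q))
    (h : pc (ch a ((col E1 b).take ((b : ℕ) % L + 1)) x) =
      pc (ch a ((col E2.reverse b').take ((b' : ℕ) % L + 1)) x))
    (hN : hvN M a x Wt (col E2.reverse b')) :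
    ∃ u ∈ Wt, PW M pc (E1 ++ E2) x u ∅ := by
  have hl : ∀ E : List (List Ω), E.map List.length = List.replicate L (L * q) →
      (∀ e ∈ E, e.length = L * q) ∧ E.length = L := by
    intro E hE
    constructor
    · intro e he
      have : e.length ∈ E.map List.length := List.mem_map_of_mem he
      rw [hE] at this
      exact (List.mem_replicate.mp this).2
    · have := congrArg List.length hE
      simpa using this
  obtain ⟨h1, h1L⟩ := hl E1 hE1
  obtain ⟨h2, h2L⟩ := hl E2 hE2
  have hL0 : 0 < L := by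
    rcases Nat.eq_zero_or_pos L with h0 | h0
    · exfalso
      have h3 : L * q = 0 := by rw [h0, Nat.zero_mul]
      have := b.2
      omega
    · exact h0
  have hb : (b : ℕ) % L + 1 ≤ L := Nat.mod_lt _ hL0
  have hb' : (b' : ℕ) % L + 1 ≤ L := Nat.mod_lt _ hL0
  have f1 := fwd he E1 (L * q) b h1 b.2 ((b : ℕ) % L + 1) (by rw [h1L]; exact hb) x
  obtain ⟨u, hu, f2⟩ := bwd he E2 (L * q) b' h2 b'.2 ((b' : ℕ) % L + 1) (by omega)
    (by rw [h2L]; exact hb') x Wt hN (ch a ((col E1 b).take ((b : ℕ) % L + 1)) x) h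
  refine ⟨u, hu, ?_⟩
  exact PW_mono M pc (PW_append M pc f1 rfl f2) (Finset.empty_subset _)

theorem heavy_exit {M : Mdl V Ω} {pc : V → V} {a : Ω → V → V} (he : Ext M pc a)
    (hid : ∀ z, pc (pc z) = pc z) (L q : ℕ) (hL : 1 ≤ L) (hq : 1 ≤ q) (x : V) (Wt : Set V)
    (cb M' δ14 : ℝ) (hcb0 : 0 ≤ cb) (hN : CondN M a cb x Wt) (hM' : 0 < M') (hδ : 0 < δ14)
    (hheavy : δ14 ≤ etaS M a L x (fun z => Hvy M pc a L M' x z)) (hcb : 4 * cb ≤ δ14)
    (hP : 1600 * (Fintype.card V : ℝ) ≤ ((L * q : ℕ) : ℝ) ^ 2 * M' * δ14) :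
    3 / 4 ≤ EE M.w (List.replicate L (L * q) ++ List.replicate L (L * q))
      (fun E => ind (∃ u ∈ Wt, PW M pc E x u ∅)) := by
  classical
  have hL0 : (0 : ℝ) < L := by exact_mod_cast hL
  have hn : (0 : ℝ) < Fintype.card V := by
    exact_mod_cast Fintype.card_pos_iff.mpr ⟨x⟩
  set good : V → Prop := hvGood M pc a L M' x Wt with hgood
  set X : Fin (L * q) → List Ω → Option V := fun b k =>
    if good (pc (ch a (k.take ((b : ℕ) % L + 1)) x)) then
      some (pc (ch a (k.take ((b : ℕ) % L + 1)) x)) else none with hX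
  set Y : Fin (L * q) → List Ω → Option V := fun b k =>
    if good (pc (ch a (k.take ((b : ℕ) % L + 1)) x)) ∧ hvN M a x Wt k then
      some (pc (ch a (k.take ((b : ℕ) % L + 1)) x)) else none with hY
  have hXs : ∀ b k d, X b k = some d ↔ (pc (ch a (k.take ((b : ℕ) % L + 1)) x) = d ∧ good d) := by
    intro b k d
    simp only [hX]
    split_ifs with h
    · constructor
      · intro h'
        have := Option.some.inj h'
        exact ⟨this, this ▸ h⟩
      · rintro ⟨h', _⟩; rw [h']
    · constructor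
      · intro h'; exact absurd h' (by simp)
      · rintro ⟨h', h''⟩; rw [h'] at h; exact absurd h'' h
  have hYs : ∀ b k d, Y b k = some d ↔
      ((pc (ch a (k.take ((b : ℕ) % L + 1)) x) = d ∧ hvN M a x Wt k) ∧ good d) := by
    intro b k d
    simp only [hY]
    split_ifs with h
    · constructor
      · intro h'
        have := Option.some.inj h'
        exact ⟨⟨this, h.2⟩, this ▸ h.1⟩
      · rintro ⟨⟨h', _⟩, _⟩; rw [h']
    · constructor
      · intro h'; exact absurd h' (by simp)
      · rintro ⟨⟨h', h''⟩, h3⟩; rw [h'] at h; exact absurd ⟨h3, h''⟩ h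
  set J : (Fin (L * q) → List Ω) → (Fin (L * q) → List Ω) → Prop := fun C1 C2 =>
    ∃ i j d, X i (C1 i) = some d ∧ Y j (C2 j) = some d with hJ
  -- reduction to the collision
  have hred : EX (ι := Fin (L * q)) (pw M.w L) (fun κ => EX (ι := Fin (L * q)) (pw M.w L)
      (fun κ' => ind (J (fun b => List.ofFn (κ b)) (fun b => List.ofFn (κ' b))))) ≤
      EE M.w (List.replicate L (L * q) ++ List.replicate L (L * q))
      (fun E => ind (∃ u ∈ Wt, PW M pc E x u ∅)) := by
    rw [EE_append, ← EE_cols M.w L (L * q) (fun C1 => EX (ι := Fin (L * q)) (pw M.w L)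
      (fun κ' => ind (J C1 (fun b => List.ofFn (κ' b)))))]
    apply EE_mono M.w M.w0
    intro E1 hE1
    rw [← EE_cols M.w L (L * q) (fun C2 => ind (J (fun b => col E1 b) C2)),
      ← EE_reverse M.w L (L * q) (fun E => ind (J (fun b => col E1 b) (fun b => col E b)))]
    apply EE_mono M.w M.w0
    intro E2 hE2
    apply ind_mono
    rintro ⟨b, b', d, hb, hb'⟩
    rw [hXs] at hb
    rw [hYs] at hb'
    exact hv_walk he L q x Wt E1 E2 hE1 hE2 b b' (hb.1.trans hb'.1.1.symm) hb'.1.2
  refine le_trans ?_ hred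
  -- the collision lemma
  set A : V → ℝ := fun d => ((L * q : ℕ) : ℝ) * hvH M pc a L x d * ind (good d) with hA
  set B : V → ℝ := fun d => ((L * q : ℕ) : ℝ) * hvP M pc a L x Wt d * ind (good d) with hB
  have hAeq : ∀ d, A d = ∑ i : Fin (L * q), ∑ t : Fin L → Ω, pw M.w L t *
      ind (X i (List.ofFn t) = some d) := by
    intro d
    have e1 : ∀ i : Fin (L * q), ∑ t : Fin L → Ω, pw M.w L t * ind (X i (List.ofFn t) = some d) =
        (fun l => ∑ t : Fin L → Ω, pw M.w L t *
          ind (pc (ch a ((List.ofFn t).take l) x) = d) * ind (good d)) ((i : ℕ) % L + 1) := by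
      intro i
      apply Finset.sum_congr rfl; intro t _
      rw [propext (hXs i (List.ofFn t) d), hv_ind_and]
      ring
    rw [Finset.sum_congr rfl (fun i _ => e1 i), sum_levels L q hL
      (fun l => ∑ t : Fin L → Ω, pw M.w L t *
          ind (pc (ch a ((List.ofFn t).take l) x) = d) * ind (good d))]
    simp only [hA]
    rw [hvH_eq]
    simp_rw [← Finset.sum_mul]
    push_cast
    field_simp
  have hBeq : ∀ d, B d = ∑ i : Fin (L * q), ∑ t : Fin L → Ω, pw M.w L t *
      ind (Y i (List.ofFn t) = some d) := by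
    intro d
    have e1 : ∀ i : Fin (L * q), ∑ t : Fin L → Ω, pw M.w L t * ind (Y i (List.ofFn t) = some d) =
        (fun l => ∑ t : Fin L → Ω, pw M.w L t *
          ind (pc (ch a ((List.ofFn t).take l) x) = d ∧ hvN M a x Wt (List.ofFn t)) *
            ind (good d)) ((i : ℕ) % L + 1) := by
      intro i
      apply Finset.sum_congr rfl; intro t _
      rw [propext (hYs i (List.ofFn t) d), hv_ind_and]
      ring
    rw [Finset.sum_congr rfl (fun i _ => e1 i), sum_levels L q hL
      (fun l => ∑ t : Fin L → Ω, pw M.w L t *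
          ind (pc (ch a ((List.ofFn t).take l) x) = d ∧ hvN M a x Wt (List.ofFn t)) *
            ind (good d))]
    simp only [hB]
    unfold hvP
    simp_rw [← Finset.sum_mul]
    push_cast
    field_simp
  have hP0 : 0 ≤ ((L * q : ℕ) : ℝ) := Nat.cast_nonneg _
  set E : ℝ := ∑ d, A d * B d with hE
  have hp0 := fun d => hvP_nonneg M pc a L x Wt d
  have hple := fun d => hvP_le M pc a L x Wt d
  have hA0 : ∀ d, 0 ≤ A d := fun d => mul_nonneg (mul_nonneg hP0 ((hp0 d).trans (hple d)))
    (ind_nonneg _)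
  have hB0 : ∀ d, 0 ≤ B d := fun d => mul_nonneg (mul_nonneg hP0 (hp0 d)) (ind_nonneg _)
  have hBA : ∀ d, B d ≤ A d := fun d => by
    simp only [hA, hB]
    exact mul_le_mul_of_nonneg_right (mul_le_mul_of_nonneg_left (hple d) hP0) (ind_nonneg _)
  have hA2B : ∀ d, A d ≤ 2 * B d := fun d => by
    simp only [hA, hB]
    by_cases hg : good d
    · rw [ind_true hg, mul_one, mul_one]
      have := mul_le_mul_of_nonneg_left hg.2 hP0
      linarith
    · rw [ind_false hg]; simp
  -- mass of good pieces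
  have hmass : δ14 / 2 ≤ ∑ d, hvH M pc a L x d * ind (good d) := by
    have e1 : etaS M a L x (fun z => Hvy M pc a L M' x z) =
        ∑ d, hvH M pc a L x d * ind (M' / Fintype.card V ≤ hvH M pc a L x d) := by
      have : ∀ d, hvH M pc a L x d * ind (M' / Fintype.card V ≤ hvH M pc a L x d) =
          ∑ z, ind (pc z = d) * (etaH M a L x z * ind (M' / Fintype.card V ≤ hvH M pc a L x d)) := by
        intro d
        conv_lhs => rw [hvH, etaS]
        rw [Finset.sum_mul]
        apply Finset.sum_congr rfl; intro z _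
        unfold hvH etaS
        ring
      rw [Finset.sum_congr rfl (fun d _ => this d), Finset.sum_comm]
      unfold etaS
      apply Finset.sum_congr rfl; intro z _
      rw [hv_sum_ind (pc z) (fun d => etaH M a L x z *
        ind (M' / Fintype.card V ≤ hvH M pc a L x d))]
      rfl
    have e2 : ∑ d, hvH M pc a L x d * ind (M' / Fintype.card V ≤ hvH M pc a L x d) ≤
        ∑ d, (hvH M pc a L x d * ind (good d) + 2 * (hvH M pc a L x d - hvP M pc a L x Wt d)) := by
      apply Finset.sum_le_sum; intro d _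
      have h1 := hple d
      have h2 := hp0 d
      by_cases hh : M' / Fintype.card V ≤ hvH M pc a L x d
      · rw [ind_true hh]
        by_cases hg : good d
        · rw [ind_true hg]; linarith
        · rw [ind_false hg]
          have : ¬ hvH M pc a L x d ≤ 2 * hvP M pc a L x Wt d := fun h => hg ⟨hh, h⟩
          push Not at this
          linarith
      · rw [ind_false hh]
        have : 0 ≤ hvH M pc a L x d * ind (good d) :=
          mul_nonneg (h2.trans h1) (ind_nonneg _)
        linarith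
    rw [Finset.sum_add_distrib, ← Finset.mul_sum] at e2
    have e3 := hv_defect M pc a L hL x Wt cb hN
    rw [e1] at hheavy
    linarith
  have hE400 : 400 ≤ E := by
    have e1 : ((L * q : ℕ) : ℝ) ^ 2 * (M' / Fintype.card V) / 2 *
        (∑ d, hvH M pc a L x d * ind (good d)) ≤ E := by
      rw [hE, Finset.mul_sum]
      apply Finset.sum_le_sum; intro d _
      by_cases hg : good d
      · simp only [hA, hB]
        rw [ind_true hg, mul_one, mul_one, mul_one]
        have h1 := hg.1
        have h2 := hg.2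
        have h3 : 0 ≤ hvH M pc a L x d := (hp0 d).trans (hple d)
        have h4 : M' / Fintype.card V * (hvH M pc a L x d / 2) ≤
            hvH M pc a L x d * hvP M pc a L x Wt d := by
          apply mul_le_mul h1 (by linarith) (by linarith) h3
        have h5 := mul_le_mul_of_nonneg_left h4 (sq_nonneg ((L * q : ℕ) : ℝ))
        calc ((L * q : ℕ) : ℝ) ^ 2 * (M' / Fintype.card V) / 2 * hvH M pc a L x d
            = ((L * q : ℕ) : ℝ) ^ 2 * (M' / Fintype.card V * (hvH M pc a L x d / 2)) := by ring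
          _ ≤ _ := h5
          _ = _ := by ring
      · simp only [hA, hB]
        rw [ind_false hg]; simp
    have e2 : 0 ≤ ((L * q : ℕ) : ℝ) ^ 2 * (M' / Fintype.card V) / 2 := by positivity
    have e3 := mul_le_mul_of_nonneg_left hmass e2
    have e4 : 400 ≤ ((L * q : ℕ) : ℝ) ^ 2 * (M' / Fintype.card V) / 2 * (δ14 / 2) := by
      have : ((L * q : ℕ) : ℝ) ^ 2 * (M' / Fintype.card V) / 2 * (δ14 / 2) =
        ((L * q : ℕ) : ℝ) ^ 2 * M' * δ14 / (4 * Fintype.card V) := by
        field_simp; norm_num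
      rw [this, le_div_iff₀ (by positivity)]
      linarith
    linarith
  set r : ℝ := Real.sqrt (2 * E) with hr
  have hr0 : 0 ≤ r := Real.sqrt_nonneg _
  have hr2 : r ^ 2 = 2 * E := Real.sq_sqrt (by linarith)
  have hr28 : 28 ≤ r := by
    rw [hr]
    apply Real.le_sqrt_of_sq_le
    linarith
  have hAr : ∀ d, A d ≤ r := by
    intro d
    rw [hr]
    apply Real.le_sqrt_of_sq_le
    have h1 : A d * B d ≤ E := by
      rw [hE]
      exact Finset.single_le_sum (f := fun d => A d * B d)
        (fun d _ => mul_nonneg (hA0 d) (hB0 d)) (Finset.mem_univ d)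
    have h2 := mul_le_mul_of_nonneg_left (hA2B d) (hA0 d)
    nlinarith
  have hcol := collision (pw M.w L) (pw M.w L) (fun t => pw_nonneg _ M.w0 _ _)
    (pw_sum M.w M.w1 L) (fun t => pw_nonneg _ M.w0 _ _) (pw_sum M.w M.w1 L)
    (fun i t => X i (List.ofFn t)) (fun i t => Y i (List.ofFn t)) A B hAeq hBeq E (2 * r) rfl
    (by linarith) (by
      rw [hE, Finset.mul_sum]
      apply Finset.sum_le_sum; intro d _
      have h1 := hAr d
      have h2 := hBA d
      have h3 := mul_nonneg (hA0 d) (hB0 d)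
      have h4 := mul_le_mul_of_nonneg_right h1 h3
      have h5 := mul_le_mul_of_nonneg_right (h2.trans h1) h3
      nlinarith)
  set Z : ℝ := EX (ι := Fin (L * q)) (pw M.w L) (fun κ => EX (ι := Fin (L * q)) (pw M.w L)
      (fun κ' => ind (J (fun b => List.ofFn (κ b)) (fun b => List.ofFn (κ' b))))) with hZ
  have hcol' : E ≤ (E + 1 + 2 * r) * Z := hcol
  by_contra hlt
  push Not at hlt
  have h6 : (E + 1 + 2 * r) * Z ≤ (E + 1 + 2 * r) * (3 / 4) :=
    mul_le_mul_of_nonneg_left hlt.le (by linarith)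
  nlinarith

end HV

end Pool.Agent.RST
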