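import Mathlib
import Pool.Agent.Lib_helper42.RST.Defs
import Pool.Agent.Lib_helper42.RST.Stmt
import Pool.Agent.Lib_helper42.RSTF.Base
import Pool.Agent.Lib_helper42.RSTF.EX1

/- block NL proved by helper94 -/

set_option autoImplicit false
set_option linter.unusedSectionVars false

open Finset

namespace Pool.Agent.RST

section NL

variable {Θ Ω Θ' ι κ D : Type} [Fintype Θ] [Fintype Ω] [Fintype Θ'] [Fintype ι]
    [Fintype κ] [Fintype D] [DecidableEq ι] [DecidableEq κ] [DecidableEq D]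

theorem nl_EX_sub (v : Θ → ℝ) (F G : (ι → Θ) → ℝ) (h : ∀ θ, F θ = G θ) : EX v F = EX v G := by
  have : F = G := funext h
  rw [this]

theorem nl_ind_sq (p : Prop) : ind p * ind p = ind p := by
  by_cases h : p
  · rw [ind_true h]; norm_num
  · rw [ind_false h]; norm_num

theorem nl_ind_some (o : Option D) (d d' : D) (h : d ≠ d') :
    ind (o = some d) * ind (o = some d') = 0 := by
  by_cases h1 : o = some d
  · have h2 : ¬ o = some d' := by
      rw [h1]; intro h3; exact h (Option.some.inj h3)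
    rw [ind_false h2, mul_zero]
  · rw [ind_false h1, zero_mul]

/-- square of a function of an option -/
theorem nl_sq (o : Option D) (g : D → ℝ) :
    (∑ d, g d * ind (o = some d)) * (∑ d, g d * ind (o = some d)) =
      ∑ d, g d ^ 2 * ind (o = some d) := by
  rw [Finset.sum_mul_sum]
  apply Finset.sum_congr rfl
  intro d _
  rw [Finset.sum_eq_single d]
  · have := nl_ind_sq (o = some d)
    calc g d * ind (o = some d) * (g d * ind (o = some d))
        = g d ^ 2 * (ind (o = some d) * ind (o = some d)) := by ring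
      _ = _ := by rw [this]
  · intro d' _ hd
    have := nl_ind_some o d d' (Ne.symm hd)
    calc g d * ind (o = some d) * (g d' * ind (o = some d'))
        = g d * g d' * (ind (o = some d) * ind (o = some d')) := by ring
      _ = 0 := by rw [this, mul_zero]
  · intro h; exact absurd (Finset.mem_univ _) h

/-- first moment over the second family -/
theorem nl_first (v' : Θ' → ℝ) (h1' : ∑ t, v' t = 1) (Y : κ → Θ' → Option D) (B g : D → ℝ)
    (hB : ∀ d, B d = ∑ j, ∑ t, v' t * ind (Y j t = some d)) :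
    EX v' (fun θ' : κ → Θ' => ∑ j, ∑ d, g d * ind (Y j (θ' j) = some d)) = ∑ d, g d * B d := by
  rw [EX_sum v' Finset.univ (fun j (θ' : κ → Θ') => ∑ d, g d * ind (Y j (θ' j) = some d))]
  have h : ∀ j : κ, EX v' (fun θ' : κ → Θ' => ∑ d, g d * ind (Y j (θ' j) = some d)) =
      ∑ d, g d * ∑ t, v' t * ind (Y j t = some d) := by
    intro j
    rw [EX_coord v' h1' j (fun t => ∑ d, g d * ind (Y j t = some d))]
    simp_rw [Finset.mul_sum]
    rw [Finset.sum_comm]
    apply Finset.sum_congr rfl; intro d _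
    apply Finset.sum_congr rfl; intro t _
    ring
  rw [Finset.sum_congr rfl (fun j _ => h j), Finset.sum_comm]
  apply Finset.sum_congr rfl; intro d _
  rw [← Finset.mul_sum, hB]

/-- second moment over the second family -/
theorem nl_second (v' : Θ' → ℝ) (h0' : ∀ t, 0 ≤ v' t) (h1' : ∑ t, v' t = 1)
    (Y : κ → Θ' → Option D) (B g : D → ℝ) (hg : ∀ d, 0 ≤ g d)
    (hB : ∀ d, B d = ∑ j, ∑ t, v' t * ind (Y j t = some d)) :
    EX v' (fun θ' : κ → Θ' => (∑ j, ∑ d, g d * ind (Y j (θ' j) = some d)) ^ 2) ≤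
      (∑ d, g d * B d) ^ 2 + ∑ d, g d ^ 2 * B d := by
  set hh : κ → Θ' → ℝ := fun j t => ∑ d, g d * ind (Y j t = some d) with hhdef
  have hh0 : ∀ j t, 0 ≤ hh j t := fun j t =>
    Finset.sum_nonneg (fun d _ => mul_nonneg (hg d) (ind_nonneg _))
  set m : κ → ℝ := fun j => ∑ t, v' t * hh j t with hm
  have hm0 : ∀ j, 0 ≤ m j := fun j => Finset.sum_nonneg (fun t _ => mul_nonneg (h0' t) (hh0 j t))
  have hmsum : ∑ j, m j = ∑ d, g d * B d := by
    rw [← nl_first v' h1' Y B g hB,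
      EX_sum v' Finset.univ (fun j (θ' : κ → Θ') => ∑ d, g d * ind (Y j (θ' j) = some d))]
    apply Finset.sum_congr rfl; intro j _
    rw [EX_coord v' h1' j (hh j)]
  have hexp : ∀ θ' : κ → Θ', (∑ j, ∑ d, g d * ind (Y j (θ' j) = some d)) ^ 2 =
      ∑ j, ∑ j', hh j (θ' j) * hh j' (θ' j') := by
    intro θ'
    rw [sq, Finset.sum_mul_sum]
  rw [nl_EX_sub v' _ _ hexp,
    EX_sum v' Finset.univ (fun j (θ' : κ → Θ') => ∑ j', hh j (θ' j) * hh j' (θ' j'))]
  have hpair : ∀ j : κ, EX v' (fun θ' : κ → Θ' => ∑ j', hh j (θ' j) * hh j' (θ' j')) ≤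
      (∑ j', m j * m j') + ∑ t, v' t * (hh j t * hh j t) := by
    intro j
    rw [EX_sum v' Finset.univ (fun j' (θ' : κ → Θ') => hh j (θ' j) * hh j' (θ' j'))]
    have hsq0 : 0 ≤ ∑ t, v' t * (hh j t * hh j t) :=
      Finset.sum_nonneg (fun t _ => mul_nonneg (h0' t) (mul_nonneg (hh0 j t) (hh0 j t)))
    have e : (∑ t, v' t * (hh j t * hh j t)) =
        ∑ j', (if j' = j then ∑ t, v' t * (hh j t * hh j t) else 0) := by
      rw [Finset.sum_ite_eq' Finset.univ j]; simp
    rw [e, ← Finset.sum_add_distrib]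
    apply Finset.sum_le_sum
    intro j' _
    by_cases hj : j' = j
    · subst hj
      rw [if_pos rfl, EX_coord v' h1' j' (fun t => hh j' t * hh j' t)]
      have := mul_nonneg (hm0 j') (hm0 j')
      linarith
    · rw [if_neg hj, add_zero, EX_coord2 v' h1' j j' (Ne.symm hj) (fun t t' => hh j t * hh j' t')]
      apply le_of_eq
      simp only [hm]
      rw [Finset.sum_mul_sum]
      apply Finset.sum_congr rfl; intro t _
      rw [Finset.mul_sum]
      apply Finset.sum_congr rfl; intro t' _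
      ring
  calc ∑ j, EX v' (fun θ' : κ → Θ' => ∑ j', hh j (θ' j) * hh j' (θ' j'))
      ≤ ∑ j, ((∑ j', m j * m j') + ∑ t, v' t * (hh j t * hh j t)) :=
        Finset.sum_le_sum (fun j _ => hpair j)
    _ = (∑ j, m j) ^ 2 + ∑ j, ∑ t, v' t * (hh j t * hh j t) := by
        rw [Finset.sum_add_distrib, sq, Finset.sum_mul_sum]
    _ = (∑ d, g d * B d) ^ 2 + ∑ d, g d ^ 2 * B d := by
        rw [hmsum]
        congr 1
        have e1 : ∀ j : κ, ∑ t, v' t * (hh j t * hh j t) =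
            ∑ d, g d ^ 2 * ∑ t, v' t * ind (Y j t = some d) := by
          intro j
          simp only [hhdef]
          simp_rw [nl_sq, Finset.mul_sum]
          rw [Finset.sum_comm]
          apply Finset.sum_congr rfl; intro d _
          apply Finset.sum_congr rfl; intro t _
          ring
        rw [Finset.sum_congr rfl (fun j _ => e1 j), Finset.sum_comm]
        apply Finset.sum_congr rfl; intro d _
        rw [← Finset.mul_sum, hB]

/-! pairs of indices `(i, t)` -/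

section pairs
variable (v : Θ → ℝ) (w : Ω → ℝ) {P : ℕ}

/-- double expectation -/
noncomputable def nlE (v : Θ → ℝ) (w : Ω → ℝ) (F : (ι → Θ) → (Fin P → Ω) → ℝ) : ℝ :=
  EX v (fun θ : ι → Θ => EX w (fun τ : Fin P → Ω => F θ τ))

theorem nlE_sum {α : Type} (S : Finset α) (F : α → (ι → Θ) → (Fin P → Ω) → ℝ) :
    nlE v w (fun θ τ => ∑ a ∈ S, F a θ τ) = ∑ a ∈ S, nlE v w (F a) := by
  unfold nlE
  rw [← EX_sum]
  apply nl_EX_sub
  intro θ
  rw [EX_sum]

theorem nlE_smul (c : ℝ) (F : (ι → Θ) → (Fin P → Ω) → ℝ) :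
    nlE v w (fun θ τ => c * F θ τ) = c * nlE v w F := by
  unfold nlE
  rw [← EX_smul]
  apply nl_EX_sub
  intro θ
  rw [EX_smul]

theorem nlE_mono (h0 : ∀ t, 0 ≤ v t) (hw0 : ∀ t, 0 ≤ w t) (F G : (ι → Θ) → (Fin P → Ω) → ℝ)
    (h : ∀ θ τ, F θ τ ≤ G θ τ) : nlE v w F ≤ nlE v w G :=
  EX_mono v h0 _ _ (fun θ => EX_mono w hw0 _ _ (fun τ => h θ τ))

theorem nlE_one (h1 : ∑ t, v t = 1) (hw1 : ∑ t, w t = 1) (i : ι) (t : Fin P) (f : Θ → Ω → ℝ) :
    nlE v w (fun (θ : ι → Θ) τ => f (θ i) (τ t)) = ∑ a, v a * ∑ T, w T * f a T := by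
  unfold nlE
  have : ∀ θ : ι → Θ, EX w (fun τ : Fin P → Ω => f (θ i) (τ t)) = ∑ T, w T * f (θ i) T :=
    fun θ => EX_coord w hw1 t (fun T => f (θ i) T)
  rw [nl_EX_sub v _ _ this, EX_coord v h1 i (fun a => ∑ T, w T * f a T)]

theorem nlE_two (h1 : ∑ t, v t = 1) (hw1 : ∑ t, w t = 1) (i i' : ι) (hi : i ≠ i')
    (t t' : Fin P) (ht : t ≠ t') (f g : Θ → Ω → ℝ) :
    nlE v w (fun (θ : ι → Θ) τ => f (θ i) (τ t) * g (θ i') (τ t')) =
      (∑ a, v a * ∑ T, w T * f a T) * (∑ a, v a * ∑ T, w T * g a T) := by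
  unfold nlE
  have : ∀ θ : ι → Θ, EX w (fun τ : Fin P → Ω => f (θ i) (τ t) * g (θ i') (τ t')) =
      (∑ T, w T * f (θ i) T) * (∑ T, w T * g (θ i') T) := by
    intro θ
    rw [EX_coord2 w hw1 t t' ht (fun T T' => f (θ i) T * g (θ i') T'), Finset.sum_mul_sum]
    apply Finset.sum_congr rfl; intro T _
    rw [Finset.mul_sum]
    apply Finset.sum_congr rfl; intro T' _
    ring
  rw [nl_EX_sub v _ _ this,
    EX_coord2 v h1 i i' hi (fun a a' => (∑ T, w T * f a T) * (∑ T, w T * g a' T)),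
    Finset.sum_mul_sum]
  apply Finset.sum_congr rfl; intro a _
  rw [Finset.mul_sum]
  apply Finset.sum_congr rfl; intro a' _
  ring

theorem nlE_sameI (h1 : ∑ t, v t = 1) (hw1 : ∑ t, w t = 1) (i : ι)
    (t t' : Fin P) (ht : t ≠ t') (f g : Θ → Ω → ℝ) :
    nlE v w (fun (θ : ι → Θ) τ => f (θ i) (τ t) * g (θ i) (τ t')) =
      ∑ a, v a * ((∑ T, w T * f a T) * (∑ T, w T * g a T)) := by
  unfold nlE
  have : ∀ θ : ι → Θ, EX w (fun τ : Fin P → Ω => f (θ i) (τ t) * g (θ i) (τ t')) =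
      (∑ T, w T * f (θ i) T) * (∑ T, w T * g (θ i) T) := by
    intro θ
    rw [EX_coord2 w hw1 t t' ht (fun T T' => f (θ i) T * g (θ i) T'), Finset.sum_mul_sum]
    apply Finset.sum_congr rfl; intro T _
    rw [Finset.mul_sum]
    apply Finset.sum_congr rfl; intro T' _
    ring
  rw [nl_EX_sub v _ _ this,
    EX_coord v h1 i (fun a => (∑ T, w T * f a T) * (∑ T, w T * g a T))]

theorem nlE_sameT (h1 : ∑ t, v t = 1) (hw1 : ∑ t, w t = 1) (i i' : ι) (hi : i ≠ i')
    (t : Fin P) (f g : Θ → Ω → ℝ) :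
    nlE v w (fun (θ : ι → Θ) τ => f (θ i) (τ t) * g (θ i') (τ t)) =
      ∑ a, v a * ∑ T, w T * (f a T * ∑ a', v a' * g a' T) := by
  unfold nlE
  have : ∀ θ : ι → Θ, EX w (fun τ : Fin P → Ω => f (θ i) (τ t) * g (θ i') (τ t)) =
      ∑ T, w T * (f (θ i) T * g (θ i') T) := by
    intro θ
    rw [EX_coord w hw1 t (fun T => f (θ i) T * g (θ i') T)]
  rw [nl_EX_sub v _ _ this,
    EX_coord2 v h1 i i' hi (fun a a' => ∑ T, w T * (f a T * g a' T))]
  apply Finset.sum_congr rfl; intro a _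
  congr 1
  simp_rw [Finset.mul_sum]
  rw [Finset.sum_comm]
  apply Finset.sum_congr rfl; intro T _
  apply Finset.sum_congr rfl; intro a' _
  ring

theorem nlE_same (h1 : ∑ t, v t = 1) (hw1 : ∑ t, w t = 1) (i : ι)
    (t : Fin P) (f g : Θ → Ω → ℝ) :
    nlE v w (fun (θ : ι → Θ) τ => f (θ i) (τ t) * g (θ i) (τ t)) =
      ∑ a, v a * ∑ T, w T * (f a T * g a T) :=
  nlE_one v w h1 hw1 i t (fun a T => f a T * g a T)

end pairs


section moments
variable (v : Θ → ℝ) (w : Ω → ℝ) (h0 : ∀ t, 0 ≤ v t) (h1 : ∑ t, v t = 1)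
    (hw0 : ∀ t, 0 ≤ w t) (hw1 : ∑ t, w t = 1) (P : ℕ)

theorem nl_cnt1 (i : ι) : ∑ p : ι × Fin P, (if p.1 = i then (1 : ℝ) else 0) = P := by
  rw [Fintype.sum_prod_type, Finset.sum_eq_single i]
  · simp
  · intro i' _ h
    simp [h]
  · intro h; exact absurd (Finset.mem_univ _) h

theorem nl_cnt2 (t : Fin P) : ∑ p : ι × Fin P, (if p.2 = t then (1 : ℝ) else 0) =
    Fintype.card ι := by
  rw [Fintype.sum_prod_type]
  simp

theorem nl_sumP (f : ι → ℝ) : ∑ p : ι × Fin P, f p.1 = P * ∑ i, f i := by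
  rw [Fintype.sum_prod_type, Finset.mul_sum]
  apply Finset.sum_congr rfl; intro i _
  simp

include h0 h1 hw0 hw1 in
/-- first term of the second moment -/
theorem nl_m1 (b : ι → Θ → Ω → ℝ) (hb0 : ∀ i a T, 0 ≤ b i a T) (β0 : ℝ) (hβ0 : 0 ≤ β0)
    (hb : ∀ i a T, b i a T ≤ β0) (S : ℝ)
    (hS : S = P * ∑ i, ∑ a, v a * ∑ T, w T * b i a T) :
    nlE v w (fun (θ : ι → Θ) (τ : Fin P → Ω) => (∑ p : ι × Fin P, b p.1 (θ p.1) (τ p.2)) ^ 2) ≤
      S ^ 2 + (P + Fintype.card ι) * β0 * S := by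
  set mb : ι → ℝ := fun i => ∑ a, v a * ∑ T, w T * b i a T with hmb
  have hmb0 : ∀ i, 0 ≤ mb i := fun i => Finset.sum_nonneg (fun a _ => mul_nonneg (h0 a)
    (Finset.sum_nonneg (fun T _ => mul_nonneg (hw0 T) (hb0 i a T))))
  have hexp : (fun (θ : ι → Θ) (τ : Fin P → Ω) => (∑ p : ι × Fin P, b p.1 (θ p.1) (τ p.2)) ^ 2) =
      fun θ τ => ∑ p : ι × Fin P, ∑ p' : ι × Fin P,
        b p.1 (θ p.1) (τ p.2) * b p'.1 (θ p'.1) (τ p'.2) := by
    funext θ τ
    rw [sq, Finset.sum_mul_sum]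
  rw [hexp, nlE_sum v w Finset.univ (fun (p : ι × Fin P) θ τ => ∑ p' : ι × Fin P,
        b p.1 (θ p.1) (τ p.2) * b p'.1 (θ p'.1) (τ p'.2))]
  have hp : ∀ p : ι × Fin P, nlE v w (fun (θ : ι → Θ) (τ : Fin P → Ω) => ∑ p' : ι × Fin P,
        b p.1 (θ p.1) (τ p.2) * b p'.1 (θ p'.1) (τ p'.2)) ≤
      ∑ p' : ι × Fin P, (mb p.1 * mb p'.1 + ((if p'.1 = p.1 then (1 : ℝ) else 0) +
        (if p'.2 = p.2 then (1 : ℝ) else 0)) * (β0 * mb p.1)) := by
    intro p
    rw [nlE_sum v w Finset.univ (fun (p' : ι × Fin P) θ τ =>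
        b p.1 (θ p.1) (τ p.2) * b p'.1 (θ p'.1) (τ p'.2))]
    apply Finset.sum_le_sum
    intro p' _
    have hββ : 0 ≤ β0 * mb p.1 := mul_nonneg hβ0 (hmb0 _)
    have hmm : 0 ≤ mb p.1 * mb p'.1 := mul_nonneg (hmb0 _) (hmb0 _)
    have hbd : nlE v w (fun (θ : ι → Θ) (τ : Fin P → Ω) =>
        b p.1 (θ p.1) (τ p.2) * b p'.1 (θ p'.1) (τ p'.2)) ≤ β0 * mb p.1 := by
      calc nlE v w (fun (θ : ι → Θ) (τ : Fin P → Ω) =>
            b p.1 (θ p.1) (τ p.2) * b p'.1 (θ p'.1) (τ p'.2))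
          ≤ nlE v w (fun (θ : ι → Θ) (τ : Fin P → Ω) => β0 * b p.1 (θ p.1) (τ p.2)) := by
            apply nlE_mono v w h0 hw0
            intro θ τ
            have := mul_le_mul_of_nonneg_left (hb p'.1 (θ p'.1) (τ p'.2))
              (hb0 p.1 (θ p.1) (τ p.2))
            linarith
        _ = β0 * mb p.1 := by
            rw [nlE_smul v w β0 (fun (θ : ι → Θ) (τ : Fin P → Ω) => b p.1 (θ p.1) (τ p.2)),
              nlE_one v w h1 hw1 p.1 p.2 (b p.1)]
    by_cases h1' : p'.1 = p.1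
    · rw [if_pos h1']
      split_ifs <;> nlinarith
    · by_cases h2' : p'.2 = p.2
      · rw [if_neg h1', if_pos h2']
        linarith
      · rw [if_neg h1', if_neg h2']
        apply le_of_eq
        rw [nlE_two v w h1 hw1 p.1 p'.1 (Ne.symm h1') p.2 p'.2 (Ne.symm h2') (b p.1) (b p'.1)]
        ring
  calc ∑ p : ι × Fin P, nlE v w (fun (θ : ι → Θ) (τ : Fin P → Ω) => ∑ p' : ι × Fin P,
        b p.1 (θ p.1) (τ p.2) * b p'.1 (θ p'.1) (τ p'.2))
      ≤ ∑ p : ι × Fin P, ∑ p' : ι × Fin P, (mb p.1 * mb p'.1 +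
        ((if p'.1 = p.1 then (1 : ℝ) else 0) +
        (if p'.2 = p.2 then (1 : ℝ) else 0)) * (β0 * mb p.1)) :=
        Finset.sum_le_sum (fun p _ => hp p)
    _ = ∑ p : ι × Fin P, (mb p.1 * S + (P + Fintype.card ι) * (β0 * mb p.1)) := by
        apply Finset.sum_congr rfl; intro p _
        rw [Finset.sum_add_distrib, ← Finset.mul_sum, ← Finset.sum_mul, Finset.sum_add_distrib,
          nl_cnt1, nl_cnt2, nl_sumP, hS]
    _ = S ^ 2 + (P + Fintype.card ι) * β0 * S := by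
        rw [nl_sumP P (fun i => mb i * S + (P + Fintype.card ι) * (β0 * mb i)),
          Finset.sum_add_distrib, ← Finset.sum_mul, ← Finset.mul_sum, ← Finset.mul_sum]
        have : (P : ℝ) * ∑ i, mb i = S := hS.symm
        have e : (P : ℝ) * ((∑ i, mb i) * S + (P + Fintype.card ι) * (β0 * ∑ i, mb i)) =
          (P * ∑ i, mb i) * S + (P + Fintype.card ι) * β0 * (P * ∑ i, mb i) := by ring
        rw [e, this]; ring

include h0 h1 hw0 hw1 in
/-- second term of the second moment, for one value `d` (`X` the indicator) -/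
theorem nl_m2 (b : ι → Θ → Ω → ℝ) (hb0 : ∀ i a T, 0 ≤ b i a T) (hb1 : ∀ i a T, b i a T ≤ 1)
    (κ0 G ν0 nu : ℝ) (hκ0 : 0 ≤ κ0) (hnu : nu = ∑ i, ∑ a, v a * ∑ T, w T * b i a T)
    (hν : nu ≤ ν0) (hκ : ∀ i a, ∑ T, w T * b i a T ≤ κ0)
    (hG : ∀ i a T, b i a T * ∑ i', ∑ a', v a' * b i' a' T ≤ G * b i a T) :
    nlE v w (fun (θ : ι → Θ) (τ : Fin P → Ω) => (∑ p : ι × Fin P, b p.1 (θ p.1) (τ p.2)) ^ 2) ≤
      P * nu * (1 + G + P * κ0 + P * ν0) := by
  set mb : ι → ℝ := fun i => ∑ a, v a * ∑ T, w T * b i a T with hmb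
  have hmb0 : ∀ i, 0 ≤ mb i := fun i => Finset.sum_nonneg (fun a _ => mul_nonneg (h0 a)
    (Finset.sum_nonneg (fun T _ => mul_nonneg (hw0 T) (hb0 i a T))))
  set cc : ι → ι → ℝ := fun i i' => ∑ a, v a * ∑ T, w T * (b i a T * ∑ a', v a' * b i' a' T)
    with hcc
  have hcc0 : ∀ i i', 0 ≤ cc i i' := fun i i' => Finset.sum_nonneg (fun a _ => mul_nonneg (h0 a)
    (Finset.sum_nonneg (fun T _ => mul_nonneg (hw0 T) (mul_nonneg (hb0 i a T)
      (Finset.sum_nonneg (fun a' _ => mul_nonneg (h0 a') (hb0 i' a' T)))))))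
  have hccs : ∀ i, ∑ i', cc i i' ≤ G * mb i := by
    intro i
    simp only [hcc, hmb]
    rw [Finset.sum_comm, Finset.mul_sum]
    apply Finset.sum_le_sum; intro a _
    rw [← Finset.mul_sum]
    have : G * (v a * ∑ T, w T * b i a T) = v a * (G * ∑ T, w T * b i a T) := by ring
    rw [this]
    apply mul_le_mul_of_nonneg_left _ (h0 a)
    rw [Finset.sum_comm, Finset.mul_sum]
    apply Finset.sum_le_sum; intro T _
    rw [← Finset.mul_sum, ← Finset.mul_sum]
    have := mul_le_mul_of_nonneg_left (hG i a T) (hw0 T)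
    linarith
  have hexp : (fun (θ : ι → Θ) (τ : Fin P → Ω) => (∑ p : ι × Fin P, b p.1 (θ p.1) (τ p.2)) ^ 2) =
      fun θ τ => ∑ p : ι × Fin P, ∑ p' : ι × Fin P,
        b p.1 (θ p.1) (τ p.2) * b p'.1 (θ p'.1) (τ p'.2) := by
    funext θ τ
    rw [sq, Finset.sum_mul_sum]
  rw [hexp, nlE_sum v w Finset.univ (fun (p : ι × Fin P) θ τ => ∑ p' : ι × Fin P,
        b p.1 (θ p.1) (τ p.2) * b p'.1 (θ p'.1) (τ p'.2))]
  have hp : ∀ p : ι × Fin P, nlE v w (fun (θ : ι → Θ) (τ : Fin P → Ω) => ∑ p' : ι × Fin P,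
        b p.1 (θ p.1) (τ p.2) * b p'.1 (θ p'.1) (τ p'.2)) ≤
      mb p.1 * (1 + G + P * κ0 + P * ν0) := by
    intro p
    rw [nlE_sum v w Finset.univ (fun (p' : ι × Fin P) θ τ =>
        b p.1 (θ p.1) (τ p.2) * b p'.1 (θ p'.1) (τ p'.2))]
    calc ∑ p' : ι × Fin P, nlE v w (fun (θ : ι → Θ) (τ : Fin P → Ω) =>
          b p.1 (θ p.1) (τ p.2) * b p'.1 (θ p'.1) (τ p'.2))
        ≤ ∑ p' : ι × Fin P, (mb p.1 * mb p'.1 + (if p'.1 = p.1 then (1 : ℝ) else 0) * (κ0 * mb p.1)
          + (if p'.2 = p.2 then cc p.1 p'.1 else 0) + (if p' = p then mb p.1 else 0)) := by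
          apply Finset.sum_le_sum
          intro p' _
          have hκm : 0 ≤ κ0 * mb p.1 := mul_nonneg hκ0 (hmb0 _)
          have hmm : 0 ≤ mb p.1 * mb p'.1 := mul_nonneg (hmb0 _) (hmb0 _)
          have hc0 := hcc0 p.1 p'.1
          by_cases h1' : p'.1 = p.1
          · by_cases h2' : p'.2 = p.2
            · have h3' : p' = p := Prod.ext h1' h2'
              rw [if_pos h1', if_pos h2', if_pos h3', h1', h2']
              have e : nlE v w (fun (θ : ι → Θ) (τ : Fin P → Ω) =>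
                  b p.1 (θ p.1) (τ p.2) * b p.1 (θ p.1) (τ p.2)) ≤ mb p.1 := by
                rw [nlE_same v w h1 hw1 p.1 p.2 (b p.1) (b p.1)]
                simp only [hmb]
                apply Finset.sum_le_sum; intro a _
                apply mul_le_mul_of_nonneg_left _ (h0 a)
                apply Finset.sum_le_sum; intro T _
                apply mul_le_mul_of_nonneg_left _ (hw0 T)
                have := mul_le_mul_of_nonneg_left (hb1 p.1 a T) (hb0 p.1 a T)
                linarith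
              rw [h1'] at hc0 hmm
              linarith
            · have h3' : ¬ p' = p := fun h => h2' (by rw [h])
              rw [if_pos h1', if_neg h2', if_neg h3', h1']
              have e : nlE v w (fun (θ : ι → Θ) (τ : Fin P → Ω) =>
                  b p.1 (θ p.1) (τ p.2) * b p.1 (θ p.1) (τ p'.2)) ≤ κ0 * mb p.1 := by
                rw [nlE_sameI v w h1 hw1 p.1 p.2 p'.2 (Ne.symm h2') (b p.1) (b p.1)]
                simp only [hmb]
                rw [Finset.mul_sum]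
                apply Finset.sum_le_sum; intro a _
                have h5 : 0 ≤ ∑ T, w T * b p.1 a T :=
                  Finset.sum_nonneg (fun T _ => mul_nonneg (hw0 T) (hb0 _ _ _))
                have h6 := mul_le_mul_of_nonneg_right (hκ p.1 a) h5
                have h7 := mul_le_mul_of_nonneg_left h6 (h0 a)
                linarith
              rw [h1'] at hmm
              linarith
          · have h3' : ¬ p' = p := fun h => h1' (by rw [h])
            by_cases h2' : p'.2 = p.2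
            · rw [if_neg h1', if_pos h2', if_neg h3', h2']
              rw [nlE_sameT v w h1 hw1 p.1 p'.1 (Ne.symm h1') p.2 (b p.1) (b p'.1)]
              have : cc p.1 p'.1 = ∑ a, v a * ∑ T, w T * (b p.1 a T * ∑ a', v a' * b p'.1 a' T) :=
                rfl
              linarith
            · rw [if_neg h1', if_neg h2', if_neg h3']
              rw [nlE_two v w h1 hw1 p.1 p'.1 (Ne.symm h1') p.2 p'.2 (Ne.symm h2') (b p.1)
                (b p'.1)]
              apply le_of_eq; ring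
      _ = mb p.1 * (P * nu) + P * (κ0 * mb p.1) + (∑ i', cc p.1 i') + mb p.1 := by
          rw [Finset.sum_add_distrib, Finset.sum_add_distrib, Finset.sum_add_distrib,
            ← Finset.mul_sum, ← Finset.sum_mul, nl_cnt1, nl_sumP, hnu]
          have e1 : ∑ i : ι × Fin P, (if i.2 = p.2 then cc p.1 i.1 else 0) = ∑ i', cc p.1 i' := by
            rw [Fintype.sum_prod_type]
            simp
          have e2 : ∑ i : ι × Fin P, (if i = p then mb p.1 else 0) = mb p.1 := by simp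
          rw [e1, e2]
      _ ≤ mb p.1 * (1 + G + P * κ0 + P * ν0) := by
          have h5 := hccs p.1
          have h6 : mb p.1 * (P * nu) ≤ mb p.1 * (P * ν0) :=
            mul_le_mul_of_nonneg_left (mul_le_mul_of_nonneg_left hν (Nat.cast_nonneg P)) (hmb0 _)
          linarith
  calc ∑ p : ι × Fin P, nlE v w (fun (θ : ι → Θ) (τ : Fin P → Ω) => ∑ p' : ι × Fin P,
        b p.1 (θ p.1) (τ p.2) * b p'.1 (θ p'.1) (τ p'.2))
      ≤ ∑ p : ι × Fin P, mb p.1 * (1 + G + P * κ0 + P * ν0) :=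
        Finset.sum_le_sum (fun p _ => hp p)
    _ = P * nu * (1 + G + P * κ0 + P * ν0) := by
        rw [← Finset.sum_mul, nl_sumP P mb, hnu]

end moments

theorem nc_collision {Θ Ω Θ' ι κ D : Type} [Fintype Θ] [Fintype Ω] [Fintype Θ'] [Fintype ι]
    [Fintype κ] [Fintype D] [DecidableEq ι] [DecidableEq κ] [DecidableEq D]
    (v : Θ → ℝ) (w : Ω → ℝ) (v' : Θ' → ℝ) (h0 : ∀ t, 0 ≤ v t) (h1 : ∑ t, v t = 1)
    (hw0 : ∀ t, 0 ≤ w t) (hw1 : ∑ t, w t = 1)
    (h0' : ∀ t, 0 ≤ v' t) (h1' : ∑ t, v' t = 1) (P : ℕ)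
    (X : ι → Θ → Ω → Option D) (Y : κ → Θ' → Option D) (nu B : D → ℝ) (β0 ν0 κ0 G S : ℝ)
    (hβ0 : 0 ≤ β0) (hν0 : 0 ≤ ν0) (hκ0 : 0 ≤ κ0) (hG0 : 0 ≤ G)
    (hnu : ∀ d, nu d = ∑ i, ∑ t, v t * ∑ T, w T * ind (X i t T = some d))
    (hB : ∀ d, B d = ∑ j, ∑ t, v' t * ind (Y j t = some d))
    (hb : ∀ d, B d ≤ β0) (hn : ∀ d, nu d ≤ ν0)
    (hκ : ∀ i t d, ∑ T, w T * ind (X i t T = some d) ≤ κ0)
    (hG : ∀ i t T d, X i t T = some d → ∑ i', ∑ t', v t' * ind (X i' t' T = some d) ≤ G)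
    (hS : S = P * ∑ d, nu d * B d) :
    S ≤ (S + 1 + (P + Fintype.card ι) * β0 + P * κ0 + G + P * ν0) *
      EX v (fun θ : ι → Θ => EX w (fun τ : Fin P → Ω => EX v' (fun θ' : κ → Θ' =>
        ind (∃ i t j d, X i (θ i) (τ t) = some d ∧ Y j (θ' j) = some d)))) := by
  set g : (ι → Θ) → (Fin P → Ω) → D → ℝ := fun θ τ d =>
    ∑ p : ι × Fin P, ind (X p.1 (θ p.1) (τ p.2) = some d) with hg
  have hg0 : ∀ θ τ d, 0 ≤ g θ τ d := fun θ τ d => Finset.sum_nonneg (fun p _ => ind_nonneg _)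
  set b : ι → Θ → Ω → ℝ := fun i a T => ∑ d, B d * ind (X i a T = some d) with hbdef
  have hB0 : ∀ d, 0 ≤ B d := fun d => by
    rw [hB]
    exact Finset.sum_nonneg (fun j _ => Finset.sum_nonneg (fun t _ =>
      mul_nonneg (h0' t) (ind_nonneg _)))
  have hb0 : ∀ i a T, 0 ≤ b i a T := fun i a T =>
    Finset.sum_nonneg (fun d _ => mul_nonneg (hB0 d) (ind_nonneg _))
  have hbβ : ∀ i a T, b i a T ≤ β0 := by
    intro i a T
    simp only [hbdef]
    rcases hx : X i a T with _ | d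
    · have : ∀ d, ind ((none : Option D) = some d) = 0 := fun d => ind_false (by simp)
      simp only [this, mul_zero, Finset.sum_const_zero]; exact hβ0
    · rw [Finset.sum_eq_single d]
      · rw [ind_true rfl, mul_one]; exact hb d
      · intro d' _ hd
        rw [ind_false, mul_zero]
        intro h; exact hd (Option.some.inj h).symm
      · intro h; exact absurd (Finset.mem_univ _) h
  have hgB : ∀ θ τ, ∑ d, g θ τ d * B d = ∑ p : ι × Fin P, b p.1 (θ p.1) (τ p.2) := by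
    intro θ τ
    simp only [hg, hbdef]
    simp_rw [Finset.sum_mul]
    rw [Finset.sum_comm]
    apply Finset.sum_congr rfl; intro p _
    apply Finset.sum_congr rfl; intro d _
    ring
  have hSb : S = P * ∑ i, ∑ a, v a * ∑ T, w T * b i a T := by
    rw [hS]
    congr 1
    simp_rw [hnu, Finset.sum_mul]
    rw [Finset.sum_comm]
    apply Finset.sum_congr rfl; intro i _
    rw [Finset.sum_comm]
    apply Finset.sum_congr rfl; intro a _
    simp only [hbdef]
    rw [← Finset.sum_congr rfl (fun d _ => (mul_assoc (v a) _ (B d)).symm), ← Finset.mul_sum]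
    congr 1
    simp_rw [Finset.mul_sum, Finset.sum_mul]
    rw [Finset.sum_comm]
    apply Finset.sum_congr rfl; intro T _
    apply Finset.sum_congr rfl; intro d _
    ring
  have hnu0 : ∀ d, 0 ≤ nu d := fun d => by
    rw [hnu]
    exact Finset.sum_nonneg (fun j _ => Finset.sum_nonneg (fun t _ =>
      mul_nonneg (h0 t) (Finset.sum_nonneg (fun T _ => mul_nonneg (hw0 T) (ind_nonneg _)))))
  have hS0 : 0 ≤ S := by
    rw [hS]
    exact mul_nonneg (Nat.cast_nonneg P) (Finset.sum_nonneg (fun d _ =>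
      mul_nonneg (hnu0 d) (hB0 d)))
  set Q : ℝ := 1 + (P + Fintype.card ι) * β0 + P * κ0 + G + P * ν0 with hQ
  have hQ1 : 1 ≤ Q := by
    have : 0 ≤ (P + Fintype.card ι : ℝ) * β0 := by positivity
    have : 0 ≤ (P : ℝ) * κ0 := by positivity
    have : 0 ≤ (P : ℝ) * ν0 := by positivity
    simp only [hQ]; linarith
  -- the number of collisions
  set N : (ι → Θ) → (Fin P → Ω) → (κ → Θ') → ℝ := fun θ τ θ' =>
    ∑ j, ∑ d, g θ τ d * ind (Y j (θ' j) = some d) with hN
  set J : (ι → Θ) → (Fin P → Ω) → (κ → Θ') → Prop := fun θ τ θ' =>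
    ∃ i t j d, X i (θ i) (τ t) = some d ∧ Y j (θ' j) = some d with hJ
  have hN0 : ∀ θ τ θ', ¬ J θ τ θ' → N θ τ θ' = 0 := by
    intro θ τ θ' hno
    simp only [hN]
    apply Finset.sum_eq_zero; intro j _
    apply Finset.sum_eq_zero; intro d _
    by_cases hy : Y j (θ' j) = some d
    · have : g θ τ d = 0 := by
        simp only [hg]
        apply Finset.sum_eq_zero; intro p _
        apply ind_false
        intro hx
        exact hno ⟨p.1, p.2, j, d, hx, hy⟩
      rw [this, zero_mul]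
    · rw [ind_false hy, mul_zero]
  set c : ℝ := S + Q with hc
  have hcpos : 0 < c := by simp only [hc]; linarith
  -- first moment
  have hfirst : ∀ θ τ, EX v' (N θ τ) = ∑ p : ι × Fin P, b p.1 (θ p.1) (τ p.2) := by
    intro θ τ
    rw [← hgB]
    exact nl_first v' h1' Y B (g θ τ) hB
  have hfirst2 : nlE v w (fun (θ : ι → Θ) (τ : Fin P → Ω) => EX v' (N θ τ)) = S := by
    simp_rw [hfirst]
    rw [nlE_sum v w Finset.univ (fun (p : ι × Fin P) (θ : ι → Θ) (τ : Fin P → Ω) =>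
      b p.1 (θ p.1) (τ p.2))]
    rw [Finset.sum_congr rfl (fun p _ => nlE_one v w h1 hw1 p.1 p.2 (b p.1)),
      nl_sumP P (fun i => ∑ a, v a * ∑ T, w T * b i a T), hSb]
  -- second moment
  have hsecond : nlE v w (fun (θ : ι → Θ) (τ : Fin P → Ω) => EX v' (fun θ' => N θ τ θ' ^ 2)) ≤
      S * c := by
    calc nlE v w (fun (θ : ι → Θ) (τ : Fin P → Ω) => EX v' (fun θ' => N θ τ θ' ^ 2))
        ≤ nlE v w (fun (θ : ι → Θ) (τ : Fin P → Ω) =>
            (∑ p : ι × Fin P, b p.1 (θ p.1) (τ p.2)) ^ 2 + ∑ d, B d * g θ τ d ^ 2) := by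
          apply nlE_mono v w h0 hw0
          intro θ τ
          have := nl_second v' h0' h1' Y B (g θ τ) (hg0 θ τ) hB
          rw [hgB] at this
          refine this.trans (le_of_eq ?_)
          congr 1
          apply Finset.sum_congr rfl; intro d _; ring
      _ = nlE v w (fun (θ : ι → Θ) (τ : Fin P → Ω) =>
            (∑ p : ι × Fin P, b p.1 (θ p.1) (τ p.2)) ^ 2) +
          ∑ d, B d * nlE v w (fun (θ : ι → Θ) (τ : Fin P → Ω) => g θ τ d ^ 2) := by
          have e : nlE v w (fun (θ : ι → Θ) (τ : Fin P → Ω) =>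
              (∑ p : ι × Fin P, b p.1 (θ p.1) (τ p.2)) ^ 2 + ∑ d, B d * g θ τ d ^ 2) =
              nlE v w (fun (θ : ι → Θ) (τ : Fin P → Ω) =>
            (∑ p : ι × Fin P, b p.1 (θ p.1) (τ p.2)) ^ 2) +
            nlE v w (fun (θ : ι → Θ) (τ : Fin P → Ω) => ∑ d, B d * g θ τ d ^ 2) := by
            unfold nlE
            rw [← EX_add]
            apply nl_EX_sub; intro θ
            rw [EX_add]
          rw [e]
          congr 1
          rw [nlE_sum v w Finset.univ (fun d (θ : ι → Θ) (τ : Fin P → Ω) => B d * g θ τ d ^ 2)]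
          apply Finset.sum_congr rfl; intro d _
          rw [nlE_smul v w (B d) (fun (θ : ι → Θ) (τ : Fin P → Ω) => g θ τ d ^ 2)]
      _ ≤ (S ^ 2 + (P + Fintype.card ι) * β0 * S) +
          ∑ d, B d * (P * nu d * (1 + G + P * κ0 + P * ν0)) := by
          apply add_le_add
          · exact nl_m1 v w h0 h1 hw0 hw1 P b hb0 β0 hβ0 hbβ S hSb
          · apply Finset.sum_le_sum; intro d _
            apply mul_le_mul_of_nonneg_left _ (hB0 d)
            apply nl_m2 v w h0 h1 hw0 hw1 P (fun i a T => ind (X i a T = some d))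
              (fun i a T => ind_nonneg _) (fun i a T => ind_le_one _) κ0 G ν0 (nu d) hκ0 (hnu d)
              (hn d) (fun i a => hκ i a d)
            intro i a T
            by_cases hx : X i a T = some d
            · rw [ind_true hx, one_mul, mul_one]; exact hG i a T d hx
            · rw [ind_false hx]; simp
      _ = S * c := by
          have : ∑ d, B d * (P * nu d * (1 + G + P * κ0 + P * ν0)) =
              S * (1 + G + P * κ0 + P * ν0) := by
            rw [hS, Finset.mul_sum, Finset.sum_mul]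
            apply Finset.sum_congr rfl; intro d _; ring
          rw [this]
          simp only [hc, hQ]; ring
  -- pointwise inequality
  have hpt : nlE v w (fun (θ : ι → Θ) (τ : Fin P → Ω) => EX v' (fun θ' => 2 * c * N θ τ θ')) ≤
      nlE v w (fun (θ : ι → Θ) (τ : Fin P → Ω) =>
        EX v' (fun θ' => N θ τ θ' ^ 2 + c ^ 2 * ind (J θ τ θ'))) := by
    apply nlE_mono v w h0 hw0
    intro θ τ
    apply EX_mono v' h0'
    intro θ'
    by_cases hj : J θ τ θ'
    · rw [ind_true hj]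
      nlinarith [sq_nonneg (N θ τ θ' - c)]
    · rw [ind_false hj, hN0 θ τ θ' hj]; simp
  have e1 : nlE v w (fun (θ : ι → Θ) (τ : Fin P → Ω) => EX v' (fun θ' => 2 * c * N θ τ θ')) =
      2 * c * S := by
    have : ∀ θ τ, EX v' (fun θ' => 2 * c * N θ τ θ') = 2 * c * EX v' (N θ τ) := fun θ τ => by
      rw [← EX_smul]
    simp_rw [this]
    rw [nlE_smul v w (2 * c) (fun (θ : ι → Θ) (τ : Fin P → Ω) => EX v' (N θ τ)), hfirst2]
  have e2 : nlE v w (fun (θ : ι → Θ) (τ : Fin P → Ω) =>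
        EX v' (fun θ' => N θ τ θ' ^ 2 + c ^ 2 * ind (J θ τ θ'))) =
      nlE v w (fun (θ : ι → Θ) (τ : Fin P → Ω) => EX v' (fun θ' => N θ τ θ' ^ 2)) +
      c ^ 2 * nlE v w (fun (θ : ι → Θ) (τ : Fin P → Ω) => EX v' (fun θ' => ind (J θ τ θ'))) := by
    rw [← nlE_smul]
    unfold nlE
    rw [← EX_add]
    apply nl_EX_sub; intro θ
    rw [← EX_add]
    apply nl_EX_sub; intro τ
    show EX v' (fun θ' => N θ τ θ' ^ 2 + c ^ 2 * ind (J θ τ θ')) =
      EX v' (fun θ' => N θ τ θ' ^ 2) + c ^ 2 * EX v' (fun θ' => ind (J θ τ θ'))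
    rw [← EX_smul, ← EX_add]
  rw [e1, e2] at hpt
  have hfin : 2 * c * S ≤ S * c + c ^ 2 * nlE v w (fun (θ : ι → Θ) (τ : Fin P → Ω) =>
      EX v' (fun θ' => ind (J θ τ θ'))) := hpt.trans (by linarith)
  have : c * S ≤ c * (c * nlE v w (fun (θ : ι → Θ) (τ : Fin P → Ω) =>
      EX v' (fun θ' => ind (J θ τ θ')))) := by
    nlinarith
  have h9 := le_of_mul_le_mul_left this hcpos
  have ec : S + 1 + (P + Fintype.card ι) * β0 + P * κ0 + G + P * ν0 = c := by
    simp only [hc, hQ]; ring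
  rw [ec]
  exact h9

end NL

end Pool.Agent.RST
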