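import Mathlib
import Pool.Agent.Lib_helper42.RST.Defs
import Pool.Agent.Lib_helper42.RST.Stmt
import Pool.Agent.Lib_helper42.RSTF.Base
import Pool.Agent.Lib_helper42.RSTF.EE1
import Pool.Agent.Lib_helper42.RSTF.EL1
import Pool.Agent.Lib_helper42.RSTF.EX1
import Pool.Agent.Lib_helper42.RSTF.FB
import Pool.Agent.Lib_helper42.RSTF.GLW
import Pool.Agent.Lib_helper42.RSTF.LIFT
import Pool.Agent.Lib_helper42.RSTF.NL

/- block NC proved by helper5 -/

set_option autoImplicit false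
set_option linter.unusedSectionVars false
set_option linter.unusedVariables false

open Finset

namespace Pool.Agent.RST

section NCblock
variable {V Ω : Type} [Fintype Ω] [Fintype V] [DecidableEq V]

/-- forward outcome -/
noncomputable def ncX (M : Mdl V Ω) (pc : V → V) (a : Ω → V → V) (big : Finset V) (L : ℕ)
    (M' c1 : ℝ) (x : V) (j : ℕ) (k : List Ω) (T : Ω) : Option V := by
  classical
  exact if pc (ch a (k.take j) x) ∉ big ∧ ¬ Hvy M pc a L M' x (a T (ch a (k.take j) x)) ∧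
    gam M a L x T (a T (ch a (k.take j) x)) < c1 then some (a T (ch a (k.take j) x)) else none

/-- the first snapshot satisfies condition N -/
def ncN (M : Mdl V Ω) (a : Ω → V → V) (x : V) (Wt : Set V) (k : List Ω) : Prop :=
  ∀ T, k.head? = some T → ∃ u ∈ Wt, Stp M T (a T x) u

/-- backward outcome -/
noncomputable def ncY (M : Mdl V Ω) (pc : V → V) (a : Ω → V → V) (L : ℕ)
    (M' : ℝ) (x : V) (Wt : Set V) (j : ℕ) (k : List Ω) : Option V := by
  classical
  exact if ¬ Hvy M pc a L M' x (ch a (k.take j) x) ∧ ncN M a x Wt k then some (ch a (k.take j) x)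
  else none

theorem ncX_some (M : Mdl V Ω) (pc : V → V) (a : Ω → V → V) (big : Finset V) (L : ℕ)
    (M' c1 : ℝ) (x : V) (j : ℕ) (k : List Ω) (T : Ω) (d : V) :
    ncX M pc a big L M' c1 x j k T = some d ↔
      (a T (ch a (k.take j) x) = d ∧ pc (ch a (k.take j) x) ∉ big ∧ ¬ Hvy M pc a L M' x d ∧
        gam M a L x T d < c1) := by
  unfold ncX
  split_ifs with h
  · constructor
    · intro h'
      have h'' : a T (ch a (k.take j) x) = d := Option.some.inj h'
      rw [h''] at h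
      exact ⟨h'', h⟩
    · rintro ⟨h', -⟩
      rw [h']
  · constructor
    · intro h'
      exact absurd h' (by simp)
    · rintro ⟨h', h''⟩
      rw [← h'] at h''
      exact absurd h'' h

theorem ncY_some (M : Mdl V Ω) (pc : V → V) (a : Ω → V → V) (L : ℕ)
    (M' : ℝ) (x : V) (Wt : Set V) (j : ℕ) (k : List Ω) (d : V) :
    ncY M pc a L M' x Wt j k = some d ↔
      (ch a (k.take j) x = d ∧ ¬ Hvy M pc a L M' x d ∧ ncN M a x Wt k) := by
  unfold ncY
  split_ifs with h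
  · constructor
    · intro h'
      have h'' : ch a (k.take j) x = d := Option.some.inj h'
      rw [h''] at h
      exact ⟨h'', h⟩
    · rintro ⟨h', -⟩
      rw [h']
  · constructor
    · intro h'
      exact absurd h' (by simp)
    · rintro ⟨h', h''⟩
      rw [← h'] at h''
      exact absurd h'' h

/-! ### the walk -/

theorem nc_walk {M : Mdl V Ω} {pc : V → V} {a : Ω → V → V} (he : Ext M pc a)
    (big : Finset V) (L : ℕ) (M' c1 : ℝ) (x : V) (Wt : Set V) (E1 E3 : List (List Ω)) (e : List Ω)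
    (Bf P : ℕ) (hE1 : ∀ e' ∈ E1, e'.length = Bf) (hE3 : ∀ e' ∈ E3, e'.length = P)
    (he' : e.length = P) (i : ℕ) (hi : i < Bf) (t : ℕ) (ht : t < P) (j : ℕ) (hj : j < P)
    (m : ℕ) (hm : m ≤ E1.length) (m' : ℕ) (hm1 : 1 ≤ m') (hm' : m' ≤ E3.length) (T : Ω)
    (hT : e[t]? = some T) (d : V)
    (hX : ncX M pc a big L M' c1 x m (col E1 i) T = some d)
    (hY : ncY M pc a L M' x Wt m' (col E3.reverse j) = some d) :
    ∃ u ∈ Wt, PW M pc (E1 ++ [e] ++ E3) x u ∅ := by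
  rw [ncX_some] at hX
  rw [ncY_some] at hY
  have h1 := fwd he E1 Bf i hE1 hi m hm x
  have h2 := fwd he [e] P t (by simpa using he') ht 1 (by simp) (ch a ((col E1 i).take m) x)
  have hc : (col [e] t).take 1 = [T] := by
    simp [col, hT]
  rw [hc] at h2
  have h2' : ch a [T] (ch a ((col E1 i).take m) x) = d := by
    simp only [ch]
    exact hX.1
  rw [h2'] at h2
  obtain ⟨u, hu, h3⟩ := bwd he E3 P j hE3 hj m' hm1 hm' x Wt hY.2.2 d (by rw [hY.1])
  refine ⟨u, hu, ?_⟩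
  have h4 := PW_append M pc (PW_append M pc h1 rfl h2) rfl h3
  exact PW_mono M pc h4 (Finset.empty_subset _)

/-! ### sums -/

theorem nc_ind_sum (c : V) (f : V → ℝ) : ∑ y, ind (c = y) * f y = f c := by
  rw [Finset.sum_eq_single c]
  · rw [ind_true rfl, one_mul]
  · intro b _ hb
    rw [ind_false (fun h => hb h.symm), zero_mul]
  · intro h
    exact absurd (Finset.mem_univ c) h

theorem nc_gl (M : Mdl V Ω) (a : Ω → V → V) (x : V) (m j : ℕ) (hj : j ≤ m) (f : V → ℝ) :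
    ∑ θ : Fin m → Ω, pw M.w m θ * f (ch a ((List.ofFn θ).take j) x) =
      ∑ y, gl M a x j y * f y := by
  have h : ∀ θ : Fin m → Ω, pw M.w m θ * f (ch a ((List.ofFn θ).take j) x) =
      ∑ y, (pw M.w m θ * ind (ch a ((List.ofFn θ).take j) x = y)) * f y := by
    intro θ
    rw [← nc_ind_sum (ch a ((List.ofFn θ).take j) x) f, Finset.mul_sum]
    refine Finset.sum_congr rfl (fun y _ => ?_)
    ring
  rw [Finset.sum_congr rfl (fun θ _ => h θ), Finset.sum_comm]
  refine Finset.sum_congr rfl (fun y _ => ?_)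
  rw [← Finset.sum_mul, gl_col M a x m j hj y]

theorem nc_P1_sum (M : Mdl V Ω) (a : Ω → V → V) (z : V) (p : V → Prop) :
    P1 M (fun T => p (a T z)) = ∑ y, P1 M (fun T => a T z = y) * ind (p y) := by
  unfold P1
  have h : ∀ T, M.w T * ind (p (a T z)) = ∑ y, (M.w T * ind (a T z = y)) * ind (p y) := by
    intro T
    rw [← nc_ind_sum (a T z) (fun y => ind (p y)), Finset.mul_sum]
    refine Finset.sum_congr rfl (fun y _ => ?_)
    ring
  rw [Finset.sum_congr rfl (fun T _ => h T), Finset.sum_comm]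
  refine Finset.sum_congr rfl (fun y _ => ?_)
  rw [← Finset.sum_mul]

theorem nc_gl_succ_sum (M : Mdl V Ω) (a : Ω → V → V) (x : V) (l : ℕ) (p : V → Prop) :
    ∑ z, gl M a x l z * P1 M (fun T => p (a T z)) = ∑ y, gl M a x (l + 1) y * ind (p y) := by
  have h : ∀ z, gl M a x l z * P1 M (fun T => p (a T z)) =
      ∑ y, gl M a x l z * P1 M (fun T => a T z = y) * ind (p y) := by
    intro z
    rw [nc_P1_sum M a z p, Finset.mul_sum]
    refine Finset.sum_congr rfl (fun y _ => ?_)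
    ring
  rw [Finset.sum_congr rfl (fun z _ => h z), Finset.sum_comm]
  refine Finset.sum_congr rfl (fun y _ => ?_)
  rw [← Finset.sum_mul, gl_succ]

/-- sums over the levels `1..L-1` -/
theorem nc_lev1 (M : Mdl V Ω) (a : Ω → V → V) (L : ℕ) (hL : 2 ≤ L) (x : V) (y : V) :
    ∑ l ∈ range (L - 1), gl M a x (l + 1) y ≤ L * etaH M a L x y := by
  have hL0 : (0 : ℝ) < L := by exact_mod_cast (by omega : 0 < L)
  unfold etaH
  rw [mul_div_cancel₀ _ hL0.ne']
  refine Finset.sum_le_sum_of_subset_of_nonneg ?_ (fun l _ _ => gl_nonneg M a x _ y)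
  intro l hl
  rw [Finset.mem_range] at hl ⊢
  omega

theorem nc_lev2 (M : Mdl V Ω) (a : Ω → V → V) (L : ℕ) (hL : 2 ≤ L) (x : V) (y : V) :
    ∑ l ∈ range (L - 1), gl M a x (l + 1 + 1) y ≤ L * etaH M a L x y := by
  have hL0 : (0 : ℝ) < L := by exact_mod_cast (by omega : 0 < L)
  unfold etaH
  rw [mul_div_cancel₀ _ hL0.ne']
  obtain ⟨m, rfl⟩ : ∃ m, L = m + 1 := ⟨L - 1, by omega⟩
  rw [Finset.sum_range_succ' (fun l => gl M a x (l + 1) y) m]
  have := gl_nonneg M a x (0 + 1) y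
  simp only [Nat.add_sub_cancel]
  linarith

theorem nc_levS1 (M : Mdl V Ω) (a : Ω → V → V) (L : ℕ) (hL : 2 ≤ L) (x : V) (p : V → Prop) :
    ∑ l ∈ range (L - 1), ∑ y, gl M a x (l + 1) y * ind (p y) ≤ L * etaS M a L x p := by
  rw [Finset.sum_comm]
  unfold etaS
  rw [Finset.mul_sum]
  refine Finset.sum_le_sum (fun y _ => ?_)
  rw [← Finset.sum_mul, ← mul_assoc]
  exact mul_le_mul_of_nonneg_right (nc_lev1 M a L hL x y) (ind_nonneg _)

theorem nc_levS2 (M : Mdl V Ω) (a : Ω → V → V) (L : ℕ) (hL : 2 ≤ L) (x : V) (p : V → Prop) :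
    ∑ l ∈ range (L - 1), ∑ y, gl M a x (l + 1 + 1) y * ind (p y) ≤ L * etaS M a L x p := by
  rw [Finset.sum_comm]
  unfold etaS
  rw [Finset.mul_sum]
  refine Finset.sum_le_sum (fun y _ => ?_)
  rw [← Finset.sum_mul, ← mul_assoc]
  exact mul_le_mul_of_nonneg_right (nc_lev2 M a L hL x y) (ind_nonneg _)

/-- the kernel of the forward law -/
noncomputable def ncF (M : Mdl V Ω) (pc : V → V) (a : Ω → V → V) (big : Finset V) (L : ℕ)
    (M' c1 : ℝ) (x : V) (z d : V) : ℝ :=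
  ∑ T, M.w T * ind (a T z = d ∧ pc z ∉ big ∧ ¬ Hvy M pc a L M' x d ∧ gam M a L x T d < c1)

theorem ncF_nonneg (M : Mdl V Ω) (pc : V → V) (a : Ω → V → V) (big : Finset V) (L : ℕ)
    (M' c1 : ℝ) (x : V) (z d : V) : 0 ≤ ncF M pc a big L M' c1 x z d :=
  Finset.sum_nonneg (fun T _ => mul_nonneg (M.w0 T) (ind_nonneg _))

theorem ncF_le (M : Mdl V Ω) (pc : V → V) (a : Ω → V → V) (big : Finset V) (L : ℕ)
    (M' c1 : ℝ) (x : V) (z d : V) : ncF M pc a big L M' c1 x z d ≤ P1 M (fun T => a T z = d) :=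
  Finset.sum_le_sum (fun T _ => mul_le_mul_of_nonneg_left (ind_mono (fun h => h.1)) (M.w0 T))

theorem ncF_hvy (M : Mdl V Ω) (pc : V → V) (a : Ω → V → V) (big : Finset V) (L : ℕ)
    (M' c1 : ℝ) (x : V) (z d : V) (h : Hvy M pc a L M' x d) : ncF M pc a big L M' c1 x z d = 0 :=
  Finset.sum_eq_zero (fun T _ => by rw [ind_false (fun h' => h'.2.2.1 h), mul_zero])

/-- the measure `nu` -/
noncomputable def ncNu (M : Mdl V Ω) (pc : V → V) (a : Ω → V → V) (big : Finset V) (L B' : ℕ)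
    (M' c1 : ℝ) (x : V) (d : V) : ℝ :=
  B' * ∑ l ∈ range (L - 1), ∑ z, gl M a x (l + 1) z * ncF M pc a big L M' c1 x z d

theorem nc_nu_eq (M : Mdl V Ω) (pc : V → V) (a : Ω → V → V) (big : Finset V) (L B' : ℕ)
    (hL : 2 ≤ L) (M' c1 : ℝ) (x : V) (d : V) :
    ncNu M pc a big L B' M' c1 x d = ∑ i : Fin ((L - 1) * B'), ∑ θ : Fin (L - 1) → Ω,
      pw M.w (L - 1) θ * ∑ T, M.w T *
        ind (ncX M pc a big L M' c1 x ((i : ℕ) % (L - 1) + 1) (List.ofFn θ) T = some d) := by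
  have h1 : ∀ i : Fin ((L - 1) * B'), ∑ θ : Fin (L - 1) → Ω,
      pw M.w (L - 1) θ * ∑ T, M.w T *
        ind (ncX M pc a big L M' c1 x ((i : ℕ) % (L - 1) + 1) (List.ofFn θ) T = some d) =
      (fun l => ∑ z, gl M a x l z * ncF M pc a big L M' c1 x z d) ((i : ℕ) % (L - 1) + 1) := by
    intro i
    have hlev : (i : ℕ) % (L - 1) + 1 ≤ L - 1 := by
      have := Nat.mod_lt (i : ℕ) (by omega : 0 < L - 1)
      omega
    show _ = ∑ z, gl M a x ((i : ℕ) % (L - 1) + 1) z * ncF M pc a big L M' c1 x z d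
    rw [← nc_gl M a x (L - 1) _ hlev (fun z => ncF M pc a big L M' c1 x z d)]
    refine Finset.sum_congr rfl (fun θ _ => ?_)
    congr 1
    unfold ncF
    refine Finset.sum_congr rfl (fun T _ => ?_)
    congr 1
    exact congrArg ind (propext (ncX_some M pc a big L M' c1 x _ _ T d))
  rw [Finset.sum_congr rfl (fun i _ => h1 i)]
  rw [sum_levels (L - 1) B' (by omega) (fun l => ∑ z, gl M a x l z * ncF M pc a big L M' c1 x z d)]
  rfl

theorem nc_nu_le (M : Mdl V Ω) (pc : V → V) (a : Ω → V → V) (big : Finset V) (L B' : ℕ)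
    (hL : 2 ≤ L) (M' c1 : ℝ) (x : V) (d : V) :
    ncNu M pc a big L B' M' c1 x d ≤ B' * (L * etaH M a L x d) := by
  unfold ncNu
  refine mul_le_mul_of_nonneg_left ?_ (Nat.cast_nonneg _)
  refine le_trans ?_ (nc_lev2 M a L hL x d)
  refine Finset.sum_le_sum (fun l _ => ?_)
  rw [gl_succ M a x (l + 1) d]
  exact Finset.sum_le_sum (fun z _ => mul_le_mul_of_nonneg_left (ncF_le M pc a big L M' c1 x z d)
    (gl_nonneg M a x _ z))

theorem nc_nu_nonneg (M : Mdl V Ω) (pc : V → V) (a : Ω → V → V) (big : Finset V) (L B' : ℕ)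
    (M' c1 : ℝ) (x : V) (d : V) : 0 ≤ ncNu M pc a big L B' M' c1 x d := by
  unfold ncNu
  exact mul_nonneg (Nat.cast_nonneg _) (Finset.sum_nonneg (fun l _ => Finset.sum_nonneg
    (fun z _ => mul_nonneg (gl_nonneg M a x _ z) (ncF_nonneg M pc a big L M' c1 x z d))))

theorem nc_nu_hvy (M : Mdl V Ω) (pc : V → V) (a : Ω → V → V) (big : Finset V) (L B' : ℕ)
    (M' c1 : ℝ) (x : V) (d : V) (h : Hvy M pc a L M' x d) :
    ncNu M pc a big L B' M' c1 x d = 0 := by
  unfold ncNu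
  have : ∑ l ∈ range (L - 1), ∑ z, gl M a x (l + 1) z * ncF M pc a big L M' c1 x z d = 0 :=
    Finset.sum_eq_zero (fun l _ => Finset.sum_eq_zero (fun z _ => by
      rw [ncF_hvy M pc a big L M' c1 x z d h, mul_zero]))
  rw [this, mul_zero]

/-- a vertex which is not heavy has small `etaH` -/
theorem nc_light (M : Mdl V Ω) (pc : V → V) (a : Ω → V → V) (L : ℕ)
    (M' : ℝ) (x : V) (d : V) (h : ¬ Hvy M pc a L M' x d) :
    etaH M a L x d ≤ M' / Fintype.card V := by
  unfold Hvy at h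
  push Not at h
  refine le_trans ?_ h.le
  unfold etaS
  calc etaH M a L x d = etaH M a L x d * ind (pc d = pc d) := by rw [ind_true rfl, mul_one]
    _ ≤ _ := Finset.single_le_sum (f := fun z => etaH M a L x z * ind (pc z = pc d))
      (fun z _ => mul_nonneg (etaH_nonneg M a L x z) (ind_nonneg _)) (Finset.mem_univ d)

theorem nc_nu_bound (M : Mdl V Ω) (pc : V → V) (a : Ω → V → V) (big : Finset V) (L B' : ℕ)
    (hL : 2 ≤ L) (M' c1 : ℝ) (hM' : 0 < M') (x : V) (d : V) :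
    ncNu M pc a big L B' M' c1 x d ≤ ((L - 1) * B' : ℕ) * (2 * M') / Fintype.card V := by
  have hn : (0 : ℝ) < Fintype.card V := by
    have : 0 < Fintype.card V := Fintype.card_pos_iff.mpr ⟨x⟩
    exact_mod_cast this
  have hL1 : ((L - 1 : ℕ) : ℝ) = L - 1 := by
    rw [Nat.cast_sub (by omega)]
    simp
  have hLr : (2 : ℝ) ≤ L := by exact_mod_cast hL
  by_cases h : Hvy M pc a L M' x d
  · rw [nc_nu_hvy M pc a big L B' M' c1 x d h]
    positivity
  · have h1 := nc_nu_le M pc a big L B' hL M' c1 x d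
    have h2 := nc_light M pc a L M' x d h
    have hq : 0 ≤ M' / Fintype.card V := by positivity
    have hB : (0 : ℝ) ≤ B' := Nat.cast_nonneg _
    have h3 : (B' : ℝ) * (L * etaH M a L x d) ≤ B' * (L * (M' / Fintype.card V)) :=
      mul_le_mul_of_nonneg_left (mul_le_mul_of_nonneg_left h2 (by linarith)) hB
    have h4 : (B' : ℝ) * (L * (M' / Fintype.card V)) ≤
        ((L - 1) * B' : ℕ) * (2 * M') / Fintype.card V := by
      rw [Nat.cast_mul, hL1]
      have h5 : ((L : ℝ) - 1) * B' * (2 * M') / Fintype.card V =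
        B' * ((2 * (L - 1)) * (M' / Fintype.card V)) := by ring
      rw [h5]
      exact mul_le_mul_of_nonneg_left (mul_le_mul_of_nonneg_right (by linarith) hq) hB
    linarith

theorem ncF_sum (M : Mdl V Ω) (pc : V → V) (a : Ω → V → V) (big : Finset V) (L : ℕ)
    (M' c1 : ℝ) (x : V) (z : V) :
    P1 M (fun T => gam M a L x T (a T z) < c1) - ind (pc z ∈ big) -
      P1 M (fun T => Hvy M pc a L M' x (a T z)) ≤ ∑ d, ncF M pc a big L M' c1 x z d := by
  have h1 : ∑ d, ncF M pc a big L M' c1 x z d = ∑ T, M.w T *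
      ind (pc z ∉ big ∧ ¬ Hvy M pc a L M' x (a T z) ∧ gam M a L x T (a T z) < c1) := by
    unfold ncF
    rw [Finset.sum_comm]
    refine Finset.sum_congr rfl (fun T _ => ?_)
    rw [← Finset.mul_sum]
    congr 1
    rw [← nc_ind_sum (a T z) (fun d => ind (pc z ∉ big ∧ ¬ Hvy M pc a L M' x d ∧
      gam M a L x T d < c1))]
    refine Finset.sum_congr rfl (fun d _ => ?_)
    by_cases h : a T z = d
    · rw [ind_true h, one_mul]
      congr 1
      simp [h]
    · rw [ind_false h, zero_mul, ind_false (fun h' => h h'.1)]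
  have h2 : ind (pc z ∈ big) = ∑ T, M.w T * ind (pc z ∈ big) := by
    rw [← Finset.sum_mul, M.w1, one_mul]
  rw [h1, h2]
  unfold P1
  rw [← Finset.sum_sub_distrib, ← Finset.sum_sub_distrib]
  refine Finset.sum_le_sum (fun T _ => ?_)
  rw [← mul_sub, ← mul_sub]
  refine mul_le_mul_of_nonneg_left ?_ (M.w0 T)
  by_cases hg : gam M a L x T (a T z) < c1
  · by_cases hb : pc z ∈ big
    · rw [ind_true hg, ind_true hb]
      have h3 := ind_nonneg (Hvy M pc a L M' x (a T z))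
      have h4 := ind_nonneg (pc z ∉ big ∧ ¬ Hvy M pc a L M' x (a T z) ∧
        gam M a L x T (a T z) < c1)
      linarith
    · by_cases hh : Hvy M pc a L M' x (a T z)
      · rw [ind_true hg, ind_false hb, ind_true hh]
        have h4 := ind_nonneg (pc z ∉ big ∧ ¬ Hvy M pc a L M' x (a T z) ∧
          gam M a L x T (a T z) < c1)
        linarith
      · rw [ind_true hg, ind_false hb, ind_false hh, ind_true ⟨hb, hh, hg⟩]
        norm_num
  · rw [ind_false hg]
    have h3 := ind_nonneg (Hvy M pc a L M' x (a T z))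
    have h5 := ind_nonneg (pc z ∈ big)
    have h4 := ind_nonneg (pc z ∉ big ∧ ¬ Hvy M pc a L M' x (a T z) ∧
        gam M a L x T (a T z) < c1)
    linarith

theorem nc_nu_total (M : Mdl V Ω) (pc : V → V) (a : Ω → V → V) (big : Finset V) (L B' : ℕ)
    (hL : 2 ≤ L) (M' c1 δ14 δ6 : ℝ) (x : V)
    (hnh : etaS M a L x (fun z => Hvy M pc a L M' x z) < δ14)
    (hbig : etaS M a L x (fun z => pc z ∈ big) ≤ 2 * δ14)
    (hnc : δ6 * (L - 1) < ∑ l ∈ range (L - 1), unm M a L c1 x (l + 1))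
    (h1 : 12 * δ14 ≤ δ6) (hδ : 0 < δ14) :
    B' * ((L - 1) * (δ6 / 2)) ≤ ∑ d, ncNu M pc a big L B' M' c1 x d := by
  have hLr : (2 : ℝ) ≤ L := by exact_mod_cast hL
  have e1 : ∑ d, ncNu M pc a big L B' M' c1 x d =
      B' * ∑ l ∈ range (L - 1), ∑ z, gl M a x (l + 1) z * ∑ d, ncF M pc a big L M' c1 x z d := by
    unfold ncNu
    rw [← Finset.mul_sum, Finset.sum_comm]
    congr 1
    refine Finset.sum_congr rfl (fun l _ => ?_)
    rw [Finset.sum_comm]
    refine Finset.sum_congr rfl (fun z _ => ?_)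
    rw [Finset.mul_sum]
  rw [e1]
  refine mul_le_mul_of_nonneg_left ?_ (Nat.cast_nonneg _)
  have e2 : ∀ l, unm M a L c1 x l = ∑ z, gl M a x l z * P1 M (fun T => gam M a L x T (a T z) < c1) := by
    intro l
    unfold unm
    rw [EL_ch M a x l (fun z => P1 M (fun T => gam M a L x T (a T z) < c1))]
  have e3 : ∀ l, unm M a L c1 x (l + 1) - ∑ z, gl M a x (l + 1) z * ind (pc z ∈ big) -
      ∑ y, gl M a x (l + 1 + 1) y * ind (Hvy M pc a L M' x y) ≤
      ∑ z, gl M a x (l + 1) z * ∑ d, ncF M pc a big L M' c1 x z d := by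
    intro l
    rw [e2, ← nc_gl_succ_sum M a x (l + 1) (fun y => Hvy M pc a L M' x y),
      ← Finset.sum_sub_distrib, ← Finset.sum_sub_distrib]
    refine Finset.sum_le_sum (fun z _ => ?_)
    rw [← mul_sub, ← mul_sub]
    exact mul_le_mul_of_nonneg_left (ncF_sum M pc a big L M' c1 x z) (gl_nonneg M a x _ z)
  have e4 := Finset.sum_le_sum (s := range (L - 1)) (fun l _ => e3 l)
  rw [Finset.sum_sub_distrib, Finset.sum_sub_distrib] at e4
  have e5 := nc_levS1 M a L hL x (fun z => pc z ∈ big)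
  have e6 := nc_levS2 M a L hL x (fun z => Hvy M pc a L M' x z)
  have e7 : (L : ℝ) * etaS M a L x (fun z => pc z ∈ big) ≤ L * (2 * δ14) :=
    mul_le_mul_of_nonneg_left hbig (by linarith)
  have e8 : (L : ℝ) * etaS M a L x (fun z => Hvy M pc a L M' x z) ≤ L * δ14 :=
    mul_le_mul_of_nonneg_left hnh.le (by linarith)
  have e9 : ((L : ℝ) - 1) * (δ6 / 2) ≤ δ6 * (L - 1) - L * (2 * δ14) - L * δ14 := by
    nlinarith
  linarith

/-- the backward measure -/
noncomputable def ncB (M : Mdl V Ω) (pc : V → V) (a : Ω → V → V) (L q : ℕ)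
    (M' : ℝ) (x : V) (Wt : Set V) (d : V) : ℝ :=
  ∑ j : Fin (L * q), ∑ θ : Fin L → Ω, pw M.w L θ *
    ind (ncY M pc a L M' x Wt ((j : ℕ) % L + 1) (List.ofFn θ) = some d)

noncomputable def ncLoss (M : Mdl V Ω) (a : Ω → V → V) (L q : ℕ)
    (x : V) (Wt : Set V) (d : V) : ℝ :=
  ∑ j : Fin (L * q), ∑ θ : Fin L → Ω, pw M.w L θ *
    ind (ch a ((List.ofFn θ).take ((j : ℕ) % L + 1)) x = d ∧ ¬ ncN M a x Wt (List.ofFn θ))

theorem nc_loss_nonneg (M : Mdl V Ω) (a : Ω → V → V) (L q : ℕ)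
    (x : V) (Wt : Set V) (d : V) : 0 ≤ ncLoss M a L q x Wt d :=
  Finset.sum_nonneg (fun _ _ => Finset.sum_nonneg (fun θ _ =>
    mul_nonneg (pw_nonneg M.w M.w0 L θ) (ind_nonneg _)))

theorem nc_B_nonneg (M : Mdl V Ω) (pc : V → V) (a : Ω → V → V) (L q : ℕ)
    (M' : ℝ) (x : V) (Wt : Set V) (d : V) : 0 ≤ ncB M pc a L q M' x Wt d :=
  Finset.sum_nonneg (fun _ _ => Finset.sum_nonneg (fun θ _ =>
    mul_nonneg (pw_nonneg M.w M.w0 L θ) (ind_nonneg _)))

theorem nc_all (M : Mdl V Ω) (a : Ω → V → V) (L q : ℕ) (hL : 2 ≤ L) (x : V) (d : V) :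
    ∑ j : Fin (L * q), ∑ θ : Fin L → Ω, pw M.w L θ *
      ind (ch a ((List.ofFn θ).take ((j : ℕ) % L + 1)) x = d) = (L * q : ℕ) * etaH M a L x d := by
  have hL0 : (0 : ℝ) < L := by exact_mod_cast (by omega : 0 < L)
  have h1 : ∀ j : Fin (L * q), ∑ θ : Fin L → Ω, pw M.w L θ *
      ind (ch a ((List.ofFn θ).take ((j : ℕ) % L + 1)) x = d) =
      (fun l => gl M a x l d) ((j : ℕ) % L + 1) := by
    intro j
    have := Nat.mod_lt (j : ℕ) (by omega : 0 < L)
    exact gl_col M a x L _ (by omega) d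
  rw [Finset.sum_congr rfl (fun j _ => h1 j), sum_levels L q (by omega) (fun l => gl M a x l d)]
  unfold etaH
  push_cast
  field_simp

theorem nc_B_add_loss (M : Mdl V Ω) (pc : V → V) (a : Ω → V → V) (L q : ℕ) (hL : 2 ≤ L)
    (M' : ℝ) (x : V) (Wt : Set V) (d : V) (hd : ¬ Hvy M pc a L M' x d) :
    ncB M pc a L q M' x Wt d + ncLoss M a L q x Wt d = (L * q : ℕ) * etaH M a L x d := by
  rw [← nc_all M a L q hL x d]
  unfold ncB ncLoss
  rw [← Finset.sum_add_distrib]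
  refine Finset.sum_congr rfl (fun j _ => ?_)
  rw [← Finset.sum_add_distrib]
  refine Finset.sum_congr rfl (fun θ _ => ?_)
  rw [← mul_add]
  congr 1
  rw [ncY_some]
  by_cases h1 : ch a ((List.ofFn θ).take ((j : ℕ) % L + 1)) x = d
  · by_cases h2 : ncN M a x Wt (List.ofFn θ)
    · rw [ind_true ⟨h1, hd, h2⟩, ind_false (fun h => h.2 h2), ind_true h1, add_zero]
    · rw [ind_false (fun h => h2 h.2.2), ind_true ⟨h1, h2⟩, ind_true h1, zero_add]
  · rw [ind_false (fun h => h1 h.1), ind_false (fun h => h1 h.1), ind_false h1, add_zero]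

theorem nc_B_hvy (M : Mdl V Ω) (pc : V → V) (a : Ω → V → V) (L q : ℕ)
    (M' : ℝ) (x : V) (Wt : Set V) (d : V) (hd : Hvy M pc a L M' x d) :
    ncB M pc a L q M' x Wt d = 0 := by
  unfold ncB
  refine Finset.sum_eq_zero (fun j _ => Finset.sum_eq_zero (fun θ _ => ?_))
  rw [ncY_some, ind_false (fun h => h.2.1 hd), mul_zero]

theorem nc_B_le (M : Mdl V Ω) (pc : V → V) (a : Ω → V → V) (L q : ℕ) (hL : 2 ≤ L)
    (M' : ℝ) (hM' : 0 < M') (x : V) (Wt : Set V) (d : V) :
    ncB M pc a L q M' x Wt d ≤ (L * q : ℕ) * M' / Fintype.card V := by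
  have hn : (0 : ℝ) < Fintype.card V := by
    have : 0 < Fintype.card V := Fintype.card_pos_iff.mpr ⟨x⟩
    exact_mod_cast this
  by_cases hd : Hvy M pc a L M' x d
  · rw [nc_B_hvy M pc a L q M' x Wt d hd]
    positivity
  · have h1 := nc_B_add_loss M pc a L q hL M' x Wt d hd
    have h2 := nc_loss_nonneg M a L q x Wt d
    have h3 := nc_light M pc a L M' x d hd
    have h4 : ((L * q : ℕ) : ℝ) * etaH M a L x d ≤ (L * q : ℕ) * (M' / Fintype.card V) :=
      mul_le_mul_of_nonneg_left h3 (Nat.cast_nonneg _)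
    rw [mul_div_assoc]
    linarith

/-- marginal law of the first snapshot -/
theorem nc_notN (M : Mdl V Ω) (a : Ω → V → V) (L : ℕ) (hL : 2 ≤ L) (x : V) (Wt : Set V) (cb : ℝ)
    (hN : CondN M a cb x Wt) :
    ∑ θ : Fin L → Ω, pw M.w L θ * ind (¬ ncN M a x Wt (List.ofFn θ)) ≤ cb := by
  obtain ⟨m, rfl⟩ : ∃ m, L = m + 1 := ⟨L - 1, by omega⟩
  have h1 := EX_coord M.w (ι := Fin (m + 1)) M.w1 0
    (fun T => ind (¬ ∃ u ∈ Wt, Stp M T (a T x) u))
  unfold EX at h1
  have h2 : ∀ θ : Fin (m + 1) → Ω, ind (¬ ncN M a x Wt (List.ofFn θ)) =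
      ind (¬ ∃ u ∈ Wt, Stp M (θ 0) (a (θ 0) x) u) := by
    intro θ
    congr 1
    unfold ncN
    simp [List.ofFn_succ]
  unfold pw
  rw [Finset.sum_congr rfl (fun θ _ => by rw [h2 θ]), h1]
  have h3 : ∑ T, M.w T * ind (¬ ∃ u ∈ Wt, Stp M T (a T x) u) =
      1 - P1 M (fun T => ∃ u ∈ Wt, Stp M T (a T x) u) := by
    unfold P1
    rw [← M.w1, ← Finset.sum_sub_distrib]
    refine Finset.sum_congr rfl (fun T _ => ?_)
    by_cases h : ∃ u ∈ Wt, Stp M T (a T x) u
    · rw [ind_true h, ind_false (not_not.mpr h)]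
      ring
    · rw [ind_true h, ind_false h]
      ring
  rw [h3]
  unfold CondN at hN
  linarith

theorem nc_loss_total (M : Mdl V Ω) (a : Ω → V → V) (L q : ℕ) (hL : 2 ≤ L)
    (x : V) (Wt : Set V) (cb : ℝ) (hN : CondN M a cb x Wt) :
    ∑ d, ncLoss M a L q x Wt d ≤ (L * q : ℕ) * cb := by
  unfold ncLoss
  rw [Finset.sum_comm]
  have h1 : ∀ j : Fin (L * q), ∑ d, ∑ θ : Fin L → Ω, pw M.w L θ *
      ind (ch a ((List.ofFn θ).take ((j : ℕ) % L + 1)) x = d ∧ ¬ ncN M a x Wt (List.ofFn θ)) ≤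
      cb := by
    intro j
    rw [Finset.sum_comm]
    refine le_trans (le_of_eq ?_) (nc_notN M a L hL x Wt cb hN)
    refine Finset.sum_congr rfl (fun θ _ => ?_)
    rw [← Finset.mul_sum]
    congr 1
    rw [← nc_ind_sum (ch a ((List.ofFn θ).take ((j : ℕ) % L + 1)) x)
      (fun _ => ind (¬ ncN M a x Wt (List.ofFn θ)))]
    refine Finset.sum_congr rfl (fun d _ => ?_)
    by_cases h : ch a ((List.ofFn θ).take ((j : ℕ) % L + 1)) x = d
    · rw [ind_true h, one_mul]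
      congr 1
      simp [h]
    · rw [ind_false h, zero_mul, ind_false (fun h' => h h'.1)]
  calc _ ≤ ∑ j : Fin (L * q), cb := Finset.sum_le_sum (fun j _ => h1 j)
    _ = _ := by
      rw [Finset.sum_const, Finset.card_univ, Fintype.card_fin, nsmul_eq_mul]

/-- lower bound of the number of expected collisions -/
theorem nc_S (M : Mdl V Ω) (pc : V → V) (a : Ω → V → V) (big : Finset V) (L q B' : ℕ)
    (hL : 2 ≤ L) (hq : 1 ≤ q) (hB : 1 ≤ B') (x : V) (Wt : Set V)
    (cb M' δ14 δ6 c1 : ℝ) (hcb0 : 0 ≤ cb) (hN : CondN M a cb x Wt) (hM' : 0 < M')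
    (hδ : 0 < δ14) (hδ6 : 0 < δ6)
    (hnh : etaS M a L x (fun z => Hvy M pc a L M' x z) < δ14)
    (hbig : etaS M a L x (fun z => pc z ∈ big) ≤ 2 * δ14)
    (hnc : δ6 * (L - 1) < ∑ l ∈ range (L - 1), unm M a L c1 x (l + 1))
    (h1 : 12 * δ14 ≤ δ6) (h2 : 32 * M' * cb ≤ δ6 ^ 2) :
    ((L - 1) * B' : ℕ) * ((L * q : ℕ) : ℝ) ^ 2 * δ6 ^ 2 / (16 * Fintype.card V) ≤
      (L * q : ℕ) * ∑ d, ncNu M pc a big L B' M' c1 x d * ncB M pc a L q M' x Wt d := by
  have hn : (0 : ℝ) < Fintype.card V := by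
    have : 0 < Fintype.card V := Fintype.card_pos_iff.mpr ⟨x⟩
    exact_mod_cast this
  have hL1 : ((L - 1 : ℕ) : ℝ) = L - 1 := by
    rw [Nat.cast_sub (by omega)]
    simp
  have hLr : (2 : ℝ) ≤ L := by exact_mod_cast hL
  have hBr : (1 : ℝ) ≤ B' := by exact_mod_cast hB
  have hP : (0 : ℝ) ≤ ((L * q : ℕ) : ℝ) := Nat.cast_nonneg _
  have hnu0 := fun d => nc_nu_nonneg M pc a big L B' M' c1 x d
  have hnule := fun d => nc_nu_le M pc a big L B' hL M' c1 x d
  have hnub := fun d => nc_nu_bound M pc a big L B' hL M' c1 hM' x d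
  have hloss0 := fun d => nc_loss_nonneg M a L q x Wt d
  have hlossT := nc_loss_total M a L q hL x Wt cb hN
  have hnuT := nc_nu_total M pc a big L B' hL M' c1 δ14 δ6 x hnh hbig hnc h1 hδ
  -- pointwise identity
  have e1 : ∀ d, ncNu M pc a big L B' M' c1 x d * ncB M pc a L q M' x Wt d =
      (L * q : ℕ) * (ncNu M pc a big L B' M' c1 x d * etaH M a L x d) -
        ncNu M pc a big L B' M' c1 x d * ncLoss M a L q x Wt d := by
    intro d
    by_cases hd : Hvy M pc a L M' x d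
    · rw [nc_nu_hvy M pc a big L B' M' c1 x d hd]
      ring
    · have h3 := nc_B_add_loss M pc a L q hL M' x Wt d hd
      have h4 : ncB M pc a L q M' x Wt d = (L * q : ℕ) * etaH M a L x d -
        ncLoss M a L q x Wt d := by linarith
      rw [h4]
      ring
  have e2 : ∑ d, ncNu M pc a big L B' M' c1 x d * ncB M pc a L q M' x Wt d =
      (L * q : ℕ) * ∑ d, (ncNu M pc a big L B' M' c1 x d * etaH M a L x d) -
        ∑ d, ncNu M pc a big L B' M' c1 x d * ncLoss M a L q x Wt d := by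
    rw [Finset.sum_congr rfl (fun d _ => e1 d), Finset.sum_sub_distrib, Finset.mul_sum]
  -- the loss term
  have e3 : ∑ d, ncNu M pc a big L B' M' c1 x d * ncLoss M a L q x Wt d ≤
      ((L - 1) * B' : ℕ) * (2 * M') / Fintype.card V * ((L * q : ℕ) * cb) := by
    calc ∑ d, ncNu M pc a big L B' M' c1 x d * ncLoss M a L q x Wt d
        ≤ ∑ d, ((L - 1) * B' : ℕ) * (2 * M') / Fintype.card V * ncLoss M a L q x Wt d :=
          Finset.sum_le_sum (fun d _ => mul_le_mul_of_nonneg_right (hnub d) (hloss0 d))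
      _ = ((L - 1) * B' : ℕ) * (2 * M') / Fintype.card V * ∑ d, ncLoss M a L q x Wt d := by
          rw [← Finset.mul_sum]
      _ ≤ _ := mul_le_mul_of_nonneg_left hlossT (by positivity)
  -- the main term
  have e4 : ∑ d, ncNu M pc a big L B' M' c1 x d ^ 2 ≤
      B' * L * ∑ d, (ncNu M pc a big L B' M' c1 x d * etaH M a L x d) := by
    rw [Finset.mul_sum]
    refine Finset.sum_le_sum (fun d _ => ?_)
    have := mul_le_mul_of_nonneg_left (hnule d) (hnu0 d)
    calc ncNu M pc a big L B' M' c1 x d ^ 2 =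
        ncNu M pc a big L B' M' c1 x d * ncNu M pc a big L B' M' c1 x d := by ring
      _ ≤ _ := this
      _ = _ := by ring
  have e5 : (∑ d, ncNu M pc a big L B' M' c1 x d) ^ 2 ≤
      Fintype.card V * ∑ d, ncNu M pc a big L B' M' c1 x d ^ 2 := by
    have := sq_sum_le_card_mul_sum_sq (s := (Finset.univ : Finset V))
      (f := fun d => ncNu M pc a big L B' M' c1 x d)
    rw [Finset.card_univ] at this
    exact this
  have e6 : (B' * ((L - 1) * (δ6 / 2))) ^ 2 ≤ (∑ d, ncNu M pc a big L B' M' c1 x d) ^ 2 := by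
    refine pow_le_pow_left₀ ?_ hnuT 2
    have : (0 : ℝ) ≤ L - 1 := by linarith
    positivity
  -- assemble
  have e7 : (B' * ((L - 1) * (δ6 / 2))) ^ 2 ≤ Fintype.card V * (B' * L *
      ∑ d, (ncNu M pc a big L B' M' c1 x d * etaH M a L x d)) :=
    e6.trans (e5.trans (mul_le_mul_of_nonneg_left e4 hn.le))
  have e8 : B' * (L - 1) * δ6 ^ 2 / (8 * Fintype.card V) ≤
      ∑ d, (ncNu M pc a big L B' M' c1 x d * etaH M a L x d) := by
    rw [div_le_iff₀ (by positivity)]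
    have hBL : (0 : ℝ) < B' * L := by positivity
    have h5 : (B' * L) * (B' * (L - 1) * δ6 ^ 2) ≤ (B' * L) *
        ((∑ d, (ncNu M pc a big L B' M' c1 x d * etaH M a L x d)) * (8 * Fintype.card V)) := by
      have h6 : (B' : ℝ) * L * (B' * (L - 1) * δ6 ^ 2) ≤ 8 * (B' * ((L - 1) * (δ6 / 2))) ^ 2 := by
        have h7 : (0 : ℝ) ≤ (B' : ℝ) ^ 2 * δ6 ^ 2 * (L - 1) := by
          have : (0 : ℝ) ≤ L - 1 := by linarith
          positivity
        nlinarith
      nlinarith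
    exact le_of_mul_le_mul_left h5 hBL
  have e9 : B' * (L - 1) * (2 * M') / Fintype.card V * cb ≤
      B' * (L - 1) * δ6 ^ 2 / (16 * Fintype.card V) := by
    rw [div_mul_eq_mul_div, div_le_div_iff₀ hn (by positivity)]
    have h7 : (0 : ℝ) ≤ B' * (L - 1) * Fintype.card V := by
      have : (0 : ℝ) ≤ L - 1 := by linarith
      positivity
    nlinarith [mul_le_mul_of_nonneg_left h2 h7]
  rw [e2, Nat.cast_mul (L - 1) B', hL1]
  rw [Nat.cast_mul (L - 1) B', hL1] at e3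
  have e10 : ((L * q : ℕ) : ℝ) * (B' * (L - 1) * δ6 ^ 2 / (8 * Fintype.card V)) -
      ((L : ℝ) - 1) * B' * (2 * M') / Fintype.card V * ((L * q : ℕ) * cb) ≤
      ((L * q : ℕ) : ℝ) * ∑ d, (ncNu M pc a big L B' M' c1 x d * etaH M a L x d) -
        ∑ d, ncNu M pc a big L B' M' c1 x d * ncLoss M a L q x Wt d :=
    sub_le_sub (mul_le_mul_of_nonneg_left e8 hP) e3
  have e11 : ((L * q : ℕ) : ℝ) * (B' * (L - 1) * δ6 ^ 2 / (16 * Fintype.card V)) ≤
      ((L * q : ℕ) : ℝ) * (B' * (L - 1) * δ6 ^ 2 / (8 * Fintype.card V)) -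
      ((L : ℝ) - 1) * B' * (2 * M') / Fintype.card V * ((L * q : ℕ) * cb) := by
    have h8 : ((L : ℝ) - 1) * B' * (2 * M') / Fintype.card V * ((L * q : ℕ) * cb) =
      (L * q : ℕ) * (B' * (L - 1) * (2 * M') / Fintype.card V * cb) := by ring
    have h9 : (B' : ℝ) * (L - 1) * δ6 ^ 2 / (8 * Fintype.card V) =
      B' * (L - 1) * δ6 ^ 2 / (16 * Fintype.card V) +
        B' * (L - 1) * δ6 ^ 2 / (16 * Fintype.card V) := by
      field_simp
      ring
    rw [h8, h9, mul_add]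
    have := mul_le_mul_of_nonneg_left e9 hP
    linarith
  have e12 := mul_le_mul_of_nonneg_left (e11.trans e10) hP
  refine le_trans (le_of_eq ?_) e12
  ring

/-- the cap on the partner sums -/
theorem nc_G (M : Mdl V Ω) (pc : V → V) (a : Ω → V → V) (big : Finset V) (L B' : ℕ)
    (hL : 2 ≤ L) (M' c1 : ℝ) (x : V) (T : Ω) (d : V) (hd : gam M a L x T d < c1) :
    ∑ i : Fin ((L - 1) * B'), ∑ θ : Fin (L - 1) → Ω, pw M.w (L - 1) θ *
      ind (ncX M pc a big L M' c1 x ((i : ℕ) % (L - 1) + 1) (List.ofFn θ) T = some d) ≤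
      B' * L * c1 := by
  have hL0 : (0 : ℝ) ≤ L := Nat.cast_nonneg _
  have h1 : ∀ i : Fin ((L - 1) * B'), ∑ θ : Fin (L - 1) → Ω, pw M.w (L - 1) θ *
      ind (ncX M pc a big L M' c1 x ((i : ℕ) % (L - 1) + 1) (List.ofFn θ) T = some d) ≤
      (fun l => ∑ z, gl M a x l z * ind (a T z = d)) ((i : ℕ) % (L - 1) + 1) := by
    intro i
    have hlev : (i : ℕ) % (L - 1) + 1 ≤ L - 1 := by
      have := Nat.mod_lt (i : ℕ) (by omega : 0 < L - 1)
      omega
    show _ ≤ ∑ z, gl M a x ((i : ℕ) % (L - 1) + 1) z * ind (a T z = d)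
    rw [← nc_gl M a x (L - 1) _ hlev (fun z => ind (a T z = d))]
    refine Finset.sum_le_sum (fun θ _ => ?_)
    refine mul_le_mul_of_nonneg_left (ind_mono (fun h => ?_)) (pw_nonneg M.w M.w0 _ θ)
    rw [ncX_some] at h
    exact h.1
  refine (Finset.sum_le_sum (fun i _ => h1 i)).trans ?_
  rw [sum_levels (L - 1) B' (by omega) (fun l => ∑ z, gl M a x l z * ind (a T z = d)), mul_assoc]
  refine mul_le_mul_of_nonneg_left ?_ (Nat.cast_nonneg _)
  refine (nc_levS1 M a L hL x (fun z => a T z = d)).trans ?_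
  refine mul_le_mul_of_nonneg_left ?_ hL0
  exact hd.le

theorem nc_kappa (M : Mdl V Ω) (pc : V → V) (a : Ω → V → V) (big : Finset V) (L : ℕ)
    (M' c1 κ0 : ℝ) (hκ0 : 0 ≤ κ0) (x : V)
    (hatom : ∀ z, pc z ∉ big → ∀ y, P1 M (fun T => a T z = y) ≤ κ0) (j : ℕ) (k : List Ω) (d : V) :
    ∑ T, M.w T * ind (ncX M pc a big L M' c1 x j k T = some d) ≤ κ0 := by
  by_cases hz : pc (ch a (k.take j) x) ∈ big
  · have : ∑ T, M.w T * ind (ncX M pc a big L M' c1 x j k T = some d) = 0 :=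
      Finset.sum_eq_zero (fun T _ => by
        rw [ncX_some, ind_false (fun h => h.2.1 hz), mul_zero])
    rw [this]
    exact hκ0
  · refine le_trans ?_ (hatom _ hz d)
    unfold P1
    refine Finset.sum_le_sum (fun T _ => ?_)
    refine mul_le_mul_of_nonneg_left (ind_mono (fun h => ?_)) (M.w0 T)
    rw [ncX_some] at h
    exact h.1

/-- from exit parts to independent columns -/
theorem nc_reduce {M : Mdl V Ω} {pc : V → V} {a : Ω → V → V} (he : Ext M pc a)
    (big : Finset V) (L P Bf : ℕ) (hL : 2 ≤ L) (x : V) (Wt : Set V) (M' c1 : ℝ)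
    (lev : Fin Bf → ℕ) (hlev : ∀ i, lev i ≤ L - 1) (lev' : Fin P → ℕ) (hlev1 : ∀ j, 1 ≤ lev' j)
    (hlev' : ∀ j, lev' j ≤ L) :
    EX (pw M.w (L - 1)) (fun θ : Fin Bf → (Fin (L - 1) → Ω) =>
      EX M.w (fun τ : Fin P → Ω => EX (pw M.w L) (fun θ' : Fin P → (Fin L → Ω) =>
        ind (∃ i t j d, ncX M pc a big L M' c1 x (lev i) (List.ofFn (θ i)) (τ t) = some d ∧
          ncY M pc a L M' x Wt (lev' j) (List.ofFn (θ' j)) = some d)))) ≤
    EE M.w (List.replicate (L - 1) Bf ++ [P] ++ List.replicate L P)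
      (fun E => ind (∃ u ∈ Wt, PW M pc E x u ∅)) := by
  have hmem : ∀ (m q : ℕ) (E : List (List Ω)), E.map List.length = List.replicate m q →
      (∀ e ∈ E, e.length = q) ∧ E.length = m := by
    intro m q E h
    constructor
    · intro e hee
      have : e.length ∈ E.map List.length := List.mem_map_of_mem hee
      rw [h] at this
      exact List.eq_of_mem_replicate this
    · have := congrArg List.length h
      simpa using this
  -- the functional of the columns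
  have key : EE M.w (List.replicate (L - 1) Bf) (fun E1 => EL M.w P (fun e =>
      EE M.w (List.replicate L P) (fun E3 =>
        ind (∃ (i : Fin Bf) (t : Fin P) (j : Fin P) (d : V),
          (∃ T, e[(t : ℕ)]? = some T ∧ ncX M pc a big L M' c1 x (lev i) (col E1 i) T = some d) ∧
          ncY M pc a L M' x Wt (lev' j) (col E3.reverse j) = some d)))) ≤
      EE M.w (List.replicate (L - 1) Bf ++ [P] ++ List.replicate L P)
      (fun E => ind (∃ u ∈ Wt, PW M pc E x u ∅)) := by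
    rw [EE_append, EE_append]
    refine EE_mono M.w M.w0 _ _ _ (fun E1 hE1 => ?_)
    show _ ≤ EL M.w P (fun e => _)
    refine EL_mono M.w M.w0 P _ _ (fun e hel => ?_)
    show _ ≤ EE M.w (List.replicate L P) (fun E3 => ind (∃ u ∈ Wt, PW M pc (E1 ++ [e] ++ E3) x u ∅))
    refine EE_mono M.w M.w0 _ _ _ (fun E3 hE3 => ?_)
    refine ind_mono ?_
    rintro ⟨i, t, j, d, ⟨T, hT, hX⟩, hY⟩
    obtain ⟨h1, h2⟩ := hmem _ _ E1 hE1
    obtain ⟨h3, h4⟩ := hmem _ _ E3 hE3
    exact nc_walk he big L M' c1 x Wt E1 E3 e Bf P h1 h3 hel i i.2 t t.2 j j.2 (lev i)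
      (by rw [h2]; exact hlev i) (lev' j) (hlev1 j) (by rw [h4]; exact hlev' j) T hT d hX hY
  refine le_trans (le_of_eq ?_) key
  have s1 := EE_cols M.w (L - 1) Bf (fun c => EL M.w P (fun e =>
      EE M.w (List.replicate L P) (fun E3 =>
        ind (∃ (i : Fin Bf) (t : Fin P) (j : Fin P) (d : V),
          (∃ T, e[(t : ℕ)]? = some T ∧ ncX M pc a big L M' c1 x (lev i) (c i) T = some d) ∧
          ncY M pc a L M' x Wt (lev' j) (col E3.reverse j) = some d))))
  rw [s1]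
  refine congrArg (EX (pw M.w (L - 1))) (funext (fun θ => ?_))
  rw [EL_eq_EX]
  refine congrArg (EX M.w) (funext (fun τ => ?_))
  have s2 := EE_reverse M.w L P (fun E3 =>
        ind (∃ (i : Fin Bf) (t : Fin P) (j : Fin P) (d : V),
          (∃ T, (List.ofFn τ)[(t : ℕ)]? = some T ∧
            ncX M pc a big L M' c1 x (lev i) (List.ofFn (θ i)) T = some d) ∧
          ncY M pc a L M' x Wt (lev' j) (col E3 j) = some d))
  rw [s2]
  have s3 := EE_cols M.w L P (fun c =>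
        ind (∃ (i : Fin Bf) (t : Fin P) (j : Fin P) (d : V),
          (∃ T, (List.ofFn τ)[(t : ℕ)]? = some T ∧
            ncX M pc a big L M' c1 x (lev i) (List.ofFn (θ i)) T = some d) ∧
          ncY M pc a L M' x Wt (lev' j) (c j) = some d))
  rw [s3]
  refine congrArg (EX (pw M.w L)) (funext (fun θ' => ?_))
  refine congrArg ind (propext ?_)
  constructor
  · rintro ⟨i, t, j, d, hX, hY⟩
    exact ⟨i, t, j, d, ⟨τ t, by simp, hX⟩, hY⟩
  · rintro ⟨i, t, j, d, ⟨T, hT, hX⟩, hY⟩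
    have : τ t = T := by simpa using hT
    rw [← this] at hX
    exact ⟨i, t, j, d, hX, hY⟩

theorem nc_exit {M : Mdl V Ω} {pc : V → V} {a : Ω → V → V} (he : Ext M pc a)
    (big : Finset V) (L q B' : ℕ) (hL : 2 ≤ L) (hq : 1 ≤ q) (hB : 1 ≤ B') (x : V) (Wt : Set V)
    (cb M' δ14 δ6 c1 κ0 : ℝ) (hcb0 : 0 ≤ cb) (hN : CondN M a cb x Wt) (hM' : 0 < M')
    (hδ : 0 < δ14) (hδ6 : 0 < δ6) (hc1 : 0 < c1) (hκ0 : 0 ≤ κ0)
    (hatom : ∀ z, pc z ∉ big → ∀ y, P1 M (fun T => a T z = y) ≤ κ0)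
    (hnh : etaS M a L x (fun z => Hvy M pc a L M' x z) < δ14)
    (hbig : etaS M a L x (fun z => pc z ∈ big) ≤ 2 * δ14)
    (hnc : δ6 * (L - 1) < ∑ l ∈ range (L - 1), unm M a L c1 x (l + 1))
    (h1 : 12 * δ14 ≤ δ6) (h2 : 32 * M' * cb ≤ δ6 ^ 2)
    (h3 : 3 * (1 + ((L * q : ℕ) + ((L - 1) * B' : ℕ) : ℝ) * ((L * q : ℕ) * M' / Fintype.card V) +
        (L * q : ℕ) * κ0 + B' * L * c1 +
        (L * q : ℕ) * (((L - 1) * B' : ℕ) * (2 * M') / Fintype.card V)) ≤
      ((L - 1) * B' : ℕ) * ((L * q : ℕ) : ℝ) ^ 2 * δ6 ^ 2 / (16 * Fintype.card V)) :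
    3 / 4 ≤ EE M.w (List.replicate (L - 1) ((L - 1) * B') ++ [L * q] ++ List.replicate L (L * q))
      (fun E => ind (∃ u ∈ Wt, PW M pc E x u ∅)) := by
  have hn : (0 : ℝ) < Fintype.card V := by
    have : 0 < Fintype.card V := Fintype.card_pos_iff.mpr ⟨x⟩
    exact_mod_cast this
  refine le_trans ?_ (nc_reduce he big L (L * q) ((L - 1) * B') hL x Wt M' c1
    (fun i => (i : ℕ) % (L - 1) + 1) (fun i => by
      have := Nat.mod_lt (i : ℕ) (by omega : 0 < L - 1)
      show (i : ℕ) % (L - 1) + 1 ≤ L - 1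
      omega)
    (fun j => (j : ℕ) % L + 1) (fun j => by
      show 1 ≤ (j : ℕ) % L + 1
      omega) (fun j => by
      have := Nat.mod_lt (j : ℕ) (by omega : 0 < L)
      show (j : ℕ) % L + 1 ≤ L
      omega))
  have hS := nc_S M pc a big L q B' hL hq hB x Wt cb M' δ14 δ6 c1 hcb0 hN hM' hδ hδ6 hnh hbig hnc
    h1 h2
  have hcol := nc_collision (pw M.w (L - 1)) M.w (pw M.w L)
    (pw_nonneg M.w M.w0 (L - 1)) (pw_sum M.w M.w1 (L - 1)) M.w0 M.w1
    (pw_nonneg M.w M.w0 L) (pw_sum M.w M.w1 L) (L * q)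
    (fun (i : Fin ((L - 1) * B')) θ T =>
      ncX M pc a big L M' c1 x ((i : ℕ) % (L - 1) + 1) (List.ofFn θ) T)
    (fun (j : Fin (L * q)) θ' => ncY M pc a L M' x Wt ((j : ℕ) % L + 1) (List.ofFn θ'))
    (ncNu M pc a big L B' M' c1 x) (ncB M pc a L q M' x Wt)
    ((L * q : ℕ) * M' / Fintype.card V) (((L - 1) * B' : ℕ) * (2 * M') / Fintype.card V) κ0
    (B' * L * c1)
    ((L * q : ℕ) * ∑ d, ncNu M pc a big L B' M' c1 x d * ncB M pc a L q M' x Wt d)
    (by positivity) (by positivity) hκ0 (by positivity)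
    (fun d => nc_nu_eq M pc a big L B' hL M' c1 x d)
    (fun d => rfl)
    (fun d => nc_B_le M pc a L q hL M' hM' x Wt d)
    (fun d => nc_nu_bound M pc a big L B' hL M' c1 hM' x d)
    (fun i t d => nc_kappa M pc a big L M' c1 κ0 hκ0 x hatom _ _ d)
    (fun i t T d h => nc_G M pc a big L B' hL M' c1 x T d
      (((ncX_some M pc a big L M' c1 x _ _ T d).mp h).2.2.2))
    rfl
  rw [Fintype.card_fin] at hcol
  generalize (EX (pw M.w (L - 1)) fun θ : Fin ((L - 1) * B') → (Fin (L - 1) → Ω) =>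
    EX M.w fun τ : Fin (L * q) → Ω => EX (pw M.w L) fun θ' : Fin (L * q) → (Fin L → Ω) =>
      ind (∃ i t j d,
        ncX M pc a big L M' c1 x (↑i % (L - 1) + 1) (List.ofFn (θ i)) (τ t) = some d ∧
          ncY M pc a L M' x Wt (↑j % L + 1) (List.ofFn (θ' j)) = some d)) = R at hcol ⊢
  generalize ((L * q : ℕ) : ℝ) * ∑ d, ncNu M pc a big L B' M' c1 x d * ncB M pc a L q M' x Wt d
    = S at hcol hS
  have hpos : 0 ≤ ((L * q : ℕ) + ((L - 1) * B' : ℕ) : ℝ) * ((L * q : ℕ) * M' / Fintype.card V) +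
        (L * q : ℕ) * κ0 + B' * L * c1 +
        (L * q : ℕ) * (((L - 1) * B' : ℕ) * (2 * M') / Fintype.card V) := by positivity
  have hS3 : 3 ≤ S := by
    refine le_trans ?_ hS
    refine le_trans ?_ h3
    linarith
  by_contra hR
  push Not at hR
  have hfac : S + 1 + ((L * q : ℕ) + ((L - 1) * B' : ℕ) : ℝ) * ((L * q : ℕ) * M' / Fintype.card V) +
        (L * q : ℕ) * κ0 + B' * L * c1 +
        (L * q : ℕ) * (((L - 1) * B' : ℕ) * (2 * M') / Fintype.card V) ≤ 4 / 3 * S := by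
    linarith
  have hfac0 : 0 < S + 1 + ((L * q : ℕ) + ((L - 1) * B' : ℕ) : ℝ) *
        ((L * q : ℕ) * M' / Fintype.card V) +
        (L * q : ℕ) * κ0 + B' * L * c1 +
        (L * q : ℕ) * (((L - 1) * B' : ℕ) * (2 * M') / Fintype.card V) := by
    linarith
  have := mul_lt_mul_of_pos_left hR hfac0
  linarith

end NCblock

end Pool.Agent.RST
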