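import Mathlib
import Pool.Agent.Lib_helper42.RST.Defs
import Pool.Agent.Lib_helper42.RST.Stmt
import Pool.Agent.Lib_helper42.RSTF.Base
import Pool.Agent.Lib_helper42.RSTF.COW
import Pool.Agent.Lib_helper42.RSTF.HT
import Pool.Agent.Lib_helper42.RSTF.HV
import Pool.Agent.Lib_helper42.RSTF.LIFT
import Pool.Agent.Lib_helper42.RSTF.NC
import Pool.Agent.Lib_helper42.RSTF.PR

/- block Asm1 proved by helper42 -/

/-!
# Assembly 1: costs of the moves (helper42)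
-/

set_option autoImplicit false

open Finset

namespace Pool.Agent.RST

variable {V Ω : Type} [Fintype Ω] [Fintype V] [DecidableEq V]

theorem hit_half {M : Mdl V Ω} {lam : ℝ} {Φ : V → Finset V → ℝ} (C : Calc M lam Φ)
    (hlam : 0 ≤ lam) {x : V} {Wt : Set V} {s S : ℕ} (h : 1 / 2 ≤ pr M s x Wt) (hs : s ≤ S)
    (hS : lam * S ≤ 1 / 8) : Hit Φ lam x Wt (8 * S) := by
  have h1 : (1 / 2 : ℝ) ≤ pr M S x Wt := h.trans (pr_mono M hs x Wt)
  have h2 := hit_leg C hlam (by norm_num : (0:ℝ) < 1 / 2) h1 (by linarith)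
  have h3 : 4 * (S : ℝ) / (1 / 2) = 8 * S := by ring
  rwa [h3] at h2

/-- heavy case -/
theorem heavy_hit {M : Mdl V Ω} {lam : ℝ} {Φ : V → Finset V → ℝ} (C : Calc M lam Φ)
    (hlam : 0 ≤ lam) {L q W : ℕ} {κ δ5 : ℝ} (pcs : Pieces M (L * q) W κ δ5) {a : Ω → V → V}
    (he : Ext M pcs.pc a) (hL : 1 ≤ L) (hq : 1 ≤ q) (x : V) (Wt : Set V) (cb M' δ14 : ℝ)
    (hcb0 : 0 ≤ cb) (hN : CondN M a cb x Wt) (hM' : 0 < M') (hδ : 0 < δ14)
    (hheavy : δ14 ≤ etaS M a L x (fun z => Hvy M pcs.pc a L M' x z)) (hcb : 4 * cb ≤ δ14)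
    (hP : 1600 * (Fintype.card V : ℝ) ≤ ((L * q : ℕ) : ℝ) ^ 2 * M' * δ14)
    (h5 : 0 ≤ δ5) (h5L : (2 * L + 1) * δ5 ≤ 1 / 4)
    (hS : lam * (6 * L * (L * q) : ℕ) ≤ 1 / 8) :
    Hit Φ lam x Wt (8 * (6 * L * (L * q) : ℕ)) := by
  have h1 := heavy_exit he pcs.idem L q hL hq x Wt cb M' δ14 hcb0 hN hM' hδ hheavy hcb hP
  have h2 := window_pr pcs h5 (List.replicate L (L * q) ++ List.replicate L (L * q)) x Wt
  have hlen : (List.replicate L (L * q) ++ List.replicate L (L * q)).length = 2 * L := by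
    simp [two_mul]
  have hsum : (List.replicate L (L * q) ++ List.replicate L (L * q)).sum = 2 * L * (L * q) := by
    rw [List.sum_append, List.sum_replicate, smul_eq_mul]; ring
  rw [hlen, hsum] at h2
  refine hit_half C hlam (s := (2 * L + 1) * (L * q) + 2 * L * (L * q)) ?_ ?_ hS
  · refine le_trans ?_ h2
    push_cast
    linarith
  · have : (2 * L + 1) * (L * q) + 2 * L * (L * q) = 4 * L * (L * q) + L * q := by ring
    rw [this]
    have h3 : L * q ≤ L * (L * q) := Nat.le_mul_of_pos_left _ hL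
    nlinarith

/-- non-concentrated case -/
theorem nc_hit {M : Mdl V Ω} {lam : ℝ} {Φ : V → Finset V → ℝ} (C : Calc M lam Φ)
    (hlam : 0 ≤ lam) {L q W B' : ℕ} {κ δ5 : ℝ} (pcs : Pieces M (L * q) W κ δ5) {a : Ω → V → V}
    (he : Ext M pcs.pc a) (hL : 2 ≤ L) (hq : 1 ≤ q) (hB : 1 ≤ B') (x : V) (Wt : Set V)
    (cb M' δ14 δ6 c1 κ0 : ℝ)
    (hcb0 : 0 ≤ cb) (hN : CondN M a cb x Wt) (hM' : 0 < M') (hδ : 0 < δ14) (hδ6 : 0 < δ6)
    (hc1 : 0 < c1) (hκ0 : 0 ≤ κ0)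
    (hatom : ∀ z, pcs.pc z ∉ pcs.big → ∀ y, P1 M (fun T => a T z = y) ≤ κ0)
    (hnh : etaS M a L x (fun z => Hvy M pcs.pc a L M' x z) < δ14)
    (hbig : etaS M a L x (fun z => pcs.pc z ∈ pcs.big) ≤ 2 * δ14)
    (hnc : δ6 * (L - 1) < ∑ l ∈ range (L - 1), unm M a L c1 x (l + 1))
    (h1 : 12 * δ14 ≤ δ6) (h2 : 32 * M' * cb ≤ δ6 ^ 2)
    (h3 : 3 * (1 + ((L * q : ℕ) + ((L - 1) * B' : ℕ) : ℝ) * ((L * q : ℕ) * M' / Fintype.card V) +
        (L * q : ℕ) * κ0 + B' * L * c1 +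
        (L * q : ℕ) * (((L - 1) * B' : ℕ) * (2 * M') / Fintype.card V)) ≤
      ((L - 1) * B' : ℕ) * ((L * q : ℕ) : ℝ) ^ 2 * δ6 ^ 2 / (16 * Fintype.card V))
    (h5 : 0 ≤ δ5) (h5L : (2 * L + 1) * δ5 ≤ 1 / 4) (hBP : (L - 1) * ((L - 1) * B') ≤ L * q)
    (hS : lam * (6 * L * (L * q) : ℕ) ≤ 1 / 8) :
    Hit Φ lam x Wt (8 * (6 * L * (L * q) : ℕ)) := by
  have h1' := nc_exit he pcs.big L q B' hL hq hB x Wt cb M' δ14 δ6 c1 κ0 hcb0 hN hM' hδ hδ6 hc1 hκ0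
    hatom hnh hbig hnc h1 h2 h3
  have h2' := window_pr pcs h5
    (List.replicate (L - 1) ((L - 1) * B') ++ [L * q] ++ List.replicate L (L * q)) x Wt
  have hlen : (List.replicate (L - 1) ((L - 1) * B') ++ [L * q] ++
      List.replicate L (L * q)).length = 2 * L := by
    simp; omega
  have hsum : (List.replicate (L - 1) ((L - 1) * B') ++ [L * q] ++
      List.replicate L (L * q)).sum = (L - 1) * ((L - 1) * B') + L * q + L * (L * q) := by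
    rw [List.sum_append, List.sum_append, List.sum_replicate, List.sum_replicate, smul_eq_mul,
      smul_eq_mul, List.sum_singleton]
  rw [hlen, hsum] at h2'
  refine hit_half C hlam (s := (2 * L + 1) * (L * q) +
    ((L - 1) * ((L - 1) * B') + L * q + L * (L * q))) ?_ ?_ hS
  · refine le_trans ?_ h2'
    push_cast
    linarith
  · have h3' : 1 * (L * q) ≤ L * (L * q) := Nat.mul_le_mul_right _ (by omega)
    nlinarith

/-- concentrated case: tail of the hitting time -/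
theorem co_tail {M : Mdl V Ω} {L q W : ℕ} {κ δ5 : ℝ} (pcs : Pieces M (L * q) W κ δ5)
    {a : Ω → V → V} (he : Ext M pcs.pc a) (hL : 2 ≤ L) (K2 l s : ℕ) (hl : 1 ≤ l) (hlL : l + 1 ≤ L)
    (x : V) (Wt : Set V) (K : Set V)
    (cb c1 r qs δ7 : ℝ) (hcb0 : 0 ≤ cb) (hN : CondN M a cb x Wt) (hr : 0 < r) (hc : cb ≤ c1)
    (hqs0 : 0 ≤ qs)
    (hqs : ∀ z, P1 M (fun T => outc M a L c1 x K z T = none) ≤ r →
      EL M.w s (fun k => ind ((k.filterMap (outc M a L c1 x K z)).Nodup)) ≤ qs)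
    (hδ7 : Real.exp (-(K2 * L * (c1 - cb))) ≤ δ7) (h5 : 0 ≤ δ5)
    (hKP : L + L * (L * K2) ≤ L * q) :
    1 - pr M (6 * L * (L * q) + s) x Wt ≤
      bet M a L c1 x K l / r + qs + δ7 + (2 * L + 1) * δ5 := by
  have h1 := co_pr pcs h5 he L K2 (by omega) l s hl x Wt K cb c1 r qs δ7 hcb0 hN hr hc hqs0 hqs hδ7
  have h2 : pr M ((l + L + 2) * (L * q) + (l + s + L * (L * K2))) x Wt ≤
      pr M (6 * L * (L * q) + s) x Wt := by
    apply pr_mono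
    have h4 : (l + L + 2) * (L * q) ≤ (3 * L) * (L * q) := Nat.mul_le_mul_right _ (by omega)
    have h5' : 1 * (L * q) ≤ L * (L * q) := Nat.mul_le_mul_right _ (by omega)
    nlinarith
  have h6 : ((l : ℝ) + L + 2) * δ5 ≤ (2 * L + 1) * δ5 := by
    apply mul_le_mul_of_nonneg_right _ h5
    have : (l : ℝ) + 1 ≤ L := by exact_mod_cast hlL
    linarith
  linarith

/-- concentrated case: cost from a tail function `f` -/
theorem co_hit {M : Mdl V Ω} {lam : ℝ} {Φ : V → Finset V → ℝ} (C : Calc M lam Φ)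
    (hlam : 0 ≤ lam) {x : V} {Wt : Set V} {S1 S0 : ℕ} {f : ℕ → ℝ} {pf R q δ : ℝ}
    (hf : ∀ s ≤ S0, 1 - pr M (S1 + s) x Wt ≤ f s + pf) (hR : ∑ s ∈ range S0, f s ≤ R)
    (hq : f S0 + pf ≤ q) (hδ0 : 0 ≤ δ) (hδ : δ ≤ 1 / 20) (hq2 : q ≤ 2 * δ)
    (hexp : Real.exp (lam * (S1 + S0 : ℕ)) ≤ 1 + δ) (hR0 : 0 ≤ R) (hpf : 0 ≤ pf) :
    Hit Φ lam x Wt ((1 + 4 * δ) * (S1 + R + S0 * pf)) := by
  have hE : ∑ s ∈ range (S1 + S0), (1 - pr M s x Wt) ≤ S1 + R + S0 * pf := by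
    rw [Finset.sum_range_add]
    have h1 : ∑ s ∈ range S1, (1 - pr M s x Wt) ≤ S1 := by
      calc ∑ s ∈ range S1, (1 - pr M s x Wt) ≤ ∑ s ∈ range S1, (1 : ℝ) :=
            Finset.sum_le_sum (fun s _ => by have := pr_nonneg M s x Wt; linarith)
        _ = S1 := by simp
    have h2 : ∑ s ∈ range S0, (1 - pr M (S1 + s) x Wt) ≤ R + S0 * pf := by
      calc ∑ s ∈ range S0, (1 - pr M (S1 + s) x Wt) ≤ ∑ s ∈ range S0, (f s + pf) :=
            Finset.sum_le_sum (fun s hs => hf s (le_of_lt (Finset.mem_range.1 hs)))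
        _ = ∑ s ∈ range S0, f s + S0 * pf := by
            rw [Finset.sum_add_distrib]; simp
        _ ≤ R + S0 * pf := by linarith
    linarith
  have hqq : 1 - pr M (S1 + S0) x Wt ≤ 2 * δ := by
    have := hf S0 le_rfl
    linarith
  have hexp0 : 0 < Real.exp (lam * (S1 + S0 : ℕ)) := Real.exp_pos _
  have hq1 : 2 * δ * Real.exp (lam * (S1 + S0 : ℕ)) < 1 := by nlinarith
  have h := hit_tail C hlam hE hqq hq1
  refine hit_mono hlam h ?_
  have hden : 0 < 1 - 2 * δ * Real.exp (lam * (S1 + S0 : ℕ)) := by linarith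
  rw [div_le_iff₀ hden]
  have hX : 0 ≤ (S1 : ℝ) + R + S0 * pf := by positivity
  have h1 : Real.exp (lam * (S1 + S0 : ℕ)) ≤ (1 + 4 * δ) *
      (1 - 2 * δ * Real.exp (lam * (S1 + S0 : ℕ))) := by
    have h2 : 2 * δ * Real.exp (lam * (S1 + S0 : ℕ)) ≤ 2 * δ * (1 + δ) :=
      mul_le_mul_of_nonneg_left hexp (by linarith)
    have h3 : (1 + 4 * δ) * (1 - 2 * δ * (1 + δ)) ≤ (1 + 4 * δ) *
      (1 - 2 * δ * Real.exp (lam * (S1 + S0 : ℕ))) :=
      mul_le_mul_of_nonneg_left (by linarith) (by linarith)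
    have h4 : 1 + δ ≤ (1 + 4 * δ) * (1 - 2 * δ * (1 + δ)) := by nlinarith [mul_nonneg hδ0 hδ0]
    linarith
  calc ((S1 : ℝ) + R + S0 * pf) * Real.exp (lam * (S1 + S0 : ℕ))
      ≤ ((S1 : ℝ) + R + S0 * pf) * ((1 + 4 * δ) *
      (1 - 2 * δ * Real.exp (lam * (S1 + S0 : ℕ)))) := mul_le_mul_of_nonneg_left h1 hX
    _ = (1 + 4 * δ) * (S1 + R + S0 * pf) * (1 - 2 * δ * Real.exp (lam * (S1 + S0 : ℕ))) := by ring

end Pool.Agent.RST
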