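import Mathlib
import Pool.Agent.Lib_helper42.RST.Defs
import Pool.Agent.Lib_helper42.RST.Stmt
import Pool.Agent.Lib_helper42.RSTF.Base
import Pool.Agent.Lib_helper42.RSTF.EL1
import Pool.Agent.Lib_helper42.RSTF.GLW

/- block ENTa proved by helper50 -/

set_option autoImplicit false

open Finset

namespace Pool.Agent.RST

set_option linter.unusedSectionVars false
set_option linter.unusedVariables false
set_option linter.unusedSimpArgs false

section ENTa
variable {V Ω : Type} [Fintype Ω] [Fintype V] [DecidableEq V]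

theorem ENTa_P1_mono (M : Mdl V Ω) {p q : Ω → Prop} (h : ∀ T, p T → q T) :
    P1 M p ≤ P1 M q := by
  unfold P1
  exact Finset.sum_le_sum (fun T _ => mul_le_mul_of_nonneg_left (ind_mono (h T)) (M.w0 T))

theorem ENTa_P1_le_one (M : Mdl V Ω) (p : Ω → Prop) : P1 M p ≤ 1 := by
  unfold P1
  rw [← M.w1]
  refine Finset.sum_le_sum (fun T _ => ?_)
  have := mul_le_mul_of_nonneg_left (ind_le_one (p T)) (M.w0 T)
  linarith

theorem ENTa_P1_compl (M : Mdl V Ω) (p : Ω → Prop) :
    P1 M (fun T => ¬ p T) = 1 - P1 M p := by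
  unfold P1
  rw [← M.w1, ← Finset.sum_sub_distrib]
  refine Finset.sum_congr rfl (fun T _ => ?_)
  unfold ind
  by_cases h : p T <;> simp [h]

theorem ENTa_P1_mem (M : Mdl V Ω) (f : Ω → V) (K' : Finset V) :
    ∑ y ∈ K', P1 M (fun T => f T = y) = P1 M (fun T => f T ∈ K') := by
  unfold P1
  rw [Finset.sum_comm]
  refine Finset.sum_congr rfl (fun T _ => ?_)
  rw [← Finset.mul_sum]
  congr 1
  unfold ind
  by_cases h : f T ∈ K'
  · rw [if_pos h, Finset.sum_eq_single (f T)]
    · simp
    · intro b _ hb; simp [Ne.symm hb]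
    · intro h'; exact absurd h h'
  · rw [if_neg h]
    refine Finset.sum_eq_zero (fun y hy => ?_)
    have : f T ≠ y := fun e => h (e ▸ hy)
    simp [this]

theorem ENTa_gl_mem (M : Mdl V Ω) (a : Ω → V → V) (x : V) (l : ℕ) (K' : Finset V) :
    ∑ y ∈ K', gl M a x (l + 1) y = ∑ z, gl M a x l z * P1 M (fun T => a T z ∈ K') := by
  simp only [gl_succ]
  rw [Finset.sum_comm]
  refine Finset.sum_congr rfl (fun z _ => ?_)
  rw [← Finset.mul_sum, ENTa_P1_mem]

theorem ENTa_ents_append (a : Ω → V → V) (k : List Ω) (T : Ω) (x : V) :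
    ents a (k ++ [T]) x = insert (a T (ch a k x)) (ents a k x) := by
  induction k generalizing x with
  | nil => simp [ents, ch]
  | cons S k ih =>
    simp only [List.cons_append, ents, ch]
    rw [ih, Finset.insert_comm]

theorem ENTa_ents_card_le (a : Ω → V → V) (k : List Ω) (x : V) :
    (ents a k x).card ≤ k.length := by
  induction k generalizing x with
  | nil => simp [ents]
  | cons S k ih =>
    simp only [ents, List.length_cons]
    refine (Finset.card_insert_le _ _).trans ?_
    exact Nat.add_le_add_right (ih _) 1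

theorem ENTa_card (y : V) (S K' : Finset V) :
    ((S \ K').card : ℝ) + ind (y ∉ K') - ind (y ∈ S) ≤ ((insert y S \ K').card : ℝ) := by
  by_cases h2 : y ∈ S
  · rw [Finset.insert_eq_of_mem h2, ind_true h2]
    linarith [ind_le_one (y ∉ K')]
  · rw [ind_false h2]
    by_cases h1 : y ∈ K'
    · rw [Finset.insert_sdiff_of_mem _ h1, ind_false (not_not.mpr h1)]
      linarith
    · rw [Finset.insert_sdiff_of_notMem _ h1, ind_true h1,
        Finset.card_insert_of_notMem (fun h => h2 (Finset.sdiff_subset h))]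
      push_cast
      linarith

/-- one step -/
theorem ENTa_step (M : Mdl V Ω) (a : Ω → V → V) (pc : V → V) (big : Finset V) (x : V) (l : ℕ)
    (κ0 : ℝ) (hκ0 : 0 ≤ κ0)
    (hatom : ∀ z, pc z ∉ big → ∀ y, P1 M (fun T => a T z = y) ≤ κ0) (K' : Finset V) :
    EL M.w l (fun k => ((ents a k x \ K').card : ℝ)) + (1 - ∑ y ∈ K', gl M a x (l + 1) y) -
      l * κ0 - (if l = 0 then 0 else ∑ y, gl M a x l y * ind (pc y ∈ big)) ≤
      EL M.w (l + 1) (fun k => ((ents a k x \ K').card : ℝ)) := by
  have h1 : EL M.w (l + 1) (fun k => ((ents a k x \ K').card : ℝ)) =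
      EL M.w l (fun k => ∑ T, M.w T * ((insert (a T (ch a k x)) (ents a k x) \ K').card : ℝ)) := by
    rw [EL_append]
    refine EL_congr _ _ _ _ (fun k _ => ?_)
    rw [EL_one]
    simp only [ENTa_ents_append]
  rw [h1]
  have h2 : EL M.w l (fun k => ((ents a k x \ K').card : ℝ) + P1 M (fun T => a T (ch a k x) ∉ K') +
      (-1) * P1 M (fun T => a T (ch a k x) ∈ ents a k x)) ≤
      EL M.w l (fun k => ∑ T, M.w T * ((insert (a T (ch a k x)) (ents a k x) \ K').card : ℝ)) := by
    refine EL_mono M.w M.w0 l _ _ (fun k _ => ?_)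
    have h3 : ((ents a k x \ K').card : ℝ) = ∑ T, M.w T * ((ents a k x \ K').card : ℝ) := by
      rw [← Finset.sum_mul, M.w1, one_mul]
    rw [h3]
    unfold P1
    rw [Finset.mul_sum, ← Finset.sum_add_distrib, ← Finset.sum_add_distrib]
    refine Finset.sum_le_sum (fun T _ => ?_)
    have h4 := mul_le_mul_of_nonneg_left (ENTa_card (a T (ch a k x)) (ents a k x) K') (M.w0 T)
    linarith
  refine le_trans ?_ h2
  rw [EL_add, EL_add, EL_smul]
  have h5 : EL M.w l (fun k => P1 M (fun T => a T (ch a k x) ∉ K')) =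
      1 - ∑ y ∈ K', gl M a x (l + 1) y := by
    rw [EL_ch M a x l (fun z => P1 M (fun T => a T z ∉ K')), ENTa_gl_mem]
    simp only [ENTa_P1_compl, mul_sub, mul_one, Finset.sum_sub_distrib, gl_sum]
  rw [h5]
  have h6 : EL M.w l (fun k => P1 M (fun T => a T (ch a k x) ∈ ents a k x)) ≤
      l * κ0 + (if l = 0 then 0 else ∑ y, gl M a x l y * ind (pc y ∈ big)) := by
    by_cases hl : l = 0
    · subst hl
      simp only [EL, ch, ents, Finset.notMem_empty, P1, ind_false (not_false), mul_zero,
        Finset.sum_const_zero, Nat.cast_zero, zero_mul, if_true, add_zero, le_refl]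
    · rw [if_neg hl]
      have h7 : EL M.w l (fun k => P1 M (fun T => a T (ch a k x) ∈ ents a k x)) ≤
          EL M.w l (fun k => (l : ℝ) * κ0 + ind (pc (ch a k x) ∈ big)) := by
        refine EL_mono M.w M.w0 l _ _ (fun k hk => ?_)
        by_cases hb : pc (ch a k x) ∈ big
        · rw [ind_true hb]
          have := ENTa_P1_le_one M (fun T => a T (ch a k x) ∈ ents a k x)
          have h0 : 0 ≤ (l : ℝ) * κ0 := by positivity
          linarith
        · rw [ind_false hb, add_zero, ← ENTa_P1_mem]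
          calc ∑ y ∈ ents a k x, P1 M (fun T => a T (ch a k x) = y)
              ≤ ∑ y ∈ ents a k x, κ0 := Finset.sum_le_sum (fun y _ => hatom _ hb y)
            _ = (ents a k x).card * κ0 := by rw [Finset.sum_const, nsmul_eq_mul]
            _ ≤ l * κ0 := by
                refine mul_le_mul_of_nonneg_right ?_ hκ0
                have : (ents a k x).card ≤ k.length := ENTa_ents_card_le a k x
                rw [hk] at this
                exact_mod_cast this
      refine h7.trans ?_
      rw [EL_add, EL_const M.w M.w1, EL_ch M a x l (fun z => ind (pc z ∈ big))]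
  linarith

theorem ents_card_ge (M : Mdl V Ω) (a : Ω → V → V) (pc : V → V) (big : Finset V) (x : V) (l : ℕ)
    (hl : 1 ≤ l) (κ0 : ℝ) (hκ0 : 0 ≤ κ0)
    (hatom : ∀ z, pc z ∉ big → ∀ y, P1 M (fun T => a T z = y) ≤ κ0) (K' : Finset V) :
    ∑ j ∈ Icc 1 l, (1 - ∑ y ∈ K', gl M a x j y) -
      (l ^ 2 * κ0 + ∑ j ∈ Icc 1 l, ∑ y, gl M a x j y * ind (pc y ∈ big)) ≤
      EL M.w l (fun k => ((ents a k x \ K').card : ℝ)) := by
  have key : ∀ l : ℕ, ∑ j ∈ range l, (1 - ∑ y ∈ K', gl M a x (j + 1) y) -
      (l ^ 2 * κ0 + ∑ j ∈ range l, (if j = 0 then 0 else ∑ y, gl M a x j y * ind (pc y ∈ big))) ≤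
      EL M.w l (fun k => ((ents a k x \ K').card : ℝ)) := by
    intro l
    induction l with
    | zero => simp [EL, ents]
    | succ l ih =>
      have h := ENTa_step M a pc big x l κ0 hκ0 hatom K'
      rw [Finset.sum_range_succ, Finset.sum_range_succ]
      push_cast
      have h0 : 0 ≤ ((l : ℝ) + 1) * κ0 := by positivity
      nlinarith
  have e : ∀ f : ℕ → ℝ, ∑ j ∈ Icc 1 l, f j = ∑ j ∈ range l, f (j + 1) := by
    intro f
    rw [Finset.range_eq_Ico, Finset.sum_Ico_add' f 0 l 1]
    rfl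
  rw [e, e]
  refine le_trans ?_ (key l)
  have h2 : ∑ j ∈ range l, (if j = 0 then 0 else ∑ y, gl M a x j y * ind (pc y ∈ big)) ≤
      ∑ j ∈ range l, ∑ y, gl M a x (j + 1) y * ind (pc y ∈ big) := by
    have hnn : ∀ j, 0 ≤ ∑ y, gl M a x j y * ind (pc y ∈ big) := fun j =>
      Finset.sum_nonneg (fun y _ => mul_nonneg (gl_nonneg M a x j y) (ind_nonneg _))
    have h3 : ∑ j ∈ range l, (if j = 0 then 0 else ∑ y, gl M a x j y * ind (pc y ∈ big)) ≤
        ∑ j ∈ range (l + 1), (if j = 0 then 0 else ∑ y, gl M a x j y * ind (pc y ∈ big)) := by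
      rw [Finset.sum_range_succ]
      have : 0 ≤ (if l = 0 then 0 else ∑ y, gl M a x l y * ind (pc y ∈ big)) := by
        split_ifs
        · exact le_rfl
        · exact hnn l
      linarith
    refine h3.trans (le_of_eq ?_)
    rw [Finset.sum_range_succ']
    simp
  linarith
end ENTa

end Pool.Agent.RST
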