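import Mathlib
import Pool.Agent.Lib_helper42.RST.Defs
import Pool.Agent.Lib_helper42.RST.Stmt
import Pool.Agent.Lib_helper42.RSTF.Base
import Pool.Agent.Lib_helper42.RSTF.EL1
import Pool.Agent.Lib_helper42.RSTF.GLW

/- block ENTb proved by helper50 -/

set_option autoImplicit false

open Finset

namespace Pool.Agent.RST

set_option linter.unusedSectionVars false
set_option linter.unusedVariables false
set_option linter.unusedSimpArgs false

section ENTb
variable {V Ω : Type} [Fintype Ω] [Fintype V] [DecidableEq V]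

theorem ENTb_P1_mono (M : Mdl V Ω) {p q : Ω → Prop} (h : ∀ T, p T → q T) :
    P1 M p ≤ P1 M q := by
  unfold P1
  exact Finset.sum_le_sum (fun T _ => mul_le_mul_of_nonneg_left (ind_mono (h T)) (M.w0 T))

theorem ENTb_P1_congr (M : Mdl V Ω) {p q : Ω → Prop} (h : ∀ T, p T ↔ q T) :
    P1 M p = P1 M q := by
  have : p = q := by funext T; exact propext (h T)
  rw [this]

theorem ENTb_P1_or (M : Mdl V Ω) (p q : Ω → Prop) :
    P1 M (fun T => p T ∨ q T) ≤ P1 M p + P1 M q := by
  unfold P1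
  rw [← Finset.sum_add_distrib]
  refine Finset.sum_le_sum (fun T _ => ?_)
  rw [← mul_add]
  refine mul_le_mul_of_nonneg_left ?_ (M.w0 T)
  unfold ind
  by_cases h1 : p T <;> by_cases h2 : q T <;> simp [h1, h2]

theorem ENTb_P1_compl (M : Mdl V Ω) (p : Ω → Prop) :
    P1 M (fun T => ¬ p T) = 1 - P1 M p := by
  unfold P1
  rw [← M.w1, ← Finset.sum_sub_distrib]
  refine Finset.sum_congr rfl (fun T _ => ?_)
  unfold ind
  by_cases h : p T <;> simp [h]

theorem ENTb_P1_mem (M : Mdl V Ω) (f : Ω → V) (K' : Finset V) :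
    ∑ y ∈ K', P1 M (fun T => f T = y) = P1 M (fun T => f T ∈ K') := by
  unfold P1
  rw [Finset.sum_comm]
  refine Finset.sum_congr rfl (fun T _ => ?_)
  rw [← Finset.mul_sum]
  congr 1
  unfold ind
  by_cases h : f T ∈ K'
  · rw [if_pos h, Finset.sum_eq_single (f T)]
    · simp
    · intro b _ hb; simp [Ne.symm hb]
    · intro h'; exact absurd h h'
  · rw [if_neg h]
    refine Finset.sum_eq_zero (fun y hy => ?_)
    have : f T ≠ y := fun e => h (e ▸ hy)
    simp [this]

theorem ENTb_gl_mem (M : Mdl V Ω) (a : Ω → V → V) (x : V) (l : ℕ) (K' : Finset V) :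
    ∑ y ∈ K', gl M a x (l + 1) y = ∑ z, gl M a x l z * P1 M (fun T => a T z ∈ K') := by
  simp only [gl_succ]
  rw [Finset.sum_comm]
  refine Finset.sum_congr rfl (fun z _ => ?_)
  rw [← Finset.mul_sum, ENTb_P1_mem]

theorem ENTb_outc_none (M : Mdl V Ω) (a : Ω → V → V) (L : ℕ) (c1 : ℝ) (x : V) (K : Set V) (z : V)
    (T : Ω) : outc M a L c1 x K z T = none ↔ (gam M a L x T (a T z) < c1 ∨ a T z ∉ K) := by
  unfold outc
  split_ifs with h
  · simp only [reduceCtorEq, false_iff, not_or, not_lt, not_not]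
    exact h
  · simp only [true_iff]
    by_contra h'
    push Not at h'
    exact h h'

theorem bet_le (M : Mdl V Ω) (a : Ω → V → V) (L : ℕ) (c1 : ℝ) (x : V) (K' : Finset V) (l : ℕ) :
    bet M a L c1 x (K' : Set V) l ≤ unm M a L c1 x l + (1 - ∑ y ∈ K', gl M a x (l + 1) y) := by
  have h1 : bet M a L c1 x (K' : Set V) l ≤ EL M.w l (fun k =>
      P1 M (fun T => gam M a L x T (a T (ch a k x)) < c1) +
      P1 M (fun T => a T (ch a k x) ∉ K')) := by
    unfold bet
    refine EL_mono M.w M.w0 l _ _ (fun k _ => ?_)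
    refine le_trans (ENTb_P1_mono M (fun T hT => ?_)) (ENTb_P1_or M _ _)
    rw [ENTb_outc_none] at hT
    simpa using hT
  refine h1.trans ?_
  rw [EL_add]
  refine add_le_add le_rfl (le_of_eq ?_)
  rw [EL_ch M a x l (fun z => P1 M (fun T => a T z ∉ K')), ENTb_gl_mem]
  simp only [ENTb_P1_compl, mul_sub, mul_one, Finset.sum_sub_distrib, gl_sum]

theorem bet_univ (M : Mdl V Ω) (a : Ω → V → V) (L : ℕ) (c1 : ℝ) (x : V) (l : ℕ) :
    bet M a L c1 x Set.univ l = unm M a L c1 x l := by
  unfold bet unm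
  refine EL_congr M.w l _ _ (fun k _ => ENTb_P1_congr M (fun T => ?_))
  rw [ENTb_outc_none]
  simp

/-- mass of big pieces if not heavy -/
theorem big_mass {M : Mdl V Ω} {P W : ℕ} {κ δ : ℝ} (pcs : Pieces M P W κ δ)
    (a : Ω → V → V) (L : ℕ) (hL : 1 ≤ L) (x : V) (M' δ14 : ℝ) (hM' : 0 < M') (hW : 1 ≤ W)
    (hnh : etaS M a L x (fun z => Hvy M pcs.pc a L M' x z) < δ14) (hWM : 2 * M' ≤ δ14 * W) :
    etaS M a L x (fun z => pcs.pc z ∈ pcs.big) ≤ 2 * δ14 := by
  classical
  have hn : 0 < (Fintype.card V : ℝ) := by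
    exact_mod_cast Fintype.card_pos_iff.mpr ⟨x⟩
  have hW' : 0 < (W : ℝ) := by exact_mod_cast hW
  -- split
  have h1 : etaS M a L x (fun z => pcs.pc z ∈ pcs.big) ≤
      etaS M a L x (fun z => Hvy M pcs.pc a L M' x z) +
      ∑ i ∈ pcs.big, M' / Fintype.card V := by
    have h2 : ∀ i ∈ pcs.big, ∑ z, etaH M a L x z *
        ind (pcs.pc z = i ∧ ¬ Hvy M pcs.pc a L M' x z) ≤ M' / Fintype.card V := by
      intro i _
      by_cases h : ∃ z, pcs.pc z = i ∧ ¬ Hvy M pcs.pc a L M' x z
      · obtain ⟨z, hz, hz'⟩ := h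
        have h3 : etaS M a L x (fun u => pcs.pc u = pcs.pc z) < M' / Fintype.card V := by
          unfold Hvy at hz'
          exact not_le.mp hz'
        refine le_trans ?_ h3.le
        unfold etaS
        refine Finset.sum_le_sum (fun u _ =>
          mul_le_mul_of_nonneg_left (ind_mono ?_) (etaH_nonneg M a L x u))
        rintro ⟨hu, _⟩
        rw [hu, hz]
      · push Not at h
        have : ∑ z, etaH M a L x z * ind (pcs.pc z = i ∧ ¬ Hvy M pcs.pc a L M' x z) = 0 := by
          refine Finset.sum_eq_zero (fun z _ => ?_)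
          rw [ind_false, mul_zero]
          rintro ⟨h4, h5⟩
          exact h5 (h z h4)
        rw [this]
        positivity
    refine le_trans ?_ (add_le_add le_rfl (Finset.sum_le_sum h2))
    rw [Finset.sum_comm]
    unfold etaS
    rw [← Finset.sum_add_distrib]
    refine Finset.sum_le_sum (fun z _ => ?_)
    rw [← Finset.mul_sum, ← mul_add]
    refine mul_le_mul_of_nonneg_left ?_ (etaH_nonneg M a L x z)
    by_cases hb : pcs.pc z ∈ pcs.big
    · by_cases hv : Hvy M pcs.pc a L M' x z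
      · rw [ind_true hv]
        have : 0 ≤ ∑ i ∈ pcs.big, ind (pcs.pc z = i ∧ ¬ Hvy M pcs.pc a L M' x z) :=
          Finset.sum_nonneg (fun i _ => ind_nonneg _)
        linarith [ind_le_one (pcs.pc z ∈ pcs.big)]
      · have h6 : ind (pcs.pc z = pcs.pc z ∧ ¬ Hvy M pcs.pc a L M' x z) ≤
            ∑ i ∈ pcs.big, ind (pcs.pc z = i ∧ ¬ Hvy M pcs.pc a L M' x z) :=
          Finset.single_le_sum
            (f := fun i => ind (pcs.pc z = i ∧ ¬ Hvy M pcs.pc a L M' x z))
            (fun i _ => ind_nonneg _) hb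
        rw [ind_true (⟨rfl, hv⟩ : pcs.pc z = pcs.pc z ∧ ¬ Hvy M pcs.pc a L M' x z)] at h6
        linarith [ind_le_one (pcs.pc z ∈ pcs.big), ind_nonneg (Hvy M pcs.pc a L M' x z)]
    · rw [ind_false hb]
      exact add_nonneg (ind_nonneg _) (Finset.sum_nonneg (fun i _ => ind_nonneg _))
  have h7 : ∑ i ∈ pcs.big, M' / (Fintype.card V : ℝ) ≤ δ14 := by
    rw [Finset.sum_const, nsmul_eq_mul]
    have h8 := pcs.big_card
    have h9 : (pcs.big.card : ℝ) * (M' / Fintype.card V) * W ≤ δ14 * W := by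
      calc (pcs.big.card : ℝ) * (M' / Fintype.card V) * W
          = (pcs.big.card : ℝ) * W * (M' / Fintype.card V) := by ring
        _ ≤ 2 * Fintype.card V * (M' / Fintype.card V) :=
            mul_le_mul_of_nonneg_right h8 (by positivity)
        _ = 2 * M' := by field_simp
        _ ≤ δ14 * W := hWM
    exact le_of_mul_le_mul_right h9 hW'
  linarith
end ENTb

end Pool.Agent.RST
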