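import Mathlib
import Pool.Agent.Lib_helper42.RST.Defs
import Pool.Agent.Lib_helper42.RST.Stmt
import Pool.Agent.Lib_helper42.RSTF.Base
import Pool.Agent.Lib_helper42.RSTF.EL1
import Pool.Agent.Lib_helper42.RSTF.ENTa
import Pool.Agent.Lib_helper42.RSTF.ENTb
import Pool.Agent.Lib_helper42.RSTF.GLW

/- block Asm2 proved by helper42 -/

/-!
# Assembly 2: levels and loops for concentrated pieces (helper42)
-/

set_option autoImplicit false

open Finset

namespace Pool.Agent.RST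

variable {V Ω : Type} [Fintype Ω]

theorem P1_nonneg (M : Mdl V Ω) (p : Ω → Prop) : 0 ≤ P1 M p :=
  Finset.sum_nonneg (fun T _ => mul_nonneg (M.w0 T) (ind_nonneg _))

theorem P1_le_one (M : Mdl V Ω) (p : Ω → Prop) : P1 M p ≤ 1 := by
  rw [← M.w1]
  exact Finset.sum_le_sum (fun T _ => mul_le_of_le_one_right (M.w0 T) (ind_le_one _))

theorem P1_mono (M : Mdl V Ω) {p q : Ω → Prop} (h : ∀ T, p T → q T) : P1 M p ≤ P1 M q :=
  Finset.sum_le_sum (fun T _ => mul_le_mul_of_nonneg_left (ind_mono (h T)) (M.w0 T))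

/-- averaging -/
theorem exists_le_avg {S : Finset ℕ} (hS : S.Nonempty) (f : ℕ → ℝ) (X : ℝ)
    (h : ∑ i ∈ S, f i ≤ X) : ∃ i ∈ S, f i * S.card ≤ X := by
  by_contra hcon
  push Not at hcon
  have h1 : ∑ i ∈ S, X < ∑ i ∈ S, f i * S.card := Finset.sum_lt_sum_of_nonempty hS hcon
  rw [Finset.sum_const, ← Finset.sum_mul, nsmul_eq_mul] at h1
  have hc : (0 : ℝ) < S.card := by exact_mod_cast Finset.card_pos.2 hS
  nlinarith

section
variable [Fintype V]

theorem unm_nonneg (M : Mdl V Ω) (a : Ω → V → V) (L : ℕ) (c1 : ℝ) (x : V) (l : ℕ) :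
    0 ≤ unm M a L c1 x l :=
  EL_nonneg M.w M.w0 l _ (fun _ _ => P1_nonneg M _)

theorem bet_nonneg (M : Mdl V Ω) (a : Ω → V → V) (L : ℕ) (c1 : ℝ) (x : V) (K : Set V) (l : ℕ) :
    0 ≤ bet M a L c1 x K l :=
  EL_nonneg M.w M.w0 l _ (fun _ _ => P1_nonneg M _)

end

variable [Fintype V] [DecidableEq V]

theorem lev0 (M : Mdl V Ω) (a : Ω → V → V) (L : ℕ) (hL : 2 ≤ L) (c1 : ℝ) (x : V) (δ6 : ℝ)
    (hδ6 : 0 ≤ δ6)
    (h : ∑ l ∈ range (L - 1), unm M a L c1 x (l + 1) ≤ δ6 * (L - 1)) :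
    ∃ l, 1 ≤ l ∧ l + 1 ≤ L ∧ L ≤ 2 * l ∧ unm M a L c1 x l ≤ 2 * δ6 := by
  set h0 := (L + 1) / 2 - 1 with hh0
  have hsub : Finset.Ico h0 (L - 1) ⊆ range (L - 1) := by
    intro i hi
    simp only [Finset.mem_Ico] at hi
    exact Finset.mem_range.2 hi.2
  have h1 : ∑ l ∈ Finset.Ico h0 (L - 1), unm M a L c1 x (l + 1) ≤ δ6 * (L - 1) :=
    (Finset.sum_le_sum_of_subset_of_nonneg hsub
      (fun i _ _ => unm_nonneg M a L c1 x (i + 1))).trans h
  have hlt : h0 < L - 1 := by omega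
  have hne : (Finset.Ico h0 (L - 1)).Nonempty := Finset.nonempty_Ico.2 hlt
  obtain ⟨l, hl, hle⟩ := exists_le_avg hne (fun l => unm M a L c1 x (l + 1)) _ h1
  rw [Nat.card_Ico] at hle
  simp only [Finset.mem_Ico] at hl
  refine ⟨l + 1, by omega, by omega, by omega, ?_⟩
  have hc : L - 1 ≤ 2 * (L - 1 - h0) := by omega
  have hc' : ((L : ℝ) - 1) ≤ 2 * ((L - 1 - h0 : ℕ) : ℝ) := by
    have : ((L - 1 : ℕ) : ℝ) ≤ 2 * ((L - 1 - h0 : ℕ) : ℝ) := by exact_mod_cast hc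
    rwa [Nat.cast_sub (by omega), Nat.cast_one] at this
  have hpos : (0 : ℝ) < ((L - 1 - h0 : ℕ) : ℝ) := by
    have : 0 < L - 1 - h0 := by omega
    exact_mod_cast this
  have h2 : unm M a L c1 x (l + 1) * ((L - 1 - h0 : ℕ) : ℝ) ≤
      (2 * δ6) * ((L - 1 - h0 : ℕ) : ℝ) := by nlinarith
  exact le_of_mul_le_mul_right h2 hpos

theorem gl_big_sum (M : Mdl V Ω) (a : Ω → V → V) (pc : V → V) (big : Finset V) (x : V)
    (L l : ℕ) (hL : 1 ≤ L) (hl : l ≤ L) :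
    ∑ j ∈ Icc 1 l, ∑ y, gl M a x j y * ind (pc y ∈ big) ≤
      L * etaS M a L x (fun z => pc z ∈ big) := by
  have h1 : (L : ℝ) * etaS M a L x (fun z => pc z ∈ big) =
      ∑ j ∈ range L, ∑ y, gl M a x (j + 1) y * ind (pc y ∈ big) := by
    unfold etaS etaH
    rw [Finset.sum_comm, Finset.mul_sum]
    refine Finset.sum_congr rfl (fun y _ => ?_)
    have hL' : (L : ℝ) ≠ 0 := by
      have : 0 < L := hL
      positivity
    rw [← Finset.sum_mul]
    field_simp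
  rw [h1]
  have h2 : ∑ j ∈ range L, ∑ y, gl M a x (j + 1) y * ind (pc y ∈ big) =
      ∑ j ∈ Icc 1 L, ∑ y, gl M a x j y * ind (pc y ∈ big) := by
    rw [Finset.range_eq_Ico, Finset.sum_Ico_add' (fun j => ∑ y, gl M a x j y * ind (pc y ∈ big)) 0 L 1]
    rfl
  rw [h2]
  refine Finset.sum_le_sum_of_subset_of_nonneg (Finset.Icc_subset_Icc_right hl) (fun i _ _ => ?_)
  exact Finset.sum_nonneg (fun y _ => mul_nonneg (gl_nonneg M a x i y) (ind_nonneg _))

/-- a good level for the set `K'` -/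
theorem lev1 (M : Mdl V Ω) (a : Ω → V → V) (pc : V → V) (big : Finset V) (L : ℕ) (hL : 4 ≤ L)
    (c1 : ℝ) (x : V) (δ6 δ14 κ0 X dv : ℝ) (hδ6 : 0 ≤ δ6) (hκ0 : 0 ≤ κ0)
    (h : ∑ l ∈ range (L - 1), unm M a L c1 x (l + 1) ≤ δ6 * (L - 1))
    (hatom : ∀ z, pc z ∉ big → ∀ y, P1 M (fun T => a T z = y) ≤ κ0)
    (hbig : etaS M a L x (fun z => pc z ∈ big) ≤ 2 * δ14)
    (l0 : ℕ) (hl0 : L ≤ 2 * l0) (hl0L : l0 + 1 ≤ L) (K' : Finset V)
    (hX : EL M.w l0 (fun k => ((ents a k x \ K').card : ℝ)) ≤ X)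
    (hnum : δ6 * (L - 1) + X + L ^ 2 * κ0 + 2 * L * δ14 ≤ dv * (L / 4)) (hdv : 0 ≤ dv) :
    ∃ l, 1 ≤ l ∧ l + 1 ≤ L ∧ bet M a L c1 x (K' : Set V) l ≤ dv := by
  have h1 := ents_card_ge M a pc big x l0 (by omega) κ0 hκ0 hatom K'
  have h2 := gl_big_sum M a pc big x L l0 (by omega) (by omega)
  have h3 : ∑ j ∈ Icc 1 l0, (1 - ∑ y ∈ K', gl M a x j y) ≤ X + L ^ 2 * κ0 + 2 * L * δ14 := by
    have h4 : (l0 : ℝ) ^ 2 * κ0 ≤ L ^ 2 * κ0 := by
      apply mul_le_mul_of_nonneg_right _ hκ0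
      have : (l0 : ℝ) ≤ L := by exact_mod_cast (by omega : l0 ≤ L)
      exact pow_le_pow_left₀ (by positivity) this 2
    have h5 : (L : ℝ) * etaS M a L x (fun z => pc z ∈ big) ≤ L * (2 * δ14) :=
      mul_le_mul_of_nonneg_left hbig (by positivity)
    linarith
  have hnn : ∀ j, 0 ≤ 1 - ∑ y ∈ K', gl M a x j y := by
    intro j
    have := gl_sum M a x j
    have h6 : ∑ y ∈ K', gl M a x j y ≤ ∑ y, gl M a x j y :=
      Finset.sum_le_sum_of_subset_of_nonneg (Finset.subset_univ _)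
        (fun y _ _ => gl_nonneg M a x j y)
    linarith
  -- sum of bet over 1 ≤ l ≤ l0 - 1
  have h7 : ∑ l ∈ Icc 1 (l0 - 1), bet M a L c1 x (K' : Set V) l ≤
      δ6 * (L - 1) + (X + L ^ 2 * κ0 + 2 * L * δ14) := by
    calc ∑ l ∈ Icc 1 (l0 - 1), bet M a L c1 x (K' : Set V) l
        ≤ ∑ l ∈ Icc 1 (l0 - 1), (unm M a L c1 x l + (1 - ∑ y ∈ K', gl M a x (l + 1) y)) :=
          Finset.sum_le_sum (fun l _ => bet_le M a L c1 x K' l)
      _ = ∑ l ∈ Icc 1 (l0 - 1), unm M a L c1 x l +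
          ∑ l ∈ Icc 1 (l0 - 1), (1 - ∑ y ∈ K', gl M a x (l + 1) y) := Finset.sum_add_distrib
      _ ≤ δ6 * (L - 1) + (X + L ^ 2 * κ0 + 2 * L * δ14) := by
          refine add_le_add ?_ ?_
          · refine le_trans ?_ h
            have h8 : ∑ l ∈ Icc 1 (L - 1), unm M a L c1 x l =
                ∑ l ∈ range (L - 1), unm M a L c1 x (l + 1) := by
              rw [Finset.range_eq_Ico, Finset.sum_Ico_add' (fun j => unm M a L c1 x j) 0 (L - 1) 1]
              rfl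
            rw [← h8]
            exact Finset.sum_le_sum_of_subset_of_nonneg (Finset.Icc_subset_Icc_right (by omega))
              (fun i _ _ => unm_nonneg M a L c1 x i)
          · refine le_trans ?_ h3
            have h9 : ∑ l ∈ Icc 1 (l0 - 1), (1 - ∑ y ∈ K', gl M a x (l + 1) y) =
                ∑ l ∈ Icc 2 l0, (1 - ∑ y ∈ K', gl M a x l y) := by
              have : Icc 2 l0 = (Icc 1 (l0 - 1)).map (addRightEmbedding 1) := by
                rw [Finset.map_add_right_Icc]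
                congr 1
                omega
              rw [this, Finset.sum_map]
              rfl
            rw [h9]
            exact Finset.sum_le_sum_of_subset_of_nonneg (Finset.Icc_subset_Icc_left (by omega))
              (fun i _ _ => hnn i)
  have hne : (Icc 1 (l0 - 1)).Nonempty := Finset.nonempty_Icc.2 (by omega)
  obtain ⟨l, hl, hle⟩ := exists_le_avg hne _ _ h7
  simp only [Finset.mem_Icc] at hl
  refine ⟨l, by omega, by omega, ?_⟩
  rw [Nat.card_Icc] at hle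
  have hc : L ≤ 4 * (l0 - 1 + 1 - 1) := by omega
  have hc' : (L : ℝ) / 4 ≤ ((l0 - 1 + 1 - 1 : ℕ) : ℝ) := by
    have : (L : ℝ) ≤ 4 * ((l0 - 1 + 1 - 1 : ℕ) : ℝ) := by exact_mod_cast hc
    linarith
  have hpos : (0 : ℝ) < ((l0 - 1 + 1 - 1 : ℕ) : ℝ) := by
    have : 0 < l0 - 1 + 1 - 1 := by omega
    exact_mod_cast this
  have h10 : bet M a L c1 x (K' : Set V) l * ((l0 - 1 + 1 - 1 : ℕ) : ℝ) ≤
      dv * ((l0 - 1 + 1 - 1 : ℕ) : ℝ) := by
    have : dv * (L / 4) ≤ dv * ((l0 - 1 + 1 - 1 : ℕ) : ℝ) := mul_le_mul_of_nonneg_left hc' hdv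
    linarith
  exact le_of_mul_le_mul_right h10 hpos

/-- expected number of vertices of `B k` outside `K'` -/
theorem sum_cover (M : Mdl V Ω) (S : ℕ) (B : List Ω → Finset V) (K' : Finset V) :
    EL M.w S (fun k => ((B k \ K').card : ℝ)) =
      ∑ y ∈ univ \ K', EL M.w S (fun k => ind (y ∈ B k)) := by
  rw [← EL_sum]
  refine EL_congr M.w S _ _ (fun k _ => ?_)
  have : ((B k \ K').card : ℝ) = ∑ y ∈ univ \ K', ind (y ∈ B k) := by
    have h1 : ∀ y ∈ univ \ K', y ∉ B k \ K' → ind (y ∈ B k) = 0 := by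
      intro y hy hy2
      apply ind_false
      intro hyB
      apply hy2
      simp only [Finset.mem_sdiff, Finset.mem_univ, true_and] at hy ⊢
      exact ⟨hyB, hy⟩
    have hsub : B k \ K' ⊆ univ \ K' := Finset.sdiff_subset_sdiff (Finset.subset_univ _) le_rfl
    rw [← Finset.sum_subset hsub h1]
    have h2 : ∀ y ∈ B k \ K', ind (y ∈ B k) = 1 := by
      intro y hy
      apply ind_true
      exact (Finset.mem_sdiff.1 hy).1
    rw [Finset.sum_congr rfl h2]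
    simp
  exact this

end Pool.Agent.RST
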