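import Mathlib
import Pool.Agent.Lib_helper42.RST.Defs
import Pool.Agent.Lib_helper42.RST.Stmt
import Pool.Agent.Lib_helper42.RSTF.Base

/- block EXT proved by helper93 -/

/-! # RST, block EXT: exit maps -/

set_option autoImplicit false
set_option linter.unusedSectionVars false

open Finset

namespace Pool.Agent.RST

section
variable {V Ω : Type} [Fintype Ω] [Fintype V] [DecidableEq V]

theorem ext_exists (M : Mdl V Ω) (pc : V → V) (T : Ω) (z : V) (h : ∃ u, pc u ≠ pc z) :
    ∃ y, pc y ≠ pc z ∧ ∃ u, pc u = pc z ∧ (M.gr T).Adj u y := by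
  obtain ⟨w, hw⟩ := h
  obtain ⟨p⟩ := (M.conn T).preconnected z w
  obtain ⟨d, _, h1, h2⟩ := p.exists_boundary_dart {u | pc u = pc z} rfl hw
  exact ⟨d.snd, h2, d.fst, h1, d.adj⟩

theorem exists_ext (M : Mdl V Ω) (pc : V → V) (h : ∀ z, ∃ u, pc u ≠ pc z) :
    ∃ a : Ω → V → V, Ext M pc a := by
  classical
  have h1 : ∀ (T : Ω) (i : V), ∃ y, (∃ z, pc z = i) → pc y ≠ i ∧ ∃ u, pc u = i ∧
      (M.gr T).Adj u y := by
    intro T i
    by_cases hi : ∃ z, pc z = i
    · obtain ⟨z, rfl⟩ := hi
      obtain ⟨y, hy⟩ := ext_exists M pc T z (h z)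
      exact ⟨y, fun _ => hy⟩
    · exact ⟨i, fun h => absurd h hi⟩
  choose g hg using h1
  refine ⟨fun T z => g T (pc z), ?_, ?_, ?_⟩
  · intro T z
    exact (hg T (pc z) ⟨z, rfl⟩).1
  · intro T z
    exact (hg T (pc z) ⟨z, rfl⟩).2
  · intro T z z' hz
    show g T (pc z) = g T (pc z')
    rw [hz]

theorem ext_atom {M : Mdl V Ω} {P W : ℕ} {κ δ : ℝ} (pcs : Pieces M P W κ δ) {a : Ω → V → V}
    (he : Ext M pcs.pc a) (hκ : 0 ≤ κ) (z : V) (hz : pcs.pc z ∉ pcs.big) (y : V) :
    P1 M (fun T => a T z = y) ≤ W * κ := by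
  classical
  by_cases hy : pcs.pc y = pcs.pc z
  · have h0 : P1 M (fun T => a T z = y) = 0 := by
      unfold P1
      apply Finset.sum_eq_zero
      intro T _
      have : ¬ (a T z = y) := by
        intro h
        have := he.out T z
        rw [h] at this
        exact this hy
      rw [ind_false this, mul_zero]
    rw [h0]
    positivity
  · have h1 : P1 M (fun T => a T z = y) ≤
        ∑ u ∈ univ.filter (fun x => pcs.pc x = pcs.pc z), P1 M (fun T => (M.gr T).Adj u y) := by
      unfold P1
      rw [Finset.sum_comm]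
      apply Finset.sum_le_sum
      intro T _
      rw [← Finset.mul_sum]
      apply mul_le_mul_of_nonneg_left _ (M.w0 T)
      by_cases h : a T z = y
      · obtain ⟨u, hu, hadj⟩ := he.edge T z
        rw [h] at hadj
        calc ind (a T z = y) ≤ 1 := ind_le_one _
          _ = ind ((M.gr T).Adj u y) := (ind_true hadj).symm
          _ ≤ _ := Finset.single_le_sum (f := fun u => ind ((M.gr T).Adj u y))
              (fun u _ => ind_nonneg _) (by simp [hu])
      · rw [ind_false h]
        exact Finset.sum_nonneg fun u _ => ind_nonneg _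
    calc P1 M (fun T => a T z = y)
        ≤ ∑ u ∈ univ.filter (fun x => pcs.pc x = pcs.pc z), P1 M (fun T => (M.gr T).Adj u y) := h1
      _ ≤ ∑ u ∈ univ.filter (fun x => pcs.pc x = pcs.pc z), κ := by
          apply Finset.sum_le_sum
          intro u hu
          rw [Finset.mem_filter] at hu
          apply pcs.small_edge u y
          · rw [hu.2]; exact hz
          · rw [hu.2]; exact hy
      _ = ((univ.filter (fun x => pcs.pc x = pcs.pc z)).card : ℝ) * κ := by
          rw [Finset.sum_const, nsmul_eq_mul]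
      _ ≤ W * κ := by
          apply mul_le_mul_of_nonneg_right _ hκ
          exact_mod_cast pcs.small_card (pcs.pc z) hz

end

end Pool.Agent.RST
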