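import Mathlib
import Pool.Agent.Lib_helper42.RST.Defs
import Pool.Agent.Lib_helper42.RST.Stmt
import Pool.Agent.Lib_helper42.RSTF.Base
import Pool.Agent.Lib_helper42.RSTF.Asm1
import Pool.Agent.Lib_helper42.RSTF.Asm2
import Pool.Agent.Lib_helper42.RSTF.ENTb
import Pool.Agent.Lib_helper42.RSTF.EXT
import Pool.Agent.Lib_helper42.RSTF.HT

/- block Asm3 proved by helper42 -/

/-!
# Assembly 3: parameters and the costs of moves (helper42)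
-/

set_option autoImplicit false

open Finset

namespace Pool.Agent.RST

/-- constants (independent of `n`) -/
structure Prm (δ : ℝ) where
  K0 : ℝ
  K1 : ℝ
  dv : ℝ
  Θ : ℝ
  εs : ℝ
  η : ℝ
  L : ℕ
  d6 : ℝ
  d14 : ℝ
  dt : ℝ
  c1 : ℝ
  M' : ℝ
  cb : ℝ
  d7 : ℝ
  K2 : ℕ
  W : ℕ
  d5 : ℝ
  B' : ℕ
  hδ : 0 < δ
  hδ2 : δ ≤ 1 / 200
  hL : 4 ≤ L
  hK0 : 1 ≤ K0
  hK0e : 2 * Real.exp (-K0 ^ 2 / 8) ≤ δ
  hK1 : 1 ≤ K1
  hK1e : 2 * Real.exp (-K1 ^ 2 / 8) ≤ dv / 100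
  hdv : 0 < dv
  hdv2 : dv / δ ≤ δ / (8 * K0)
  hd7 : d7 ≤ δ / (8 * K0)
  hd7v : d7 ≤ dv / 100
  hd5 : 0 < d5
  hd5a : (2 * L + 1) * d5 ≤ δ / (8 * K0)
  hd5b : (2 * L + 1) * d5 ≤ dv / 100
  hd5c : (2 * L + 1) * d5 ≤ 1 / 4
  hd6 : 0 < d6
  hd6a : 2 * d6 / δ ≤ δ / (8 * K0)
  hd6b : 20 * d6 ≤ dv / 100
  hd6c : d6 ≤ dv / 1000
  hLΘ : Θ / δ ≤ dv * L / 100
  hΘ : 0 < Θ
  hεs : 0 < εs
  hΘe : Real.exp (-(Θ * εs)) ≤ δ
  hη : 0 < η
  hεη : 2 * εs ≤ η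
  hε1 : εs ≤ 1
  hεK : 8 * εs * (K1 + 2) ≤ δ
  hd14 : 0 < d14
  hd14a : 12 * d14 ≤ d6
  hdt : 0 < dt
  hdt1 : 100 * L * dt ≤ δ
  hc1 : 0 < c1
  hM' : 0 < M'
  hM'1 : 1600 ≤ dt ^ 2 * M' * d14
  hcb : 0 < cb
  hcb1 : 4 * cb ≤ d14
  hcb2 : 32 * M' * cb ≤ d6 ^ 2
  hcb3 : 2 * cb ≤ c1
  hK2 : Real.exp (-(K2 * L * (c1 - cb))) ≤ d7
  hW : 1 ≤ W
  hW1 : 2 * M' ≤ d14 * W
  hW2 : 2 ≤ η * W
  hB' : 1 ≤ B'
  /-- `B` large compared with the constant terms of the second moment -/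
  hB'1 : 3 * (3 + 4 * dt ^ 2 * M' + W * (8 * W * (Real.log (8 * W / d5) + 1)) + B' * L * c1) ≤
    ((L - 1) * B' : ℕ) * dt ^ 2 * d6 ^ 2 / 16

/-- `κ P` -/
noncomputable def Prm.Ck {δ : ℝ} (p : Prm δ) : ℝ := 8 * p.W * (Real.log (8 * p.W / p.d5) + 1)

/-- facts for large `n` -/
structure Lrg {δ : ℝ} (p : Prm δ) (n q : ℕ) : Prop where
  hn : 1 ≤ n
  hq : 1 ≤ q
  hP1 : p.dt * Real.sqrt n ≤ (p.L * q : ℕ)
  hP2 : ((p.L * q : ℕ) : ℝ) ≤ 2 * p.dt * Real.sqrt n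
  hκ : p.Ck / (p.L * q : ℕ) ≤ 1
  hBP : (p.L - 1) * ((p.L - 1) * p.B') ≤ p.L * q
  hKP : p.L + p.L * (p.L * p.K2) ≤ p.L * q
  hS : (1 / n : ℝ) * (6 * p.L * (p.L * q) : ℕ) ≤ 1 / 8
  hexp : Real.exp ((1 / n : ℝ) * (6 * p.L * (p.L * q) + ⌈p.K0 * Real.sqrt n⌉₊ : ℕ)) ≤ 1 + δ
  hK0n : p.K0 * Real.sqrt n + 1 ≤ 2 * p.K0 * Real.sqrt n
  hS0n : ⌈p.K0 * Real.sqrt n⌉₊ ≤ n
  /-- small terms of the second moment -/
  hsm : (((p.L - 1) * p.B' : ℕ) : ℝ) * ((p.L * q : ℕ) * p.M' / n) * 3 ≤ 1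
  hLκ : p.L * (p.W * (p.Ck / (p.L * q : ℕ))) ≤ p.dv / 100
  hWκ : p.W * (p.Ck / (p.L * q : ℕ)) ≤ (n : ℝ) ^ (-0.45 : ℝ) / 2
  hlθ : (1 / n : ℝ) ≤ (n : ℝ) ^ (-0.45 : ℝ) / 8
  hmc : 1.4 * Real.sqrt n + 8 / (n : ℝ) ^ (-0.45 : ℝ) ≤ 1.5 * Real.sqrt n
  hθδ : 8 / (n : ℝ) ^ (-0.45 : ℝ) ≤ δ * Real.sqrt n
  hD1 : 2 * (n : ℝ) ^ (0.9 : ℝ) / p.cb * (n * (n : ℝ) ^ (-0.45 : ℝ)) ≤ δ * (n : ℝ) ^ (3 / 2 : ℝ)
  hcl : (n + (n : ℝ) ^ (0.9 : ℝ)) * ((n : ℝ) ^ (0.12 : ℝ) + 2 + 1) ≤ δ * (n : ℝ) ^ (3 / 2 : ℝ)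
  hα : (1 / n : ℝ) * (1.5 * Real.sqrt n * (2 * p.L)) ≤ 1
  hα2 : (1 / n : ℝ) * (2 * (1.5 * Real.sqrt n) * p.L) ^ 2 ≤ Real.sqrt n / 2
  hn3 : (n : ℝ) ≤ δ * (n : ℝ) ^ (3 / 2 : ℝ)
  hS1 : (p.K1 * Real.sqrt n + 1) + (6 * p.L * (p.L * q) : ℕ) ≤ (p.K1 + 1) * Real.sqrt n
  hr : p.εs * n + 1 ≤ 2 * p.εs * n

variable {V Ω : Type} [Fintype Ω] [Fintype V] [DecidableEq V]

/-- concentrated piece -/
def IsHvy {δ : ℝ} (p : Prm δ) (M : Mdl V Ω) (pc : V → V) (a : Ω → V → V) (x : V) : Prop :=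
  p.d14 ≤ etaS M a p.L x (fun z => Hvy M pc a p.L p.M' x z)

def IsNC {δ : ℝ} (p : Prm δ) (M : Mdl V Ω) (a : Ω → V → V) (x : V) : Prop :=
  p.d6 * (p.L - 1) < ∑ l ∈ range (p.L - 1), unm M a p.L p.c1 x (l + 1)

section moves
variable {δ : ℝ} (p : Prm δ) {q : ℕ} (g : Lrg p (Fintype.card V) q)
  {M : Mdl V Ω} {Φ : V → Finset V → ℝ} (C : Calc M (1 / Fintype.card V) Φ)
  (pcs : Pieces M (p.L * q) p.W (p.Ck / (p.L * q : ℕ)) p.d5) {a : Ω → V → V}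
  (he : Ext M pcs.pc a)

include g in
theorem n_pos : (0 : ℝ) < Fintype.card V := by
  have := g.hn
  exact_mod_cast this

include g in
theorem P_pos : (0 : ℝ) < (p.L * q : ℕ) := by
  have h1 := g.hq
  have h2 := p.hL
  have : 0 < p.L * q := Nat.mul_pos (by omega) (by omega)
  exact_mod_cast this

theorem Ck_pos : 0 < p.Ck := by
  unfold Prm.Ck
  have h1 : (1 : ℝ) ≤ p.W := by exact_mod_cast p.hW
  have h2 : (1 : ℝ) ≤ 8 * p.W / p.d5 := by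
    rw [le_div_iff₀ p.hd5]
    have h3 := p.hd5c
    have h4 : (4 : ℝ) ≤ p.L := by exact_mod_cast p.hL
    have h5 := p.hd5
    nlinarith
  have := Real.log_nonneg h2
  positivity

include g in
theorem cost_half_le : 8 * ((6 * p.L * (p.L * q) : ℕ) : ℝ) ≤ δ * Real.sqrt (Fintype.card V) := by
  have h1 := g.hP2
  have h2 := p.hdt1
  have h3 : (0 : ℝ) ≤ Real.sqrt (Fintype.card V) := Real.sqrt_nonneg _
  have h4 : (0 : ℝ) ≤ p.L := by positivity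
  have h5 : ((6 * p.L * (p.L * q) : ℕ) : ℝ) = 6 * p.L * ((p.L * q : ℕ) : ℝ) := by push_cast; ring
  rw [h5]
  calc 8 * (6 * (p.L : ℝ) * ((p.L * q : ℕ) : ℝ))
      ≤ 8 * (6 * (p.L : ℝ) * (2 * p.dt * Real.sqrt (Fintype.card V))) := by gcongr
    _ = (96 * p.L * p.dt) * Real.sqrt (Fintype.card V) := by ring
    _ ≤ δ * Real.sqrt (Fintype.card V) := by
        apply mul_le_mul_of_nonneg_right _ h3
        have := p.hdt
        nlinarith [mul_nonneg h4 this.le]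

include g C he in
theorem move_heavy (x : V) (Wt : Set V) (hN : CondN M a p.cb x Wt)
    (h : IsHvy p M pcs.pc a x) :
    Hit Φ (1 / Fintype.card V) x Wt (δ * Real.sqrt (Fintype.card V)) := by
  have hn := n_pos p g
  have hlam : (0 : ℝ) ≤ 1 / Fintype.card V := by positivity
  refine hit_mono hlam (heavy_hit C hlam pcs he (by have := p.hL; omega) g.hq x Wt p.cb p.M' p.d14
    p.hcb.le hN p.hM' p.hd14 h p.hcb1 ?_ p.hd5.le p.hd5c g.hS) (cost_half_le p g)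
  have h1 := g.hP1
  have h2 : (p.dt * Real.sqrt (Fintype.card V)) ^ 2 ≤ ((p.L * q : ℕ) : ℝ) ^ 2 :=
    pow_le_pow_left₀ (mul_nonneg p.hdt.le (Real.sqrt_nonneg _)) h1 2
  rw [mul_pow, Real.sq_sqrt hn.le] at h2
  have h3 := p.hM'1
  have h4 : 0 < p.M' * p.d14 := mul_pos p.hM' p.hd14
  calc 1600 * (Fintype.card V : ℝ) ≤ (p.dt ^ 2 * p.M' * p.d14) * Fintype.card V :=
        mul_le_mul_of_nonneg_right h3 hn.le
    _ = (p.dt ^ 2 * Fintype.card V) * (p.M' * p.d14) := by ring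
    _ ≤ ((p.L * q : ℕ) : ℝ) ^ 2 * (p.M' * p.d14) := mul_le_mul_of_nonneg_right h2 h4.le
    _ = ((p.L * q : ℕ) : ℝ) ^ 2 * p.M' * p.d14 := by ring

include g C he in
theorem move_nc (x : V) (Wt : Set V) (hN : CondN M a p.cb x Wt)
    (h : ¬ IsHvy p M pcs.pc a x) (h' : IsNC p M a x) :
    Hit Φ (1 / Fintype.card V) x Wt (δ * Real.sqrt (Fintype.card V)) := by
  have hn := n_pos p g
  have hPp := P_pos p g
  have hlam : (0 : ℝ) ≤ 1 / Fintype.card V := by positivity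
  have hκ0 : 0 ≤ p.Ck / (p.L * q : ℕ) := div_nonneg (Ck_pos p).le hPp.le
  refine hit_mono hlam (nc_hit C hlam pcs he (by have := p.hL; omega) g.hq p.hB' x Wt p.cb p.M' p.d14
    p.d6 p.c1 (p.W * (p.Ck / (p.L * q : ℕ))) p.hcb.le hN p.hM' p.hd14 p.hd6 p.hc1
    (by positivity) (fun z hz y => ext_atom pcs he hκ0 z hz y) (not_le.1 h)
    (big_mass pcs a p.L (by have := p.hL; omega) x p.M' p.d14 p.hM' p.hW (not_le.1 h) p.hW1) h'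
    p.hd14a p.hcb2 ?_ p.hd5.le p.hd5c g.hBP g.hS) (cost_half_le p g)
  -- the numerical condition
  set P : ℝ := ((p.L * q : ℕ) : ℝ) with hP
  set n : ℝ := (Fintype.card V : ℝ) with hnn
  set B : ℝ := (((p.L - 1) * p.B' : ℕ) : ℝ) with hB
  have hsq : Real.sqrt n ^ 2 = n := Real.sq_sqrt hn.le
  have hs0 : 0 ≤ Real.sqrt n := Real.sqrt_nonneg _
  have hP2n : P ^ 2 ≤ 4 * p.dt ^ 2 * n := by
    calc P ^ 2 ≤ (2 * p.dt * Real.sqrt n) ^ 2 := pow_le_pow_left₀ hPp.le g.hP2 2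
      _ = 4 * p.dt ^ 2 * n := by rw [mul_pow, mul_pow, hsq]; ring
  have hP1n : p.dt ^ 2 * n ≤ P ^ 2 := by
    calc p.dt ^ 2 * n = (p.dt * Real.sqrt n) ^ 2 := by rw [mul_pow, hsq]
      _ ≤ P ^ 2 := pow_le_pow_left₀ (mul_nonneg p.hdt.le hs0) g.hP1 2
  have hsm := g.hsm
  have hB0 : 0 ≤ B := by positivity
  have hM0 := p.hM'
  have e1 : P * (P * p.M' / n) ≤ 4 * p.dt ^ 2 * p.M' := by
    have : P * (P * p.M' / n) = P ^ 2 / n * p.M' := by ring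
    rw [this]
    apply mul_le_mul_of_nonneg_right _ hM0.le
    rw [div_le_iff₀ hn]; exact hP2n
  have e2 : B * (P * p.M' / n) ≤ 1 / 3 := by
    have h3 : B * (P * p.M' / n) * 3 ≤ 1 := hsm
    linarith
  have e3 : P * (p.W * (p.Ck / P)) = p.W * p.Ck := by
    field_simp
  have e4 : P * (B * (2 * p.M') / n) = 2 * (B * (P * p.M' / n)) := by ring
  have e5 : B * p.dt ^ 2 * p.d6 ^ 2 / 16 ≤ B * P ^ 2 * p.d6 ^ 2 / (16 * n) := by
    rw [div_le_div_iff₀ (by norm_num) (by positivity)]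
    have h4 : 0 ≤ B * p.d6 ^ 2 := by positivity
    nlinarith [mul_le_mul_of_nonneg_left hP1n h4]
  refine le_trans ?_ e5
  refine le_trans ?_ p.hB'1
  have e6 : p.W * p.Ck = p.W * (8 * p.W * (Real.log (8 * p.W / p.d5) + 1)) := rfl
  rw [e3, e4, ← e6, add_mul]
  linarith

/-- NoRep bound functions -/
structure BdF (δ K0 : ℝ) (n : ℕ) (k' : ℝ) (f : ℕ → ℝ) : Prop where
  nonneg : ∀ s, 0 ≤ f s
  sum_le : ∀ S0 : ℕ, S0 ≤ n → ∑ s ∈ range S0, f s ≤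
      (1 + 8 * δ) * Real.sqrt (Real.pi * k' / 2) + 2 * δ * Real.sqrt n
  bound : ∀ (Ω D : Type) [Fintype Ω] [Fintype D] [DecidableEq D] (w : Ω → ℝ) (_ : ∀ T, 0 ≤ w T)
    (_ : ∑ T, w T = 1) (o : Ω → Option D) (S : Finset D) (_ : ∀ T d, o T = some d → d ∈ S)
    (_ : (S.card : ℝ) ≤ k') (_ : ∑ T, w T * ind (o T = none) ≤ δ) (s : ℕ),
    EL w s (fun k => ind ((k.filterMap o).Nodup)) ≤ f s

/-- tail bound for `n` -/
def TailB (K0 : ℝ) (n : ℕ) : Prop :=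
    ∀ (Ω D : Type) [Fintype Ω] [Fintype D] [DecidableEq D] (w : Ω → ℝ) (_ : ∀ T, 0 ≤ w T)
    (_ : ∑ T, w T = 1) (o : Ω → Option D) (_ : (Fintype.card D : ℝ) ≤ n)
    (_ : ∑ T, w T * ind (o T = none) ≤ 1 / 10) (s : ℕ) (_ : K0 * Real.sqrt n ≤ s),
    EL w s (fun k => ind ((k.filterMap o).Nodup)) ≤ 2 * Real.exp (-K0 ^ 2 / 8)

include g C he in
theorem move_co (x : V) (Wt : Set V) (hN : CondN M a p.cb x Wt) (K' : Finset V) (k' : ℝ)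
    (f : ℕ → ℝ) (hf : BdF δ p.K0 (Fintype.card V) k' f) (hk' : (K'.card : ℝ) ≤ k')
    (ht : TailB p.K0 (Fintype.card V)) (l : ℕ) (hl : 1 ≤ l) (hlL : l + 1 ≤ p.L)
    (hb : bet M a p.L p.c1 x (K' : Set V) l / δ ≤ δ / (8 * p.K0)) :
    Hit Φ (1 / Fintype.card V) x Wt
      ((1 + 16 * δ) * Real.sqrt (Real.pi * k' / 2) + 6 * δ * Real.sqrt (Fintype.card V)) := by
  have hn := n_pos p g
  have hδ := p.hδ
  have hδ2 := p.hδ2
  have hlam : (0 : ℝ) ≤ 1 / Fintype.card V := by positivity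
  set S0 : ℕ := ⌈p.K0 * Real.sqrt (Fintype.card V)⌉₊ with hS0
  set f' : ℕ → ℝ := fun s => if s < S0 then f s else 2 * Real.exp (-p.K0 ^ 2 / 8) with hf'
  set pf : ℝ := 3 * δ / (8 * p.K0) with hpf
  have hK0p : 0 < p.K0 := by linarith [p.hK0]
  have hpf0 : 0 ≤ pf := by positivity
  have hsupp : ∀ z T d, outc M a p.L p.c1 x (K' : Set V) z T = some d → d ∈ K' := by
    intro z T d h
    unfold outc at h
    split_ifs at h with h1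
    · simp only [Option.some.injEq] at h
      rw [← h]
      exact_mod_cast h1.2
  have htail : ∀ s ≤ S0, 1 - pr M (6 * p.L * (p.L * q) + s) x Wt ≤ f' s + pf := by
    intro s hs
    have hf'0 : 0 ≤ f' s := by
      simp only [hf']
      split_ifs
      · exact hf.nonneg s
      · positivity
    have h1 := co_tail pcs he (by have := p.hL; omega) p.K2 l s hl hlL x Wt (K' : Set V) p.cb p.c1 δ
      (f' s) p.d7 p.hcb.le hN hδ (by linarith [p.hcb3, p.hcb]) hf'0 ?_ p.hK2 p.hd5.le g.hKP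
    · have h2 := p.hd7
      have h3 := p.hd5a
      have h4 : pf = δ / (8 * p.K0) + δ / (8 * p.K0) + δ / (8 * p.K0) := by
        rw [hpf]; ring
      linarith
    · intro z hz
      simp only [hf']
      split_ifs with hlt
      · exact hf.bound Ω V M.w M.w0 M.w1 _ K' (hsupp z) hk' hz s
      · refine ht Ω V M.w M.w0 M.w1 _ le_rfl ?_ s ?_
        · exact le_trans hz (by linarith)
        · have : S0 ≤ s := not_lt.1 hlt
          exact le_trans (Nat.le_ceil _) (by exact_mod_cast this)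
  have hsum : ∑ s ∈ range S0, f' s ≤
      (1 + 8 * δ) * Real.sqrt (Real.pi * k' / 2) + 2 * δ * Real.sqrt (Fintype.card V) := by
    have h1 : ∑ s ∈ range S0, f' s = ∑ s ∈ range S0, f s := by
      refine Finset.sum_congr rfl (fun s hs => ?_)
      simp [hf', Finset.mem_range.1 hs]
    rw [h1]
    exact hf.sum_le S0 g.hS0n
  have hfS0 : f' S0 = 2 * Real.exp (-p.K0 ^ 2 / 8) := by simp [hf']
  have hpfδ : pf ≤ δ := by
    rw [hpf, div_le_iff₀ (by positivity)]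
    nlinarith [p.hK0]
  have hR0 : 0 ≤ (1 + 8 * δ) * Real.sqrt (Real.pi * k' / 2) +
      2 * δ * Real.sqrt (Fintype.card V) := by positivity
  have h := co_hit C hlam (x := x) (Wt := Wt) (S1 := 6 * p.L * (p.L * q)) (S0 := S0) (f := f')
    (pf := pf) (q := 2 * δ) (δ := δ) htail hsum (by rw [hfS0]; linarith [p.hK0e]) hδ.le
    (by linarith) le_rfl g.hexp hR0 hpf0
  refine hit_mono hlam h ?_
  have h8 := cost_half_le p g
  set sq := Real.sqrt (Fintype.card V) with hsq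
  have hsq0 : 0 ≤ sq := Real.sqrt_nonneg _
  have h9 : (S0 : ℝ) * pf ≤ 3 / 4 * δ * sq := by
    have h10 : (S0 : ℝ) ≤ 2 * p.K0 * sq := by
      have : (S0 : ℝ) < p.K0 * sq + 1 := Nat.ceil_lt_add_one (by positivity)
      linarith [g.hK0n]
    calc (S0 : ℝ) * pf ≤ (2 * p.K0 * sq) * pf := mul_le_mul_of_nonneg_right h10 hpf0
      _ = 3 / 4 * δ * sq := by rw [hpf]; field_simp; ring
  have h11 : ((6 * p.L * (p.L * q) : ℕ) : ℝ) ≤ δ * sq / 8 := by linarith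
  set X := Real.sqrt (Real.pi * k' / 2) with hX
  have hX0 : 0 ≤ X := Real.sqrt_nonneg _
  have h12 : ((6 * p.L * (p.L * q) : ℕ) : ℝ) + ((1 + 8 * δ) * X + 2 * δ * sq) + S0 * pf ≤
      (1 + 8 * δ) * X + 3 * δ * sq := by nlinarith
  calc (1 + 4 * δ) * (((6 * p.L * (p.L * q) : ℕ) : ℝ) + ((1 + 8 * δ) * X + 2 * δ * sq) + S0 * pf)
      ≤ (1 + 4 * δ) * ((1 + 8 * δ) * X + 3 * δ * sq) :=
        mul_le_mul_of_nonneg_left h12 (by linarith)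
    _ = (1 + 12 * δ + 32 * δ ^ 2) * X + (3 * δ + 12 * δ ^ 2) * sq := by ring
    _ ≤ (1 + 16 * δ) * X + 6 * δ * sq := by
        have h13 : 32 * δ ^ 2 ≤ 4 * δ := by nlinarith
        have h14 : 12 * δ ^ 2 ≤ 3 * δ := by nlinarith
        nlinarith [mul_le_mul_of_nonneg_right h13 hX0, mul_le_mul_of_nonneg_right h14 hsq0]

end moves

end Pool.Agent.RST
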