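import Mathlib
import Pool.Agent.Lib_helper42.RST.Defs
import Pool.Agent.Lib_helper42.RST.Stmt
import Pool.Agent.Lib_helper42.RSTF.Base
import Pool.Agent.Lib_helper42.RSTF.Asm3
import Pool.Agent.Lib_helper42.RSTF.COW
import Pool.Agent.Lib_helper42.RSTF.EL1
import Pool.Agent.Lib_helper42.RSTF.ENTb
import Pool.Agent.Lib_helper42.RSTF.EXT

/- block Asm4 proved by helper42 -/

/-!
# Assembly 4: dependence on the piece only, loops (helper42)
-/

set_option autoImplicit false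

open Finset

namespace Pool.Agent.RST

section dep
variable {V Ω : Type} [Fintype Ω] {M : Mdl V Ω} {pc : V → V} {a : Ω → V → V}

theorem ch_dep (he : Ext M pc a) {x x' : V} (hx : pc x = pc x') (k : List Ω) (hk : k ≠ []) :
    ch a k x = ch a k x' := by
  cases k with
  | nil => exact absurd rfl hk
  | cons T k => simp only [ch]; rw [he.dep T x x' hx]

theorem gl_dep (he : Ext M pc a) {x x' : V} (hx : pc x = pc x') (l : ℕ) (hl : 1 ≤ l) (y : V) :
    gl M a x l y = gl M a x' l y := by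
  unfold gl
  refine EL_congr M.w l _ _ (fun k hk => ?_)
  rw [ch_dep he hx k (by rintro rfl; simp at hk; omega)]

theorem etaH_dep (he : Ext M pc a) {x x' : V} (hx : pc x = pc x') (L : ℕ) (y : V) :
    etaH M a L x y = etaH M a L x' y := by
  unfold etaH
  congr 1
  exact Finset.sum_congr rfl (fun l _ => gl_dep he hx (l + 1) (by omega) y)

variable [Fintype V]

theorem gam_dep (he : Ext M pc a) {x x' : V} (hx : pc x = pc x') (L : ℕ) (T : Ω) (y : V) :
    gam M a L x T y = gam M a L x' T y := by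
  unfold gam
  exact Finset.sum_congr rfl (fun z _ => by rw [etaH_dep he hx])

theorem etaS_dep (he : Ext M pc a) {x x' : V} (hx : pc x = pc x') (L : ℕ) (p : V → Prop) :
    etaS M a L x p = etaS M a L x' p := by
  unfold etaS
  exact Finset.sum_congr rfl (fun z _ => by rw [etaH_dep he hx])

theorem unm_dep (he : Ext M pc a) {x x' : V} (hx : pc x = pc x') (L : ℕ) (c1 : ℝ) (l : ℕ)
    (hl : 1 ≤ l) : unm M a L c1 x l = unm M a L c1 x' l := by
  unfold unm
  refine EL_congr M.w l _ _ (fun k hk => ?_)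
  rw [ch_dep he hx k (by rintro rfl; simp at hk; omega)]
  simp only [gam_dep he hx]

theorem outc_dep (he : Ext M pc a) {x x' : V} (hx : pc x = pc x') (L : ℕ) (c1 : ℝ) (K : Set V)
    (z : V) (T : Ω) : outc M a L c1 x K z T = outc M a L c1 x' K z T := by
  unfold outc
  rw [gam_dep he hx L T (a T z)]

theorem bet_dep (he : Ext M pc a) {x x' : V} (hx : pc x = pc x') (L : ℕ) (c1 : ℝ) (K : Set V)
    (l : ℕ) (hl : 1 ≤ l) : bet M a L c1 x K l = bet M a L c1 x' K l := by
  unfold bet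
  refine EL_congr M.w l _ _ (fun k hk => ?_)
  rw [ch_dep he hx k (by rintro rfl; simp at hk; omega)]
  simp only [outc_dep he hx]

end dep

variable {V Ω : Type} [Fintype Ω] [Fintype V] [DecidableEq V]

theorem IsHvy_dep {δ : ℝ} (p : Prm δ) {M : Mdl V Ω} {pc : V → V} {a : Ω → V → V}
    (he : Ext M pc a) {x x' : V} (hx : pc x = pc x') :
    IsHvy p M pc a x ↔ IsHvy p M pc a x' := by
  unfold IsHvy Hvy
  simp only [etaS_dep he hx]

theorem IsNC_dep {δ : ℝ} (p : Prm δ) {M : Mdl V Ω} {pc : V → V} {a : Ω → V → V}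
    (he : Ext M pc a) {x x' : V} (hx : pc x = pc x') :
    IsNC p M a x ↔ IsNC p M a x' := by
  unfold IsNC
  have : ∀ l ∈ range (p.L - 1), unm M a p.L p.c1 x (l + 1) = unm M a p.L p.c1 x' (l + 1) :=
    fun l _ => unm_dep he hx p.L p.c1 (l + 1) (by omega)
  rw [Finset.sum_congr rfl this]

section loops
variable {δ : ℝ} (p : Prm δ) {q : ℕ} (g : Lrg p (Fintype.card V) q)
  {M : Mdl V Ω}
  (pcs : Pieces M (p.L * q) p.W (p.Ck / (p.L * q : ℕ)) p.d5) {a : Ω → V → V}
  (he : Ext M pcs.pc a)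

include g he in
/-- a loop at every vertex; for concentrated pieces, if it rarely leaves `K'` there is a good
level -/
theorem loop_exists (ht : TailB p.K1 (Fintype.card V)) (x : V) :
    ∃ (S : ℕ) (B : List Ω → Finset V), (S : ℝ) ≤ (p.K1 + 1) * Real.sqrt (Fintype.card V) ∧
      (∀ k, k.length = S → Wlk M k x x (B k)) ∧ (∀ k, (B k).card ≤ p.L) ∧
      (¬ IsHvy p M pcs.pc a x → ¬ IsNC p M a x → ∀ K' : Finset V,
        ∑ y ∈ univ \ K', EL M.w S (fun k => ind (y ∈ B k)) ≤ p.Θ / δ →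
        ∃ l, 1 ≤ l ∧ l + 1 ≤ p.L ∧ bet M a p.L p.c1 x (K' : Set V) l ≤ p.dv) := by
  have hn := n_pos p g
  have hPp := P_pos p g
  have hsq : 0 ≤ Real.sqrt (Fintype.card V) := Real.sqrt_nonneg _
  have hK1 := p.hK1
  have hL := p.hL
  by_cases hx : ¬ IsHvy p M pcs.pc a x ∧ ¬ IsNC p M a x
  swap
  · refine ⟨0, fun _ => ∅, ?_, ?_, ?_, ?_⟩
    · simp only [Nat.cast_zero]; positivity
    · intro k hk
      have : k = [] := List.length_eq_zero_iff.1 hk
      subst this
      exact ⟨rfl, Finset.empty_subset _⟩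
    · intro k; simp
    · intro h1 h2
      exact absurd ⟨h1, h2⟩ hx
  obtain ⟨hx1, hx2⟩ := hx
  have hsum : ∑ l ∈ range (p.L - 1), unm M a p.L p.c1 x (l + 1) ≤ p.d6 * (p.L - 1) := not_lt.1 hx2
  obtain ⟨l0, hl0, hl0L, hl0b, hunm⟩ := lev0 M a p.L (by omega) p.c1 x p.d6 p.hd6.le hsum
  set S1 : ℕ := ⌈p.K1 * Real.sqrt (Fintype.card V)⌉₊ with hS1
  have hcb := p.hcb
  have hc1 := p.hc1
  have hd7 : Real.exp (-(p.K2 * p.L * p.c1)) ≤ p.d7 := by
    refine le_trans ?_ p.hK2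
    apply Real.exp_le_exp.2
    have : (0 : ℝ) ≤ p.K2 * p.L := by positivity
    nlinarith
  obtain ⟨B, hB1, hB2, hB3⟩ := co_loop pcs p.hd5.le he p.L p.K2 (by omega) l0 S1 hl0 x Set.univ
    p.c1 (1 / 10) (2 * Real.exp (-p.K1 ^ 2 / 8)) p.d7 (by norm_num) p.hc1.le (by positivity)
    (fun z hz => ht Ω V M.w M.w0 M.w1 _ le_rfl hz S1 (Nat.le_ceil _)) hd7
  refine ⟨_, B, ?_, hB1, fun k => (hB2 k).trans (by omega), ?_⟩
  · have h1 : (l0 + p.L + 2) * (p.L * q) + (l0 + S1 + p.L * (p.L * p.K2)) ≤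
        6 * p.L * (p.L * q) + S1 := by
      have h4 : (l0 + p.L + 2) * (p.L * q) ≤ (3 * p.L) * (p.L * q) :=
        Nat.mul_le_mul_right _ (by omega)
      have h5' : 1 * (p.L * q) ≤ p.L * (p.L * q) := Nat.mul_le_mul_right _ (by omega)
      have h6 := g.hKP
      nlinarith
    have h2 : (((l0 + p.L + 2) * (p.L * q) + (l0 + S1 + p.L * (p.L * p.K2)) : ℕ) : ℝ) ≤
        ((6 * p.L * (p.L * q) + S1 : ℕ) : ℝ) := by exact_mod_cast h1
    refine h2.trans ?_
    have h3 : (S1 : ℝ) < p.K1 * Real.sqrt (Fintype.card V) + 1 :=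
      Nat.ceil_lt_add_one (by positivity)
    have h4 := g.hS1
    rw [Nat.cast_add]
    linarith
  · intro _ _ K' hK'
    set ploop : ℝ := bet M a p.L p.c1 x Set.univ l0 / (1 / 10) + 2 * Real.exp (-p.K1 ^ 2 / 8) +
      p.d7 + (l0 + p.L + 2) * p.d5 with hpl
    have hd5 := p.hd5
    have hploop : ploop ≤ p.dv / 25 := by
      have h1 := p.hd6b
      have h2 := p.hK1e
      have h3 := p.hd7v
      have h4 := p.hd5b
      have h5 : ((l0 : ℝ) + p.L + 2) * p.d5 ≤ (2 * p.L + 1) * p.d5 := by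
        apply mul_le_mul_of_nonneg_right _ p.hd5.le
        have : (l0 : ℝ) + 1 ≤ p.L := by exact_mod_cast hl0L
        linarith
      have h6 : bet M a p.L p.c1 x Set.univ l0 / (1 / 10) ≤ 20 * p.d6 := by
        rw [bet_univ]
        linarith
      rw [hpl]
      linarith
    have hploop0 : 0 ≤ ploop := by
      have h7 : 0 ≤ p.d7 := le_trans (Real.exp_pos _).le hd7
      have h8 := bet_nonneg M a p.L p.c1 x Set.univ l0
      have h9 : (0:ℝ) ≤ (l0 + p.L + 2) * p.d5 := by positivity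
      have h10 : 0 ≤ 2 * Real.exp (-p.K1 ^ 2 / 8) := by positivity
      rw [hpl]
      positivity
    have h1 := hB3 K'
    rw [sum_cover M _ B K'] at h1
    have h2 : EL M.w l0 (fun k => ((ents a k x \ K').card : ℝ)) ≤
        p.Θ / δ + p.L * (p.dv / 25) := by
      have h3 : (l0 : ℝ) * ploop ≤ p.L * (p.dv / 25) := by
        have : (l0 : ℝ) ≤ p.L := by exact_mod_cast (by omega : l0 ≤ p.L)
        calc (l0 : ℝ) * ploop ≤ p.L * ploop := mul_le_mul_of_nonneg_right this hploop0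
          _ ≤ p.L * (p.dv / 25) := mul_le_mul_of_nonneg_left hploop (by positivity)
      linarith
    have hκ0 : 0 ≤ p.Ck / (p.L * q : ℕ) := div_nonneg (Ck_pos p).le hPp.le
    refine lev1 M a pcs.pc pcs.big p.L hL p.c1 x p.d6 p.d14 (p.W * (p.Ck / (p.L * q : ℕ))) _ p.dv
      p.hd6.le (by positivity) hsum (fun z hz y => ext_atom pcs he hκ0 z hz y)
      (big_mass pcs a p.L (by omega) x p.M' p.d14 p.hM' p.hW (not_le.1 hx1) p.hW1) l0 hl0b hl0L K'
      h2 ?_ p.hdv.le
    have h4 := p.hLΘ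
    have h5 := g.hLκ
    have h6 := p.hd6c
    have h7 := p.hd14a
    have hLp : (4 : ℝ) ≤ p.L := by exact_mod_cast hL
    have hdv := p.hdv
    have hd6 := p.hd6
    have h8 : (p.L : ℝ) ^ 2 * (p.W * (p.Ck / (p.L * q : ℕ))) ≤ p.L * (p.dv / 100) := by
      have : (p.L : ℝ) ^ 2 * (p.W * (p.Ck / (p.L * q : ℕ))) =
        p.L * (p.L * (p.W * (p.Ck / (p.L * q : ℕ)))) := by ring
      rw [this]
      exact mul_le_mul_of_nonneg_left h5 (by positivity)
    have h9 : p.d6 * (p.L - 1) ≤ p.L * (p.dv / 1000) := by nlinarith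
    have h10 : 2 * (p.L : ℝ) * p.d14 ≤ p.L * (p.dv / 1000) := by nlinarith
    have h11 : p.dv * p.L / 100 = p.L * (p.dv / 100) := by ring
    have h12 : p.dv * ((p.L : ℝ) / 4) = p.L * (p.dv / 4) := by ring
    rw [h12]
    have h13 : 0 ≤ (p.L : ℝ) * p.dv := by positivity
    linarith

end loops

end Pool.Agent.RST
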