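import Mathlib
import Pool.Agent.Lib_helper42.RST.Defs
import Pool.Agent.Lib_helper42.RST.Stmt
import Pool.Agent.Lib_helper42.RSTF.Base
import Pool.Agent.Lib_helper42.RSTF.HT

/- block ST2 proved by helper30 -/

/-!
# Block ST2 of the RST project: stage 2
-/

set_option autoImplicit false
set_option linter.unusedSectionVars false

open Finset

namespace Pool.Agent.RST

section ST2
variable {V Ω : Type} [Fintype Ω] [Fintype V] [DecidableEq V]

/-- the unfinished indices -/
def st2_J (pc : V → V) (I A : Finset V) : Finset V :=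
  I.filter (fun i => ¬ univ.filter (fun y => pc y = i) ⊆ A)

theorem st2_aux {M : Mdl V Ω} {lam : ℝ} {Φ : V → Finset V → ℝ} (C : Calc M lam Φ)
    (hlam : 0 ≤ lam) (pc : V → V) (I : Finset V) (hI : ∀ i ∈ I, pc i = i) (tc : ℝ) (htc0 : 0 ≤ tc)
    (htc : ∀ u v, pc u = pc v → Hit Φ lam u {v} tc) (l : List (ℝ × V)) :
    ∀ (v : V) (_ : Tour (fun c u v => Hit Φ lam u {v} c) v l) (A : Finset V)
      (_ : ∀ y, pc y ∉ I → y ∈ A) (_ : ∀ i ∈ st2_J pc I A, i ∈ v :: l.map Prod.snd),
    Φ v A ≤ Real.exp (lam * ((l.map Prod.fst).sum +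
      ∑ i ∈ st2_J pc I A, tc * ((univ.filter (fun y => pc y = i)).card + 1))) := by
  induction l with
  | nil =>
    intro v _ A hA hJ
    -- first tour the cell of `v` if necessary
    have key : ∀ A' : Finset V, A ⊆ A' → (∀ i ∈ st2_J pc I A, i = v →
        univ.filter (fun y => pc y = i) ⊆ A') → Φ v A' ≤ 1 := by
      intro A' hAA' h'
      have hun : A' = univ := by
        refine Finset.eq_univ_of_forall (fun y => ?_)
        by_cases hy : pc y ∈ I
        · by_cases hc : univ.filter (fun z => pc z = pc y) ⊆ A
          · exact hAA' (hc (Finset.mem_filter.mpr ⟨Finset.mem_univ _, rfl⟩))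
          · have hm : pc y ∈ st2_J pc I A := Finset.mem_filter.mpr ⟨hy, hc⟩
            have hv := hJ _ hm
            rw [List.map_nil, List.mem_singleton] at hv
            exact h' _ hm hv (Finset.mem_filter.mpr ⟨Finset.mem_univ _, rfl⟩)
        · exact hAA' (hA y hy)
      rw [hun]
      exact C.full v
    rw [List.map_nil, List.sum_nil, zero_add]
    by_cases hv : v ∈ st2_J pc I A
    · have hvI : v ∈ I := (Finset.mem_filter.mp hv).1
      have hcell := tour_cell C hlam (univ.filter (fun y => pc y = v)) tc htc0
        (fun u hu w hw => htc u w (by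
          rw [(Finset.mem_filter.mp hu).2, (Finset.mem_filter.mp hw).2])) v v
        (Finset.mem_filter.mpr ⟨Finset.mem_univ _, hI v hvI⟩)
        (Finset.mem_filter.mpr ⟨Finset.mem_univ _, hI v hvI⟩) A
      have h1 := key (A ∪ univ.filter (fun y => pc y = v)) Finset.subset_union_left (by
        rintro i _ rfl
        exact Finset.subset_union_right)
      refine le_trans hcell (le_trans (mul_le_mul_of_nonneg_right h1 (Real.exp_pos _).le) ?_)
      rw [one_mul]
      refine Real.exp_le_exp.mpr (mul_le_mul_of_nonneg_left ?_ hlam)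
      exact Finset.single_le_sum
        (f := fun i => tc * (((univ.filter (fun y => pc y = i)).card : ℝ) + 1))
        (fun i _ => by positivity) hv
    · have h1 := key A (Finset.Subset.refl _) (by
        rintro i hi rfl
        exact absurd hi hv)
      refine le_trans h1 (Real.one_le_exp (mul_nonneg hlam (Finset.sum_nonneg (fun i _ => ?_))))
      positivity
  | cons p l ih =>
    obtain ⟨c, u⟩ := p
    intro v ht A hA hJ
    obtain ⟨hleg, ht'⟩ := ht
    -- the step from `v` to `u`
    have step : ∀ A' : Finset V, A ⊆ A' → v ∉ st2_J pc I A' →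
        Φ v A' ≤ Real.exp (lam * ((l.map Prod.fst).sum +
          ∑ i ∈ st2_J pc I A', tc * ((univ.filter (fun y => pc y = i)).card + 1))) *
          Real.exp (lam * c) := by
      intro A' hAA' hvJ
      have hmem : ∀ i ∈ st2_J pc I A', i ∈ u :: l.map Prod.snd := by
        intro i hi
        have hi2 : i ∈ st2_J pc I A := by
          obtain ⟨h1, h2⟩ := Finset.mem_filter.mp hi
          exact Finset.mem_filter.mpr ⟨h1, fun h => h2 (h.trans hAA')⟩
        have h3 := hJ i hi2
        rw [List.map_cons, List.mem_cons] at h3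
        rcases h3 with h3 | h3
        · exact absurd (h3 ▸ hi) hvJ
        · exact h3
      have h1 := ih u ht' A' (fun y hy => hAA' (hA y hy)) hmem
      refine hleg A' _ ?_ (fun w hw => ?_)
      · exact le_trans (C.one_le u A') h1
      · rw [Set.mem_singleton_iff.mp hw]
        exact h1
    rw [List.map_cons, List.sum_cons]
    by_cases hv : v ∈ st2_J pc I A
    · have hvI : v ∈ I := (Finset.mem_filter.mp hv).1
      have hcell := tour_cell C hlam (univ.filter (fun y => pc y = v)) tc htc0
        (fun u hu w hw => htc u w (by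
          rw [(Finset.mem_filter.mp hu).2, (Finset.mem_filter.mp hw).2])) v v
        (Finset.mem_filter.mpr ⟨Finset.mem_univ _, hI v hvI⟩)
        (Finset.mem_filter.mpr ⟨Finset.mem_univ _, hI v hvI⟩) A
      set A' := A ∪ univ.filter (fun y => pc y = v) with hA'
      have hsub : st2_J pc I A' ⊆ (st2_J pc I A).erase v := by
        intro i hi
        obtain ⟨h1, h2⟩ := Finset.mem_filter.mp hi
        refine Finset.mem_erase.mpr ⟨?_, Finset.mem_filter.mpr ⟨h1, fun h =>
          h2 (h.trans Finset.subset_union_left)⟩⟩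
        rintro rfl
        exact h2 Finset.subset_union_right
      have h1 := step A' Finset.subset_union_left (fun h => (Finset.notMem_erase v _) (hsub h))
      refine le_trans hcell (le_trans (mul_le_mul_of_nonneg_right h1 (Real.exp_pos _).le) ?_)
      rw [← Real.exp_add, ← Real.exp_add]
      refine Real.exp_le_exp.mpr ?_
      have h2 : ∑ i ∈ st2_J pc I A', tc * (((univ.filter (fun y => pc y = i)).card : ℝ) + 1) ≤
          ∑ i ∈ (st2_J pc I A).erase v,
            tc * (((univ.filter (fun y => pc y = i)).card : ℝ) + 1) :=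
        Finset.sum_le_sum_of_subset_of_nonneg hsub (fun i _ _ => by positivity)
      have h3 := Finset.add_sum_erase (st2_J pc I A)
        (fun i => tc * (((univ.filter (fun y => pc y = i)).card : ℝ) + 1)) hv
      have h4 : lam * ((l.map Prod.fst).sum +
          ∑ i ∈ st2_J pc I A', tc * (((univ.filter (fun y => pc y = i)).card : ℝ) + 1)) +
          lam * c + lam * (tc * (((univ.filter (fun y => pc y = v)).card : ℝ) + 1)) =
          lam * ((l.map Prod.fst).sum + c +
            (tc * (((univ.filter (fun y => pc y = v)).card : ℝ) + 1) +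
            ∑ i ∈ st2_J pc I A', tc * (((univ.filter (fun y => pc y = i)).card : ℝ) + 1))) := by
        ring
      rw [h4]
      refine mul_le_mul_of_nonneg_left ?_ hlam
      linarith
    · have h1 := step A (Finset.Subset.refl _) hv
      refine le_trans h1 ?_
      rw [← Real.exp_add]
      refine Real.exp_le_exp.mpr (le_of_eq ?_)
      ring

theorem stage2 {M : Mdl V Ω} {lam : ℝ} {Φ : V → Finset V → ℝ} (C : Calc M lam Φ)
    (hlam : 0 ≤ lam) (pc : V → V) (I : Finset V) (hI : ∀ i ∈ I, pc i = i) (tc : ℝ) (htc0 : 0 ≤ tc)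
    (htc : ∀ u v, pc u = pc v → Hit Φ lam u {v} tc) (v : V) (l : List (ℝ × V))
    (ht : Tour (fun c u v => Hit Φ lam u {v} c) v l) (hcov : ∀ i ∈ I, i ∈ v :: l.map Prod.snd)
    (A : Finset V) (hA : ∀ y, pc y ∉ I → y ∈ A) :
    Φ v A ≤ Real.exp (lam * ((l.map Prod.fst).sum + 2 * tc * Fintype.card V)) := by
  refine le_trans (st2_aux C hlam pc I hI tc htc0 htc l v ht A hA (fun i hi =>
    hcov i (Finset.mem_filter.mp hi).1)) ?_
  refine Real.exp_le_exp.mpr (mul_le_mul_of_nonneg_left ?_ hlam)
  have h1 : ∑ i ∈ st2_J pc I A, ((univ.filter (fun y => pc y = i)).card : ℝ) ≤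
      Fintype.card V := by
    have h2 : ∑ i ∈ st2_J pc I A, (univ.filter (fun y => pc y = i)).card ≤
        (univ : Finset V).card := by
      rw [← Finset.card_biUnion]
      · exact Finset.card_le_card (Finset.subset_univ _)
      · intro i _ j _ hij
        rw [Function.onFun, Finset.disjoint_left]
        intro y hy hy'
        exact hij ((Finset.mem_filter.mp hy).2.symm.trans (Finset.mem_filter.mp hy').2)
    rw [Finset.card_univ] at h2
    exact_mod_cast h2
  have h3 : ((st2_J pc I A).card : ℝ) ≤ Fintype.card V := by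
    exact_mod_cast Finset.card_le_univ _
  have h4 : ∑ i ∈ st2_J pc I A, tc * (((univ.filter (fun y => pc y = i)).card : ℝ) + 1) =
      tc * (∑ i ∈ st2_J pc I A, ((univ.filter (fun y => pc y = i)).card : ℝ) +
        (st2_J pc I A).card) := by
    rw [← Finset.mul_sum, Finset.sum_add_distrib, Finset.sum_const, nsmul_eq_mul, mul_one]
  rw [h4]
  have h5 : tc * (∑ i ∈ st2_J pc I A, ((univ.filter (fun y => pc y = i)).card : ℝ) +
        (st2_J pc I A).card) ≤ tc * (Fintype.card V + Fintype.card V) :=
    mul_le_mul_of_nonneg_left (add_le_add h1 h3) htc0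
  linarith

end ST2

end Pool.Agent.RST
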