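import Mathlib
import Pool.Agent.Lib_helper42.RST.Defs
import Pool.Agent.Lib_helper42.RST.Stmt
import Pool.Agent.Lib_helper42.RSTF.Base

/- block TR proved by helper85 -/

set_option autoImplicit false

open Finset

namespace Pool.Agent.RST

/-- insert a detour `u → w → u` into a tour -/
theorem TR_insert {V : Type} (R : ℝ → V → V → Prop) (hsymm : ∀ c u v, R c u v → R c v u)
    (cc : ℝ) (u w : V) (huw : R cc u w) :
    ∀ (l : List (ℝ × V)) (v : V), Tour R v l → u ∈ v :: l.map Prod.snd →
      ∃ l' : List (ℝ × V), Tour R v l' ∧ (l'.map Prod.fst).sum = (l.map Prod.fst).sum + 2 * cc ∧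
        l'.length = l.length + 2 ∧
        (w :: v :: l.map Prod.snd).Subperm (v :: l'.map Prod.snd) := by
  have base : ∀ (l : List (ℝ × V)), Tour R u l →
      ∃ l' : List (ℝ × V), Tour R u l' ∧ (l'.map Prod.fst).sum = (l.map Prod.fst).sum + 2 * cc ∧
        l'.length = l.length + 2 ∧
        (w :: u :: l.map Prod.snd).Subperm (u :: l'.map Prod.snd) := by
    intro l hT
    refine ⟨(cc, w) :: (cc, u) :: l, ⟨huw, hsymm _ _ _ huw, hT⟩, ?_, ?_, ?_⟩
    · simp only [List.map_cons, List.sum_cons]; ring
    · simp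
    · simp only [List.map_cons]
      exact (List.sublist_cons_self u _).subperm
  intro l
  induction l with
  | nil =>
    intro v hT hu
    have huv : u = v := by simpa using hu
    subst huv
    exact base [] hT
  | cons p l ih =>
    intro v hT hu
    by_cases huv : u = v
    · subst huv; exact base _ hT
    · obtain ⟨c1, v1⟩ := p
      obtain ⟨h1, h2⟩ := hT
      have hu' : u ∈ v1 :: l.map Prod.snd := by
        simp only [List.map_cons, List.mem_cons] at hu ⊢
        rcases hu with h | h | h
        · exact absurd h huv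
        · exact Or.inl h
        · exact Or.inr h
      obtain ⟨l', hT', hs, hlen, hp⟩ := ih v1 h2 hu'
      refine ⟨(c1, v1) :: l', ⟨h1, hT'⟩, ?_, ?_, ?_⟩
      · simp only [List.map_cons, List.sum_cons, hs]; ring
      · simp [hlen]
      · simp only [List.map_cons]
        have : (w :: v :: v1 :: l.map Prod.snd).Perm (v :: w :: v1 :: l.map Prod.snd) :=
          List.Perm.swap v w _
        exact this.subperm.trans ((List.subperm_cons v).2 hp)

theorem TR_ofFn_perm {V : Type} {r : ℕ} (x : Fin (r + 1) → V) (i : Fin (r + 1)) :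
    (List.ofFn x).Perm (x i :: List.ofFn (fun j => x (i.succAbove j))) := by
  have h : (List.finRange (r + 1)).Perm (i :: (List.finRange r).map i.succAbove) := by
    rw [List.perm_ext_iff_of_nodup (List.nodup_finRange _)]
    · intro a
      simp only [List.mem_finRange, List.mem_cons, List.mem_map, true_and, true_iff]
      by_cases h : a = i
      · exact Or.inl h
      · exact Or.inr (Fin.exists_succAbove_eq h)
    · rw [List.nodup_cons]
      refine ⟨?_, (List.nodup_finRange r).map Fin.succAbove_right_injective⟩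
      simp only [List.mem_map, List.mem_finRange, true_and, not_exists]
      intro j
      exact Fin.succAbove_ne i j
  have h2 := h.map x
  rw [List.ofFn_eq_map, List.ofFn_eq_map]
  simpa [List.map_map, Function.comp_def] using h2

theorem tour_exists {V : Type} (R : ℝ → V → V → Prop) (hsymm : ∀ c u v, R c u v → R c v u)
    (c : ℕ → ℝ) (N : ℕ)
    (hc : ∀ m, 2 ≤ m → m ≤ N → ∀ x : Fin m → V, ∃ i j, i ≠ j ∧ R (c m) (x i) (x j))
    (r : ℕ) (h1 : 1 ≤ r) (hr : r ≤ N) (x : Fin r → V) :
    ∃ v l, Tour R v l ∧ (l.map Prod.fst).sum = 2 * ∑ j ∈ Icc 2 r, c j ∧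
      l.length = 2 * (r - 1) ∧ (List.ofFn x).Subperm (v :: l.map Prod.snd) := by
  induction r, h1 using Nat.le_induction with
  | base =>
    refine ⟨x 0, [], trivial, by simp, by simp, ?_⟩
    simp
  | succ r h1 ih =>
    obtain ⟨i, j, hij, hR⟩ := hc (r + 1) (by omega) hr x
    obtain ⟨j', hj'⟩ := Fin.exists_succAbove_eq (Ne.symm hij)
    obtain ⟨v, l, hT, hs, hlen, hp⟩ := ih (by omega) (fun j => x (i.succAbove j))
    have hmem : x j ∈ v :: l.map Prod.snd := by
      apply hp.subset
      rw [List.mem_ofFn]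
      exact ⟨j', by rw [hj']⟩
    obtain ⟨l', hT', hs', hlen', hp'⟩ := TR_insert R hsymm (c (r + 1)) (x j) (x i)
      (hsymm _ _ _ hR) l v hT hmem
    refine ⟨v, l', hT', ?_, ?_, ?_⟩
    · rw [hs', hs, Finset.sum_Icc_succ_top (by omega : 2 ≤ r + 1)]
      ring
    · rw [hlen', hlen]; omega
    · exact (TR_ofFn_perm x i).subperm.trans (((List.subperm_cons _).2 hp).trans hp')

end Pool.Agent.RST
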