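import Mathlib
import Pool.Agent.Lib_helper42.RST.Defs
import Pool.Agent.Lib_helper42.RST.Stmt
import Pool.Agent.Lib_helper42.RSTF.Base
import Pool.Agent.Lib_helper42.RSTF.Asm4
import Pool.Agent.Lib_helper42.RSTF.HT
import Pool.Agent.Lib_helper42.RSTF.ST2
import Pool.Agent.Lib_helper42.RSTF.TR

/- block Asm5 proved by helper42 -/

/-!
# Assembly 5: the stages (helper42)
-/

set_option autoImplicit false

open Finset

namespace Pool.Agent.RST

theorem tour_mono {V : Type} {R R' : ℝ → V → V → Prop} (h : ∀ c u v, R c u v → R' c u v) :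
    ∀ (l : List (ℝ × V)) (v : V), Tour R v l → Tour R' v l
  | [], _, _ => trivial
  | (c, u) :: l, v, ht => ⟨h c v u ht.1, tour_mono h l u ht.2⟩

theorem N3_eq (n : ℕ) : (n : ℝ) ^ (3 / 2 : ℝ) = n * Real.sqrt n := by
  rcases Nat.eq_zero_or_pos n with h | h
  · subst h
    simp
  · have hn : (0 : ℝ) < n := by exact_mod_cast h
    rw [show (3 / 2 : ℝ) = 1 + 1 / 2 by norm_num, Real.rpow_add hn, Real.rpow_one, Real.sqrt_eq_rpow]

variable {V Ω : Type} [Fintype Ω] [Fintype V] [DecidableEq V]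

section stages
variable {δ : ℝ} (p : Prm δ) {q : ℕ} (g : Lrg p (Fintype.card V) q)
  {M : Mdl V Ω} {Φ : V → Finset V → ℝ} (C : Calc M (1 / Fintype.card V) Φ)
  (pcs : Pieces M (p.L * q) p.W (p.Ck / (p.L * q : ℕ)) p.d5)

include g C in
theorem hit_cell (u v : V) (h : pcs.pc u = pcs.pc v) :
    Hit Φ (1 / Fintype.card V) u {v} (8 * (p.L * q : ℕ)) := by
  have hn := n_pos p g
  have hlam : (0 : ℝ) ≤ 1 / Fintype.card V := by positivity
  refine hit_half C hlam (s := p.L * q) ?_ le_rfl ?_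
  · refine le_trans ?_ (pcs.cover u v h)
    have h1 := p.hd5c
    have h2 : (4 : ℝ) ≤ p.L := by exact_mod_cast p.hL
    have h3 := p.hd5
    nlinarith
  · refine le_trans ?_ g.hS
    apply mul_le_mul_of_nonneg_left _ hlam
    have : p.L * q ≤ 6 * p.L * (p.L * q) := by
      have hL := p.hL
      calc p.L * q = 1 * (p.L * q) := (one_mul _).symm
        _ ≤ 6 * p.L * (p.L * q) := Nat.mul_le_mul_right _ (by omega)
    exact_mod_cast this

include g in
theorem tour_cost_le : 2 * (8 * ((p.L * q : ℕ) : ℝ)) * Fintype.card V ≤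
    δ * (Fintype.card V : ℝ) ^ (3 / 2 : ℝ) := by
  have hn := n_pos p g
  rw [N3_eq]
  have h1 := g.hP2
  have h2 := p.hdt1
  have hL : (4 : ℝ) ≤ p.L := by exact_mod_cast p.hL
  have hdt := p.hdt
  have hs : 0 ≤ Real.sqrt (Fintype.card V) := Real.sqrt_nonneg _
  have h3 : 32 * p.dt ≤ δ := by nlinarith
  calc 2 * (8 * ((p.L * q : ℕ) : ℝ)) * Fintype.card V
      ≤ 2 * (8 * (2 * p.dt * Real.sqrt (Fintype.card V))) * Fintype.card V := by gcongr
    _ = (32 * p.dt) * (Fintype.card V * Real.sqrt (Fintype.card V)) := by ring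
    _ ≤ δ * (Fintype.card V * Real.sqrt (Fintype.card V)) :=
        mul_le_mul_of_nonneg_right h3 (by positivity)

include g C in
/-- all vertices in one piece -/
theorem single_piece (h : ∃ z, ∀ u, pcs.pc u = pcs.pc z) (x0 : V) :
    Φ x0 ∅ ≤ Real.exp ((1 / Fintype.card V : ℝ) * (δ * (Fintype.card V : ℝ) ^ (3 / 2 : ℝ))) := by
  have hn := n_pos p g
  have hlam : (0 : ℝ) ≤ 1 / Fintype.card V := by positivity
  obtain ⟨z, hz⟩ := h
  have h1 := tour_cell C hlam univ (8 * (p.L * q : ℕ)) (by positivity)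
    (fun u _ v _ => hit_cell p g C pcs u v ((hz u).trans (hz v).symm)) x0 x0 (mem_univ _)
    (mem_univ _) ∅
  rw [Finset.empty_union] at h1
  have h2 := C.full x0
  refine h1.trans ?_
  calc Φ x0 univ * Real.exp ((1 / Fintype.card V : ℝ) * (8 * (p.L * q : ℕ) * ((univ : Finset V).card + 1)))
      ≤ 1 * Real.exp ((1 / Fintype.card V : ℝ) * (δ * (Fintype.card V : ℝ) ^ (3 / 2 : ℝ))) := by
        refine mul_le_mul h2 ?_ (Real.exp_pos _).le zero_le_one
        apply Real.exp_le_exp.2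
        apply mul_le_mul_of_nonneg_left _ hlam
        refine le_trans ?_ (tour_cost_le p g)
        rw [Finset.card_univ]
        have h3 : (1 : ℝ) ≤ Fintype.card V := by exact_mod_cast g.hn
        have h4 : (0 : ℝ) ≤ (p.L * q : ℕ) := by positivity
        nlinarith [mul_le_mul_of_nonneg_left h3 h4]
    _ = _ := one_mul _

include g C in
/-- stage 2 -/
theorem stage2_bound
    (hleg : ∀ m, 2 ≤ m → m ≤ Fintype.card V → ∀ x : Fin m → V, ∃ i j, i ≠ j ∧
      Hit Φ (1 / Fintype.card V) (x i) {x j} (cst (Fintype.card V) m) ∧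
      Hit Φ (1 / Fintype.card V) (x j) {x i} (cst (Fintype.card V) m))
    (htour : ∀ r : ℕ, (r : ℝ) ≤ p.η * Fintype.card V →
      ∑ j ∈ Icc 2 r, cst (Fintype.card V) j ≤ δ * (Fintype.card V : ℝ) ^ (3 / 2 : ℝ))
    (x' : V) (A' : Finset V) (hA : ∀ y, pcs.pc y ∉ pcs.big → y ∈ A') :
    Φ x' A' ≤ Real.exp ((1 / Fintype.card V : ℝ) *
      (4 * δ * (Fintype.card V : ℝ) ^ (3 / 2 : ℝ))) := by
  have hn := n_pos p g
  have hlam : (0 : ℝ) ≤ 1 / Fintype.card V := by positivity
  have hδ := p.hδ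
  set N3 := (Fintype.card V : ℝ) ^ (3 / 2 : ℝ) with hN3
  have hN30 : 0 ≤ N3 := by positivity
  set I := pcs.big.filter (fun i => pcs.pc i = i) with hI
  have hbig : ∀ y, pcs.pc y ∉ I → y ∈ A' := by
    intro y hy
    apply hA
    intro hb
    apply hy
    rw [hI, Finset.mem_filter]
    exact ⟨hb, pcs.idem y⟩
  by_cases hI0 : I.Nonempty
  swap
  · have hAu : A' = univ := by
      ext y
      simp only [Finset.mem_univ, iff_true]
      apply hbig
      rw [Finset.not_nonempty_iff_eq_empty] at hI0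
      rw [hI0]; simp
    rw [hAu]
    refine (C.full x').trans ?_
    apply Real.one_le_exp
    positivity
  have hr1 : 1 ≤ I.card := Finset.card_pos.2 hI0
  have hrn : I.card ≤ Fintype.card V := Finset.card_le_univ _
  have hrη : (I.card : ℝ) ≤ p.η * Fintype.card V := by
    have h1 := pcs.big_card
    have h2 : (I.card : ℝ) ≤ pcs.big.card := by
      exact_mod_cast Finset.card_le_card (Finset.filter_subset _ _)
    have hW : (1 : ℝ) ≤ p.W := by exact_mod_cast p.hW
    have h3 := p.hW2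
    have h4 : (I.card : ℝ) * p.W ≤ (p.η * Fintype.card V) * p.W := by
      calc (I.card : ℝ) * p.W ≤ pcs.big.card * p.W := by gcongr
        _ ≤ 2 * Fintype.card V := h1
        _ ≤ (p.η * p.W) * Fintype.card V := by gcongr
        _ = (p.η * Fintype.card V) * p.W := by ring
    exact le_of_mul_le_mul_right h4 (by linarith)
  let e : Fin I.card ≃ I := I.equivFin.symm
  let xs : Fin I.card → V := fun i => (e i).1
  obtain ⟨v, l, hT, hsum, -, hsub⟩ := tour_exists
    (fun c u v => Hit Φ (1 / Fintype.card V) u {v} c ∧ Hit Φ (1 / Fintype.card V) v {u} c)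
    (fun c u v h => ⟨h.2, h.1⟩) (cst (Fintype.card V)) (Fintype.card V) hleg I.card hr1 hrn xs
  have hT' := tour_mono (R' := fun c u v => Hit Φ (1 / Fintype.card V) u {v} c)
    (fun c u v h => h.1) l v hT
  have hcov : ∀ i ∈ I, i ∈ v :: l.map Prod.snd := by
    intro i hi
    apply hsub.subset
    rw [List.mem_ofFn]
    exact ⟨e.symm ⟨i, hi⟩, by simp [xs]⟩
  have h2 := stage2 C hlam pcs.pc I (fun i hi => (Finset.mem_filter.1 hi).2) (8 * (p.L * q : ℕ))
    (by positivity) (fun u v h => hit_cell p g C pcs u v h) v l hT' hcov A' hbig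
  have h3 : (l.map Prod.fst).sum + 2 * (8 * ((p.L * q : ℕ) : ℝ)) * Fintype.card V ≤ 3 * δ * N3 := by
    rw [hsum]
    have h4 := htour I.card hrη
    have h5 := tour_cost_le p g
    rw [← hN3] at h5
    linarith
  have h4 : Φ v A' ≤ Real.exp ((1 / Fintype.card V : ℝ) * (3 * δ * N3)) :=
    h2.trans (Real.exp_le_exp.2 (mul_le_mul_of_nonneg_left h3 hlam))
  have h5 := hit_det C hlam x' v A' _ (Real.one_le_exp (by positivity :
    (0:ℝ) ≤ (1 / Fintype.card V : ℝ) * (3 * δ * N3))) (by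
      intro u hu
      rw [Set.mem_singleton_iff] at hu
      rw [hu]; exact h4)
  refine h5.trans ?_
  rw [← Real.exp_add]
  apply Real.exp_le_exp.2
  rw [← mul_add]
  apply mul_le_mul_of_nonneg_left _ hlam
  have h6 := g.hn3
  rw [← hN3] at h6
  linarith

/-- the coarse cost -/
theorem coarse_num {δ : ℝ} (hδ : 0 < δ) (hδ2 : δ ≤ 1 / 200) (n : ℕ) :
    (1 + 16 * δ) * Real.sqrt (Real.pi * n / 2) + 6 * δ * Real.sqrt n ≤ 1.4 * Real.sqrt n := by
  have h1 : Real.sqrt (Real.pi * n / 2) ≤ 1.2534 * Real.sqrt n := by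
    have h2 : Real.pi * n / 2 ≤ (1.2534 * Real.sqrt n) ^ 2 := by
      rw [mul_pow, Real.sq_sqrt (by positivity)]
      have := Real.pi_lt_d4
      have hn : (0 : ℝ) ≤ n := by positivity
      nlinarith
    calc Real.sqrt (Real.pi * n / 2) ≤ Real.sqrt ((1.2534 * Real.sqrt n) ^ 2) :=
          Real.sqrt_le_sqrt h2
      _ = 1.2534 * Real.sqrt n := Real.sqrt_sq (by positivity)
  have hs : 0 ≤ Real.sqrt n := Real.sqrt_nonneg _
  have h3 : (1 + 16 * δ) * Real.sqrt (Real.pi * n / 2) ≤ (1 + 16 * δ) * (1.2534 * Real.sqrt n) :=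
    mul_le_mul_of_nonneg_left h1 (by linarith)
  nlinarith [mul_le_mul_of_nonneg_right hδ2 hs]

end stages

end Pool.Agent.RST
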