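import Mathlib
import Pool.Agent.Lib_helper42.RST.Defs
import Pool.Agent.Lib_helper42.RST.Stmt
import Pool.Agent.Lib_helper42.RSTF.Base

/- block GRE proved by helper93 -/

/-! # RST, block GRE: greedy choice -/

set_option autoImplicit false
set_option linter.unusedSectionVars false

open Finset

namespace Pool.Agent.RST

theorem greedy {ι V : Type} [DecidableEq V] (CO : Finset ι) (hCO : CO.Nonempty) (K : Finset V)
    (p : ι → V → ℝ) (hp0 : ∀ c y, 0 ≤ p c y) (hp1 : ∀ c y, p c y ≤ 1) (Θ : ℝ) (hΘ : 0 ≤ Θ) (n : ℕ)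
    (hn : 0 < n) (hcard : CO.card ≤ n) (hK : ∀ y ∈ K, Θ ≤ ∑ c ∈ CO, p c y) (r : ℕ) :
    ∃ l : List ι, l.length = r ∧ (∀ c ∈ l, c ∈ CO) ∧
      ∑ y ∈ K, (l.map (fun c => 1 - p c y)).prod ≤ K.card * Real.exp (-Θ * r / n) := by
  have _ := hp0
  induction r with
  | zero =>
    refine ⟨[], rfl, by simp, ?_⟩
    simp
  | succ r ih =>
    obtain ⟨l, hl, hlC, hle⟩ := ih
    set W : V → ℝ := fun y => (l.map (fun c => 1 - p c y)).prod with hW
    have W0 : ∀ y, 0 ≤ W y := by
      intro y
      rw [hW]
      apply List.prod_nonneg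
      intro z hz
      rw [List.mem_map] at hz
      obtain ⟨c, _, rfl⟩ := hz
      linarith [hp1 c y]
    set S := ∑ y ∈ K, W y with hS
    have S0 : 0 ≤ S := Finset.sum_nonneg fun y _ => W0 y
    have hn' : (0 : ℝ) < n := by exact_mod_cast hn
    have havg : ∑ c ∈ CO, ∑ y ∈ K, (1 - p c y) * W y ≤ ∑ c ∈ CO, Real.exp (-Θ / n) * S := by
      rw [Finset.sum_comm]
      have h1 : ∀ y ∈ K, ∑ c ∈ CO, (1 - p c y) * W y ≤ ((CO.card : ℝ) - Θ) * W y := by
        intro y hy
        rw [← Finset.sum_mul]
        apply mul_le_mul_of_nonneg_right _ (W0 y)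
        rw [Finset.sum_sub_distrib]
        simp only [Finset.sum_const, nsmul_eq_mul, mul_one]
        linarith [hK y hy]
      calc ∑ y ∈ K, ∑ c ∈ CO, (1 - p c y) * W y ≤ ∑ y ∈ K, ((CO.card : ℝ) - Θ) * W y :=
            Finset.sum_le_sum h1
        _ = ((CO.card : ℝ) - Θ) * S := by rw [← Finset.mul_sum]
        _ ≤ (CO.card * Real.exp (-Θ / n)) * S := by
            apply mul_le_mul_of_nonneg_right _ S0
            have h2 : 1 - Θ / n ≤ Real.exp (-Θ / n) := by
              have := Real.add_one_le_exp (-Θ / n)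
              have h3 : -Θ / (n : ℝ) = -(Θ / n) := by ring
              rw [h3] at this ⊢
              linarith
            have h4 : (CO.card : ℝ) ≤ n := by exact_mod_cast hcard
            have h5 : (CO.card : ℝ) * (Θ / n) ≤ Θ := by
              rw [mul_div_assoc', div_le_iff₀ hn']
              nlinarith
            have h6 : (CO.card : ℝ) * (1 - Θ / n) ≤ CO.card * Real.exp (-Θ / n) :=
              mul_le_mul_of_nonneg_left h2 (Nat.cast_nonneg _)
            linarith
        _ = ∑ c ∈ CO, Real.exp (-Θ / n) * S := by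
            rw [Finset.sum_const, nsmul_eq_mul]
            ring
    obtain ⟨c, hc, hc2⟩ := Finset.exists_le_of_sum_le hCO havg
    refine ⟨c :: l, by rw [List.length_cons, hl], ?_, ?_⟩
    · intro c' hc'
      rw [List.mem_cons] at hc'
      rcases hc' with h | h
      · rw [h]; exact hc
      · exact hlC c' h
    · have h1 : ∑ y ∈ K, ((c :: l).map (fun c => 1 - p c y)).prod =
          ∑ y ∈ K, (1 - p c y) * W y := by
        apply Finset.sum_congr rfl
        intro y _
        rw [List.map_cons, List.prod_cons]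
      rw [h1]
      calc ∑ y ∈ K, (1 - p c y) * W y ≤ Real.exp (-Θ / n) * S := hc2
        _ ≤ Real.exp (-Θ / n) * (K.card * Real.exp (-Θ * r / n)) :=
            mul_le_mul_of_nonneg_left hle (Real.exp_nonneg _)
        _ = K.card * Real.exp (-Θ * (r + 1 : ℕ) / n) := by
            have h2 : -Θ * ((r + 1 : ℕ) : ℝ) / n = -Θ / n + -Θ * r / n := by
              push_cast
              ring
            rw [h2, Real.exp_add]
            ring

end Pool.Agent.RST
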