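import Mathlib
import Pool.Agent.Lib_helper42.RST.Defs
import Pool.Agent.Lib_helper42.RST.Stmt
import Pool.Agent.Lib_helper42.RSTF.Base

/- block SPM proved by helper30 -/

/-!
# Block SPM (RST, MP_864bf0_pr)
-/

set_option autoImplicit false

open Finset

namespace Pool.Agent.RST

theorem rst_spm_prod_nonneg {ι : Type} (l : List ι) (f : ι → ℝ) (h0 : ∀ i, 0 ≤ f i) :
    0 ≤ (l.map f).prod := by
  apply List.prod_nonneg
  intro a ha
  obtain ⟨i, _, rfl⟩ := List.mem_map.mp ha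
  exact h0 i

theorem rst_spm_sub {ι : Type} {l1 l2 : List ι} (h : l1.Sublist l2) (f : ι → ℝ)
    (h0 : ∀ i, 0 ≤ f i) (h1 : ∀ i, f i ≤ 1) : (l2.map f).prod ≤ (l1.map f).prod := by
  induction h with
  | slnil => exact le_rfl
  | @cons l3 l4 a _ ih =>
    rw [List.map_cons, List.prod_cons]
    have h2 := rst_spm_prod_nonneg l4 f h0
    exact (mul_le_of_le_one_left h2 (h1 a)).trans ih
  | cons_cons a _ ih =>
    rw [List.map_cons, List.prod_cons, List.map_cons, List.prod_cons]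
    exact mul_le_mul_of_nonneg_left ih (h0 a)

/-- Block SPM: product over a longer list is smaller -/
theorem prod_subperm {ι : Type} {l1 l2 : List ι} (h : l1.Subperm l2) (f : ι → ℝ)
    (h0 : ∀ i, 0 ≤ f i) (h1 : ∀ i, f i ≤ 1) : (l2.map f).prod ≤ (l1.map f).prod := by
  obtain ⟨l, hl1, hl2⟩ := h
  rw [← (hl1.map f).prod_eq]
  exact rst_spm_sub hl2 f h0 h1

/-- Block SPM: Markov for a sum over a finite set -/
theorem card_markov {ι : Type} (S : Finset ι) (f : ι → ℝ) (h0 : ∀ i ∈ S, 0 ≤ f i) (X t : ℝ)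
    (ht : 0 < t) (h : ∑ i ∈ S, f i ≤ X * t) (S' : Finset ι) (hS' : S' ⊆ S)
    (hS'2 : ∀ i ∈ S', t < f i) : (S'.card : ℝ) ≤ X := by
  have h1 : (S'.card : ℝ) * t ≤ ∑ i ∈ S', f i := by
    have := Finset.card_nsmul_le_sum S' f t (fun i hi => (hS'2 i hi).le)
    rwa [nsmul_eq_mul] at this
  have h2 : ∑ i ∈ S', f i ≤ ∑ i ∈ S, f i :=
    Finset.sum_le_sum_of_subset_of_nonneg hS' fun i hi _ => h0 i hi
  exact le_of_mul_le_mul_right (h1.trans (h2.trans h)) ht

end Pool.Agent.RST
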