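import Mathlib
import Pool.Agent.Lib_helper42.RST.Defs
import Pool.Agent.Lib_helper42.RST.Stmt
import Pool.Agent.Lib_helper42.RSTF.Base
import Pool.Agent.Lib_helper42.RSTF.EL1

/- block ST0 proved by helper30 -/

/-!
# Block ST0 of the RST project: stage 0 (loops along a tour)
-/

set_option autoImplicit false
set_option linter.unusedSectionVars false

open Finset

namespace Pool.Agent.RST

section ST0
variable {V Ω : Type} [Fintype Ω] [Fintype V] [DecidableEq V]

theorem st0_ind_bounds (p : Prop) : 0 ≤ ind p ∧ ind p ≤ 1 := ⟨ind_nonneg p, ind_le_one p⟩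

theorem st0_EL_ind (M : Mdl V Ω) (s : ℕ) (p : List Ω → Prop) :
    0 ≤ EL M.w s (fun k => ind (p k)) ∧ EL M.w s (fun k => ind (p k)) ≤ 1 := by
  refine ⟨EL_nonneg M.w M.w0 s _ (fun l _ => ind_nonneg _), ?_⟩
  have h := EL_mono M.w M.w0 s (fun k => ind (p k)) (fun _ => 1) (fun l _ => ind_le_one _)
  rwa [EL_const M.w M.w1] at h

/-- one loop: `E exp(β Σ q (1 - 1_B)) ≤ exp(β Σ q (1 - p) + (2 β L)^2)` -/
theorem st0_loop (M : Mdl V Ω) (s : ℕ) (B : List Ω → Finset V) (Lb : ℝ)
    (hcard : ∀ k, ((B k).card : ℝ) ≤ Lb) (F : Finset V) (q : V → ℝ) (hq0 : ∀ y, 0 ≤ q y)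
    (hq1 : ∀ y, q y ≤ 1) (β : ℝ) (hβ : 0 ≤ β) (hs : β * (2 * Lb) ≤ 1) :
    EL M.w s (fun k => Real.exp (β * ∑ y ∈ F, q y * (1 - ind (y ∈ B k)))) ≤
      Real.exp (β * ∑ y ∈ F, q y * (1 - EL M.w s (fun k => ind (y ∈ B k))) +
        (β * (2 * Lb)) ^ 2) := by
  set p : V → ℝ := fun y => EL M.w s (fun k => ind (y ∈ B k)) with hp
  have hp01 : ∀ y, 0 ≤ p y ∧ p y ≤ 1 := fun y => st0_EL_ind M s (fun k => y ∈ B k)
  set X : List Ω → ℝ := fun k => β * ∑ y ∈ F, q y * (p y - ind (y ∈ B k)) with hX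
  have hLb : 0 ≤ Lb := le_trans (Nat.cast_nonneg _) (hcard [])
  -- mean zero
  have hEX : EL M.w s X = 0 := by
    rw [hX, EL_smul]
    have : EL M.w s (fun k => ∑ y ∈ F, q y * (p y - ind (y ∈ B k))) = 0 := by
      rw [EL_sum]
      refine Finset.sum_eq_zero (fun y _ => ?_)
      rw [EL_smul]
      have h1 : (fun k => p y - ind (y ∈ B k)) = (fun k => p y + (-1) * ind (y ∈ B k)) := by
        funext k; ring
      rw [h1, EL_add, EL_smul, EL_const M.w M.w1]
      simp only [hp]
      ring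
    rw [this, mul_zero]
  -- sums of indicators
  have hsumind : ∀ k, ∑ y ∈ F, ind (y ∈ B k) ≤ Lb := by
    intro k
    refine le_trans ?_ (hcard k)
    have h1 : ∀ y ∈ F, ind (y ∈ B k) = if y ∈ B k then (1 : ℝ) else 0 := by
      intro y _
      split_ifs with h
      · exact ind_true h
      · exact ind_false h
    rw [Finset.sum_congr rfl h1, Finset.sum_ite_mem, Finset.sum_const, nsmul_eq_mul, mul_one]
    exact_mod_cast Finset.card_le_card Finset.inter_subset_right
  have hsump : ∑ y ∈ F, p y ≤ Lb := by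
    simp only [hp]
    rw [← EL_sum]
    have h := EL_mono M.w M.w0 s (fun k => ∑ y ∈ F, ind (y ∈ B k)) (fun _ => Lb)
      (fun l _ => hsumind l)
    rwa [EL_const M.w M.w1] at h
  have hXabs : ∀ k, |X k| ≤ β * (2 * Lb) := by
    intro k
    rw [hX]
    simp only
    rw [abs_mul, abs_of_nonneg hβ]
    refine mul_le_mul_of_nonneg_left ?_ hβ
    refine le_trans (Finset.abs_sum_le_sum_abs _ _) ?_
    have h1 : ∀ y ∈ F, |q y * (p y - ind (y ∈ B k))| ≤ p y + ind (y ∈ B k) := by
      intro y _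
      rw [abs_mul, abs_of_nonneg (hq0 y)]
      have h2 : |p y - ind (y ∈ B k)| ≤ p y + ind (y ∈ B k) := by
        rw [abs_le]
        have := (hp01 y).1
        have := ind_nonneg (y ∈ B k)
        constructor <;> linarith
      calc q y * |p y - ind (y ∈ B k)| ≤ 1 * |p y - ind (y ∈ B k)| :=
            mul_le_mul_of_nonneg_right (hq1 y) (abs_nonneg _)
        _ ≤ _ := by rw [one_mul]; exact h2
    refine le_trans (Finset.sum_le_sum h1) ?_
    rw [Finset.sum_add_distrib]
    have := hsumind k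
    linarith
  -- E exp X
  have hexpX : EL M.w s (fun k => Real.exp (X k)) ≤ Real.exp ((β * (2 * Lb)) ^ 2) := by
    have h1 : EL M.w s (fun k => Real.exp (X k)) ≤
        EL M.w s (fun k => X k + (1 + (β * (2 * Lb)) ^ 2)) := by
      refine EL_mono M.w M.w0 s _ _ (fun k _ => ?_)
      have h2 := Real.abs_exp_sub_one_sub_id_le (le_trans (hXabs k) hs)
      have h3 : X k ^ 2 ≤ (β * (2 * Lb)) ^ 2 := by
        rw [← sq_abs (X k)]
        exact pow_le_pow_left₀ (abs_nonneg _) (hXabs k) 2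
      have h4 := (abs_le.mp h2).2
      linarith
    rw [EL_add, hEX, EL_const M.w M.w1, zero_add] at h1
    refine le_trans h1 ?_
    have := Real.add_one_le_exp ((β * (2 * Lb)) ^ 2)
    linarith
  have hfac : (fun k => Real.exp (β * ∑ y ∈ F, q y * (1 - ind (y ∈ B k)))) =
      (fun k => Real.exp (β * ∑ y ∈ F, q y * (1 - p y)) * Real.exp (X k)) := by
    funext k
    rw [← Real.exp_add, hX]
    congr 1
    simp only
    rw [← mul_add, ← Finset.sum_add_distrib]
    congr 1
    refine Finset.sum_congr rfl (fun y _ => ?_)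
    ring
  rw [hfac, EL_smul, Real.exp_add]
  exact mul_le_mul_of_nonneg_left hexpX (Real.exp_pos _).le

theorem st0_prod_bounds (M : Mdl V Ω) (S : V → ℕ) (B : V → List Ω → Finset V) (y : V)
    (cs : List V) :
    0 ≤ (cs.map (fun c => 1 - EL M.w (S c) (fun k => ind (y ∈ B c k)))).prod ∧
    (cs.map (fun c => 1 - EL M.w (S c) (fun k => ind (y ∈ B c k)))).prod ≤ 1 := by
  induction cs with
  | nil => simp
  | cons c cs ih =>
    rw [List.map_cons, List.prod_cons]
    have h := st0_EL_ind M (S c) (fun k => y ∈ B c k)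
    have h1 : 0 ≤ 1 - EL M.w (S c) (fun k => ind (y ∈ B c k)) := by linarith [h.2]
    have h2 : 1 - EL M.w (S c) (fun k => ind (y ∈ B c k)) ≤ 1 := by linarith [h.1]
    exact ⟨mul_nonneg h1 ih.1, mul_le_one₀ h2 ih.1 ih.2⟩

/-- the sum over the complement -/
theorem st0_sum_sdiff (K A B : Finset V) (q : V → ℝ) :
    ∑ y ∈ K \ (A ∪ B), q y = ∑ y ∈ K \ A, q y * (1 - ind (y ∈ B)) := by
  have h1 : K \ (A ∪ B) = (K \ A).filter (fun y => y ∉ B) := by
    ext y
    simp only [Finset.mem_sdiff, Finset.mem_union, Finset.mem_filter]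
    tauto
  rw [h1, Finset.sum_filter]
  refine Finset.sum_congr rfl (fun y _ => ?_)
  by_cases h : y ∈ B
  · rw [if_neg (not_not.mpr h), ind_true h]; ring
  · rw [if_pos h, ind_false h]; ring

theorem stage0 {M : Mdl V Ω} {lam : ℝ} {Φ : V → Finset V → ℝ} (C : Calc M lam Φ)
    (hlam : 0 ≤ lam) (Sm Lb : ℝ) (S : V → ℕ) (B : V → List Ω → Finset V)
    (hB : ∀ c k, k.length = S c → Wlk M k c c (B c k)) (hS : ∀ c, (S c : ℝ) ≤ Sm)
    (hcard : ∀ c k, ((B c k).card : ℝ) ≤ Lb) (K : Finset V) (α : ℝ) (hα : 0 ≤ α)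
    (hsmall : lam * (α * (2 * Lb)) ≤ 1) (M1 : ℝ) (hM1 : 1 ≤ M1)
    (hend : ∀ x' A', Φ x' A' ≤ M1 * Real.exp (lam * (α * ((K \ A').card : ℝ))))
    (v : V) (l : List (ℝ × V)) (ht : Tour (fun c u v => Hit Φ lam u {v} c) v l) (A : Finset V) :
    Φ v A ≤ M1 * Real.exp (lam * ((l.map Prod.fst).sum +
      (l.length + 1) * (Sm + lam * (2 * α * Lb) ^ 2) +
      α * ∑ y ∈ K \ A, ((v :: l.map Prod.snd).map
        (fun c => 1 - EL M.w (S c) (fun k => ind (y ∈ B c k)))).prod)) := by
  -- one loop at `v` followed by something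
  have loop : ∀ (v : V) (A : Finset V) (q : V → ℝ) (C0 : ℝ), (∀ y, 0 ≤ q y) → (∀ y, q y ≤ 1) →
      (∀ A', Φ v A' ≤ M1 * Real.exp (lam * (C0 + α * ∑ y ∈ K \ A', q y))) →
      Φ v A ≤ M1 * Real.exp (lam * (C0 + (Sm + lam * (2 * α * Lb) ^ 2) +
        α * ∑ y ∈ K \ A, (1 - EL M.w (S v) (fun k => ind (y ∈ B v k))) * q y)) := by
    intro v A q C0 hq0 hq1 hb
    have hw := C.win v A (S v) (fun _ => v) (B v) (fun k hk => hB v k hk)
    have h1 : EL M.w (S v) (fun k => Φ v (A ∪ B v k)) ≤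
        M1 * Real.exp (lam * C0) * Real.exp ((lam * α) * ∑ y ∈ K \ A, q y *
          (1 - EL M.w (S v) (fun k => ind (y ∈ B v k))) + (lam * α * (2 * Lb)) ^ 2) := by
      have h2 : EL M.w (S v) (fun k => Φ v (A ∪ B v k)) ≤
          EL M.w (S v) (fun k => M1 * Real.exp (lam * C0) *
            Real.exp ((lam * α) * ∑ y ∈ K \ A, q y * (1 - ind (y ∈ B v k)))) := by
        refine EL_mono M.w M.w0 _ _ _ (fun k _ => ?_)
        refine le_trans (hb _) (le_of_eq ?_)
        rw [st0_sum_sdiff, mul_assoc M1, ← Real.exp_add]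
        congr 2
        ring
      rw [EL_smul] at h2
      refine le_trans h2 (mul_le_mul_of_nonneg_left ?_ (by positivity))
      exact st0_loop M (S v) (B v) Lb (hcard v) (K \ A) q hq0 hq1 (lam * α)
        (mul_nonneg hlam hα) (by rw [mul_assoc]; exact hsmall)
    refine le_trans hw (le_trans (mul_le_mul_of_nonneg_left h1 (Real.exp_pos _).le) ?_)
    have h3 : Real.exp (lam * (S v : ℝ)) * (M1 * Real.exp (lam * C0) *
        Real.exp ((lam * α) * ∑ y ∈ K \ A, q y *
          (1 - EL M.w (S v) (fun k => ind (y ∈ B v k))) + (lam * α * (2 * Lb)) ^ 2)) =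
        M1 * Real.exp (lam * (S v : ℝ) + lam * C0 + ((lam * α) * ∑ y ∈ K \ A, q y *
          (1 - EL M.w (S v) (fun k => ind (y ∈ B v k))) + (lam * α * (2 * Lb)) ^ 2)) := by
      have gen : ∀ a b c : ℝ, Real.exp a * (M1 * Real.exp b * Real.exp c) =
          M1 * Real.exp (a + b + c) := by
        intro a b c
        rw [Real.exp_add, Real.exp_add]
        ring
      exact gen _ _ _
    rw [h3]
    refine mul_le_mul_of_nonneg_left (Real.exp_le_exp.mpr ?_) (by linarith)
    have h4 : ∑ y ∈ K \ A, (1 - EL M.w (S v) (fun k => ind (y ∈ B v k))) * q y =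
        ∑ y ∈ K \ A, q y * (1 - EL M.w (S v) (fun k => ind (y ∈ B v k))) :=
      Finset.sum_congr rfl (fun y _ => mul_comm _ _)
    rw [h4]
    have h5 : lam * (S v : ℝ) ≤ lam * Sm := mul_le_mul_of_nonneg_left (hS v) hlam
    have h6 : lam * (C0 + (Sm + lam * (2 * α * Lb) ^ 2) + α * ∑ y ∈ K \ A, q y *
        (1 - EL M.w (S v) (fun k => ind (y ∈ B v k)))) =
        lam * Sm + lam * C0 + ((lam * α) * ∑ y ∈ K \ A, q y *
          (1 - EL M.w (S v) (fun k => ind (y ∈ B v k))) + (lam * α * (2 * Lb)) ^ 2) := by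
      ring
    rw [h6]
    linarith
  induction l generalizing v A with
  | nil =>
    have h := loop v A (fun _ => 1) 0 (fun _ => zero_le_one) (fun _ => le_refl _) (fun A' => by
      refine le_trans (hend v A') (le_of_eq ?_)
      rw [Finset.sum_const, nsmul_eq_mul, mul_one, zero_add])
    refine le_trans h (le_of_eq ?_)
    congr 2
    simp only [List.map_nil, List.sum_nil, List.length_nil, List.map_cons, List.prod_cons,
      List.prod_nil, Nat.cast_zero]
    ring
  | cons pc l ih =>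
    obtain ⟨c, u⟩ := pc
    obtain ⟨hleg, ht'⟩ := ht
    have h := loop v A (fun y => ((u :: l.map Prod.snd).map
        (fun c => 1 - EL M.w (S c) (fun k => ind (y ∈ B c k)))).prod)
      (c + ((l.map Prod.fst).sum + (l.length + 1) * (Sm + lam * (2 * α * Lb) ^ 2)))
      (fun y => (st0_prod_bounds M S B y _).1) (fun y => (st0_prod_bounds M S B y _).2)
      (fun A' => by
        have h1 := ih u ht' A'
        have h2 := hleg A' _ (le_trans (C.one_le u A') h1) (fun w hw => by
          rw [Set.mem_singleton_iff.mp hw]; exact h1)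
        refine le_trans h2 (le_of_eq ?_)
        rw [mul_assoc, ← Real.exp_add]
        congr 2
        ring)
    refine le_trans h (le_of_eq ?_)
    congr 2
    simp only [List.map_cons, List.sum_cons, List.length_cons, List.prod_cons, Nat.cast_add,
      Nat.cast_one]
    ring

end ST0

end Pool.Agent.RST
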