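import Mathlib
import Pool.Agent.Lib_helper42.RST.Defs
import Pool.Agent.Lib_helper42.RST.Stmt
import Pool.Agent.Lib_helper42.RSTF.Base
import Pool.Agent.Lib_helper42.RSTF.AMGM
import Pool.Agent.Lib_helper42.RSTF.Asm5
import Pool.Agent.Lib_helper42.RSTF.EL1
import Pool.Agent.Lib_helper42.RSTF.ENTb
import Pool.Agent.Lib_helper42.RSTF.GRE
import Pool.Agent.Lib_helper42.RSTF.HT
import Pool.Agent.Lib_helper42.RSTF.SPM
import Pool.Agent.Lib_helper42.RSTF.ST0
import Pool.Agent.Lib_helper42.RSTF.ST1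
import Pool.Agent.Lib_helper42.RSTF.TR

/- block Asm6 proved by helper42 -/

/-!
# Assembly 6: the main bound (helper42)
-/

set_option autoImplicit false

open Finset

namespace Pool.Agent.RST

variable {V Ω : Type} [Fintype Ω] [Fintype V] [DecidableEq V]

/-- the sharp cost of a move if `K` is the set of hubs -/
noncomputable def sharp (δ : ℝ) (n : ℕ) (k : ℝ) : ℝ :=
  (1 + 16 * δ) * Real.sqrt (Real.pi * max k (δ * n) / 2) + 6 * δ * Real.sqrt n

/-- result of the analysis of the moves -/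
structure MC {δ : ℝ} (p : Prm δ) {q : ℕ} (M : Mdl V Ω) (Φ : V → Finset V → ℝ)
    (pcs : Pieces M (p.L * q) p.W (p.Ck / (p.L * q : ℕ)) p.d5) (a : Ω → V → V) where
  K' : Finset V
  S : V → ℕ
  B : V → List Ω → Finset V
  CO : Finset V
  Exc : Finset V
  mc : V → ℝ
  hS : ∀ c, (S c : ℝ) ≤ (p.K1 + 1) * Real.sqrt (Fintype.card V)
  hB : ∀ c k, k.length = S c → Wlk M k c c (B c k)
  hBc : ∀ c k, (B c k).card ≤ p.L
  hK' : ∀ y, y ∈ K' ↔ p.Θ ≤ ∑ i ∈ CO, EL M.w (S i) (fun k => ind (y ∈ B i k))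
  hExc : (Exc.card : ℝ) ≤ δ * Fintype.card V
  hmc0 : ∀ i, 0 ≤ mc i
  hmc1 : ∀ i, mc i ≤ 1.4 * Real.sqrt (Fintype.card V)
  hmc2 : ∀ i, i ∉ Exc → mc i ≤ sharp δ (Fintype.card V) K'.card
  hmv : ∀ (x : V) (Wt : Set V), pcs.pc x ∉ pcs.big → CondN M a p.cb x Wt →
      Hit Φ (1 / Fintype.card V) x Wt (mc (pcs.pc x))

theorem mc_exists {δ : ℝ} (p : Prm δ) {q : ℕ} (g : Lrg p (Fintype.card V) q)
    {M : Mdl V Ω} {Φ : V → Finset V → ℝ} (C : Calc M (1 / Fintype.card V) Φ)
    (pcs : Pieces M (p.L * q) p.W (p.Ck / (p.L * q : ℕ)) p.d5) {a : Ω → V → V}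
    (he : Ext M pcs.pc a)
    (ht0 : TailB p.K0 (Fintype.card V)) (ht1 : TailB p.K1 (Fintype.card V))
    (hbd : ∀ k' : ℝ, δ * Fintype.card V ≤ k' → k' ≤ Fintype.card V →
      ∃ f, BdF δ p.K0 (Fintype.card V) k' f) : Nonempty (MC p M Φ pcs a) := by
  classical
  have hn := n_pos p g
  have hδ := p.hδ
  have hδ2 := p.hδ2
  have hlam : (0 : ℝ) ≤ 1 / Fintype.card V := by positivity
  set sq := Real.sqrt (Fintype.card V) with hsq
  have hsq0 : 0 ≤ sq := Real.sqrt_nonneg _
  choose S B hS hB hBc hlev using loop_exists p g pcs he ht1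
  set CO : Finset V := univ.filter (fun i => pcs.pc i = i ∧ i ∉ pcs.big ∧
    ¬ IsHvy p M pcs.pc a i ∧ ¬ IsNC p M a i) with hCO
  set P' : V → V → ℝ := fun i y => EL M.w (S i) (fun k => ind (y ∈ B i k)) with hP'
  have hP'0 : ∀ i y, 0 ≤ P' i y := fun i y => EL_nonneg M.w M.w0 _ _ (fun _ _ => ind_nonneg _)
  set K' : Finset V := univ.filter (fun y => p.Θ ≤ ∑ i ∈ CO, P' i y) with hK'
  set Exc : Finset V := CO.filter (fun i => p.Θ / δ < ∑ y ∈ univ \ K', P' i y) with hExc
  set n' : ℝ := (Fintype.card V : ℝ) with hn'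
  set mc : V → ℝ := fun i => if IsHvy p M pcs.pc a i ∨ IsNC p M a i then δ * sq else
    if i ∈ Exc then 1.4 * sq else min (1.4 * sq) (sharp δ (Fintype.card V) K'.card) with hmc
  have hsharp0 : δ * sq ≤ sharp δ (Fintype.card V) K'.card := by
    unfold sharp
    rw [← hsq]
    have : 0 ≤ (1 + 16 * δ) * Real.sqrt (Real.pi * max (K'.card : ℝ) (δ * (Fintype.card V : ℕ)) / 2) := by
      positivity
    nlinarith
  have hδsq : δ * sq ≤ 1.4 * sq := mul_le_mul_of_nonneg_right (by linarith) hsq0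
  have hkk : ∀ k' : ℝ, 0 ≤ k' → k' ≤ n' → (1 + 16 * δ) * Real.sqrt (Real.pi * k' / 2) +
      6 * δ * sq ≤ 1.4 * sq := by
    intro k' hk0 hk'
    refine le_trans ?_ (coarse_num hδ hδ2 (Fintype.card V))
    have h1 : Real.sqrt (Real.pi * k' / 2) ≤ Real.sqrt (Real.pi * n' / 2) := by
      apply Real.sqrt_le_sqrt
      have := Real.pi_pos
      gcongr
    have h2 : (1 + 16 * δ) * Real.sqrt (Real.pi * k' / 2) ≤
        (1 + 16 * δ) * Real.sqrt (Real.pi * n' / 2) := mul_le_mul_of_nonneg_left h1 (by linarith)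
    linarith
  refine ⟨⟨K', S, B, CO, Exc, mc, hS, hB, hBc, ?_, ?_, ?_, ?_, ?_, ?_⟩⟩
  · intro y
    simp [hK', hP']
  · -- Markov
    refine card_markov CO (fun i => ∑ y ∈ univ \ K', P' i y)
      (fun i _ => Finset.sum_nonneg (fun y _ => hP'0 i y)) (δ * n') (p.Θ / δ)
      (div_pos p.hΘ hδ) ?_ Exc (Finset.filter_subset _ _)
      (fun i hi => (Finset.mem_filter.1 hi).2)
    rw [Finset.sum_comm]
    have h1 : ∀ y ∈ univ \ K', ∑ i ∈ CO, P' i y ≤ p.Θ := by
      intro y hy
      rw [Finset.mem_sdiff, hK', Finset.mem_filter] at hy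
      by_contra hcon
      exact hy.2 ⟨mem_univ _, (not_le.1 hcon).le⟩
    calc ∑ y ∈ univ \ K', ∑ i ∈ CO, P' i y ≤ ∑ y ∈ univ \ K', p.Θ := Finset.sum_le_sum h1
      _ = ((univ \ K').card : ℝ) * p.Θ := by rw [Finset.sum_const, nsmul_eq_mul]
      _ ≤ n' * p.Θ := by
          apply mul_le_mul_of_nonneg_right _ p.hΘ.le
          rw [hn']
          exact_mod_cast Finset.card_le_univ _
      _ = δ * n' * (p.Θ / δ) := by field_simp
  · intro i
    simp only [hmc]
    split_ifs
    · positivity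
    · positivity
    · exact le_min (by positivity) (le_trans (by positivity) hsharp0)
  · intro i
    simp only [hmc]
    split_ifs
    · exact hδsq
    · exact le_rfl
    · exact min_le_left _ _
  · intro i hi
    simp only [hmc]
    split_ifs with h1
    · exact hsharp0
    · exact min_le_right _ _
  · intro x Wt hx hN
    set i := pcs.pc x with hi
    have hii : pcs.pc i = i := pcs.idem x
    have hxi : pcs.pc x = pcs.pc i := by rw [hii]
    simp only [hmc]
    by_cases h1 : IsHvy p M pcs.pc a i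
    · rw [if_pos (Or.inl h1)]
      exact move_heavy p g C pcs he x Wt hN ((IsHvy_dep p he hxi).2 h1)
    by_cases h2 : IsNC p M a i
    · rw [if_pos (Or.inr h2)]
      exact move_nc p g C pcs he x Wt hN (fun h => h1 ((IsHvy_dep p he hxi).1 h))
        ((IsNC_dep p he hxi).2 h2)
    rw [if_neg (by tauto)]
    have hiCO : i ∈ CO := by
      rw [hCO, Finset.mem_filter]
      exact ⟨mem_univ _, hii, hx, h1, h2⟩
    have hcoarse : Hit Φ (1 / Fintype.card V) x Wt (1.4 * sq) := by
      have h3 : ¬ IsNC p M a x := fun h => h2 ((IsNC_dep p he hxi).1 h)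
      obtain ⟨l0, hl0, hl0L, -, hunm⟩ := lev0 M a p.L (by have := p.hL; omega) p.c1 x p.d6 p.hd6.le
        (not_lt.1 h3)
      obtain ⟨f, hf⟩ := hbd n' (by nlinarith) le_rfl
      refine hit_mono hlam (move_co p g C pcs he x Wt hN univ n' f hf ?_ ht0 l0 hl0 hl0L ?_)
        (hkk n' hn.le le_rfl)
      · rw [Finset.card_univ]
      · rw [Finset.coe_univ, bet_univ]
        refine le_trans ?_ p.hd6a
        gcongr
    split_ifs with h4
    · exact hcoarse
    · -- sharp
      have h5 : ∑ y ∈ univ \ K', P' i y ≤ p.Θ / δ := by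
        by_contra hcon
        apply h4
        rw [hExc, Finset.mem_filter]
        exact ⟨hiCO, not_le.1 hcon⟩
      obtain ⟨l, hl, hlL, hbl⟩ := hlev i h1 h2 K' h5
      set k' : ℝ := max (K'.card : ℝ) (δ * (Fintype.card V : ℕ)) with hk'
      have hk'n : k' ≤ n' := by
        apply max_le
        · rw [hn']
          exact_mod_cast Finset.card_le_univ _
        · nlinarith
      obtain ⟨f, hf⟩ := hbd k' (le_max_right _ _) hk'n
      have h6 := move_co p g C pcs he x Wt hN K' k' f hf (le_max_left _ _) ht0 l hl hlL (by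
        rw [bet_dep he hxi p.L p.c1 (K' : Set V) l hl]
        exact le_trans (div_le_div_of_nonneg_right hbl hδ.le) p.hdv2)
      rcases le_total (1.4 * sq) (sharp δ (Fintype.card V) K'.card) with h7 | h7
      · rw [min_eq_left h7]; exact hcoarse
      · rw [min_eq_right h7]; exact h6


section main
variable {δ : ℝ} (p : Prm δ) {q : ℕ} (g : Lrg p (Fintype.card V) q)
  {M : Mdl V Ω} {Φ : V → Finset V → ℝ} (C : Calc M (1 / Fintype.card V) Φ)
  (pcs : Pieces M (p.L * q) p.W (p.Ck / (p.L * q : ℕ)) p.d5) {a : Ω → V → V}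
  (he : Ext M pcs.pc a)

include g C he in
/-- stage 1 -/
theorem stage1_bound (D : MC p M Φ pcs a)
    (hcl : ∃ cl : V → V, ((univ.image cl).card : ℝ) ≤ (Fintype.card V : ℝ) ^ (0.12 : ℝ) + 2 ∧
      ∀ u v, cl u = cl v → Hit Φ (1 / Fintype.card V) u {v} ((Fintype.card V : ℝ) ^ (0.9 : ℝ)))
    (M2 : ℝ) (hM2 : 1 ≤ M2)
    (hend : ∀ x' A', (∀ y, pcs.pc y ∉ pcs.big → y ∈ A') → Φ x' A' ≤ M2)
    (x : V) (A : Finset V) :
    Φ x A ≤ M2 * Real.exp ((1 / Fintype.card V : ℝ) *
      (((Fintype.card V : ℝ) - D.K'.card) *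
          (sharp δ (Fintype.card V) D.K'.card + δ * Real.sqrt (Fintype.card V)) +
        6 * δ * (Fintype.card V : ℝ) ^ (3 / 2 : ℝ))) *
      Real.exp ((1 / Fintype.card V : ℝ) *
        (1.5 * Real.sqrt (Fintype.card V) * ((D.K' \ A).card : ℝ))) := by
  classical
  obtain ⟨cl, hNc, hclu⟩ := hcl
  have hn := n_pos p g
  have hδ := p.hδ
  have hlam : (0 : ℝ) ≤ 1 / Fintype.card V := by positivity
  have hPp := P_pos p g
  have hκ0 : 0 ≤ p.Ck / (p.L * q : ℕ) := div_nonneg (Ck_pos p).le hPp.le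
  set sq := Real.sqrt (Fintype.card V) with hsq
  have hsq0 : 0 ≤ sq := Real.sqrt_nonneg _
  set N3 := (Fintype.card V : ℝ) ^ (3 / 2 : ℝ) with hN3
  have hN30 : 0 ≤ N3 := by positivity
  have hN3' : N3 = Fintype.card V * sq := N3_eq _
  set θ : ℝ := (Fintype.card V : ℝ) ^ (-0.45 : ℝ) with hθ
  have hθ0 : 0 < θ := Real.rpow_pos_of_pos hn _
  have h1 := stage1 C hlam pcs he D.mc D.hmc0 p.cb θ (8 * (p.L * q : ℕ))
    ((Fintype.card V : ℝ) ^ (0.9 : ℝ)) ((Fintype.card V : ℝ) ^ (0.12 : ℝ) + 2) cl p.hcb hθ0 hκ0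
    g.hWκ g.hlθ D.hmv (by positivity) (fun u v h => hit_cell p g C pcs u v h) (by positivity)
    hclu hNc x A M2 hM2 (fun x' A' _ h => hend x' A' h)
  rw [mul_assoc, ← Real.exp_add, ← mul_add]
  refine h1.trans ?_
  apply mul_le_mul_of_nonneg_left _ (by linarith)
  apply Real.exp_le_exp.2
  apply mul_le_mul_of_nonneg_left _ hlam
  set F := univ.filter (fun i => pcs.pc i = i ∧ i ∉ pcs.big ∧ ∃ y, pcs.pc y = i ∧ y ∉ A) with hF
  set F1 := univ.filter (fun i => pcs.pc i = i ∧ ∃ y, pcs.pc y = i ∧ y ∉ D.K') with hF1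
  set sh := sharp δ (Fintype.card V) D.K'.card with hsh
  have hsh0 : 0 ≤ sh := by rw [hsh]; unfold sharp; positivity
  -- bound of the sum
  have hsum : ∑ i ∈ F, (D.mc i + 8 / θ) ≤
      ((Fintype.card V : ℝ) - D.K'.card) * (sh + δ * sq) + 1.5 * δ * N3 +
        1.5 * sq * ((D.K' \ A).card : ℝ) := by
    have hmc15 : ∀ i, D.mc i + 8 / θ ≤ 1.5 * sq := by
      intro i
      have h2 : D.mc i ≤ 1.4 * sq := D.hmc1 i
      have h3 : 1.4 * sq + 8 / θ ≤ 1.5 * sq := g.hmc
      linarith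
    have hnn : ∀ i, 0 ≤ D.mc i + 8 / θ := fun i => by
      have := D.hmc0 i
      positivity
    have hθδ : 8 / θ ≤ δ * sq := g.hθδ
    -- split F into F ∩ F1 and F \ F1
    have hs1 : ∑ i ∈ F, (D.mc i + 8 / θ) ≤ ∑ i ∈ F1, (D.mc i + 8 / θ) +
        ∑ i ∈ F \ F1, (D.mc i + 8 / θ) := by
      have : F ⊆ F1 ∪ (F \ F1) := by
        intro i hi
        by_cases h : i ∈ F1
        · exact Finset.mem_union_left _ h
        · exact Finset.mem_union_right _ (Finset.mem_sdiff.2 ⟨hi, h⟩)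
      calc ∑ i ∈ F, (D.mc i + 8 / θ) ≤ ∑ i ∈ F1 ∪ (F \ F1), (D.mc i + 8 / θ) :=
            Finset.sum_le_sum_of_subset_of_nonneg this (fun i _ _ => hnn i)
        _ = _ := Finset.sum_union Finset.disjoint_sdiff
    have hs2 : ∑ i ∈ F \ F1, (D.mc i + 8 / θ) ≤ 1.5 * sq * ((D.K' \ A).card : ℝ) := by
      have hcard : (F \ F1).card ≤ (D.K' \ A).card := by
        have hch : ∀ i ∈ F \ F1, ∃ y, pcs.pc y = i ∧ y ∈ D.K' \ A := by
          intro i hi
          rw [Finset.mem_sdiff, hF, hF1, Finset.mem_filter, Finset.mem_filter] at hi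
          obtain ⟨⟨-, hi1, hi2, y, hy1, hy2⟩, hi3⟩ := hi
          refine ⟨y, hy1, Finset.mem_sdiff.2 ⟨?_, hy2⟩⟩
          by_contra hy3
          exact hi3 ⟨mem_univ _, hi1, y, hy1, hy3⟩
        have : F \ F1 ⊆ (D.K' \ A).image pcs.pc := by
          intro i hi
          obtain ⟨y, hy1, hy2⟩ := hch i hi
          exact Finset.mem_image.2 ⟨y, hy2, hy1⟩
        exact (Finset.card_le_card this).trans Finset.card_image_le
      calc ∑ i ∈ F \ F1, (D.mc i + 8 / θ) ≤ ∑ i ∈ F \ F1, 1.5 * sq :=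
            Finset.sum_le_sum (fun i _ => hmc15 i)
        _ = ((F \ F1).card : ℝ) * (1.5 * sq) := by rw [Finset.sum_const, nsmul_eq_mul]
        _ ≤ ((D.K' \ A).card : ℝ) * (1.5 * sq) := by
            apply mul_le_mul_of_nonneg_right _ (by positivity)
            exact_mod_cast hcard
        _ = _ := by ring
    have hs3 : ∑ i ∈ F1, (D.mc i + 8 / θ) ≤
        ((Fintype.card V : ℝ) - D.K'.card) * (sh + δ * sq) + 1.5 * δ * N3 := by
      have hcard : (F1.card : ℝ) ≤ (Fintype.card V : ℝ) - D.K'.card := by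
        have h2 : F1 ⊆ (univ \ D.K').image pcs.pc := by
          intro i hi
          rw [hF1, Finset.mem_filter] at hi
          obtain ⟨-, -, y, hy1, hy2⟩ := hi
          exact Finset.mem_image.2 ⟨y, Finset.mem_sdiff.2 ⟨mem_univ _, hy2⟩, hy1⟩
        have h3 : F1.card ≤ (univ \ D.K').card :=
          (Finset.card_le_card h2).trans Finset.card_image_le
        have h4 : (univ \ D.K').card + D.K'.card = Fintype.card V := by
          rw [Finset.card_sdiff_add_card_eq_card (Finset.subset_univ _), Finset.card_univ]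
        have h5 : (F1.card : ℝ) ≤ ((univ \ D.K').card : ℝ) := by exact_mod_cast h3
        have h6 : ((univ \ D.K').card : ℝ) + D.K'.card = Fintype.card V := by exact_mod_cast h4
        linarith
      have h2 : ∀ i ∈ F1, D.mc i + 8 / θ ≤ (sh + δ * sq) + (if i ∈ D.Exc then 1.5 * sq else 0) := by
        intro i _
        split_ifs with h3
        · have := hmc15 i
          have h4 : 0 ≤ δ * sq := by positivity
          linarith
        · have h4 : D.mc i ≤ sh := D.hmc2 i h3
          linarith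
      calc ∑ i ∈ F1, (D.mc i + 8 / θ)
          ≤ ∑ i ∈ F1, ((sh + δ * sq) + (if i ∈ D.Exc then 1.5 * sq else 0)) := Finset.sum_le_sum h2
        _ = (F1.card : ℝ) * (sh + δ * sq) + ∑ i ∈ F1, (if i ∈ D.Exc then 1.5 * sq else 0) := by
            rw [Finset.sum_add_distrib, Finset.sum_const, nsmul_eq_mul]
        _ ≤ ((Fintype.card V : ℝ) - D.K'.card) * (sh + δ * sq) + 1.5 * δ * N3 := by
            refine add_le_add ?_ ?_
            · exact mul_le_mul_of_nonneg_right hcard (by positivity)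
            · rw [← Finset.sum_filter]
              rw [Finset.sum_const, nsmul_eq_mul]
              have h5 : ((F1.filter (fun i => i ∈ D.Exc)).card : ℝ) ≤ δ * Fintype.card V := by
                refine le_trans ?_ D.hExc
                have : F1.filter (fun i => i ∈ D.Exc) ⊆ D.Exc := by
                  intro i hi
                  exact (Finset.mem_filter.1 hi).2
                exact_mod_cast Finset.card_le_card this
              calc ((F1.filter (fun i => i ∈ D.Exc)).card : ℝ) * (1.5 * sq)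
                  ≤ (δ * Fintype.card V) * (1.5 * sq) :=
                    mul_le_mul_of_nonneg_right h5 (by positivity)
                _ = 1.5 * δ * N3 := by rw [hN3']; ring
    linarith
  have h2 := tour_cost_le p g
  have h3 := g.hD1
  have h4 := g.hcl
  rw [← hN3] at h2 h3 h4
  rw [← hθ] at h3
  nlinarith [mul_nonneg hδ.le hN30]

/-- the numerical maximum -/
theorem final_num {δ : ℝ} (hδ : 0 < δ) (hδ2 : δ ≤ 1 / 200) (n : ℕ) (k : ℝ) (hk : 0 ≤ k)
    (hkn : k ≤ n) :
    ((n : ℝ) - k) * (sharp δ n k + δ * Real.sqrt n) ≤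
      (Real.sqrt (2 * Real.pi / 27) + 18 * δ) * (n : ℝ) ^ (3 / 2 : ℝ) := by
  have hn0 : (0 : ℝ) ≤ n := by positivity
  set sq := Real.sqrt n with hsq
  have hsq0 : 0 ≤ sq := Real.sqrt_nonneg _
  set N3 := (n : ℝ) ^ (3 / 2 : ℝ) with hN3
  have hN3' : N3 = n * sq := N3_eq _
  have hN30 : 0 ≤ N3 := by positivity
  set k' := max k (δ * n) with hk'
  set X := Real.sqrt (Real.pi * k' / 2) with hX
  have hX0 : 0 ≤ X := Real.sqrt_nonneg _
  have hk'n : k' ≤ n := max_le hkn (by nlinarith)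
  have hk'0 : 0 ≤ k' := le_trans hk (le_max_left _ _)
  have hk'k : k' - k ≤ δ * n := by
    have : k' ≤ k + δ * n := max_le (by nlinarith) (by linarith)
    linarith
  have h1 := const_bound n k' hk'0 hk'n
  rw [← hN3, ← hX] at h1
  have hXn : X ≤ 1.2534 * sq := by
    have h2 : Real.pi * k' / 2 ≤ (1.2534 * sq) ^ 2 := by
      rw [mul_pow, hsq, Real.sq_sqrt hn0]
      have := Real.pi_lt_d4
      have hp := Real.pi_pos
      nlinarith
    calc X ≤ Real.sqrt ((1.2534 * sq) ^ 2) := Real.sqrt_le_sqrt h2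
      _ = 1.2534 * sq := Real.sqrt_sq (by positivity)
  have hc : Real.sqrt (2 * Real.pi / 27) ≤ 1 / 2 := by
    rw [show (1 / 2 : ℝ) = Real.sqrt ((1 / 2) ^ 2) by rw [Real.sqrt_sq]; norm_num]
    apply Real.sqrt_le_sqrt
    have := Real.pi_lt_d4
    norm_num
    linarith
  have hc0 : 0 ≤ Real.sqrt (2 * Real.pi / 27) := Real.sqrt_nonneg _
  set cc := Real.sqrt (2 * Real.pi / 27) with hcc
  -- (n - k) X ≤ cc N3 + 1.2534 δ N3
  have h2 : ((n : ℝ) - k) * X ≤ cc * N3 + 1.2534 * δ * N3 := by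
    have h3 : ((n : ℝ) - k) * X = ((n : ℝ) - k') * X + (k' - k) * X := by ring
    have h4 : (k' - k) * X ≤ (δ * n) * (1.2534 * sq) := by
      have h5 : 0 ≤ k' - k := sub_nonneg.2 (le_max_left _ _)
      exact mul_le_mul hk'k hXn hX0 (by positivity)
    have h6 : (δ * n) * (1.2534 * sq) = 1.2534 * δ * N3 := by rw [hN3']; ring
    linarith
  have h7 : sharp δ n k = (1 + 16 * δ) * X + 6 * δ * sq := rfl
  rw [h7]
  have h8 : ((n : ℝ) - k) * ((1 + 16 * δ) * X + 6 * δ * sq + δ * sq) =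
      (1 + 16 * δ) * (((n : ℝ) - k) * X) + 7 * δ * (((n : ℝ) - k) * sq) := by ring
  rw [h8]
  have h9 : ((n : ℝ) - k) * sq ≤ N3 := by
    rw [hN3']
    exact mul_le_mul_of_nonneg_right (by linarith) hsq0
  have h10 : (1 + 16 * δ) * (((n : ℝ) - k) * X) ≤ (1 + 16 * δ) * (cc * N3 + 1.2534 * δ * N3) :=
    mul_le_mul_of_nonneg_left h2 (by linarith)
  have h11 : 7 * δ * (((n : ℝ) - k) * sq) ≤ 7 * δ * N3 :=
    mul_le_mul_of_nonneg_left h9 (by linarith)
  have h12 : 0 ≤ δ * N3 := by positivity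
  have h13 : cc * (δ * N3) ≤ 1 / 2 * (δ * N3) := mul_le_mul_of_nonneg_right hc h12
  have h14 : δ * (δ * N3) ≤ 1 / 200 * (δ * N3) := mul_le_mul_of_nonneg_right hδ2 h12
  nlinarith

include g C he in
/-- stage 0 and the main bound -/
theorem main_bound' (D : MC p M Φ pcs a)
    (hleg : ∀ m, 2 ≤ m → m ≤ Fintype.card V → ∀ x : Fin m → V, ∃ i j, i ≠ j ∧
      Hit Φ (1 / Fintype.card V) (x i) {x j} (cst (Fintype.card V) m) ∧
      Hit Φ (1 / Fintype.card V) (x j) {x i} (cst (Fintype.card V) m))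
    (hcl : ∃ cl : V → V, ((univ.image cl).card : ℝ) ≤ (Fintype.card V : ℝ) ^ (0.12 : ℝ) + 2 ∧
      ∀ u v, cl u = cl v → Hit Φ (1 / Fintype.card V) u {v} ((Fintype.card V : ℝ) ^ (0.9 : ℝ)))
    (htour : ∀ r : ℕ, (r : ℝ) ≤ p.η * Fintype.card V →
      ∑ j ∈ Icc 2 r, cst (Fintype.card V) j ≤ δ * (Fintype.card V : ℝ) ^ (3 / 2 : ℝ))
    (x0 : V) :
    Φ x0 ∅ ≤ Real.exp ((1 / Fintype.card V : ℝ) *
      ((Real.sqrt (2 * Real.pi / 27) + 40 * δ) * (Fintype.card V : ℝ) ^ (3 / 2 : ℝ))) := by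
  classical
  have hn := n_pos p g
  have hδ := p.hδ
  have hδ2 := p.hδ2
  have hlam : (0 : ℝ) ≤ 1 / Fintype.card V := by positivity
  set lam : ℝ := 1 / Fintype.card V with hlamdef
  set sq := Real.sqrt (Fintype.card V) with hsq
  have hsq0 : 0 ≤ sq := Real.sqrt_nonneg _
  set N3 := (Fintype.card V : ℝ) ^ (3 / 2 : ℝ) with hN3
  have hN30 : 0 ≤ N3 := by positivity
  have hN3' : N3 = Fintype.card V * sq := N3_eq _
  set cc := Real.sqrt (2 * Real.pi / 27) with hcc
  have hcc0 : 0 ≤ cc := Real.sqrt_nonneg _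
  have hδN : 0 ≤ δ * N3 := by positivity
  -- stage 1 + stage 2
  set M1 : ℝ := Real.exp (lam * ((cc + 28 * δ) * N3)) with hM1
  have hM11 : 1 ≤ M1 := Real.one_le_exp (by positivity)
  have hend1 : ∀ x' A', Φ x' A' ≤ M1 * Real.exp (lam * (1.5 * sq * ((D.K' \ A').card : ℝ))) := by
    intro x' A'
    have h1 := stage1_bound p g C pcs he D hcl (Real.exp (lam * (4 * δ * N3)))
      (Real.one_le_exp (by positivity))
      (fun x' A' h => stage2_bound p g C pcs hleg htour x' A' h) x' A'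
    refine h1.trans ?_
    apply mul_le_mul_of_nonneg_right _ (Real.exp_pos _).le
    rw [← Real.exp_add, ← mul_add, hM1]
    apply Real.exp_le_exp.2
    apply mul_le_mul_of_nonneg_left _ hlam
    have h2 := final_num hδ hδ2 (Fintype.card V) (D.K'.card : ℝ) (by positivity)
      (by exact_mod_cast Finset.card_le_univ _)
    rw [← hN3, ← hsq, ← hcc] at h2
    linarith
  -- stage 0
  by_cases hCO : D.CO.Nonempty
  swap
  · have hK : D.K' = ∅ := by
      ext y
      rw [D.hK' y, Finset.not_nonempty_iff_eq_empty.1 hCO]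
      simp only [Finset.sum_empty, Finset.notMem_empty, iff_false, not_le]
      exact p.hΘ
    have h1 := hend1 x0 ∅
    rw [hK] at h1
    simp only [Finset.empty_sdiff, Finset.card_empty, Nat.cast_zero, mul_zero, Real.exp_zero,
      mul_one] at h1
    refine h1.trans (Real.exp_le_exp.2 (mul_le_mul_of_nonneg_left ?_ hlam))
    linarith
  · set P' : V → V → ℝ := fun i y => EL M.w (D.S i) (fun k => ind (y ∈ D.B i k)) with hP'
    have hP'0 : ∀ i y, 0 ≤ P' i y := fun i y => EL_nonneg M.w M.w0 _ _ (fun _ _ => ind_nonneg _)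
    have hP'1 : ∀ i y, P' i y ≤ 1 := by
      intro i y
      calc P' i y ≤ EL M.w (D.S i) (fun _ => 1) :=
            EL_mono M.w M.w0 _ _ _ (fun _ _ => ind_le_one _)
        _ = 1 := EL_const M.w M.w1 _ _
    set r : ℕ := ⌈p.εs * Fintype.card V⌉₊ with hr
    have hεn : 0 < p.εs * Fintype.card V := mul_pos p.hεs hn
    have hr1 : 1 ≤ r := Nat.one_le_ceil_iff.2 hεn
    have hrle : (r : ℝ) ≤ 2 * p.εs * Fintype.card V := by
      have h1 : (r : ℝ) < p.εs * Fintype.card V + 1 := Nat.ceil_lt_add_one hεn.le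
      have h2 := g.hr
      linarith
    have hrn : r ≤ Fintype.card V := by
      apply Nat.ceil_le.2
      have := p.hε1
      nlinarith
    have hrη : (r : ℝ) ≤ p.η * Fintype.card V := by
      refine hrle.trans ?_
      exact mul_le_mul_of_nonneg_right p.hεη hn.le
    obtain ⟨l0, hl0, hl0CO, hl0u⟩ := greedy D.CO hCO D.K' P' hP'0 hP'1 p.Θ p.hΘ.le (Fintype.card V)
      (by exact_mod_cast hn) (Finset.card_le_univ _) (fun y hy => (D.hK' y).1 hy) r
    obtain ⟨v, l, hT, hsum, hlen, hsub⟩ := tour_exists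
      (fun c u v => Hit Φ lam u {v} c ∧ Hit Φ lam v {u} c)
      (fun c u v h => ⟨h.2, h.1⟩) (cst (Fintype.card V)) (Fintype.card V) hleg l0.length
      (by omega) (by omega) l0.get
    rw [List.ofFn_get] at hsub
    have hT' := tour_mono (R' := fun c u v => Hit Φ lam u {v} c) (fun c u v h => h.1) l v hT
    have h1 := stage0 C hlam ((p.K1 + 1) * sq) p.L D.S D.B D.hB D.hS
      (fun c k => by exact_mod_cast D.hBc c k) D.K' (1.5 * sq) (by positivity) g.hα M1 hM11 hend1
      v l hT' ∅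
    -- the potential
    have h2 : ∑ y ∈ D.K' \ ∅, ((v :: l.map Prod.snd).map (fun c => 1 - P' c y)).prod ≤
        δ * Fintype.card V := by
      rw [Finset.sdiff_empty]
      calc ∑ y ∈ D.K', ((v :: l.map Prod.snd).map (fun c => 1 - P' c y)).prod
          ≤ ∑ y ∈ D.K', (l0.map (fun c => 1 - P' c y)).prod :=
            Finset.sum_le_sum (fun y _ => prod_subperm hsub _
              (fun i => by have := hP'1 i y; linarith) (fun i => by have := hP'0 i y; linarith))
        _ ≤ D.K'.card * Real.exp (-p.Θ * r / Fintype.card V) := hl0u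
        _ ≤ Fintype.card V * δ := by
            refine mul_le_mul ?_ ?_ (Real.exp_pos _).le hn.le
            · exact_mod_cast Finset.card_le_univ _
            · refine le_trans (Real.exp_le_exp.2 ?_) p.hΘe
              have h3 : p.εs * Fintype.card V ≤ r := Nat.le_ceil _
              rw [div_le_iff₀ hn]
              nlinarith [mul_le_mul_of_nonneg_left h3 p.hΘ.le]
        _ = δ * Fintype.card V := mul_comm _ _
    have hlen' : ((l.length : ℝ) + 1) ≤ 2 * r := by
      have : l.length + 1 ≤ 2 * r := by omega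
      exact_mod_cast this
    have h3 : (l.map Prod.fst).sum +
        ((l.length : ℝ) + 1) * ((p.K1 + 1) * sq + lam * (2 * (1.5 * sq) * p.L) ^ 2) +
        1.5 * sq * ∑ y ∈ D.K' \ ∅, ((v :: l.map Prod.snd).map (fun c => 1 - P' c y)).prod ≤
        5 * δ * N3 := by
      have h4 : (l.map Prod.fst).sum ≤ 2 * (δ * N3) := by
        rw [hsum]
        have := htour l0.length (by rw [hl0]; exact hrη)
        linarith
      have h5 := g.hα2
      have h6 : ((l.length : ℝ) + 1) * ((p.K1 + 1) * sq + lam * (2 * (1.5 * sq) * p.L) ^ 2) ≤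
          δ * N3 := by
        have h7 : (p.K1 + 1) * sq + lam * (2 * (1.5 * sq) * p.L) ^ 2 ≤ (p.K1 + 2) * sq := by
          linarith
        have hK1 := p.hK1
        calc ((l.length : ℝ) + 1) * ((p.K1 + 1) * sq + lam * (2 * (1.5 * sq) * p.L) ^ 2)
            ≤ (2 * r) * ((p.K1 + 2) * sq) :=
              mul_le_mul hlen' h7 (by positivity) (by positivity)
          _ ≤ (2 * (2 * p.εs * Fintype.card V)) * ((p.K1 + 2) * sq) := by gcongr
          _ = (4 * p.εs * (p.K1 + 2)) * N3 := by rw [hN3']; ring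
          _ ≤ δ * N3 := by
              apply mul_le_mul_of_nonneg_right _ hN30
              have := p.hεK
              have h8 : 0 ≤ p.εs * (p.K1 + 2) := mul_nonneg p.hεs.le (by linarith)
              linarith
      have h8 : 1.5 * sq * ∑ y ∈ D.K' \ ∅, ((v :: l.map Prod.snd).map (fun c => 1 - P' c y)).prod ≤
          1.5 * (δ * N3) := by
        calc 1.5 * sq * ∑ y ∈ D.K' \ ∅, ((v :: l.map Prod.snd).map (fun c => 1 - P' c y)).prod
            ≤ 1.5 * sq * (δ * Fintype.card V) := mul_le_mul_of_nonneg_left h2 (by positivity)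
          _ = 1.5 * (δ * N3) := by rw [hN3']; ring
      linarith
    have h4 : Φ v ∅ ≤ M1 * Real.exp (lam * (5 * δ * N3)) := by
      refine h1.trans ?_
      apply mul_le_mul_of_nonneg_left _ (by linarith)
      exact Real.exp_le_exp.2 (mul_le_mul_of_nonneg_left h3 hlam)
    have h5 : 1 ≤ M1 * Real.exp (lam * (5 * δ * N3)) := by
      have : 1 ≤ Real.exp (lam * (5 * δ * N3)) := Real.one_le_exp (by positivity)
      nlinarith
    have h6 := hit_det C hlam x0 v ∅ _ h5 (by
      intro u hu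
      rw [Set.mem_singleton_iff] at hu
      rw [hu]; exact h4)
    refine h6.trans ?_
    rw [hM1, ← Real.exp_add, ← Real.exp_add, ← mul_add, ← mul_add]
    apply Real.exp_le_exp.2
    apply mul_le_mul_of_nonneg_left _ hlam
    have h7 := g.hn3
    rw [← hN3] at h7
    linarith

end main

end Pool.Agent.RST
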