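import Mathlib
import Pool.Agent.Lib_helper42.RST.Defs
import Pool.Agent.Lib_helper42.RST.Stmt
import Pool.Agent.Lib_helper42.RSTF.Base
import Pool.Agent.Lib_helper42.RSTF.EL1

/- block BDa proved by helper29 -/

/-!
# Block BDa of MP_864bf0_pr: `norep_bound` (helper29)
-/

set_option autoImplicit false
set_option linter.unusedSectionVars false
set_option linter.unusedSimpArgs false

open Finset

namespace Pool.Agent.RST

section BDa
variable {Ω D : Type} [Fintype Ω] [Fintype D] [DecidableEq D]

/-- recursive form of the no-repeat probability with outcomes in `K` -/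
noncomputable def BDa_A (r : ℝ) (p : D → ℝ) : ℕ → Finset D → ℝ
  | 0, _ => 1
  | j + 1, K => r * BDa_A r p j K + ∑ d ∈ K, p d * BDa_A r p j (K.erase d)

theorem BDa_insert (r : ℝ) (p : D → ℝ) (j : ℕ) : ∀ (K : Finset D) (y : D), y ∉ K →
    BDa_A r p (j + 1) (insert y K) = BDa_A r p (j + 1) K + (j + 1 : ℝ) * (p y * BDa_A r p j K) := by
  induction j with
  | zero =>
    intro K y hy
    simp only [BDa_A, Finset.sum_insert hy]
    push_cast
    ring
  | succ j ih =>
    intro K y hy
    rw [BDa_A, Finset.sum_insert hy, Finset.erase_insert hy, ih K y hy]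
    have h1 : ∑ d ∈ K, p d * BDa_A r p (j + 1) ((insert y K).erase d) =
        ∑ d ∈ K, (p d * BDa_A r p (j + 1) (K.erase d) +
          (j + 1 : ℝ) * (p y * (p d * BDa_A r p j (K.erase d)))) := by
      apply Finset.sum_congr rfl
      intro d hd
      have hne : y ≠ d := fun h => hy (h ▸ hd)
      rw [Finset.erase_insert_of_ne hne, ih (K.erase d) y (fun h => hy (Finset.mem_of_mem_erase h))]
      ring
    rw [h1, Finset.sum_add_distrib, ← Finset.mul_sum, ← Finset.mul_sum]
    have h2 : BDa_A r p (j + 1) K = r * BDa_A r p j K + ∑ d ∈ K, p d * BDa_A r p j (K.erase d) := rfl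
    have h3 : BDa_A r p (j + 1 + 1) K =
        r * BDa_A r p (j + 1) K + ∑ d ∈ K, p d * BDa_A r p (j + 1) (K.erase d) := rfl
    rw [h3]
    push_cast
    have h4 : ∑ d ∈ K, p d * BDa_A r p j (K.erase d) = BDa_A r p (j + 1) K - r * BDa_A r p j K := by
      rw [h2]; ring
    rw [h4]
    ring

theorem BDa_nonneg (r : ℝ) (hr : 0 ≤ r) (p : D → ℝ) (hp : ∀ d, 0 ≤ p d) (j : ℕ) :
    ∀ K : Finset D, 0 ≤ BDa_A r p j K := by
  induction j with
  | zero => intro K; simp [BDa_A]
  | succ j ih =>
    intro K
    rw [BDa_A]
    exact add_nonneg (mul_nonneg hr (ih K)) (Finset.sum_nonneg (fun d _ => mul_nonneg (hp d) (ih _)))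

theorem BDa_empty (r : ℝ) (p : D → ℝ) (j : ℕ) : BDa_A r p j ∅ = r ^ j := by
  induction j with
  | zero => simp [BDa_A]
  | succ j ih => rw [BDa_A, ih]; simp; ring

theorem BDa_gen (r : ℝ) (hr : 0 ≤ r) (p : D → ℝ) (hp : ∀ d, 0 ≤ p d) (lm : ℝ) (hlm : 0 ≤ lm)
    (s : ℕ) (K : Finset D) :
    ∑ j ∈ range (s + 1), lm ^ j / (j.factorial : ℝ) * BDa_A r p j K ≤
      Real.exp (lm * r) * ∏ d ∈ K, (1 + lm * p d) := by
  classical
  induction K using Finset.induction_on with
  | empty =>
    simp only [BDa_empty, Finset.prod_empty, mul_one]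
    have := Real.sum_le_exp_of_nonneg (mul_nonneg hlm hr) (s + 1)
    refine le_trans (le_of_eq ?_) this
    apply Finset.sum_congr rfl
    intro j _
    rw [mul_pow]; ring
  | insert y K hy ih =>
    rw [Finset.prod_insert hy]
    have h1 : ∑ j ∈ range (s + 1), lm ^ j / (j.factorial : ℝ) * BDa_A r p j (insert y K) =
        ∑ j ∈ range (s + 1), lm ^ j / (j.factorial : ℝ) * BDa_A r p j K +
          lm * p y * ∑ j ∈ range s, lm ^ j / (j.factorial : ℝ) * BDa_A r p j K := by
      rw [Finset.sum_range_succ', Finset.sum_range_succ' (fun j => lm ^ j / (j.factorial : ℝ) * BDa_A r p j K)]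
      have h2 : ∑ k ∈ range s, lm ^ (k + 1) / ((k + 1).factorial : ℝ) * BDa_A r p (k + 1) (insert y K) =
          ∑ k ∈ range s, lm ^ (k + 1) / ((k + 1).factorial : ℝ) * BDa_A r p (k + 1) K +
          lm * p y * ∑ j ∈ range s, lm ^ j / (j.factorial : ℝ) * BDa_A r p j K := by
        rw [Finset.mul_sum, ← Finset.sum_add_distrib]
        apply Finset.sum_congr rfl
        intro k _
        rw [BDa_insert r p k K y hy, Nat.factorial_succ]
        have hk : (k.factorial : ℝ) ≠ 0 := by positivity
        have hk1 : ((k : ℝ) + 1) ≠ 0 := by positivity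
        push_cast
        field_simp
        ring
      rw [h2]
      simp only [BDa_A]
      ring
    rw [h1]
    have h3 : ∑ j ∈ range s, lm ^ j / (j.factorial : ℝ) * BDa_A r p j K ≤
        ∑ j ∈ range (s + 1), lm ^ j / (j.factorial : ℝ) * BDa_A r p j K := by
      apply Finset.sum_le_sum_of_subset_of_nonneg
      · exact Finset.range_mono (Nat.le_succ s)
      · intro j _ _
        exact mul_nonneg (by positivity) (BDa_nonneg r hr p hp j K)
    have h4 : 0 ≤ lm * p y := mul_nonneg hlm (hp y)
    nlinarith [mul_le_mul_of_nonneg_left (h3.trans ih) h4]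

theorem BDa_EL (w : Ω → ℝ) (o : Ω → Option D) (s : ℕ) : ∀ K : Finset D,
    EL w s (fun k => ind ((k.filterMap o).Nodup ∧ ∀ d ∈ k.filterMap o, d ∈ K)) =
      BDa_A (∑ T, w T * ind (o T = none)) (fun d => ∑ T, w T * ind (o T = some d)) s K := by
  induction s with
  | zero =>
    intro K
    simp [EL, BDa_A, ind]
  | succ s ih =>
    intro K
    rw [BDa_A]
    have hstep : ∀ T : Ω, EL w s (fun l => ind (((T :: l).filterMap o).Nodup ∧
        ∀ d ∈ (T :: l).filterMap o, d ∈ K)) =
        ind (o T = none) * BDa_A (∑ T, w T * ind (o T = none))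
          (fun d => ∑ T, w T * ind (o T = some d)) s K +
        ∑ d ∈ K, ind (o T = some d) * BDa_A (∑ T, w T * ind (o T = none))
          (fun d => ∑ T, w T * ind (o T = some d)) s (K.erase d) := by
      intro T
      cases hT : o T with
      | none =>
        rw [← ih K]
        simp [List.filterMap_cons, hT, ind]
      | some d0 =>
        have h1 : (ind ((some d0 : Option D) = none)) = 0 := ind_false (by simp)
        rw [h1, zero_mul, zero_add]
        by_cases hd : d0 ∈ K
        · rw [Finset.sum_eq_single_of_mem d0 hd]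
          · rw [ind_true rfl, one_mul, ← ih (K.erase d0)]
            apply EL_congr
            intro l _
            congr 1
            simp only [List.filterMap_cons, hT, List.nodup_cons, List.mem_cons, Finset.mem_erase,
              eq_iff_iff]
            constructor
            · rintro ⟨⟨h2, h3⟩, h4⟩
              refine ⟨h3, fun d hdl => ⟨?_, h4 d (Or.inr hdl)⟩⟩
              rintro rfl
              exact h2 hdl
            · rintro ⟨h2, h3⟩
              refine ⟨⟨fun h => (h3 d0 h).1 rfl, h2⟩, ?_⟩
              rintro d (rfl | hdl)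
              · exact hd
              · exact (h3 d hdl).2
          · intro d _ hne
            rw [ind_false (by simpa using fun h => hne h.symm), zero_mul]
        · rw [Finset.sum_eq_zero]
          · have : EL w s (fun l => ind (((T :: l).filterMap o).Nodup ∧
                ∀ d ∈ (T :: l).filterMap o, d ∈ K)) = EL w s (fun _ => (0:ℝ) * 0) := by
              apply EL_congr
              intro l _
              rw [ind_false, zero_mul]
              rintro ⟨_, h⟩
              apply hd
              apply h
              simp [List.filterMap_cons, hT]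
            rw [this, EL_smul, zero_mul]
          · intro d hdK
            rw [ind_false (by rintro h; rw [Option.some.injEq] at h; subst h; exact hd hdK), zero_mul]
    rw [EL]
    simp only [hstep]
    simp only [mul_add, Finset.sum_add_distrib, Finset.sum_mul, Finset.mul_sum]
    congr 1
    · apply Finset.sum_congr rfl
      intro T _
      ring
    · rw [Finset.sum_comm]
      apply Finset.sum_congr rfl
      intro d _
      apply Finset.sum_congr rfl
      intro T _
      ring

theorem BDa_EL_univ (w : Ω → ℝ) (o : Ω → Option D) (s : ℕ) :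
    EL w s (fun k => ind ((k.filterMap o).Nodup)) =
      BDa_A (∑ T, w T * ind (o T = none)) (fun d => ∑ T, w T * ind (o T = some d)) s Finset.univ := by
  rw [← BDa_EL]
  apply EL_congr
  intro l _
  congr 1
  simp

theorem BDa_anti (w : Ω → ℝ) (h0 : ∀ T, 0 ≤ w T) (h1 : ∑ T, w T = 1) (o : Ω → Option D)
    {s t : ℕ} (hst : s ≤ t) :
    EL w t (fun k => ind ((k.filterMap o).Nodup)) ≤ EL w s (fun k => ind ((k.filterMap o).Nodup)) := by
  induction t, hst using Nat.le_induction with
  | base => exact le_refl _
  | succ t _ ih =>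
    refine le_trans ?_ ih
    rw [EL]
    have : ∀ T : Ω, EL w t (fun l => ind (((T :: l).filterMap o).Nodup)) ≤
        EL w t (fun l => ind ((l.filterMap o).Nodup)) := by
      intro T
      apply EL_mono w h0
      intro l _
      apply ind_mono
      intro h
      rw [List.filterMap_cons] at h
      cases hT : o T with
      | none => simpa [hT] using h
      | some d => rw [hT] at h; exact (List.nodup_cons.1 h).2
    calc ∑ T, w T * EL w t (fun l => ind (((T :: l).filterMap o).Nodup))
        ≤ ∑ T, w T * EL w t (fun l => ind ((l.filterMap o).Nodup)) :=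
          Finset.sum_le_sum (fun T _ => mul_le_mul_of_nonneg_left (this T) (h0 T))
      _ = EL w t (fun l => ind ((l.filterMap o).Nodup)) := by
          rw [← Finset.sum_mul, h1, one_mul]

theorem norep_bound {Ω D : Type} [Fintype Ω] [Fintype D] [DecidableEq D] (w : Ω → ℝ)
    (h0 : ∀ T, 0 ≤ w T) (h1 : ∑ T, w T = 1) (o : Ω → Option D) (lm : ℝ) (hlm : 0 ≤ lm) (s : ℕ) :
    EL w s (fun k => ind ((k.filterMap o).Nodup)) * ∑ j ∈ range (s + 1), lm ^ j / (j.factorial : ℝ) ≤
      Real.exp (lm * ∑ T, w T * ind (o T = none)) *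
        ∏ d, (1 + lm * ∑ T, w T * ind (o T = some d)) := by
  have hr : 0 ≤ ∑ T, w T * ind (o T = none) :=
    Finset.sum_nonneg (fun T _ => mul_nonneg (h0 T) (ind_nonneg _))
  have hp : ∀ d, 0 ≤ ∑ T, w T * ind (o T = some d) := fun d =>
    Finset.sum_nonneg (fun T _ => mul_nonneg (h0 T) (ind_nonneg _))
  refine le_trans ?_ (BDa_gen _ hr _ hp lm hlm s Finset.univ)
  rw [Finset.mul_sum]
  apply Finset.sum_le_sum
  intro j hj
  rw [mul_comm, ← BDa_EL_univ]
  exact mul_le_mul_of_nonneg_left
    (BDa_anti w h0 h1 o (Nat.lt_succ_iff.1 (Finset.mem_range.1 hj))) (by positivity)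

end BDa

example : @norep_bound = @norep_bound := rfl

end Pool.Agent.RST
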