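import Mathlib
import Pool.Agent.Lib_helper42.RST.Defs
import Pool.Agent.Lib_helper42.RST.Stmt
import Pool.Agent.Lib_helper42.RSTF.Base
import Pool.Agent.Lib_helper42.RSTF.BDa
import Pool.Agent.Lib_helper42.RSTF.EL1

/- block BDcore proved by helper29 -/

/-!
# Core estimate for blocks BDb, BDc of MP_864bf0_pr (helper29)
-/

set_option autoImplicit false
set_option linter.unusedSectionVars false

open Finset

namespace Pool.Agent.RST

theorem BDb_hasSum (x : ℝ) : HasSum (fun n : ℕ => x ^ n / (n.factorial : ℝ)) (Real.exp x) := by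
  have h := NormedSpace.expSeries_div_hasSum_exp (𝔸 := ℝ) x
  rwa [← Real.exp_eq_exp_ℝ] at h

theorem BDb_step {lm δ : ℝ} (hlm : 0 ≤ lm) (hδ1 : δ ≤ 1) (j : ℕ) (h : lm ≤ (1 - δ) * (j + 1)) :
    lm ^ (j + 1) / ((j + 1).factorial : ℝ) ≤ (1 - δ) * (lm ^ j / (j.factorial : ℝ)) := by
  rw [Nat.factorial_succ, pow_succ]
  push_cast
  have hj : (0 : ℝ) < j.factorial := by positivity
  have hj1 : (0 : ℝ) < (j : ℝ) + 1 := by positivity
  have : lm ^ j * lm / (((j : ℝ) + 1) * (j.factorial : ℝ)) =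
      (lm / ((j : ℝ) + 1)) * (lm ^ j / (j.factorial : ℝ)) := by
    field_simp
  rw [this]
  apply mul_le_mul_of_nonneg_right _ (by positivity)
  rw [div_le_iff₀ hj1]
  exact h

theorem BDb_poisson (δ : ℝ) (hδ : 0 < δ) (hδ1 : δ < 1) (s : ℕ) (hs : 1 ≤ s) :
    Real.exp ((1 - δ) * s) * (1 - 1 / (δ ^ 2 * s)) ≤
      ∑ j ∈ range (s + 1), ((1 - δ) * s) ^ j / (j.factorial : ℝ) := by
  set lm : ℝ := (1 - δ) * s with hlmdef
  have hs' : (1 : ℝ) ≤ s := by exact_mod_cast hs
  have hlm : 0 ≤ lm := mul_nonneg (by linarith) (by positivity)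
  set t : ℕ → ℝ := fun j => lm ^ j / (j.factorial : ℝ) with ht
  have ht0 : ∀ j, 0 ≤ t j := fun j => by simp only [ht]; positivity
  -- geometric decay
  have hgeo : ∀ i : ℕ, t (s + 1 + i) ≤ (1 - δ) ^ i * t (s + 1) := by
    intro i
    induction i with
    | zero => simp
    | succ i ih =>
      have h1 : t (s + 1 + i + 1) ≤ (1 - δ) * t (s + 1 + i) := by
        apply BDb_step hlm hδ1.le
        rw [hlmdef]
        apply mul_le_mul_of_nonneg_left _ (by linarith)
        push_cast
        have : (0 : ℝ) ≤ i := by positivity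
        linarith
      calc t (s + 1 + (i + 1)) = t (s + 1 + i + 1) := by ring_nf
        _ ≤ (1 - δ) * t (s + 1 + i) := h1
        _ ≤ (1 - δ) * ((1 - δ) ^ i * t (s + 1)) := mul_le_mul_of_nonneg_left ih (by linarith)
        _ = (1 - δ) ^ (i + 1) * t (s + 1) := by ring
  have hgs : ∀ N : ℕ, ∑ i ∈ range N, (1 - δ) ^ i ≤ 1 / δ := by
    intro N
    rw [le_div_iff₀ hδ]
    have := geom_sum_mul_neg (1 - δ) N
    have h2 : (0 : ℝ) ≤ (1 - δ) ^ N := pow_nonneg (by linarith) N
    have h3 : 1 - (1 - δ) = δ := by ring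
    rw [h3] at this
    rw [this]; linarith
  have hupper : Real.exp lm ≤ ∑ j ∈ range (s + 1), t j + t (s + 1) / δ := by
    have hlim := (BDb_hasSum lm).tendsto_sum_nat
    apply le_of_tendsto' hlim
    intro N
    calc ∑ j ∈ range N, lm ^ j / (j.factorial : ℝ) ≤ ∑ j ∈ range (s + 1 + N), t j := by
          apply Finset.sum_le_sum_of_subset_of_nonneg
          · exact Finset.range_mono (Nat.le_add_left N (s + 1))
          · intro j _ _; exact ht0 j
      _ = ∑ j ∈ range (s + 1), t j + ∑ i ∈ range N, t (s + 1 + i) := Finset.sum_range_add _ _ _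
      _ ≤ ∑ j ∈ range (s + 1), t j + t (s + 1) / δ := by
          have : ∑ i ∈ range N, t (s + 1 + i) ≤ ∑ i ∈ range N, (1 - δ) ^ i * t (s + 1) :=
            Finset.sum_le_sum (fun i _ => hgeo i)
          rw [← Finset.sum_mul] at this
          have h2 := mul_le_mul_of_nonneg_right (hgs N) (ht0 (s + 1))
          have h3 : 1 / δ * t (s + 1) = t (s + 1) / δ := by ring
          linarith
  -- monotone part
  have hanti : ∀ j j' : ℕ, ⌈lm⌉₊ ≤ j → j ≤ j' → t j' ≤ t j := by
    intro j j' hj hjj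
    induction j', hjj using Nat.le_induction with
    | base => exact le_refl _
    | succ m hm ih =>
      refine le_trans ?_ ih
      have h1 : lm ≤ (1 - 0) * ((m : ℝ) + 1) := by
        have h2 : lm ≤ ⌈lm⌉₊ := Nat.le_ceil lm
        have h3 : ((⌈lm⌉₊ : ℕ) : ℝ) ≤ m := by exact_mod_cast hj.trans hm
        linarith
      have := BDb_step hlm (by norm_num : (0 : ℝ) ≤ 1) m h1
      simpa using this
  have hcount : t (s + 1) * (δ * s) ≤ Real.exp lm := by
    have hceil : (⌈lm⌉₊ : ℝ) < lm + 1 := Nat.ceil_lt_add_one hlm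
    have hle : ⌈lm⌉₊ ≤ s + 2 := by
      have : (⌈lm⌉₊ : ℝ) ≤ s + 2 := by
        rw [hlmdef] at hceil ⊢
        nlinarith
      exact_mod_cast this
    have h1 : ((s + 2 - ⌈lm⌉₊ : ℕ) : ℝ) * t (s + 1) ≤ ∑ j ∈ Ico ⌈lm⌉₊ (s + 2), t j := by
      have : ∑ j ∈ Ico ⌈lm⌉₊ (s + 2), t (s + 1) ≤ ∑ j ∈ Ico ⌈lm⌉₊ (s + 2), t j := by
        apply Finset.sum_le_sum
        intro j hj
        rw [Finset.mem_Ico] at hj
        exact hanti j (s + 1) hj.1 (by omega)
      rwa [Finset.sum_const, Nat.card_Ico, nsmul_eq_mul] at this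
    have h2 : ∑ j ∈ Ico ⌈lm⌉₊ (s + 2), t j ≤ ∑ j ∈ range (s + 2), t j := by
      apply Finset.sum_le_sum_of_subset_of_nonneg
      · intro j hj; rw [Finset.mem_Ico] at hj; exact Finset.mem_range.2 hj.2
      · intro j _ _; exact ht0 j
    have h3 : ∑ j ∈ range (s + 2), t j ≤ Real.exp lm := Real.sum_le_exp_of_nonneg hlm (s + 2)
    have h4 : δ * s ≤ ((s + 2 - ⌈lm⌉₊ : ℕ) : ℝ) := by
      rw [Nat.cast_sub hle]
      push_cast
      rw [hlmdef] at hceil ⊢
      nlinarith
    have h5 := mul_le_mul_of_nonneg_right h4 (ht0 (s + 1))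
    linarith
  have hpos : 0 < δ * s := by positivity
  have h6 : t (s + 1) / δ ≤ Real.exp lm * (1 / (δ ^ 2 * s)) := by
    have : t (s + 1) ≤ Real.exp lm / (δ * s) := by rw [le_div_iff₀ hpos]; exact hcount
    calc t (s + 1) / δ ≤ (Real.exp lm / (δ * s)) / δ := div_le_div_of_nonneg_right this hδ.le
      _ = Real.exp lm * (1 / (δ ^ 2 * s)) := by field_simp
  have : Real.exp lm * (1 - 1 / (δ ^ 2 * s)) = Real.exp lm - Real.exp lm * (1 / (δ ^ 2 * s)) := by ring
  rw [this]
  linarith

theorem BDb_log (x : ℝ) (hx : 0 ≤ x) : Real.log (1 + x) ≤ x - x ^ 2 / 2 + x ^ 3 / 3 := by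
  have key : MonotoneOn (fun x : ℝ => x - x ^ 2 / 2 + x ^ 3 / 3 - Real.log (1 + x)) (Set.Ici 0) := by
    apply monotoneOn_of_deriv_nonneg (convex_Ici 0)
    · apply ContinuousOn.sub
      · fun_prop
      · apply ContinuousOn.log
        · fun_prop
        · intro y hy; simp only [Set.mem_Ici] at hy; positivity
    · intro y hy
      simp only [interior_Ici, Set.mem_Ioi] at hy
      apply DifferentiableAt.differentiableWithinAt
      have : (1 : ℝ) + y ≠ 0 := by positivity
      fun_prop (disch := assumption)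
    · intro y hy
      simp only [interior_Ici, Set.mem_Ioi] at hy
      have hne : (1 : ℝ) + y ≠ 0 := by positivity
      have hd : HasDerivAt (fun x : ℝ => x - x ^ 2 / 2 + x ^ 3 / 3 - Real.log (1 + x))
          (1 - (2 * y) / 2 + (3 * y ^ 2) / 3 - 1 / (1 + y)) y := by
        have h1 : HasDerivAt (fun x : ℝ => x ^ 2) (2 * y) y := by simpa using hasDerivAt_pow 2 y
        have h2 : HasDerivAt (fun x : ℝ => x ^ 3) (3 * y ^ 2) y := by simpa using hasDerivAt_pow 3 y
        have h3 : HasDerivAt (fun x : ℝ => 1 + x) 1 y := by simpa using (hasDerivAt_id y).const_add 1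
        have h4 := h3.log hne
        exact (((hasDerivAt_id y).sub (h1.div_const 2)).add (h2.div_const 3)).sub h4
      rw [hd.deriv]
      have : 1 - (2 * y) / 2 + (3 * y ^ 2) / 3 - 1 / (1 + y) = y ^ 3 / (1 + y) := by
        field_simp; ring
      rw [this]; positivity
  have := key (Set.mem_Ici.2 (le_refl 0)) (Set.mem_Ici.2 hx) hx
  simp at this
  linarith

theorem BDb_core {Ω D : Type} [Fintype Ω] [Fintype D] [DecidableEq D] (w : Ω → ℝ)
    (h0 : ∀ T, 0 ≤ w T) (h1 : ∑ T, w T = 1) (o : Ω → Option D) (S : Finset D) (k' : ℝ)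
    (hS : ∀ T d, o T = some d → d ∈ S) (hk : (S.card : ℝ) ≤ k') (hk0 : 0 < k') (δ ρ : ℝ)
    (hδ : 0 < δ) (hδ1 : δ < 1) (hρ1 : ρ < 1)
    (hr : ∑ T, w T * ind (o T = none) ≤ ρ) (s : ℕ) (hs : 1 ≤ s) :
    EL w s (fun k => ind ((k.filterMap o).Nodup)) * (1 - 1 / (δ ^ 2 * s)) ≤
      Real.exp (-(k' * (((1 - δ) * (1 - ρ) * s / k') ^ 2 / 2 -
        ((1 - δ) * (1 - ρ) * s / k') ^ 3 / 3))) := by
  set lm : ℝ := (1 - δ) * s with hlmdef
  set c : ℝ := (1 - δ) * (1 - ρ) * s / k' with hc
  have hs' : (1 : ℝ) ≤ s := by exact_mod_cast hs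
  have hlm : 0 ≤ lm := mul_nonneg (by linarith) (by positivity)
  have hc0 : 0 ≤ c := by
    rw [hc]
    exact div_nonneg (mul_nonneg (mul_nonneg (by linarith) (by linarith)) (by positivity)) hk0.le
  set q := EL w s (fun k => ind ((k.filterMap o).Nodup)) with hq
  have hq0 : 0 ≤ q := EL_nonneg w h0 s _ (fun l _ => ind_nonneg _)
  set r := ∑ T, w T * ind (o T = none) with hrdef
  set p : D → ℝ := fun d => ∑ T, w T * ind (o T = some d) with hp
  have hp0 : ∀ d, 0 ≤ p d := fun d => Finset.sum_nonneg (fun T _ => mul_nonneg (h0 T) (ind_nonneg _))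
  have hmass : r + ∑ d ∈ S, p d = 1 := by
    rw [hrdef, hp, Finset.sum_comm, ← Finset.sum_add_distrib, ← h1]
    apply Finset.sum_congr rfl
    intro T _
    cases hT : o T with
    | none =>
      rw [ind_true rfl, Finset.sum_eq_zero]
      · ring
      · intro d _; rw [ind_false (by simp), mul_zero]
    | some d =>
      rw [ind_false (by simp), Finset.sum_eq_single_of_mem d (hS T d hT)]
      · rw [ind_true rfl]; ring
      · intro d' _ hne
        rw [ind_false (by simpa using fun h => hne h.symm), mul_zero]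
  have hprod : ∏ d, (1 + lm * p d) = ∏ d ∈ S, (1 + lm * p d) := by
    symm
    apply Finset.prod_subset (Finset.subset_univ S)
    intro d _ hd
    have : p d = 0 := by
      apply Finset.sum_eq_zero
      intro T _
      rw [ind_false (fun h => hd (hS T d h)), mul_zero]
    rw [this]; ring
  -- tangent line
  have hone : ∀ u : ℝ, 0 ≤ u → 1 + u ≤ Real.exp (Real.log (1 + c) + (u - c) / (1 + c)) := by
    intro u hu
    have hc1 : 0 < 1 + c := by linarith
    rw [Real.exp_add, Real.exp_log hc1]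
    have := Real.add_one_le_exp ((u - c) / (1 + c))
    have h2 : (1 + c) * ((u - c) / (1 + c) + 1) = 1 + u := by field_simp; ring
    nlinarith [mul_le_mul_of_nonneg_left this hc1.le]
  have hlogc : c / (1 + c) ≤ Real.log (1 + c) := by
    have hc1 : 0 < 1 + c := by linarith
    have := Real.log_le_sub_one_of_pos (inv_pos.2 hc1)
    rw [Real.log_inv] at this
    have h2 : (1 + c)⁻¹ - 1 = -(c / (1 + c)) := by field_simp; ring
    rw [h2] at this
    linarith
  have hprod2 : ∏ d ∈ S, (1 + lm * p d) ≤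
      Real.exp (k' * (Real.log (1 + c) - c / (1 + c)) + lm * (1 - r) / (1 + c)) := by
    calc ∏ d ∈ S, (1 + lm * p d)
        ≤ ∏ d ∈ S, Real.exp (Real.log (1 + c) + (lm * p d - c) / (1 + c)) := by
          apply Finset.prod_le_prod
          · intro d _; have := mul_nonneg hlm (hp0 d); linarith
          · intro d _; exact hone _ (mul_nonneg hlm (hp0 d))
      _ = Real.exp (∑ d ∈ S, (Real.log (1 + c) + (lm * p d - c) / (1 + c))) := by
          rw [Real.exp_sum]
      _ ≤ Real.exp (k' * (Real.log (1 + c) - c / (1 + c)) + lm * (1 - r) / (1 + c)) := by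
          apply Real.exp_le_exp.2
          have h2 : ∑ d ∈ S, (Real.log (1 + c) + (lm * p d - c) / (1 + c)) =
              S.card * (Real.log (1 + c) - c / (1 + c)) + lm * (∑ d ∈ S, p d) / (1 + c) := by
            rw [Finset.mul_sum, Finset.sum_div, ← nsmul_eq_mul, ← Finset.sum_const,
              ← Finset.sum_add_distrib]
            apply Finset.sum_congr rfl
            intro d _
            ring
          rw [h2]
          have h3 : ∑ d ∈ S, p d = 1 - r := by linarith
          rw [h3]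
          have := mul_le_mul_of_nonneg_right hk (sub_nonneg.2 hlogc)
          linarith
  have hmain := norep_bound w h0 h1 o lm hlm s
  rw [hprod] at hmain
  have hpoi := BDb_poisson δ hδ hδ1 s hs
  have hkc : k' * c = (1 - ρ) * lm := by
    rw [hc, hlmdef]; field_simp
  have hfin : lm * r + (k' * (Real.log (1 + c) - c / (1 + c)) + lm * (1 - r) / (1 + c)) ≤
      lm + -(k' * (c ^ 2 / 2 - c ^ 3 / 3)) := by
    have hc1 : 0 < 1 + c := by linarith
    have h2 := BDb_log c hc0
    have h3 : lm * (1 - r) / (1 + c) = lm * (1 - r) - lm * (1 - r) * (c / (1 + c)) := by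
      field_simp; ring
    have h4 : k' * c ≤ lm * (1 - r) := by
      rw [hkc]
      have := mul_le_mul_of_nonneg_left (by linarith : 1 - ρ ≤ 1 - r) hlm
      linarith
    have h5 : 0 ≤ c / (1 + c) := div_nonneg hc0 hc1.le
    have h6 := mul_le_mul_of_nonneg_right h4 h5
    have h7 := mul_le_mul_of_nonneg_left h2 hk0.le
    have h8 : k' * c * (c / (1 + c)) = k' * c - k' * (c / (1 + c)) := by field_simp; ring
    rw [h3]
    nlinarith
  have hexp : q * (Real.exp lm * (1 - 1 / (δ ^ 2 * s))) ≤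
      Real.exp lm * Real.exp (-(k' * (c ^ 2 / 2 - c ^ 3 / 3))) := by
    calc q * (Real.exp lm * (1 - 1 / (δ ^ 2 * s)))
        ≤ q * ∑ j ∈ range (s + 1), lm ^ j / (j.factorial : ℝ) := mul_le_mul_of_nonneg_left hpoi hq0
      _ ≤ Real.exp (lm * r) * ∏ d ∈ S, (1 + lm * p d) := hmain
      _ ≤ Real.exp (lm * r) *
          Real.exp (k' * (Real.log (1 + c) - c / (1 + c)) + lm * (1 - r) / (1 + c)) :=
            mul_le_mul_of_nonneg_left hprod2 (Real.exp_pos _).le
      _ = Real.exp (lm * r + (k' * (Real.log (1 + c) - c / (1 + c)) + lm * (1 - r) / (1 + c))) := by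
          rw [← Real.exp_add]
      _ ≤ Real.exp (lm + -(k' * (c ^ 2 / 2 - c ^ 3 / 3))) := Real.exp_le_exp.2 hfin
      _ = _ := by rw [Real.exp_add]
  have hel : 0 < Real.exp lm := Real.exp_pos _
  have : Real.exp lm * (q * (1 - 1 / (δ ^ 2 * s))) ≤
      Real.exp lm * Real.exp (-(k' * (c ^ 2 / 2 - c ^ 3 / 3))) := by
    calc _ = q * (Real.exp lm * (1 - 1 / (δ ^ 2 * s))) := by ring
      _ ≤ _ := hexp
  exact le_of_mul_le_mul_left this hel

end Pool.Agent.RST
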