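import Mathlib
import Pool.Agent.Lib_helper42.RST.Defs
import Pool.Agent.Lib_helper42.RST.Stmt
import Pool.Agent.Lib_helper42.RSTF.Base
import Pool.Agent.Lib_helper42.RSTF.BDcore
import Pool.Agent.Lib_helper42.RSTF.EL1

/- block BDb proved by helper29 -/

/-!
# Block BDb of MP_864bf0_pr: `birthday` (helper29)
-/

set_option autoImplicit false
set_option linter.unusedSectionVars false

open Finset Filter

namespace Pool.Agent.RST

theorem BDb_gauss_sum (a : ℝ) (ha : 0 < a) (N : ℕ) :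
    ∑ s ∈ range N, Real.exp (-a * (s : ℝ) ^ 2) ≤ 1 + Real.sqrt (Real.pi / a) / 2 := by
  have hint : MeasureTheory.Integrable (fun x : ℝ => Real.exp (-a * x ^ 2)) :=
    integrable_exp_neg_mul_sq ha
  have hanti : AntitoneOn (fun x : ℝ => Real.exp (-a * x ^ 2)) (Set.Icc 0 (0 + (N : ℝ))) := by
    intro x hx y hy hxy
    apply Real.exp_le_exp.2
    have : x ^ 2 ≤ y ^ 2 := pow_le_pow_left₀ hx.1 hxy 2
    nlinarith
  have h1 := AntitoneOn.sum_le_integral hanti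
  have h2 : ∫ x in (0 : ℝ)..(0 + (N : ℝ)), Real.exp (-a * x ^ 2) ≤ Real.sqrt (Real.pi / a) / 2 := by
    rw [← integral_gaussian_Ioi a, intervalIntegral.integral_of_le (by positivity)]
    apply MeasureTheory.setIntegral_mono_set
    · exact hint.integrableOn
    · exact Filter.Eventually.of_forall (fun x => (Real.exp_pos _).le)
    · exact Filter.Eventually.of_forall (fun x hx => hx.1)
  calc ∑ s ∈ range N, Real.exp (-a * (s : ℝ) ^ 2)
      ≤ ∑ s ∈ range (N + 1), Real.exp (-a * (s : ℝ) ^ 2) := by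
        apply Finset.sum_le_sum_of_subset_of_nonneg (Finset.range_mono (Nat.le_succ N))
        intro i _ _; exact (Real.exp_pos _).le
    _ = ∑ i ∈ range N, Real.exp (-a * (0 + ((i + 1 : ℕ) : ℝ)) ^ 2) + 1 := by
        rw [Finset.sum_range_succ']
        simp
    _ ≤ 1 + Real.sqrt (Real.pi / a) / 2 := by linarith

/-- the thresholds -/
theorem BDb_large (δ : ℝ) (hδ : 0 < δ) (hδ1 : δ ≤ 1 / 10) : ∃ N0 : ℕ, ∀ n : ℕ, N0 ≤ n →
    1 ≤ n ∧
    Real.exp (8 / 3 / δ ^ 2 * (n : ℝ) ^ (-(1 / 5) : ℝ)) ≤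
      (1 + δ) * (1 - 1 / (δ ^ 3 * Real.sqrt n)) ∧
    (n : ℝ) * ((1 + δ) * Real.exp (-((1 - δ) ^ 4 / 2 * (n : ℝ) ^ (1 / 5 : ℝ)))) + 3 + δ ≤
      δ * Real.sqrt n ∧ δ * Real.sqrt n ≤ (n : ℝ) ^ (3 / 5 : ℝ) := by
  have hcast : Tendsto (fun n : ℕ => (n : ℝ)) atTop atTop := tendsto_natCast_atTop_atTop
  have hsqrt : Tendsto (fun n : ℕ => Real.sqrt n) atTop atTop := Real.tendsto_sqrt_atTop.comp hcast
  have hp5 : Tendsto (fun n : ℕ => (n : ℝ) ^ (1 / 5 : ℝ)) atTop atTop :=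
    (tendsto_rpow_atTop (by norm_num)).comp hcast
  have hm5 : Tendsto (fun n : ℕ => (n : ℝ) ^ (-(1 / 5) : ℝ)) atTop (nhds 0) :=
    (tendsto_rpow_neg_atTop (by norm_num)).comp hcast
  have e1 : ∀ᶠ n : ℕ in atTop, 1 ≤ n := eventually_ge_atTop 1
  have e2 : ∀ᶠ n : ℕ in atTop, Real.exp (8 / 3 / δ ^ 2 * (n : ℝ) ^ (-(1 / 5) : ℝ)) ≤
      (1 + δ) * (1 - 1 / (δ ^ 3 * Real.sqrt n)) := by
    have l1 : Tendsto (fun n : ℕ => Real.exp (8 / 3 / δ ^ 2 * (n : ℝ) ^ (-(1 / 5) : ℝ))) atTop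
        (nhds (Real.exp (8 / 3 / δ ^ 2 * 0))) :=
      (Real.continuous_exp.tendsto _).comp (hm5.const_mul _)
    have l2 : Tendsto (fun n : ℕ => (1 + δ) * (1 - 1 / (δ ^ 3 * Real.sqrt n))) atTop
        (nhds ((1 + δ) * (1 - 0))) := by
      apply Tendsto.const_mul
      apply Tendsto.const_sub
      have : Tendsto (fun n : ℕ => δ ^ 3 * Real.sqrt n) atTop atTop :=
        hsqrt.const_mul_atTop (by positivity)
      refine (tendsto_inv_atTop_zero.comp this).congr (fun n => ?_)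
      simp only [Function.comp, one_div]
    rw [mul_zero, Real.exp_zero] at l1
    rw [sub_zero, mul_one] at l2
    have h := l1.eventually_lt l2 (by linarith)
    exact h.mono (fun n hn => hn.le)
  have e3 : ∀ᶠ n : ℕ in atTop, (n : ℝ) * ((1 + δ) *
      Real.exp (-((1 - δ) ^ 4 / 2 * (n : ℝ) ^ (1 / 5 : ℝ)))) + 3 + δ ≤ δ * Real.sqrt n := by
    have hb : 0 < (1 - δ) ^ 4 / 2 := by
      have : 0 < 1 - δ := by linarith
      positivity
    -- y^5 exp(-b y) -> 0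
    have l1 : Tendsto (fun y : ℝ => y ^ 5 * Real.exp (-((1 - δ) ^ 4 / 2) * y)) atTop (nhds 0) := by
      have := Real.tendsto_pow_mul_exp_neg_atTop_nhds_zero 5
      have h2 := this.comp (tendsto_id.const_mul_atTop hb)
      have h3 : (fun y : ℝ => y ^ 5 * Real.exp (-((1 - δ) ^ 4 / 2) * y)) =
          fun y : ℝ => (((1 - δ) ^ 4 / 2) ^ 5)⁻¹ *
            (((1 - δ) ^ 4 / 2 * y) ^ 5 * Real.exp (-((1 - δ) ^ 4 / 2 * y))) := by
        funext y
        have hne : ((1 - δ) ^ 4 / 2) ^ 5 ≠ 0 := by positivity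
        rw [mul_pow]
        calc y ^ 5 * Real.exp (-((1 - δ) ^ 4 / 2) * y) =
            ((((1 - δ) ^ 4 / 2) ^ 5)⁻¹ * ((1 - δ) ^ 4 / 2) ^ 5) * (y ^ 5 *
              Real.exp (-((1 - δ) ^ 4 / 2) * y)) := by rw [inv_mul_cancel₀ hne, one_mul]
          _ = _ := by rw [neg_mul]; ring
      rw [h3]
      have h4 := h2.const_mul ((((1 - δ) ^ 4 / 2) ^ 5)⁻¹)
      simpa using h4
    have l2 := l1.comp hp5
    have l3 : ∀ᶠ n : ℕ in atTop, ((n : ℝ) ^ (1 / 5 : ℝ)) ^ 5 *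
        Real.exp (-((1 - δ) ^ 4 / 2) * (n : ℝ) ^ (1 / 5 : ℝ)) < 1 :=
      l2.eventually_lt_const (by norm_num)
    have l4 : ∀ᶠ n : ℕ in atTop, 6 / δ ≤ Real.sqrt n := hsqrt.eventually_ge_atTop _
    filter_upwards [l3, l4] with n h3 h4
    have h5 : ((n : ℝ) ^ (1 / 5 : ℝ)) ^ 5 = n := by
      rw [← Real.rpow_natCast, ← Real.rpow_mul (by positivity)]
      norm_num
    rw [h5] at h3
    have h6 : (n : ℝ) * ((1 + δ) * Real.exp (-((1 - δ) ^ 4 / 2 * (n : ℝ) ^ (1 / 5 : ℝ)))) =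
        (1 + δ) * ((n : ℝ) * Real.exp (-((1 - δ) ^ 4 / 2) * (n : ℝ) ^ (1 / 5 : ℝ))) := by
      rw [neg_mul]; ring
    rw [h6]
    have h7 : 6 ≤ δ * Real.sqrt n := by
      rw [div_le_iff₀ hδ] at h4; linarith
    nlinarith
  have e4 : ∀ᶠ n : ℕ in atTop, δ * Real.sqrt n ≤ (n : ℝ) ^ (3 / 5 : ℝ) := by
    filter_upwards [e1] with n hn
    have hn1 : (1 : ℝ) ≤ n := by exact_mod_cast hn
    have h2 : Real.sqrt n ≤ (n : ℝ) ^ (3 / 5 : ℝ) := by
      rw [Real.sqrt_eq_rpow]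
      exact Real.rpow_le_rpow_of_exponent_le hn1 (by norm_num)
    have h3 : 0 ≤ Real.sqrt n := Real.sqrt_nonneg _
    nlinarith
  obtain ⟨N0, hN0⟩ := eventually_atTop.1 (e1.and (e2.and (e3.and e4)))
  exact ⟨N0, fun n hn => hN0 n hn⟩

theorem birthday : ∀ δ : ℝ, 0 < δ → δ ≤ 1 / 10 → ∃ N0 : ℕ, ∀ n : ℕ, N0 ≤ n →
    ∀ k' : ℝ, δ * n ≤ k' → k' ≤ n → ∃ f : ℕ → ℝ, (∀ s, 0 ≤ f s) ∧
    (∀ S0 : ℕ, S0 ≤ n → ∑ s ∈ range S0, f s ≤
      (1 + 8 * δ) * Real.sqrt (Real.pi * k' / 2) + 2 * δ * Real.sqrt n) ∧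
    ∀ (Ω D : Type) [Fintype Ω] [Fintype D] [DecidableEq D] (w : Ω → ℝ) (_ : ∀ T, 0 ≤ w T)
    (_ : ∑ T, w T = 1) (o : Ω → Option D) (S : Finset D) (_ : ∀ T d, o T = some d → d ∈ S)
    (_ : (S.card : ℝ) ≤ k') (_ : ∑ T, w T * ind (o T = none) ≤ δ) (s : ℕ),
    EL w s (fun k => ind ((k.filterMap o).Nodup)) ≤ f s := by
  intro δ hδ hδ1
  obtain ⟨N0, hN0⟩ := BDb_large δ hδ hδ1
  refine ⟨N0, ?_⟩
  intro n hn k' hk1 hk2
  obtain ⟨hn1, hL1, hL2, hL3⟩ := hN0 n hn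
  have hn1' : (1 : ℝ) ≤ n := by exact_mod_cast hn1
  have hnpos : (0 : ℝ) < n := by linarith
  have hk0 : 0 < k' := lt_of_lt_of_le (by positivity) hk1
  set R := Real.sqrt n with hR
  have hR2 : R * R = n := Real.mul_self_sqrt hnpos.le
  have hR0 : 0 < R := Real.sqrt_pos.2 hnpos
  set a : ℝ := (1 - δ) ^ 4 / (2 * k') with ha
  have hδ' : 0 < 1 - δ := by linarith
  have ha0 : 0 < a := by positivity
  set P := (n : ℝ) ^ (3 / 5 : ℝ) with hP
  have hP1 : 1 ≤ P := Real.one_le_rpow hn1' (by norm_num)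
  set E : ℝ := (1 + δ) * Real.exp (-((1 - δ) ^ 4 / 2 * (n : ℝ) ^ (1 / 5 : ℝ))) with hE
  have hE0 : 0 ≤ E := by positivity
  refine ⟨fun s => (if s < ⌈δ * R⌉₊ then 1 else 0) + (1 + δ) * Real.exp (-a * (s : ℝ) ^ 2) + E,
    ?_, ?_, ?_⟩
  · intro s
    have hx : 0 ≤ (1 + δ) * Real.exp (-a * (s : ℝ) ^ 2) := by positivity
    simp only
    split_ifs <;> linarith
  · intro S0 hS0
    have hsum : ∑ s ∈ range S0, ((if s < ⌈δ * R⌉₊ then (1:ℝ) else 0) +
          (1 + δ) * Real.exp (-a * (s : ℝ) ^ 2) + E) ≤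
          (δ * R + 1) + (1 + δ) * (1 + Real.sqrt (Real.pi / a) / 2) + n * E := by
      calc ∑ s ∈ range S0, ((if s < ⌈δ * R⌉₊ then (1:ℝ) else 0) +
            (1 + δ) * Real.exp (-a * (s : ℝ) ^ 2) + E)
          = ∑ s ∈ range S0, (if s < ⌈δ * R⌉₊ then (1:ℝ) else 0) +
            (1 + δ) * ∑ s ∈ range S0, Real.exp (-a * (s : ℝ) ^ 2) + S0 * E := by
            rw [Finset.sum_add_distrib, Finset.sum_add_distrib, Finset.mul_sum, Finset.sum_const,
              Finset.card_range, nsmul_eq_mul]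
        _ ≤ _ := by
            have t1 : ∑ s ∈ range S0, (if s < ⌈δ * R⌉₊ then (1:ℝ) else 0) ≤ δ * R + 1 := by
              rw [Finset.sum_ite, Finset.sum_const_zero, add_zero, Finset.sum_const, nsmul_eq_mul,
                mul_one]
              have : (filter (fun s => s < ⌈δ * R⌉₊) (range S0)).card ≤ ⌈δ * R⌉₊ := by
                calc _ ≤ (range ⌈δ * R⌉₊).card := by
                      apply Finset.card_le_card
                      intro s hs
                      exact Finset.mem_range.2 (Finset.mem_filter.1 hs).2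
                  _ = _ := Finset.card_range _
              have h2 : ((filter (fun s => s < ⌈δ * R⌉₊) (range S0)).card : ℝ) ≤ (⌈δ * R⌉₊ : ℝ) := by
                exact_mod_cast this
              have h3 : (⌈δ * R⌉₊ : ℝ) < δ * R + 1 := Nat.ceil_lt_add_one (by positivity)
              linarith
            have t2 := mul_le_mul_of_nonneg_left (BDb_gauss_sum a ha0 S0) (by linarith : 0 ≤ 1 + δ)
            have t3 : (S0 : ℝ) * E ≤ n * E :=
              mul_le_mul_of_nonneg_right (by exact_mod_cast hS0) hE0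
            linarith
    have hgauss : Real.sqrt (Real.pi / a) / 2 = Real.sqrt (Real.pi * k' / 2) / (1 - δ) ^ 2 := by
      have h2 : Real.pi / a = (Real.pi * k' / 2) * (2 / (1 - δ) ^ 2) ^ 2 := by
        rw [ha]; field_simp
      rw [h2, Real.sqrt_mul (by positivity), Real.sqrt_sq (by positivity)]
      field_simp
    rw [hgauss] at hsum
    set G := Real.sqrt (Real.pi * k' / 2) with hG
    have hG0 : 0 ≤ G := Real.sqrt_nonneg _
    have hfac : (1 + δ) / (1 - δ) ^ 2 ≤ 1 + 8 * δ := by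
      rw [div_le_iff₀ (by positivity)]
      nlinarith [mul_pos hδ hδ, mul_pos (mul_pos hδ hδ) hδ]
    have hfin : (1 + δ) * (G / (1 - δ) ^ 2) ≤ (1 + 8 * δ) * G := by
      have := mul_le_mul_of_nonneg_right hfac hG0
      calc (1 + δ) * (G / (1 - δ) ^ 2) = (1 + δ) / (1 - δ) ^ 2 * G := by ring
        _ ≤ _ := this
    have hlast : (n : ℝ) * E + 3 + δ ≤ δ * R := hL2
    refine le_trans hsum ?_
    nlinarith
  · intro Ω D _ _ _ w h0 h1 o S hS hSk hr
    set q : ℕ → ℝ := fun s => EL w s (fun k => ind ((k.filterMap o).Nodup)) with hq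
    have hq0 : ∀ s, 0 ≤ q s := fun s => EL_nonneg w h0 s _ (fun l _ => ind_nonneg _)
    have hq1 : ∀ s, q s ≤ 1 := by
      intro s
      have := EL_mono w h0 s (fun k => ind ((k.filterMap o).Nodup)) (fun _ => 1)
        (fun l _ => ind_le_one _)
      rwa [EL_const w h1] at this
    -- middle range
    have hmid : ∀ s : ℕ, δ * R ≤ s → (s : ℝ) ≤ 2 * P → q s ≤ (1 + δ) * Real.exp (-a * (s : ℝ) ^ 2) := by
      intro s hs1 hs2
      have hspos : (0 : ℝ) < s := lt_of_lt_of_le (by positivity) hs1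
      have hs : 1 ≤ s := by
        have : 0 < s := by exact_mod_cast hspos
        omega
      have hcore := BDb_core w h0 h1 o S k' hS hSk hk0 δ δ hδ (by linarith) (by linarith) hr s hs
      change q s * (1 - 1 / (δ ^ 2 * s)) ≤ _ at hcore
      set c : ℝ := (1 - δ) * (1 - δ) * s / k' with hc
      have hA : 1 - 1 / (δ ^ 3 * R) ≤ 1 - 1 / (δ ^ 2 * s) := by
        have : 1 / (δ ^ 2 * s) ≤ 1 / (δ ^ 3 * R) := by
          apply one_div_le_one_div_of_le (by positivity)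
          calc δ ^ 3 * R = δ ^ 2 * (δ * R) := by ring
            _ ≤ δ ^ 2 * s := mul_le_mul_of_nonneg_left hs1 (by positivity)
        linarith
      have hApos : 0 < 1 - 1 / (δ ^ 3 * R) := by
        have : 0 < (1 + δ) * (1 - 1 / (δ ^ 3 * R)) := lt_of_lt_of_le (Real.exp_pos _) hL1
        exact (mul_pos_iff_of_pos_left (by linarith : (0:ℝ) < 1 + δ)).1 this
      have hB : -(k' * (c ^ 2 / 2 - c ^ 3 / 3)) ≤ -a * (s : ℝ) ^ 2 +
          8 / 3 / δ ^ 2 * (n : ℝ) ^ (-(1 / 5) : ℝ) := by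
        have h2 : k' * (c ^ 2 / 2) = a * (s : ℝ) ^ 2 := by
          rw [hc, ha]; field_simp
        have h3 : k' * (c ^ 3 / 3) ≤ 8 / 3 / δ ^ 2 * (n : ℝ) ^ (-(1 / 5) : ℝ) := by
          have hs3 : (s : ℝ) ^ 3 ≤ 8 * P ^ 3 := by
            calc (s : ℝ) ^ 3 ≤ (2 * P) ^ 3 := pow_le_pow_left₀ hspos.le hs2 3
              _ = 8 * P ^ 3 := by ring
          have hP3 : P ^ 3 = (n : ℝ) ^ (-(1 / 5) : ℝ) * (n : ℝ) ^ 2 := by
            rw [hP, ← Real.rpow_natCast, ← Real.rpow_natCast, ← Real.rpow_mul hnpos.le,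
              ← Real.rpow_add hnpos]
            norm_num
          have h4 : k' * (c ^ 3 / 3) = ((1 - δ) * (1 - δ)) ^ 3 * (s : ℝ) ^ 3 / (3 * k' ^ 2) := by
            rw [hc]; field_simp
          have h5 : ((1 - δ) * (1 - δ)) ^ 3 ≤ 1 := by
            apply pow_le_one₀ (by positivity)
            nlinarith
          have h6 : ((1 - δ) * (1 - δ)) ^ 3 * (s : ℝ) ^ 3 ≤ 1 * (8 * P ^ 3) :=
            mul_le_mul h5 hs3 (by positivity) (by norm_num)
          have h7 : (δ * n) ^ 2 ≤ k' ^ 2 := pow_le_pow_left₀ (by positivity) hk1 2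
          rw [h4, div_le_iff₀ (by positivity)]
          have h8 : 8 / 3 / δ ^ 2 * (n : ℝ) ^ (-(1 / 5) : ℝ) * (3 * (δ * n) ^ 2) =
              8 * ((n : ℝ) ^ (-(1 / 5) : ℝ) * (n : ℝ) ^ 2) := by
            field_simp
          have h9 : 8 / 3 / δ ^ 2 * (n : ℝ) ^ (-(1 / 5) : ℝ) * (3 * (δ * n) ^ 2) ≤
              8 / 3 / δ ^ 2 * (n : ℝ) ^ (-(1 / 5) : ℝ) * (3 * k' ^ 2) := by
            apply mul_le_mul_of_nonneg_left _ (by positivity)
            linarith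
          rw [h8, ← hP3] at h9
          linarith
        have h4 : -(k' * (c ^ 2 / 2 - c ^ 3 / 3)) = -(k' * (c ^ 2 / 2)) + k' * (c ^ 3 / 3) := by ring
        rw [h4, h2]
        linarith
      have hC : q s * (1 - 1 / (δ ^ 3 * R)) ≤
          Real.exp (-a * (s : ℝ) ^ 2) * ((1 + δ) * (1 - 1 / (δ ^ 3 * R))) := by
        calc q s * (1 - 1 / (δ ^ 3 * R)) ≤ q s * (1 - 1 / (δ ^ 2 * s)) :=
              mul_le_mul_of_nonneg_left hA (hq0 s)
          _ ≤ Real.exp (-(k' * (c ^ 2 / 2 - c ^ 3 / 3))) := hcore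
          _ ≤ Real.exp (-a * (s : ℝ) ^ 2 + 8 / 3 / δ ^ 2 * (n : ℝ) ^ (-(1 / 5) : ℝ)) :=
              Real.exp_le_exp.2 hB
          _ = Real.exp (-a * (s : ℝ) ^ 2) * Real.exp (8 / 3 / δ ^ 2 * (n : ℝ) ^ (-(1 / 5) : ℝ)) :=
              Real.exp_add _ _
          _ ≤ _ := mul_le_mul_of_nonneg_left hL1 (Real.exp_pos _).le
      have hD : q s * (1 - 1 / (δ ^ 3 * R)) ≤
          ((1 + δ) * Real.exp (-a * (s : ℝ) ^ 2)) * (1 - 1 / (δ ^ 3 * R)) := by
        calc _ ≤ _ := hC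
          _ = _ := by ring
      exact le_of_mul_le_mul_right hD hApos
    -- the threshold index
    set s1 := ⌈P⌉₊ with hs1
    have hs1a : P ≤ s1 := Nat.le_ceil _
    have hs1b : (s1 : ℝ) ≤ 2 * P := by
      have := Nat.ceil_lt_add_one (by linarith : 0 ≤ P)
      linarith
    have hq_s1 : q s1 ≤ E := by
      rw [hE]
      refine le_trans (hmid s1 (hL3.trans hs1a) hs1b) ?_
      apply mul_le_mul_of_nonneg_left _ (by linarith)
      apply Real.exp_le_exp.2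
      have hPP : P ^ 2 = (n : ℝ) ^ (1 / 5 : ℝ) * n := by
        rw [hP, ← Real.rpow_natCast, ← Real.rpow_mul hnpos.le]
        nth_rw 3 [← Real.rpow_one (n : ℝ)]
        rw [← Real.rpow_add hnpos]
        norm_num
      have h2 : P ^ 2 ≤ (s1 : ℝ) ^ 2 := pow_le_pow_left₀ (by linarith) hs1a 2
      have h3 : (1 - δ) ^ 4 / (2 * (n : ℝ)) ≤ a := by
        rw [ha]
        apply div_le_div_of_nonneg_left (by positivity) (by positivity)
        linarith
      have h4 : (1 - δ) ^ 4 / (2 * (n : ℝ)) * P ^ 2 ≤ a * (s1 : ℝ) ^ 2 :=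
        mul_le_mul h3 h2 (by positivity) ha0.le
      have h5 : (1 - δ) ^ 4 / (2 * (n : ℝ)) * P ^ 2 = (1 - δ) ^ 4 / 2 * (n : ℝ) ^ (1 / 5 : ℝ) := by
        rw [hPP]; field_simp
      rw [h5] at h4
      linarith
    -- pointwise bound
    have hpt : ∀ s : ℕ, q s ≤ (if s < ⌈δ * R⌉₊ then 1 else 0) + (1 + δ) * Real.exp (-a * (s : ℝ) ^ 2) + E := by
      intro s
      have hx : 0 ≤ (1 + δ) * Real.exp (-a * (s : ℝ) ^ 2) := by positivity
      split_ifs with hs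
      · have := hq1 s; linarith
      · have hs2 : δ * R ≤ s := by
          have : ⌈δ * R⌉₊ ≤ s := not_lt.1 hs
          exact Nat.ceil_le.1 this
        by_cases hs3 : (s : ℝ) ≤ 2 * P
        · have := hmid s hs2 hs3; linarith
        · have h2 : s1 ≤ s := by
            have : (s1 : ℝ) ≤ s := by linarith [not_le.1 hs3]
            exact_mod_cast this
          have h3 : q s ≤ q s1 := BDa_anti w h0 h1 o h2
          linarith
    exact hpt

example : @birthday = @birthday := rfl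

end Pool.Agent.RST
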