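import Mathlib
import Pool.Agent.Lib_helper42.RST.Defs
import Pool.Agent.Lib_helper42.RST.Stmt
import Pool.Agent.Lib_helper42.RSTF.Base
import Pool.Agent.Lib_helper42.RSTF.BDcore
import Pool.Agent.Lib_helper42.RSTF.EL1

/- block BDc proved by helper29 -/

/-!
# Block BDc of MP_864bf0_pr: `birthday_tail` (helper29)
-/

set_option autoImplicit false
set_option linter.unusedSectionVars false

open Finset

namespace Pool.Agent.RST

theorem birthday_tail : ∀ K0 : ℝ, 1 ≤ K0 → ∃ N0 : ℕ, ∀ n : ℕ, N0 ≤ n →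
    ∀ (Ω D : Type) [Fintype Ω] [Fintype D] [DecidableEq D] (w : Ω → ℝ) (_ : ∀ T, 0 ≤ w T)
    (_ : ∑ T, w T = 1) (o : Ω → Option D) (_ : (Fintype.card D : ℝ) ≤ n)
    (_ : ∑ T, w T * ind (o T = none) ≤ 1 / 10) (s : ℕ) (_ : K0 * Real.sqrt n ≤ s),
    EL w s (fun k => ind ((k.filterMap o).Nodup)) ≤ 2 * Real.exp (-K0 ^ 2 / 8) := by
  intro K0 hK0
  refine ⟨⌈(1000 * K0) ^ 2⌉₊ + 1, ?_⟩
  intro n hn Ω D _ _ _ w h0 h1 o hD hr s hs
  have hn' : (1000 * K0) ^ 2 ≤ (n : ℝ) := by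
    have h2 : (1000 * K0) ^ 2 ≤ ⌈(1000 * K0) ^ 2⌉₊ := Nat.le_ceil _
    have h3 : ((⌈(1000 * K0) ^ 2⌉₊ : ℕ) : ℝ) ≤ n := by exact_mod_cast (Nat.le_succ _).trans hn
    linarith
  have hnpos : (0 : ℝ) < n := lt_of_lt_of_le (by positivity) hn'
  set R := Real.sqrt n with hR
  have hR2 : R * R = n := Real.mul_self_sqrt hnpos.le
  have hR0 : 0 < R := Real.sqrt_pos.2 hnpos
  have hRK : 1000 * K0 ≤ R := by
    rw [hR]; exact Real.le_sqrt_of_sq_le hn'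
  set s1 := ⌈K0 * R⌉₊ with hs1
  have hs1a : K0 * R ≤ s1 := Nat.le_ceil _
  have hKR : 0 ≤ K0 * R := by positivity
  have hs1b : (s1 : ℝ) < K0 * R + 1 := Nat.ceil_lt_add_one hKR
  have hs1s : s1 ≤ s := Nat.ceil_le.2 hs
  have hs1c : (1000 : ℝ) ≤ s1 := by nlinarith
  have hs1d : 1 ≤ s1 := by
    have : (1 : ℝ) ≤ s1 := by linarith
    exact_mod_cast this
  refine le_trans (BDa_anti w h0 h1 o hs1s) ?_
  have hcore := BDb_core w h0 h1 o Finset.univ n (fun T d _ => Finset.mem_univ d)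
    (by rw [Finset.card_univ]; exact hD) hnpos (1 / 10) (1 / 10) (by norm_num) (by norm_num)
    (by norm_num) hr s1 hs1d
  set q := EL w s1 (fun k => ind ((k.filterMap o).Nodup)) with hq
  have hq0 : 0 ≤ q := EL_nonneg w h0 s1 _ (fun l _ => ind_nonneg _)
  have hhalf : (1 : ℝ) / 2 ≤ 1 - 1 / ((1 / 10) ^ 2 * (s1 : ℝ)) := by
    have : 1 / ((1 / 10) ^ 2 * (s1 : ℝ)) ≤ 1 / 2 := by
      apply one_div_le_one_div_of_le (by norm_num)
      nlinarith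
    linarith
  have h2 : q * (1 / 2) ≤ Real.exp (-((n : ℝ) * (((1 - 1 / 10) * (1 - 1 / 10) * (s1 : ℝ) / n) ^ 2 / 2 -
        ((1 - 1 / 10) * (1 - 1 / 10) * (s1 : ℝ) / n) ^ 3 / 3))) :=
    le_trans (mul_le_mul_of_nonneg_left hhalf hq0) hcore
  have h3 : Real.exp (-((n : ℝ) * (((1 - 1 / 10) * (1 - 1 / 10) * (s1 : ℝ) / n) ^ 2 / 2 -
        ((1 - 1 / 10) * (1 - 1 / 10) * (s1 : ℝ) / n) ^ 3 / 3))) ≤ Real.exp (-K0 ^ 2 / 8) := by
    apply Real.exp_le_exp.2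
    set x : ℝ := (s1 : ℝ) / R with hx
    have hx1 : K0 ≤ x := by rw [hx, le_div_iff₀ hR0]; exact hs1a
    have hx2 : x ≤ 2 * K0 := by
      rw [hx, div_le_iff₀ hR0]
      nlinarith
    have hs1x : (s1 : ℝ) = x * R := by rw [hx]; field_simp
    have h4 : (n : ℝ) * (((1 - 1 / 10) * (1 - 1 / 10) * (s1 : ℝ) / n) ^ 2 / 2 -
        ((1 - 1 / 10) * (1 - 1 / 10) * (s1 : ℝ) / n) ^ 3 / 3) =
        (81 / 100) ^ 2 * x ^ 2 / 2 - (81 / 100) ^ 3 * x ^ 3 / R / 3 := by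
      rw [hs1x, ← hR2]
      field_simp
      ring
    rw [h4]
    have h5 : x ^ 3 / R ≤ x ^ 2 * (1 / 500) := by
      rw [div_le_iff₀ hR0]
      have : x * 500 ≤ R := by linarith
      nlinarith [sq_nonneg x]
    have h6 : K0 ^ 2 ≤ x ^ 2 := by nlinarith
    have h7 : (81 / 100 : ℝ) ^ 3 * x ^ 3 / R / 3 = (81 / 100 : ℝ) ^ 3 / 3 * (x ^ 3 / R) := by ring
    rw [h7]
    nlinarith [sq_nonneg x]
  linarith

example : @birthday_tail = @birthday_tail := rfl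

end Pool.Agent.RST
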