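import Mathlib
import Pool.Agent.Lib_helper42.RST.Defs
import Pool.Agent.Lib_helper42.RST.Stmt
import Pool.Agent.Lib_helper42.RSTF.Base
import Pool.Agent.Lib_helper42.RSTF.EL1
import Pool.Agent.Lib_helper42.RSTF.PR
import Pool.Agent.Lib_helper42.RSTF.RW

/- block CALC proved by helper5 -/

set_option autoImplicit false
set_option linter.unusedSectionVars false

open Finset

namespace Pool.Agent.RST

section CALCblock
variable {V Ω : Type} [Fintype Ω] [Fintype V] [DecidableEq V]

theorem calc_cost_le_length (M : Mdl V Ω) (l : List Ω) (x : V) (A : Finset V) :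
    cost M l x A ≤ l.length := Nat.sInf_le (Or.inr rfl)

theorem calc_cost_le (M : Mdl V Ω) (l : List Ω) (x y : V) (A B : Finset V) (t : ℕ)
    (h : Wlk M (l.take t) x y B) (hAB : A ∪ B = univ) : cost M l x A ≤ t :=
  Nat.sInf_le (Or.inl ⟨y, B, h, hAB⟩)

theorem calc_cost_spec (M : Mdl V Ω) (l : List Ω) (x : V) (A : Finset V) :
    (∃ y B, Wlk M (l.take (cost M l x A)) x y B ∧ A ∪ B = univ) ∨ cost M l x A = l.length := by
  have h := Nat.sInf_mem (s := {t | ∃ y B, Wlk M (l.take t) x y B ∧ A ∪ B = Finset.univ} ∪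
    {l.length}) ⟨l.length, Or.inr rfl⟩
  rcases h with h | h
  · exact Or.inl h
  · exact Or.inr h

theorem calc_cost_prefix (M : Mdl V Ω) (l1 l2 : List Ω) (x : V) (A : Finset V) :
    cost M l1 x A ≤ cost M (l1 ++ l2) x A := by
  rcases calc_cost_spec M (l1 ++ l2) x A with ⟨y, B, h, hAB⟩ | h
  · by_cases hc : cost M (l1 ++ l2) x A ≤ l1.length
    · rw [List.take_append_of_le_length hc] at h
      exact calc_cost_le M l1 x y A B _ h hAB
    · exact (calc_cost_le_length M l1 x A).trans (by omega)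
  · rw [h]
    refine (calc_cost_le_length M l1 x A).trans ?_
    simp

theorem calc_cost_append (M : Mdl V Ω) (l1 l2 : List Ω) (x y : V) (A B : Finset V)
    (h : Wlk M l1 x y B) : cost M (l1 ++ l2) x A ≤ l1.length + cost M l2 y (A ∪ B) := by
  rcases calc_cost_spec M l2 y (A ∪ B) with ⟨y', B', h', hAB⟩ | h'
  · refine calc_cost_le M (l1 ++ l2) x y' A (B ∪ B') _ ?_ ?_
    · rw [List.take_length_add_append]
      exact Wlk_append M h h'
    · rw [← Finset.union_assoc]; exact hAB
  · rw [h']
    refine (calc_cost_le_length M (l1 ++ l2) x A).trans ?_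
    simp

theorem calc_cost_anti (M : Mdl V Ω) (l : List Ω) (x : V) (A B : Finset V) (h : A ⊆ B) :
    cost M l x B ≤ cost M l x A := by
  rcases calc_cost_spec M l x A with ⟨y, C, hw, hAB⟩ | h'
  · refine calc_cost_le M l x y B C _ hw ?_
    rw [Finset.eq_univ_iff_forall] at hAB ⊢
    intro v
    have := hAB v
    rw [Finset.mem_union] at this ⊢
    exact this.imp (fun hv => h hv) id
  · rw [h']
    exact calc_cost_le_length M l x B

theorem calc_cost_here (M : Mdl V Ω) (l : List Ω) (x : V) (A : Finset V) :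
    cost M l x A ≤ cost M l x (insert x A) := by
  rcases calc_cost_spec M l x (insert x A) with ⟨y, C, hw, hAB⟩ | h'
  · refine calc_cost_le M l x y A (insert x (insert y C)) _ (Wlk_ends M hw) ?_
    rw [Finset.eq_univ_iff_forall] at hAB ⊢
    intro v
    have := hAB v
    simp only [Finset.mem_union, Finset.mem_insert] at this ⊢
    tauto
  · rw [h']
    exact calc_cost_le_length M l x A

theorem calc_cost_full (M : Mdl V Ω) (l : List Ω) (x : V) :
    cost M l x Finset.univ = 0 := by
  refine Nat.le_zero.mp (calc_cost_le M l x x Finset.univ ∅ 0 ?_ ?_)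
  · simp [Wlk]
  · simp

theorem calc_exp_le (lam : ℝ) (hlam : 0 ≤ lam) {a b : ℕ} (h : a ≤ b) :
    Real.exp (lam * a) ≤ Real.exp (lam * b) := by
  apply Real.exp_le_exp.mpr
  exact mul_le_mul_of_nonneg_left (by exact_mod_cast h) hlam

theorem calc_one_le (M : Mdl V Ω) (lam : ℝ) (hlam : 0 ≤ lam) (N : ℕ) (x : V) (A : Finset V) :
    1 ≤ Phi M lam N x A := by
  have h := EL_mono M.w M.w0 N (fun _ => (1 : ℝ)) (fun l => Real.exp (lam * cost M l x A))
    (fun l _ => Real.one_le_exp (by positivity))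
  rw [EL_const M.w M.w1] at h
  exact h

theorem calc_Phi_mono_N (M : Mdl V Ω) (lam : ℝ) (hlam : 0 ≤ lam) {N' N : ℕ} (h : N' ≤ N) (x : V)
    (A : Finset V) : Phi M lam N' x A ≤ Phi M lam N x A := by
  obtain ⟨k, rfl⟩ := Nat.exists_eq_add_of_le h
  unfold Phi
  rw [EL_append]
  refine EL_mono M.w M.w0 N' _ _ (fun l1 _ => ?_)
  have h2 := EL_mono M.w M.w0 k (fun _ => Real.exp (lam * cost M l1 x A))
    (fun l2 => Real.exp (lam * cost M (l1 ++ l2) x A))
    (fun l2 _ => calc_exp_le lam hlam (calc_cost_prefix M l1 l2 x A))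
  rw [EL_const M.w M.w1] at h2
  exact h2

/-- cost after a walk: bound of the conditional expectation -/
theorem calc_after (M : Mdl V Ω) (lam : ℝ) (hlam : 0 ≤ lam) (N k : ℕ) (hk : k ≤ N) (l1 : List Ω)
    (x y : V) (A B : Finset V) (h : Wlk M l1 x y B) :
    EL M.w k (fun l2 => Real.exp (lam * cost M (l1 ++ l2) x A)) ≤
      Real.exp (lam * l1.length) * Phi M lam N y (A ∪ B) := by
  refine le_trans ?_ (mul_le_mul_of_nonneg_left (calc_Phi_mono_N M lam hlam hk y (A ∪ B))
    (Real.exp_pos _).le)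
  unfold Phi
  rw [← EL_smul]
  refine EL_mono M.w M.w0 k _ _ (fun l2 _ => ?_)
  rw [← Real.exp_add, ← mul_add]
  apply Real.exp_le_exp.mpr
  refine mul_le_mul_of_nonneg_left ?_ hlam
  exact_mod_cast calc_cost_append M l1 l2 x y A B h

theorem calc_win (M : Mdl V Ω) (lam : ℝ) (hlam : 0 ≤ lam) (N : ℕ) (x : V) (A : Finset V) (S : ℕ)
    (y : List Ω → V) (B : List Ω → Finset V)
    (hw : ∀ l, l.length = S → Wlk M l x (y l) (B l)) :
    Phi M lam N x A ≤ Real.exp (lam * S) *
      EL M.w S (fun l => Phi M lam N (y l) (A ∪ B l)) := by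
  by_cases hS : S ≤ N
  · obtain ⟨k, rfl⟩ := Nat.exists_eq_add_of_le hS
    conv_lhs => unfold Phi
    rw [EL_append, ← EL_smul]
    refine EL_mono M.w M.w0 S _ _ (fun l1 hl1 => ?_)
    have := calc_after M lam hlam (S + k) k (by omega) l1 x (y l1) A (B l1) (hw l1 hl1)
    rw [hl1] at this
    exact this
  · have h1 : Phi M lam N x A ≤ Real.exp (lam * S) := by
      have h := EL_mono M.w M.w0 N (fun l => Real.exp (lam * cost M l x A))
        (fun _ => Real.exp (lam * S)) (fun l hl => calc_exp_le lam hlam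
          ((calc_cost_le_length M l x A).trans (by omega)))
      rw [EL_const M.w M.w1] at h
      exact h
    have h2 : 1 ≤ EL M.w S (fun l => Phi M lam N (y l) (A ∪ B l)) := by
      have h := EL_mono M.w M.w0 S (fun _ => (1 : ℝ))
        (fun l => Phi M lam N (y l) (A ∪ B l)) (fun l _ => calc_one_le M lam hlam N _ _)
      rw [EL_const M.w M.w1] at h
      exact h
    calc Phi M lam N x A ≤ Real.exp (lam * S) * 1 := by rw [mul_one]; exact h1
      _ ≤ _ := mul_le_mul_of_nonneg_left h2 (Real.exp_pos _).le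

/-- the set `W` has not been reached -/
def calcNR (M : Mdl V Ω) (x : V) (W : Set V) (l : List Ω) : Prop := ¬ ∃ y ∈ W, Reach M l x y

theorem calcNR_append (M : Mdl V Ω) (x : V) (W : Set V) (l1 l2 : List Ω)
    (h : calcNR M x W (l1 ++ l2)) : calcNR M x W l1 := by
  intro hr
  obtain ⟨y, hy, hr⟩ := hr
  exact h ⟨y, hy, (Reach_append M l1 l2 x y).mpr ⟨y, hr, Reach_refl M l2 y⟩⟩

theorem calc_H (M : Mdl V Ω) (x : V) (W : Set V) (s : ℕ) :
    1 - pr M s x W = EL M.w s (fun l => ind (calcNR M x W l)) := by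
  unfold pr calcNR
  rw [EL_ind_not M.w M.w1]

/-- expectation over the not yet reached part -/
noncomputable def calcQ (M : Mdl V Ω) (lam : ℝ) (N : ℕ) (x : V) (A : Finset V) (W : Set V)
    (s : ℕ) : ℝ :=
  EL M.w s (fun l0 => ind (calcNR M x W l0) *
    EL M.w (N - s) (fun l => Real.exp (lam * cost M (l0 ++ l) x A)))

theorem calcQ_zero (M : Mdl V Ω) (lam : ℝ) (N : ℕ) (x : V) (A : Finset V) (W : Set V)
    (hx : x ∉ W) : calcQ M lam N x A W 0 = Phi M lam N x A := by
  have h : calcNR M x W [] := by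
    rintro ⟨y, hy, hr⟩
    have : x = y := hr
    exact hx (this ▸ hy)
  unfold calcQ Phi
  simp [EL, ind_true h]

theorem calc_EL_sub {Ω : Type} [Fintype Ω] (w : Ω → ℝ) (s : ℕ) (f g : List Ω → ℝ) :
    EL w s (fun l => f l - g l) = EL w s f - EL w s g := by
  have h := EL_add w s f (fun l => (-1) * g l)
  rw [EL_smul] at h
  rw [show (fun l => f l - g l) = (fun l => f l + (-1) * g l) from by funext l; ring, h]
  ring

theorem calcQ_step (M : Mdl V Ω) (lam : ℝ) (hlam : 0 ≤ lam) (N : ℕ) (x : V) (A : Finset V)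
    (W : Set V) (M0 : ℝ) (hW : ∀ u ∈ W, Phi M lam N u A ≤ M0) (s : ℕ) (hs : s < N) :
    calcQ M lam N x A W s ≤ calcQ M lam N x A W (s + 1) +
      M0 * (Real.exp (lam * (s + 1 : ℕ)) * ((1 - pr M s x W) - (1 - pr M (s + 1) x W))) := by
  obtain ⟨k, hk⟩ : ∃ k, N = s + 1 + k := Nat.exists_eq_add_of_le hs
  have hks : N - s = 1 + k := by omega
  have hks1 : N - (s + 1) = k := by omega
  -- rewrite Q s as an expectation over prefixes of length s+1
  have h1 : calcQ M lam N x A W s = EL M.w s (fun l0 => EL M.w 1 (fun l1 =>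
      ind (calcNR M x W l0) * EL M.w k (fun l => Real.exp (lam * cost M ((l0 ++ l1) ++ l) x A)))) := by
    unfold calcQ
    refine EL_congr M.w s _ _ (fun l0 _ => ?_)
    rw [hks, EL_append, ← EL_smul]
    refine EL_congr M.w 1 _ _ (fun l1 _ => ?_)
    simp only [List.append_assoc]
  have h2 : calcQ M lam N x A W (s + 1) = EL M.w s (fun l0 => EL M.w 1 (fun l1 =>
      ind (calcNR M x W (l0 ++ l1)) *
        EL M.w k (fun l => Real.exp (lam * cost M ((l0 ++ l1) ++ l) x A)))) := by
    unfold calcQ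
    rw [EL_append, hks1]
  have h3 : (1 - pr M s x W) = EL M.w s (fun l0 => EL M.w 1 (fun _ => ind (calcNR M x W l0))) := by
    rw [calc_H]
    refine EL_congr M.w s _ _ (fun l0 _ => ?_)
    rw [EL_const M.w M.w1]
  have h4 : (1 - pr M (s + 1) x W) =
      EL M.w s (fun l0 => EL M.w 1 (fun l1 => ind (calcNR M x W (l0 ++ l1)))) := by
    rw [calc_H, EL_append]
  rw [h1, h2, h3, h4]
  rw [← calc_EL_sub, ← mul_assoc, ← EL_smul, ← EL_add]
  refine EL_mono M.w M.w0 s _ _ (fun l0 hl0 => ?_)
  rw [← calc_EL_sub, ← EL_smul, ← EL_add]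
  refine EL_mono M.w M.w0 1 _ _ (fun l1 hl1 => ?_)
  by_cases hA : calcNR M x W (l0 ++ l1)
  · have hB := calcNR_append M x W l0 l1 hA
    rw [ind_true hA, ind_true hB]
    simp
  · by_cases hB : calcNR M x W l0
    · rw [ind_true hB, ind_false hA]
      unfold calcNR at hA
      push Not at hA
      obtain ⟨u, hu, hr⟩ := hA
      have hw := (Reach_iff_Wlk M (l0 ++ l1) x u).mp hr
      have h5 := calc_after M lam hlam N k (by omega) (l0 ++ l1) x u A ∅ hw
      have hlen : (l0 ++ l1).length = s + 1 := by rw [List.length_append, hl0, hl1]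
      rw [hlen, Finset.union_empty] at h5
      have h6 := hW u hu
      have h7 : Real.exp (lam * (s + 1 : ℕ)) * Phi M lam N u A ≤
          Real.exp (lam * (s + 1 : ℕ)) * M0 :=
        mul_le_mul_of_nonneg_left h6 (Real.exp_pos _).le
      calc 1 * EL M.w k (fun l => Real.exp (lam * cost M ((l0 ++ l1) ++ l) x A))
          = EL M.w k (fun l => Real.exp (lam * cost M ((l0 ++ l1) ++ l) x A)) := one_mul _
        _ ≤ Real.exp (lam * (s + 1 : ℕ)) * M0 := h5.trans h7
        _ = _ := by ring
    · rw [ind_false hA, ind_false hB]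
      simp

theorem calcQ_iter (M : Mdl V Ω) (lam : ℝ) (hlam : 0 ≤ lam) (N : ℕ) (x : V) (A : Finset V)
    (W : Set V) (M0 : ℝ) (hW : ∀ u ∈ W, Phi M lam N u A ≤ M0) (k : ℕ) (hk : k ≤ N) :
    calcQ M lam N x A W 0 ≤ calcQ M lam N x A W k +
      M0 * ∑ s ∈ range k, (Real.exp (lam * (s + 1 : ℕ)) *
        ((1 - pr M s x W) - (1 - pr M (s + 1) x W))) := by
  induction k with
  | zero => simp
  | succ k ih =>
    have h1 := ih (by omega)
    have h2 := calcQ_step M lam hlam N x A W M0 hW k (by omega)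
    rw [Finset.sum_range_succ, mul_add]
    linarith

/-- all cases: the basic inequality -/
theorem calc_basic (M : Mdl V Ω) (lam : ℝ) (hlam : 0 ≤ lam) (N : ℕ) (x : V) (A : Finset V)
    (W : Set V) (M0 : ℝ) (hM0 : 1 ≤ M0) (hW : ∀ u ∈ W, Phi M lam N u A ≤ M0) (hx : x ∉ W) (S : ℕ) :
    Phi M lam N x A ≤ Real.exp (lam * S) * (1 - pr M S x W) * Phi M lam N x A +
      M0 * ∑ s ∈ range S, (Real.exp (lam * (s + 1 : ℕ)) *
        ((1 - pr M s x W) - (1 - pr M (s + 1) x W))) := by
  have hmono : ∀ s, 0 ≤ (1 - pr M s x W) - (1 - pr M (s + 1) x W) := by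
    intro s
    have := pr_mono M (Nat.le_succ s) x W
    simp only [Nat.succ_eq_add_one] at this
    linarith
  by_cases hS : S ≤ N
  · have h := calcQ_iter M lam hlam N x A W M0 hW S hS
    rw [calcQ_zero M lam N x A W hx] at h
    have h2 : calcQ M lam N x A W S ≤
        Real.exp (lam * S) * (1 - pr M S x W) * Phi M lam N x A := by
      rw [calc_H]
      unfold calcQ
      rw [mul_right_comm, ← EL_smul]
      refine EL_mono M.w M.w0 S _ _ (fun l0 hl0 => ?_)
      have hw : Wlk M l0 x x ∅ := (Reach_iff_Wlk M l0 x x).mp (Reach_refl M l0 x)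
      have h5 := calc_after M lam hlam N (N - S) (by omega) l0 x x A ∅ hw
      rw [hl0, Finset.union_empty] at h5
      calc ind (calcNR M x W l0) * EL M.w (N - S) (fun l => Real.exp (lam * cost M (l0 ++ l) x A))
          ≤ ind (calcNR M x W l0) * (Real.exp (lam * S) * Phi M lam N x A) :=
            mul_le_mul_of_nonneg_left h5 (ind_nonneg _)
        _ = _ := by ring
    linarith
  · have h := calcQ_iter M lam hlam N x A W M0 hW N le_rfl
    rw [calcQ_zero M lam N x A W hx] at h
    have h2 : calcQ M lam N x A W N ≤ Real.exp (lam * N) * (1 - pr M N x W) := by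
      rw [calc_H]
      unfold calcQ
      rw [← EL_smul]
      refine EL_mono M.w M.w0 N _ _ (fun l0 hl0 => ?_)
      rw [Nat.sub_self]
      have h3 : EL M.w 0 (fun l => Real.exp (lam * cost M (l0 ++ l) x A)) ≤
          Real.exp (lam * N) := by
        show Real.exp (lam * cost M (l0 ++ []) x A) ≤ Real.exp (lam * N)
        refine calc_exp_le lam hlam ((calc_cost_le_length M _ x A).trans ?_)
        simp [hl0]
      calc ind (calcNR M x W l0) * EL M.w 0 (fun l => Real.exp (lam * cost M (l0 ++ l) x A))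
          ≤ ind (calcNR M x W l0) * Real.exp (lam * N) :=
            mul_le_mul_of_nonneg_left h3 (ind_nonneg _)
        _ = _ := by ring
    -- extend the sum from N to S
    have h4 : ∀ j, Real.exp (lam * N) * (1 - pr M N x W) ≤
        Real.exp (lam * N) * (1 - pr M (N + j) x W) +
        M0 * (∑ s ∈ range (N + j), (Real.exp (lam * (s + 1 : ℕ)) *
        ((1 - pr M s x W) - (1 - pr M (s + 1) x W))) - ∑ s ∈ range N, (Real.exp (lam * (s + 1 : ℕ)) *
        ((1 - pr M s x W) - (1 - pr M (s + 1) x W)))) := by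
      intro j
      induction j with
      | zero => simp
      | succ j ih =>
        rw [← add_assoc, Finset.sum_range_succ]
        have h5 := hmono (N + j)
        have h6 : Real.exp (lam * N) ≤ Real.exp (lam * (N + j + 1 : ℕ)) :=
          calc_exp_le lam hlam (by omega)
        have h7 : Real.exp (lam * N) * ((1 - pr M (N + j) x W) - (1 - pr M (N + j + 1) x W)) ≤
            M0 * (Real.exp (lam * (N + j + 1 : ℕ)) *
              ((1 - pr M (N + j) x W) - (1 - pr M (N + j + 1) x W))) := by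
          rw [← mul_assoc]
          refine mul_le_mul_of_nonneg_right ?_ h5
          calc Real.exp (lam * N) ≤ Real.exp (lam * (N + j + 1 : ℕ)) := h6
            _ = 1 * Real.exp (lam * (N + j + 1 : ℕ)) := (one_mul _).symm
            _ ≤ _ := mul_le_mul_of_nonneg_right hM0 (Real.exp_pos _).le
        linarith
    obtain ⟨j, rfl⟩ : ∃ j, S = N + j := Nat.exists_eq_add_of_le (by omega)
    have h8 := h4 j
    have h9 : Real.exp (lam * N) * (1 - pr M (N + j) x W) ≤
        Real.exp (lam * (N + j : ℕ)) * (1 - pr M (N + j) x W) * Phi M lam N x A := by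
      have h10 : 0 ≤ 1 - pr M (N + j) x W := by
        have := pr_le_one M (N + j) x W
        linarith
      have h11 := calc_one_le M lam hlam N x A
      have h12 : Real.exp (lam * N) ≤ Real.exp (lam * (N + j : ℕ)) :=
        calc_exp_le lam hlam (by omega)
      calc Real.exp (lam * N) * (1 - pr M (N + j) x W)
          ≤ Real.exp (lam * (N + j : ℕ)) * (1 - pr M (N + j) x W) :=
            mul_le_mul_of_nonneg_right h12 h10
        _ = Real.exp (lam * (N + j : ℕ)) * (1 - pr M (N + j) x W) * 1 := (mul_one _).symm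
        _ ≤ _ := mul_le_mul_of_nonneg_left h11 (by positivity)
    linarith

/-- summation by parts -/
theorem calc_abel (lam : ℝ) (H : ℕ → ℝ) (S : ℕ) :
    ∑ s ∈ range S, (Real.exp (lam * (s + 1 : ℕ)) * (H s - H (s + 1))) +
      Real.exp (lam * S) * H S = H 0 + ∑ s ∈ range S,
        (Real.exp (lam * (s + 1 : ℕ)) - Real.exp (lam * s)) * H s := by
  induction S with
  | zero => simp
  | succ S ih =>
    rw [Finset.sum_range_succ, Finset.sum_range_succ]
    have : ∑ s ∈ range S, (Real.exp (lam * (s + 1 : ℕ)) * (H s - H (s + 1))) =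
      H 0 + ∑ s ∈ range S,
        (Real.exp (lam * (s + 1 : ℕ)) - Real.exp (lam * s)) * H s - Real.exp (lam * S) * H S := by
      linarith
    rw [this]
    ring

theorem calc_diff (lam : ℝ) (hlam : 0 ≤ lam) (s S : ℕ) (h : s < S) :
    Real.exp (lam * (s + 1 : ℕ)) - Real.exp (lam * s) ≤ lam * Real.exp (lam * S) := by
  have h1 : Real.exp (lam * (s + 1 : ℕ)) ≤ Real.exp (lam * S) := calc_exp_le lam hlam h
  have h2 : Real.exp (lam * s) = Real.exp (lam * (s + 1 : ℕ)) * Real.exp (-lam) := by
    rw [← Real.exp_add]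
    congr 1
    push_cast
    ring
  have h3 : 1 - lam ≤ Real.exp (-lam) := by
    have := Real.add_one_le_exp (-lam)
    linarith
  rw [h2]
  have h4 : 0 < Real.exp (lam * (s + 1 : ℕ)) := Real.exp_pos _
  nlinarith [mul_le_mul_of_nonneg_left h1 hlam, mul_le_mul_of_nonneg_left h3 h4.le]

theorem calc_hit (M : Mdl V Ω) (lam : ℝ) (hlam : 0 ≤ lam) (N : ℕ) (x : V) (A : Finset V)
    (W : Set V) (S : ℕ) (M0 E0 : ℝ) (hM0 : 1 ≤ M0) (hW : ∀ u ∈ W, Phi M lam N u A ≤ M0)
    (hE : ∑ s ∈ range S, (1 - pr M s x W) ≤ E0)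
    (hq : (1 - pr M S x W) * Real.exp (lam * S) < 1) :
    Phi M lam N x A ≤ M0 * Real.exp (lam * (E0 * Real.exp (lam * S) /
      (1 - (1 - pr M S x W) * Real.exp (lam * S)))) := by
  have hH0 : ∀ s, 0 ≤ 1 - pr M s x W := fun s => by
    have := pr_le_one M s x W
    linarith
  have hE0 : 0 ≤ E0 := le_trans (Finset.sum_nonneg (fun s _ => hH0 s)) hE
  have hD : 0 < 1 - (1 - pr M S x W) * Real.exp (lam * S) := by linarith
  have hexp : 1 + lam * (E0 * Real.exp (lam * S) /
      (1 - (1 - pr M S x W) * Real.exp (lam * S))) ≤ Real.exp (lam * (E0 * Real.exp (lam * S) /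
      (1 - (1 - pr M S x W) * Real.exp (lam * S)))) := by
    have := Real.add_one_le_exp (lam * (E0 * Real.exp (lam * S) /
      (1 - (1 - pr M S x W) * Real.exp (lam * S))))
    linarith
  have hnn : 0 ≤ lam * (E0 * Real.exp (lam * S) /
      (1 - (1 - pr M S x W) * Real.exp (lam * S))) := by positivity
  have hM00 : 0 ≤ M0 := by linarith
  refine le_trans ?_ (mul_le_mul_of_nonneg_left hexp hM00)
  by_cases hF : Phi M lam N x A ≤ M0
  · calc Phi M lam N x A ≤ M0 := hF
      _ = M0 * 1 := (mul_one _).symm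
      _ ≤ _ := mul_le_mul_of_nonneg_left (by linarith) hM00
  · have hx : x ∉ W := fun hx => hF (hW x hx)
    have h1 := calc_basic M lam hlam N x A W M0 hM0 hW hx S
    have h2 := calc_abel lam (fun s => 1 - pr M s x W) S
    have h3 : ∑ s ∈ range S,
        (Real.exp (lam * (s + 1 : ℕ)) - Real.exp (lam * s)) * (1 - pr M s x W) ≤
        lam * Real.exp (lam * S) * E0 := by
      calc ∑ s ∈ range S,
        (Real.exp (lam * (s + 1 : ℕ)) - Real.exp (lam * s)) * (1 - pr M s x W)
          ≤ ∑ s ∈ range S, lam * Real.exp (lam * S) * (1 - pr M s x W) :=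
            Finset.sum_le_sum (fun s hs => mul_le_mul_of_nonneg_right
              (calc_diff lam hlam s S (Finset.mem_range.mp hs)) (hH0 s))
        _ = lam * Real.exp (lam * S) * ∑ s ∈ range S, (1 - pr M s x W) := by
            rw [Finset.mul_sum]
        _ ≤ _ := mul_le_mul_of_nonneg_left hE (by positivity)
    have h4 : (1 - pr M 0 x W) ≤ 1 := by
      have := pr_nonneg M 0 x W
      linarith
    have h5 : M0 * ∑ s ∈ range S, (Real.exp (lam * (s + 1 : ℕ)) *
        ((1 - pr M s x W) - (1 - pr M (s + 1) x W))) ≤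
        M0 * (1 + lam * Real.exp (lam * S) * E0 - Real.exp (lam * S) * (1 - pr M S x W)) :=
      mul_le_mul_of_nonneg_left (by linarith) hM00
    have h6 : (Phi M lam N x A - M0) * (1 - (1 - pr M S x W) * Real.exp (lam * S)) ≤
        M0 * (lam * Real.exp (lam * S) * E0) := by
      nlinarith
    have h7 : Phi M lam N x A - M0 ≤ M0 * (lam * Real.exp (lam * S) * E0) /
        (1 - (1 - pr M S x W) * Real.exp (lam * S)) := by
      rw [le_div_iff₀ hD]
      exact h6
    have h8 : M0 * (1 + lam * (E0 * Real.exp (lam * S) /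
      (1 - (1 - pr M S x W) * Real.exp (lam * S)))) = M0 + M0 * (lam * Real.exp (lam * S) * E0) /
        (1 - (1 - pr M S x W) * Real.exp (lam * S)) := by
      field_simp
    rw [h8]
    linarith

theorem calc_Phi (M : Mdl V Ω) (lam : ℝ) (hlam : 0 ≤ lam) (N : ℕ) :
    Calc M lam (Phi M lam N) where
  one_le := calc_one_le M lam hlam N
  full := by
    intro x
    have h : Phi M lam N x Finset.univ = EL M.w N (fun _ => (1 : ℝ)) := by
      unfold Phi
      refine EL_congr M.w N _ _ (fun l _ => ?_)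
      rw [calc_cost_full]
      simp
    rw [h, EL_const M.w M.w1]
  anti := by
    intro x A B h
    unfold Phi
    exact EL_mono M.w M.w0 N _ _ (fun l _ => calc_exp_le lam hlam (calc_cost_anti M l x A B h))
  here := by
    intro x A
    unfold Phi
    exact EL_mono M.w M.w0 N _ _ (fun l _ => calc_exp_le lam hlam (calc_cost_here M l x A))
  hit := by
    intro x A W S M0 E0 hM0 hW hE hq
    exact calc_hit M lam hlam N x A W S M0 E0 hM0 hW hE hq
  win := by
    intro x A S y B hw
    exact calc_win M lam hlam N x A S y B hw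

end CALCblock

end Pool.Agent.RST
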