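import Mathlib
import Pool.Agent.Lib_helper42.RST.Defs
import Pool.Agent.Lib_helper42.RST.Stmt
import Pool.Agent.Lib_helper42.RSTF.Base
import Pool.Agent.Lib_helper42.RSTF.EL1
import Pool.Agent.Lib_helper42.RSTF.RW

/- block FIN proved by helper93 -/

/-! # RST, block FIN -/

set_option autoImplicit false
set_option linter.unusedSectionVars false

open Finset

namespace Pool.Agent.RST

section
variable {V Ω : Type} [Fintype Ω] [Fintype V] [DecidableEq V]

theorem fin_prob (M : Mdl V Ω) (lam : ℝ) (hlam : 0 ≤ lam) (N : ℕ) (x0 : V) :
    EL M.w (Fintype.card V + N) (fun l => ind (¬ ∀ v, ∃ y, Wlk M l v y univ)) ≤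
      Real.exp (-(lam * N)) * Phi M lam N x0 ∅ := by
  have _ := hlam
  have key : ∀ l1 l2 : List Ω, l1.length = Fintype.card V → l2.length = N →
      ind (¬ ∀ v, ∃ y, Wlk M (l1 ++ l2) v y univ) ≤
        Real.exp (-(lam * N)) * Real.exp (lam * cost M l2 x0 ∅) := by
    intro l1 l2 h1 h2
    by_cases hf : ∀ v, ∃ y, Wlk M (l1 ++ l2) v y univ
    · rw [ind_false (not_not_intro hf)]
      positivity
    · rw [ind_true hf]
      have hc : cost M l2 x0 ∅ = N := by
        unfold cost
        have hset : ({t | ∃ y B, Wlk M (l2.take t) x0 y B ∧ (∅ : Finset V) ∪ B = Finset.univ} ∪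
            {l2.length} : Set ℕ) = {N} := by
          ext t
          simp only [Set.mem_union, Set.mem_setOf_eq, Set.mem_singleton_iff, h2]
          constructor
          · rintro (⟨y, B, hW, hB⟩ | h)
            · exfalso
              apply hf
              intro v
              rw [Finset.empty_union] at hB
              subst hB
              refine ⟨y, ?_⟩
              have g1 : Wlk M l1 v x0 ∅ := by
                rw [← Reach_iff_Wlk]
                exact Reach_full M l1 (by omega) v x0
              have g2 : Wlk M (l2.drop t) y y ∅ := by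
                rw [← Reach_iff_Wlk]
                exact Reach_refl M _ _
              have g3 := Wlk_append M hW g2
              rw [List.take_append_drop] at g3
              have g4 := Wlk_append M g1 g3
              exact Wlk_mono M g4 (by simp)
            · exact h
          · intro h
            exact Or.inr h
        rw [hset]
        exact csInf_singleton N
      rw [hc, ← Real.exp_add]
      have : -(lam * (N : ℝ)) + lam * (N : ℝ) = 0 := by ring
      rw [this, Real.exp_zero]
  rw [EL_append]
  unfold Phi
  calc EL M.w (Fintype.card V) (fun l1 => EL M.w N (fun l2 =>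
        ind (¬ ∀ v, ∃ y, Wlk M (l1 ++ l2) v y univ)))
      ≤ EL M.w (Fintype.card V) (fun _ => EL M.w N (fun l2 =>
        Real.exp (-(lam * N)) * Real.exp (lam * cost M l2 x0 ∅))) := by
        apply EL_mono M.w M.w0
        intro l1 h1
        apply EL_mono M.w M.w0
        intro l2 h2
        exact key l1 l2 h1 h2
    _ = Real.exp (-(lam * N)) * EL M.w N (fun l => Real.exp (lam * cost M l x0 ∅)) := by
        rw [EL_const M.w M.w1, EL_smul]

end

end Pool.Agent.RST
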