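import Mathlib
import Pool.Agent.Lib_helper42.RST.Defs
import Pool.Agent.Lib_helper42.RST.Stmt
import Pool.Agent.Lib_helper42.RSTF.Base
import Pool.Agent.Lib_helper42.RSTF.EL1

/- block FT proved by helper5 -/

set_option autoImplicit false
set_option linter.unusedSectionVars false
set_option linter.unusedVariables false

open Finset

namespace Pool.Agent.RST

section FTblock
open MeasureTheory ProbabilityTheory

theorem ft_twalk_mono {n : ℕ} (G : ℕ → SimpleGraph (Fin n)) (L : List ((Fin n × Fin n) × ℕ))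
    (v : Fin n) (s s' : ℕ) (h : s' ≤ s) (hL : IsTWalk G v s L) : IsTWalk G v s' L := by
  cases L with
  | nil => trivial
  | cons p L =>
    obtain ⟨⟨u, w⟩, r⟩ := p
    obtain ⟨h1, h2, h3, h4⟩ := hL
    exact ⟨h1, lt_of_le_of_lt h h2, h3, h4⟩

theorem ft_twalk {n : ℕ} [Fintype (TreeN n)] (M : Mdl (Fin n) (TreeN n))
    (hgr : ∀ T, M.gr T = T.1) (G : ℕ → SimpleGraph (Fin n)) (l : List (TreeN n)) :
    ∀ (s0 : ℕ) (_ : ∀ (i : ℕ) (h : i < l.length), G (s0 + i + 1) = (l.get ⟨i, h⟩).1)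
      (v y : Fin n) (B : Finset (Fin n)) (_ : Wlk M l v y B),
    ∃ L, IsTWalk G v s0 L ∧ (B : Set (Fin n)) ⊆ insert v (visited L) ∧
      ∀ p ∈ L, p.2 ≤ s0 + l.length := by
  induction l with
  | nil =>
    intro s0 hl v y B hw
    refine ⟨[], trivial, ?_, by simp⟩
    intro b hb
    have := hw.2 hb
    rw [Finset.mem_singleton] at this
    exact Or.inl this
  | cons T l ih =>
    intro s0 hl v y B hw
    obtain ⟨z, B', hst, hw', hB⟩ := hw
    obtain ⟨L', hL1, hL2, hL3⟩ := ih (s0 + 1) (fun i h => by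
      have := hl (i + 1) (by simpa using h)
      rw [show s0 + 1 + i + 1 = s0 + (i + 1) + 1 by ring, this]
      rfl) z y B' hw'
    rcases hst with rfl | hadj
    · refine ⟨L', ft_twalk_mono G L' z (s0 + 1) s0 (by omega) hL1, ?_, ?_⟩
      · intro b hb
        have hb' := hB hb
        rw [Finset.mem_insert] at hb'
        rcases hb' with rfl | hb'
        · exact Or.inl rfl
        · exact hL2 hb'
      · intro p hp
        have := hL3 p hp
        rw [List.length_cons]
        omega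
    · have hG : G (s0 + 1) = T.1 := by
        have := hl 0 (by simp)
        simpa using this
      refine ⟨((v, z), s0 + 1) :: L', ⟨rfl, by omega, ?_, hL1⟩, ?_, ?_⟩
      · rw [hG, ← hgr T]
        exact hadj
      · have hz : z ∈ visited (((v, z), s0 + 1) :: L') :=
          ⟨((v, z), s0 + 1), List.mem_cons_self, Or.inr rfl⟩
        have hsub : visited L' ⊆ visited (((v, z), s0 + 1) :: L') := by
          rintro x ⟨p, hp, hx⟩
          exact ⟨p, List.mem_cons_of_mem _ hp, hx⟩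
        intro b hb
        have hb' := hB hb
        rw [Finset.mem_insert] at hb'
        rcases hb' with rfl | hb'
        · exact Or.inl rfl
        · rcases hL2 hb' with rfl | hb''
          · exact Or.inr hz
          · exact Or.inr (hsub hb'')
      · intro p hp
        rw [List.mem_cons] at hp
        rw [List.length_cons]
        rcases hp with rfl | hp
        · show s0 + 1 ≤ _
          omega
        · have := hL3 p hp
          omega

theorem twalk_of_wlk {n : ℕ} (hn : 2 ≤ n) [Fintype (TreeN n)] (M : Mdl (Fin n) (TreeN n))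
    (hgr : ∀ T, M.gr T = T.1) (G : ℕ → SimpleGraph (Fin n)) (l : List (TreeN n))
    (hl : ∀ (i : ℕ) (h : i < l.length), G (i + 1) = (l.get ⟨i, h⟩).1) (v y : Fin n)
    (hw : Wlk M l v y univ) :
    ∃ L, IsTWalk G v 0 L ∧ visited L = Set.univ ∧ arrival L ≤ l.length := by
  obtain ⟨L, h1, h2, h3⟩ := ft_twalk M hgr G l 0 (fun i h => by rw [zero_add]; exact hl i h) v y
    univ hw
  have hne : L ≠ [] := by
    rintro rfl
    obtain ⟨u, hu⟩ : ∃ u : Fin n, u ≠ v := by
      haveI : Nontrivial (Fin n) := Fin.nontrivial_iff_two_le.mpr hn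
      exact exists_ne v
    have := h2 (Finset.mem_coe.mpr (Finset.mem_univ u))
    rcases this with h | ⟨p, hp, -⟩
    · exact hu h
    · exact absurd hp (by simp)
  have hv : v ∈ visited L := by
    cases L with
    | nil => exact absurd rfl hne
    | cons p L =>
      obtain ⟨⟨u, w⟩, r⟩ := p
      obtain ⟨h4, -⟩ := h1
      exact ⟨((u, w), r), List.mem_cons_self, Or.inl h4.symm⟩
  refine ⟨L, h1, ?_, ?_⟩
  · rw [Set.eq_univ_iff_forall]
    intro b
    rcases h2 (Finset.mem_coe.mpr (Finset.mem_univ b)) with h | h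
    · have : b = v := h
      rw [this]
      exact hv
    · exact h
  · unfold arrival
    rcases hq : L.getLast? with _ | p
    · simp
    · have hp : p ∈ L := List.mem_of_getLast? hq
      have := h3 p hp
      simpa using this

theorem exists_model {n : ℕ} [Fintype (TreeN n)] (𝒯 : Set (SimpleGraph (Fin n)))
    (h𝒯 : ∀ G ∈ 𝒯, G.IsTree)
    (μ : Measure (SimpleGraph (Fin n))) (hμp : IsProbabilityMeasure μ) (hμ : μ 𝒯ᶜ = 0) :
    ∃ M : Mdl (Fin n) (TreeN n), (∀ T, M.gr T = T.1) ∧ ∀ T : TreeN n, M.w T = (μ {T.1}).toReal := by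
  haveI : MeasurableSingletonClass (SimpleGraph (Fin n)) :=
    ⟨fun _ => MeasurableSpace.measurableSet_top⟩
  have h1 : ∑ T : TreeN n, μ {T.1} = 1 := by
    have h2 := sum_measure_singleton (μ := μ)
      (s := (Finset.univ : Finset (TreeN n)).map (Function.Embedding.subtype _))
    rw [Finset.sum_map] at h2
    have h3 : (((Finset.univ : Finset (TreeN n)).map (Function.Embedding.subtype _) :
        Finset (SimpleGraph (Fin n))) : Set (SimpleGraph (Fin n))) = {G | G.IsTree} := by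
      ext G
      simp
    rw [h3] at h2
    have h4 : μ {G : SimpleGraph (Fin n) | G.IsTree} = 1 := by
      rw [← prob_compl_eq_zero_iff MeasurableSpace.measurableSet_top]
      refine measure_mono_null ?_ hμ
      intro G hG hG'
      exact hG (h𝒯 G hG')
    rw [h4] at h2
    exact h2
  refine ⟨⟨fun T => T.1, fun T => T.2.connected, fun T => (μ {T.1}).toReal,
    fun T => ENNReal.toReal_nonneg, ?_⟩, fun T => rfl, fun T => rfl⟩
  rw [← ENNReal.toReal_sum (fun T _ => measure_ne_top μ _), h1]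
  simp

theorem ft_texp {n : ℕ} (hn : 2 ≤ n) [Fintype (TreeN n)] (M : Mdl (Fin n) (TreeN n))
    (hgr : ∀ T, M.gr T = T.1) (t : ℕ) (θ : Fin t → TreeN n)
    (hθ : ∀ v, ∃ y, Wlk M (List.ofFn θ) v y univ) (G : ℕ → SimpleGraph (Fin n))
    (hG : ∀ i : Fin t, G ((i : ℕ) + 1) = (θ i).1) :
    ∃ t' : ℕ, texp G = t' ∧ t' ≤ t := by
  have hmem : t ∈ {t : ℕ | ∀ v : Fin n, ∃ l, IsTWalk G v 0 l ∧ visited l = Set.univ ∧
      arrival l ≤ t} := by
    intro v
    obtain ⟨y, hy⟩ := hθ v
    have := twalk_of_wlk hn M hgr G (List.ofFn θ) (fun i h => by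
      rw [List.length_ofFn] at h
      rw [hG ⟨i, h⟩]
      simp) v y hy
    rw [List.length_ofFn] at this
    exact this
  have hle : texp G ≤ (t : ℕ∞) := by
    unfold texp
    exact sInf_le ⟨t, hmem, rfl⟩
  have hne : texp G ≠ ⊤ := fun h => by
    rw [h] at hle
    exact absurd hle (by simp)
  refine ⟨(texp G).toNat, (ENat.coe_toNat hne).symm, ?_⟩
  have := ENat.toNat_le_toNat hle (ENat.coe_ne_top t)
  simpa using this

theorem ft_cyl.{u} {n : ℕ} (μ : Measure (SimpleGraph (Fin n)))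
    (Ω : Type u) (mΩ : MeasurableSpace Ω) (Pm : Measure Ω)
    (X : ℕ → Ω → SimpleGraph (Fin n)) (hX : ∀ i, Measurable (X (i + 1)))
    (hlaw : ∀ i, Pm.map (X (i + 1)) = μ)
    (hind : iIndepFun (fun i => X (i + 1)) Pm) (t : ℕ)
    (g : Fin t → SimpleGraph (Fin n)) :
    Pm {ω | ∀ i : Fin t, X ((i : ℕ) + 1) ω = g i} = ∏ i : Fin t, μ {g i} := by
  classical
  have h1 : iIndepFun (fun i : Fin t => X ((i : ℕ) + 1)) Pm :=
    hind.precomp (g := fun i : Fin t => (i : ℕ)) (fun i j h => by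
      have : (i : ℕ) = j := by simpa using h
      exact Fin.ext this)
  have h2 := h1.measure_inter_preimage_eq_mul Finset.univ (sets := fun i => {g i})
    (fun i _ => MeasurableSpace.measurableSet_top)
  have h3 : {ω | ∀ i : Fin t, X ((i : ℕ) + 1) ω = g i} =
      ⋂ i ∈ (Finset.univ : Finset (Fin t)), (fun ω => X ((i : ℕ) + 1) ω) ⁻¹' {g i} := by
    ext ω
    simp
  rw [h3]
  refine h2.trans ?_
  refine Finset.prod_congr rfl (fun i _ => ?_)
  rw [← hlaw (i : ℕ), Measure.map_apply (hX _) MeasurableSpace.measurableSet_top]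

theorem transfer.{u} {n : ℕ} (hn : 2 ≤ n) [Fintype (TreeN n)] (M : Mdl (Fin n) (TreeN n))
    (hgr : ∀ T, M.gr T = T.1) (𝒯 : Set (SimpleGraph (Fin n))) (h𝒯 : ∀ G ∈ 𝒯, G.IsTree)
    (μ : Measure (SimpleGraph (Fin n))) (hμp : IsProbabilityMeasure μ) (hμ : μ 𝒯ᶜ = 0)
    (hw : ∀ T : TreeN n, M.w T = (μ {T.1}).toReal)
    (Ω : Type u) (_ : MeasurableSpace Ω) (Pm : Measure Ω) (hP : IsProbabilityMeasure Pm)
    (X : ℕ → Ω → SimpleGraph (Fin n)) (hX : ∀ i, Measurable (X (i + 1)))
    (hlaw : ∀ i, Pm.map (X (i + 1)) = μ)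
    (hind : iIndepFun (fun i => X (i + 1)) Pm) (t : ℕ) (ε : ℝ)
    (h : EL M.w t (fun l => ind (¬ ∀ v, ∃ y, Wlk M l v y univ)) ≤ ε) :
    ENNReal.ofReal (1 - ε) ≤
      Pm {ω | ∃ t' : ℕ, texp (fun i => X i ω) = t' ∧ t' ≤ t} := by
  classical
  rw [EL_ind_not M.w M.w1] at h
  have h1 : 1 - ε ≤ EL M.w t (fun l => ind (∀ v, ∃ y, Wlk M l v y univ)) := by linarith
  rw [EL_eq_EX] at h1
  unfold EX at h1
  set good : Finset (Fin t → TreeN n) :=
    Finset.univ.filter (fun θ => ∀ v, ∃ y, Wlk M (List.ofFn θ) v y univ) with hgood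
  have h2 : ∑ θ : Fin t → TreeN n, (∏ i, M.w (θ i)) *
      ind (∀ v, ∃ y, Wlk M (List.ofFn θ) v y univ) = ∑ θ ∈ good, ∏ i, M.w (θ i) := by
    rw [hgood, Finset.sum_filter]
    refine Finset.sum_congr rfl (fun θ _ => ?_)
    by_cases hθ : ∀ v, ∃ y, Wlk M (List.ofFn θ) v y univ
    · rw [ind_true hθ, if_pos hθ, mul_one]
    · rw [ind_false hθ, if_neg hθ, mul_zero]
  rw [h2] at h1
  have h3 : Pm (⋃ θ ∈ good, {ω | ∀ i : Fin t, X ((i : ℕ) + 1) ω = (θ i).1}) =
      ∑ θ ∈ good, Pm {ω | ∀ i : Fin t, X ((i : ℕ) + 1) ω = (θ i).1} := by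
    refine measure_biUnion_finset ?_ ?_
    · intro θ _ θ' _ hne
      rw [Function.onFun, Set.disjoint_left]
      intro ω h4 h5
      refine hne (funext (fun i => Subtype.ext ?_))
      rw [← h4 i, ← h5 i]
    · intro θ _
      have : {ω | ∀ i : Fin t, X ((i : ℕ) + 1) ω = (θ i).1} =
          ⋂ i : Fin t, X ((i : ℕ) + 1) ⁻¹' {(θ i).1} := by
        ext ω
        simp
      rw [this]
      exact MeasurableSet.iInter (fun i => hX _ MeasurableSpace.measurableSet_top)
  have h4 : ENNReal.ofReal (∑ θ ∈ good, ∏ i, M.w (θ i)) =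
      ∑ θ ∈ good, Pm {ω | ∀ i : Fin t, X ((i : ℕ) + 1) ω = (θ i).1} := by
    rw [ENNReal.ofReal_sum_of_nonneg (fun θ _ => Finset.prod_nonneg (fun i _ => M.w0 _))]
    refine Finset.sum_congr rfl (fun θ _ => ?_)
    rw [ft_cyl μ Ω _ Pm X hX hlaw hind t (fun i => (θ i).1),
      ENNReal.ofReal_prod_of_nonneg (fun i _ => M.w0 _)]
    refine Finset.prod_congr rfl (fun i _ => ?_)
    rw [hw, ENNReal.ofReal_toReal (measure_ne_top μ _)]
  calc ENNReal.ofReal (1 - ε) ≤ ENNReal.ofReal (∑ θ ∈ good, ∏ i, M.w (θ i)) :=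
        ENNReal.ofReal_le_ofReal h1
    _ = Pm (⋃ θ ∈ good, {ω | ∀ i : Fin t, X ((i : ℕ) + 1) ω = (θ i).1}) := by rw [h4, h3]
    _ ≤ _ := by
      refine measure_mono ?_
      intro ω hω
      rw [Set.mem_iUnion₂] at hω
      obtain ⟨θ, hθ, hω⟩ := hω
      rw [hgood, Finset.mem_filter] at hθ
      exact ft_texp hn M hgr t θ hθ.2 (fun i => X i ω) hω

end FTblock

end Pool.Agent.RST
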