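import Mathlib
import Pool.Agent.Lib_helper42.RST.Defs
import Pool.Agent.Lib_helper42.RST.Stmt
import Pool.Agent.Lib_helper42.RSTF.Base
import Pool.Agent.Lib_helper42.RSTF.EL1
import Pool.Agent.Lib_helper42.RSTF.RW

/- block BS proved by helper93 -/

/-! # RST, block BS: deterministic base sets -/

set_option autoImplicit false
set_option linter.unusedSectionVars false

open Finset

namespace Pool.Agent.RST

section
variable {V Ω : Type} [Fintype Ω] [Fintype V] [DecidableEq V]

theorem bs_P1_nonneg (M : Mdl V Ω) (p : Ω → Prop) : 0 ≤ P1 M p := by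
  unfold P1
  exact Finset.sum_nonneg fun T _ => mul_nonneg (M.w0 T) (ind_nonneg _)

theorem bs_P1_le_one (M : Mdl V Ω) (p : Ω → Prop) : P1 M p ≤ 1 := by
  unfold P1
  calc ∑ T, M.w T * ind (p T) ≤ ∑ T, M.w T * 1 :=
        Finset.sum_le_sum fun T _ => mul_le_mul_of_nonneg_left (ind_le_one _) (M.w0 T)
    _ = 1 := by simp [M.w1]

theorem bs_P1_not (M : Mdl V Ω) (p : Ω → Prop) :
    ∑ T, M.w T * ind (¬ p T) = 1 - P1 M p := by
  have h : ∀ T, M.w T * ind (¬ p T) = M.w T - M.w T * ind (p T) := by
    intro T
    by_cases h : p T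
    · rw [ind_true h, ind_false (not_not_intro h)]
      ring
    · rw [ind_false h, ind_true h]
      ring
  simp only [h, Finset.sum_sub_distrib, M.w1]
  rfl

/-- independent events in successive snapshots -/
theorem bs_prod (M : Mdl V Ω) : ∀ (t s : ℕ) (p : ℕ → Ω → Prop), s ≤ t →
    EL M.w t (fun l => ind (∀ σ < s, ∀ T, l[σ]? = some T → ¬ p σ T)) ≤
      Real.exp (-∑ σ ∈ range s, P1 M (p σ)) := by
  intro t
  induction t with
  | zero =>
    intro s p hs
    have : s = 0 := by omega
    subst this
    simp only [EL, Finset.range_zero, Finset.sum_empty, neg_zero, Real.exp_zero]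
    exact ind_le_one _
  | succ t ih =>
    intro s p hs
    rcases s with _ | s
    · simp only [Finset.range_zero, Finset.sum_empty, neg_zero, Real.exp_zero]
      have h : EL M.w (t + 1) (fun l => ind (∀ σ < 0, ∀ T, l[σ]? = some T → ¬ p σ T)) ≤
          EL M.w (t + 1) (fun _ => 1) := EL_mono M.w M.w0 _ _ _ fun l _ => ind_le_one _
      rwa [EL_const M.w M.w1] at h
    · have h1 : ∀ (T : Ω) (l : List Ω),
          ind (∀ σ < s + 1, ∀ T', (T :: l)[σ]? = some T' → ¬ p σ T') =
          ind (¬ p 0 T) * ind (∀ σ < s, ∀ T', l[σ]? = some T' → ¬ p (σ + 1) T') := by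
        intro T l
        by_cases hp : p 0 T
        · rw [ind_false (not_not_intro hp), zero_mul]
          apply ind_false
          intro h
          exact h 0 (by omega) T (by simp) hp
        · rw [ind_true hp, one_mul]
          by_cases hq : ∀ σ < s, ∀ T', l[σ]? = some T' → ¬ p (σ + 1) T'
          · rw [ind_true hq]
            apply ind_true
            intro σ hσ T' hT'
            rcases σ with _ | σ
            · simp only [List.getElem?_cons_zero, Option.some.injEq] at hT'
              rw [← hT']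
              exact hp
            · rw [List.getElem?_cons_succ] at hT'
              exact hq σ (by omega) T' hT'
          · rw [ind_false hq]
            apply ind_false
            intro h
            apply hq
            intro σ hσ T' hT'
            exact h (σ + 1) (by omega) T' (by rw [List.getElem?_cons_succ]; exact hT')
      have h2 : EL M.w (t + 1) (fun l => ind (∀ σ < s + 1, ∀ T, l[σ]? = some T → ¬ p σ T)) =
          ∑ T, M.w T * ind (¬ p 0 T) *
            EL M.w t (fun l => ind (∀ σ < s, ∀ T', l[σ]? = some T' → ¬ p (σ + 1) T')) := by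
        show ∑ T, M.w T * EL M.w t (fun l => ind (∀ σ < s + 1, ∀ T', (T :: l)[σ]? = some T' →
          ¬ p σ T')) = _
        apply Finset.sum_congr rfl
        intro T _
        simp only [h1 T]
        rw [EL_smul]
        ring
      rw [h2, ← Finset.sum_mul, bs_P1_not, Finset.sum_range_succ', neg_add, add_comm, Real.exp_add]
      have h3 := ih s (fun σ => p (σ + 1)) (by omega)
      have h4 : 1 - P1 M (p 0) ≤ Real.exp (-P1 M (p 0)) := by
        have := Real.add_one_le_exp (-P1 M (p 0))
        linarith
      have h5 : 0 ≤ 1 - P1 M (p 0) := by linarith [bs_P1_le_one M (p 0)]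
      calc (1 - P1 M (p 0)) *
            EL M.w t (fun l => ind (∀ σ < s, ∀ T', l[σ]? = some T' → ¬ p (σ + 1) T'))
          ≤ (1 - P1 M (p 0)) * Real.exp (-∑ σ ∈ range s, P1 M (p (σ + 1))) :=
            mul_le_mul_of_nonneg_left h3 h5
        _ ≤ Real.exp (-P1 M (p 0)) * Real.exp (-∑ σ ∈ range s, P1 M (p (σ + 1))) :=
            mul_le_mul_of_nonneg_right h4 (Real.exp_nonneg _)

theorem bs_exit (M : Mdl V Ω) (C : Finset V) (hne : C.Nonempty) (hu : C ≠ univ) (T : Ω) :
    ∃ y, y ∉ C ∧ ∃ u ∈ C, (M.gr T).Adj u y := by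
  obtain ⟨u, hu1⟩ := hne
  have : ∃ y, y ∉ C := by
    by_contra h
    push Not at h
    exact hu (Finset.eq_univ_iff_forall.2 h)
  obtain ⟨y, hy⟩ := this
  obtain ⟨p⟩ := (M.conn T).preconnected u y
  obtain ⟨d, _, h1, h2⟩ := p.exists_boundary_dart (C : Set V) (by exact_mod_cast hu1)
    (by exact_mod_cast hy)
  exact ⟨d.snd, by exact_mod_cast h2, d.fst, by exact_mod_cast h1, d.adj⟩

/-- the exit of a set in a snapshot -/
noncomputable def bs_ex (M : Mdl V Ω) (C : Finset V) (T : Ω) : V := by
  classical exact if h : ∃ y, y ∉ C ∧ ∃ u ∈ C, (M.gr T).Adj u y then h.choose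
    else (M.conn T).nonempty.some

theorem bs_ex_spec (M : Mdl V Ω) (C : Finset V) (hne : C.Nonempty) (hu : C ≠ univ) (T : Ω) :
    bs_ex M C T ∉ C ∧ ∃ u ∈ C, (M.gr T).Adj u (bs_ex M C T) := by
  have h := bs_exit M C hne hu T
  unfold bs_ex
  rw [dif_pos h]
  exact h.choose_spec

/-- the enlarged set -/
noncomputable def bs_big (K : ℝ) (C : Finset V) (F : V → ℝ) : Finset V := by
  classical exact C ∪ univ.filter (fun y => K ≤ F y)

/-- the next set -/
noncomputable def bs_nx (K : ℝ) (cap : ℕ) (C : Finset V) (F : V → ℝ) : Finset V := by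
  classical exact if (bs_big K C F).card ≤ cap then bs_big K C F
    else if h : ∃ C', C ⊆ C' ∧ C' ⊆ bs_big K C F ∧ C'.card = cap then h.choose else C

theorem bs_nx_spec (K : ℝ) (cap : ℕ) (C : Finset V) (F : V → ℝ) (hC : C.card ≤ cap) :
    C ⊆ bs_nx K cap C F ∧ bs_nx K cap C F ⊆ bs_big K C F ∧ (bs_nx K cap C F).card ≤ cap ∧
      ((bs_nx K cap C F).card < cap → bs_nx K cap C F = bs_big K C F) := by
  classical
  have hsub : C ⊆ bs_big K C F := by
    unfold bs_big
    exact Finset.subset_union_left
  unfold bs_nx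
  by_cases h : (bs_big K C F).card ≤ cap
  · rw [if_pos h]
    exact ⟨hsub, Finset.Subset.refl _, h, fun _ => rfl⟩
  · rw [if_neg h]
    have h2 : ∃ C', C ⊆ C' ∧ C' ⊆ bs_big K C F ∧ C'.card = cap :=
      Finset.exists_subsuperset_card_eq hsub hC (by omega)
    rw [dif_pos h2]
    obtain ⟨h3, h4, h5⟩ := h2.choose_spec
    refine ⟨h3, h4, h5.le, ?_⟩
    intro h6
    omega

/-- the process of the base sets -/
noncomputable def bs_st (M : Mdl V Ω) (x : V) (K : ℝ) (cap : ℕ) : ℕ → Finset V × (V → ℝ)
  | 0 => ({x}, fun _ => 0)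
  | τ + 1 => (bs_nx K cap (bs_st M x K cap τ).1 (fun y => (bs_st M x K cap τ).2 y +
      P1 M (fun T => bs_ex M (bs_st M x K cap τ).1 T = y)),
      fun y => (bs_st M x K cap τ).2 y + P1 M (fun T => bs_ex M (bs_st M x K cap τ).1 T = y))

theorem base_sets (M : Mdl V Ω) (x : V) (K : ℝ) (hK : 0 < K) (cap : ℕ) (hcap : 1 ≤ cap) (t : ℕ) :
    ∃ (C : ℕ → Finset V) (e : ℕ → Ω → V), C 0 = {x} ∧ (∀ τ, C τ ⊆ C (τ + 1)) ∧
      (∀ τ, (C τ).card ≤ cap) ∧
      (∀ τ T, C τ ≠ univ → e τ T ∉ C τ ∧ ∃ u ∈ C τ, (M.gr T).Adj u (e τ T)) ∧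
      ((C t).card < cap → C t ≠ univ → ∀ y, ∑ τ ∈ range t, P1 M (fun T => e τ T = y) ≤ K + 1) ∧
      EL M.w t (fun l => ind (∃ τ ≤ t, ∃ y ∈ C τ, ¬ Reach M (l.take τ) x y)) ≤
        cap * Real.exp (-K) := by
  classical
  set C : ℕ → Finset V := fun τ => (bs_st M x K cap τ).1 with hC
  set F : ℕ → V → ℝ := fun τ => (bs_st M x K cap τ).2 with hF
  set e : ℕ → Ω → V := fun τ T => bs_ex M (C τ) T with he
  have C0 : C 0 = {x} := rfl
  have F0 : ∀ y, F 0 y = 0 := fun y => rfl
  have F1 : ∀ τ y, F (τ + 1) y = F τ y + P1 M (fun T => e τ T = y) := fun τ y => rfl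
  have C1 : ∀ τ, C (τ + 1) = bs_nx K cap (C τ) (F (τ + 1)) := fun τ => rfl
  have Ccard : ∀ τ, (C τ).card ≤ cap := by
    intro τ
    induction τ with
    | zero => rw [C0, Finset.card_singleton]; exact hcap
    | succ τ ih =>
      rw [C1]
      exact (bs_nx_spec K cap (C τ) (F (τ + 1)) ih).2.2.1
  have Csub : ∀ τ, C τ ⊆ C (τ + 1) := by
    intro τ
    rw [C1]
    exact (bs_nx_spec K cap (C τ) (F (τ + 1)) (Ccard τ)).1
  have Cmono : Monotone C := monotone_nat_of_le_succ Csub
  have Cx : ∀ τ, x ∈ C τ := fun τ => Cmono (Nat.zero_le τ) (by rw [C0]; simp)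
  have Cnew : ∀ τ y, y ∈ C (τ + 1) → y ∉ C τ → K ≤ F (τ + 1) y := by
    intro τ y h1 h2
    rw [C1] at h1
    have h3 := (bs_nx_spec K cap (C τ) (F (τ + 1)) (Ccard τ)).2.1 h1
    unfold bs_big at h3
    simp only [Finset.mem_union, Finset.mem_filter, Finset.mem_univ, true_and] at h3
    rcases h3 with h3 | h3
    · exact absurd h3 h2
    · exact h3
  have Fsum : ∀ τ y, F τ y = ∑ σ ∈ range τ, P1 M (fun T => e σ T = y) := by
    intro τ y
    induction τ with
    | zero => simp [F0]
    | succ τ ih => rw [F1, Finset.sum_range_succ, ih]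
  have Cex : ∀ τ T, C τ ≠ univ → e τ T ∉ C τ ∧ ∃ u ∈ C τ, (M.gr T).Adj u (e τ T) := by
    intro τ T h
    exact bs_ex_spec M (C τ) ⟨x, Cx τ⟩ h T
  refine ⟨C, e, C0, Csub, Ccard, Cex, ?_, ?_⟩
  · intro h1 h2 y
    rw [← Fsum]
    have key : ∀ τ, τ ≤ t → F τ y ≤ K + 1 ∧ (y ∉ C τ → F τ y < K) := by
      intro τ
      induction τ with
      | zero =>
        intro _
        rw [F0]
        exact ⟨by linarith, fun _ => hK⟩
      | succ τ ih =>
        intro hτ
        obtain ⟨i1, i2⟩ := ih (by omega)
        have hne : C τ ≠ univ := by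
          intro h
          apply h2
          apply Finset.eq_univ_of_forall
          intro z
          exact Cmono (show τ ≤ t by omega) (by rw [h]; exact Finset.mem_univ z)
        have hcard : (C (τ + 1)).card < cap :=
          lt_of_le_of_lt (Finset.card_le_card (Cmono hτ)) h1
        have hbig : C (τ + 1) = bs_big K (C τ) (F (τ + 1)) := by
          rw [C1]
          apply (bs_nx_spec K cap (C τ) (F (τ + 1)) (Ccard τ)).2.2.2
          rw [← C1]
          exact hcard
        by_cases hy : y ∈ C τ
        · have hz : P1 M (fun T => e τ T = y) = 0 := by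
            unfold P1
            apply Finset.sum_eq_zero
            intro T _
            have : ¬ (e τ T = y) := by
              intro h
              have := (Cex τ T hne).1
              rw [h] at this
              exact this hy
            rw [ind_false this, mul_zero]
          rw [F1, hz, add_zero]
          exact ⟨i1, fun h => absurd (Csub τ hy) h⟩
        · have h3 := i2 hy
          have h4 := bs_P1_le_one M (fun T => e τ T = y)
          refine ⟨by rw [F1]; linarith, ?_⟩
          intro h5
          rw [hbig] at h5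
          unfold bs_big at h5
          simp only [Finset.mem_union, Finset.mem_filter, Finset.mem_univ, true_and, not_or,
            not_le] at h5
          exact h5.2
    exact (key t le_rfl).1
  · -- the failure events
    set fs : V → ℕ := fun y => sInf {τ | y ∈ C τ} with hfs
    have fs1 : ∀ y τ, y ∈ C τ → fs y ≤ τ := fun y τ h => Nat.sInf_le h
    have fs2 : ∀ y τ, y ∈ C τ → y ∈ C (fs y) := fun y τ h =>
      Nat.sInf_mem (s := {τ | y ∈ C τ}) ⟨τ, h⟩
    have fs3 : ∀ y σ, σ < fs y → y ∉ C σ := fun y σ h h' => by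
      have := fs1 y σ h'
      omega
    set G : V → List Ω → Prop := fun y l => y ≠ x ∧ ∀ σ < fs y, ∀ T, l[σ]? = some T → ¬ e σ T = y
      with hG
    have step1 : ∀ l : List Ω, l.length = t →
        ind (∃ τ ≤ t, ∃ y ∈ C τ, ¬ Reach M (l.take τ) x y) ≤ ∑ y ∈ C t, ind (G y l) := by
      intro l hl
      by_cases h : ∃ y ∈ C t, G y l
      · obtain ⟨y, hy, hGy⟩ := h
        calc ind (∃ τ ≤ t, ∃ y ∈ C τ, ¬ Reach M (l.take τ) x y) ≤ 1 := ind_le_one _
          _ = ind (G y l) := (ind_true hGy).symm
          _ ≤ ∑ y ∈ C t, ind (G y l) :=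
            Finset.single_le_sum (f := fun y => ind (G y l)) (fun y _ => ind_nonneg _) hy
      · have hno : ¬ ∃ τ ≤ t, ∃ y ∈ C τ, ¬ Reach M (l.take τ) x y := by
          push Not
          intro τ
          induction τ using Nat.strong_induction_on with
          | _ τ ih =>
            intro hτ y hy
            by_cases hyx : y = x
            · rw [hyx]
              exact Reach_refl M _ _
            · have hyt : y ∈ C t := Cmono hτ hy
              have h2 : ¬ G y l := fun h3 => h ⟨y, hyt, h3⟩
              rw [hG] at h2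
              simp only [ne_eq, hyx, not_false_eq_true, true_and, not_forall, not_not] at h2
              obtain ⟨σ, hσ, T, hT, heT⟩ := h2
              have hy2 := fs3 y σ hσ
              have hfs4 := fs1 y τ hy
              have hne : C σ ≠ univ := by
                intro h
                rw [h] at hy2
                exact hy2 (Finset.mem_univ y)
              obtain ⟨u, hu, hadj⟩ := (Cex σ T hne).2
              rw [heT] at hadj
              have h3 := ih σ (by omega) (by omega) u hu
              have h4 : Reach M (l.take (σ + 1)) x y := by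
                rw [List.take_add_one, hT]
                rw [Reach_append]
                exact ⟨u, h3, y, Or.inr hadj, rfl⟩
              have h5 : l.take τ = l.take (σ + 1) ++ (l.take τ).drop (σ + 1) := by
                conv_lhs => rw [← List.take_append_drop (σ + 1) (l.take τ)]
                rw [List.take_take, min_eq_left (by omega)]
              rw [h5, Reach_append]
              exact ⟨y, h4, Reach_refl M _ _⟩
        rw [ind_false hno]
        exact Finset.sum_nonneg fun y _ => ind_nonneg _
    have step2 : ∀ y ∈ C t, EL M.w t (fun l => ind (G y l)) ≤ Real.exp (-K) := by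
      intro y hy
      by_cases hyx : y = x
      · have : ∀ l, ind (G y l) = 0 := fun l => ind_false fun h => h.1 hyx
        simp only [this]
        rw [EL_const M.w M.w1]
        exact Real.exp_nonneg _
      · have h1 : EL M.w t (fun l => ind (G y l)) ≤
            EL M.w t (fun l => ind (∀ σ < fs y, ∀ T, l[σ]? = some T → ¬ (e σ T = y))) :=
          EL_mono M.w M.w0 _ _ _ fun l _ => ind_mono fun h => h.2
        have h2 := bs_prod M t (fs y) (fun σ T => e σ T = y) (fs1 y t hy)
        have h3 : K ≤ ∑ σ ∈ range (fs y), P1 M (fun T => e σ T = y) := by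
          rw [← Fsum]
          have hpos : fs y ≠ 0 := by
            intro h0
            have := fs2 y t hy
            rw [h0, C0, Finset.mem_singleton] at this
            exact hyx this
          obtain ⟨k, hk⟩ := Nat.exists_eq_succ_of_ne_zero hpos
          have h4 := fs2 y t hy
          have h5 := fs3 y k (by omega)
          rw [hk] at h4 ⊢
          exact Cnew k y h4 h5
        calc EL M.w t (fun l => ind (G y l)) ≤ _ := h1
          _ ≤ _ := h2
          _ ≤ Real.exp (-K) := Real.exp_le_exp.2 (by linarith)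
    calc EL M.w t (fun l => ind (∃ τ ≤ t, ∃ y ∈ C τ, ¬ Reach M (l.take τ) x y))
        ≤ EL M.w t (fun l => ∑ y ∈ C t, ind (G y l)) := EL_mono M.w M.w0 _ _ _ step1
      _ = ∑ y ∈ C t, EL M.w t (fun l => ind (G y l)) := EL_sum M.w t (C t) (fun y l => ind (G y l))
      _ ≤ ∑ y ∈ C t, Real.exp (-K) := Finset.sum_le_sum step2
      _ = (C t).card * Real.exp (-K) := by rw [Finset.sum_const, nsmul_eq_mul]
      _ ≤ cap * Real.exp (-K) := by
        apply mul_le_mul_of_nonneg_right _ (Real.exp_nonneg _)
        exact_mod_cast Ccard t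

end

end Pool.Agent.RST
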