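import Mathlib
import Pool.Agent.Lib_helper42.RST.Defs
import Pool.Agent.Lib_helper42.RST.Stmt
import Pool.Agent.Lib_helper42.RSTF.Base
import Pool.Agent.Lib_helper42.RSTF.BS
import Pool.Agent.Lib_helper42.RSTF.CL
import Pool.Agent.Lib_helper42.RSTF.EL1
import Pool.Agent.Lib_helper42.RSTF.PR
import Pool.Agent.Lib_helper42.RSTF.RW

/- block CLOSE proved by helper94 -/

set_option autoImplicit false
set_option linter.unusedSectionVars false
set_option linter.unusedVariables false

open Finset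

namespace Pool.Agent.RST

section CLOSE
variable {V Ω : Type} [Fintype Ω] [Fintype V] [DecidableEq V]

theorem close_num (n m : ℕ) (hm : 2 ≤ m) (hmn : m ≤ n) :
    10 ≤ Kc n m ∧ Kc n m ≤ 68 * ((n : ℝ) / m) ∧
      ((⌈2 * (n : ℝ) / m⌉₊ + 1 : ℕ) : ℝ) * Real.exp (-Kc n m) ≤ 1 / (4096 * ((n : ℝ) / m)) := by
  have hm0 : (0 : ℝ) < m := by exact_mod_cast (by omega : 0 < m)
  set r : ℝ := (n : ℝ) / m with hr
  have hr1 : 1 ≤ r := by
    rw [hr, le_div_iff₀ hm0, one_mul]
    exact_mod_cast hmn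
  have hr0 : 0 < r := by linarith
  have hK : Kc n m = 2 * Real.log (32 * r) + 4 := by
    unfold Kc
    rw [hr, mul_div_assoc]
  have hlog2 : (0.69 : ℝ) ≤ Real.log 2 := by have := Real.log_two_gt_d9; linarith
  have hl32 : 3.45 ≤ Real.log 32 := by
    have : (32 : ℝ) = 2 ^ 5 := by norm_num
    rw [this, Real.log_pow]; push_cast; linarith
  have hl : Real.log (32 * r) = Real.log 32 + Real.log r := Real.log_mul (by norm_num) hr0.ne'
  have hlr : 0 ≤ Real.log r := Real.log_nonneg hr1
  refine ⟨?_, ?_, ?_⟩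
  · rw [hK, hl]; linarith
  · rw [hK]
    have := Real.log_le_sub_one_of_pos (show 0 < 32 * r by positivity)
    linarith
  · have hc : ((⌈2 * (n : ℝ) / m⌉₊ + 1 : ℕ) : ℝ) ≤ 4 * r := by
      have h1 : (⌈2 * (n : ℝ) / m⌉₊ : ℝ) < 2 * (n : ℝ) / m + 1 :=
        Nat.ceil_lt_add_one (by positivity)
      push_cast
      have h2 : 2 * (n : ℝ) / m = 2 * r := by rw [hr, mul_div_assoc]
      linarith
    have he : Real.exp (-Kc n m) = (32 * r)⁻¹ ^ 2 * Real.exp (-4) := by
      rw [hK, show -(2 * Real.log (32 * r) + 4) = -Real.log (32 * r) + -Real.log (32 * r) + -4 by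
        ring, Real.exp_add, Real.exp_add, Real.exp_neg (Real.log (32 * r)),
        Real.exp_log (by positivity)]
      ring
    have he4 : Real.exp (-4) ≤ 1 / 16 := by
      have h2 : (2 : ℝ) ≤ Real.exp 1 := by have := Real.add_one_le_exp (1 : ℝ); linarith
      have h16 : (16 : ℝ) ≤ Real.exp 4 := by
        have : Real.exp 4 = Real.exp 1 ^ 4 := by rw [← Real.exp_nat_mul]; norm_num
        rw [this]
        calc (16 : ℝ) = 2 ^ 4 := by norm_num
          _ ≤ _ := pow_le_pow_left₀ (by norm_num) h2 4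
      rw [Real.exp_neg, ← one_div]
      exact one_div_le_one_div_of_le (by norm_num) h16
    calc ((⌈2 * (n : ℝ) / m⌉₊ + 1 : ℕ) : ℝ) * Real.exp (-Kc n m)
        ≤ 4 * r * ((32 * r)⁻¹ ^ 2 * (1 / 16)) := by
          rw [he]
          apply mul_le_mul hc _ (by positivity) (by positivity)
          apply mul_le_mul_of_nonneg_left he4 (by positivity)
      _ = 1 / (4096 * r) := by
          field_simp; norm_num

/-- the base sets are reached -/
theorem close_base (M : Mdl V Ω) (x : V) (t : ℕ) (C : ℕ → Finset V) (ε0 : ℝ)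
    (hC : EL M.w t (fun l => ind (∃ τ ≤ t, ∃ y ∈ C τ, ¬ Reach M (l.take τ) x y)) ≤ ε0) (y : V)
    (hy : y ∈ C t) : 1 - ε0 ≤ pr M t x {y} := by
  have h := EL_ind_compl_le M.w M.w0 M.w1 t (fun l => ∃ y' ∈ ({y} : Set V), Reach M l x y')
    (fun l => ∃ τ ≤ t, ∃ y ∈ C τ, ¬ Reach M (l.take τ) x y) (by
      intro l hl
      by_cases hr : Reach M l x y
      · left; exact ⟨y, rfl, hr⟩
      · right
        refine ⟨t, le_refl t, y, hy, ?_⟩
        rw [List.take_of_length_le (by omega)]
        exact hr)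
  unfold pr
  linarith

/-- an exit is reached -/
theorem close_exit (M : Mdl V Ω) (x : V) (t : ℕ) (C : ℕ → Finset V) (e : ℕ → Ω → V) (l : List Ω)
    (hl : l.length = t)
    (he : ∀ τ T, τ < t → ∃ u ∈ C τ, (M.gr T).Adj u (e τ T))
    (hgood : ¬ ∃ τ ≤ t, ∃ y ∈ C τ, ¬ Reach M (l.take τ) x y) (τ : ℕ) (T : Ω) (hτ : l[τ]? = some T) :
    Reach M l x (e τ T) := by
  have hτt : τ < t := by
    obtain ⟨h, _⟩ := List.getElem?_eq_some_iff.mp hτ
    omega
  obtain ⟨u, hu, hadj⟩ := he τ T hτt
  have h1 : Reach M (l.take τ) x u := by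
    by_contra h
    exact hgood ⟨τ, hτt.le, u, hu, h⟩
  have hsplit : l = l.take τ ++ (T :: l.drop (τ + 1)) := by
    have h2 : l.drop τ = T :: l.drop (τ + 1) := by
      obtain ⟨h3, h4⟩ := List.getElem?_eq_some_iff.mp hτ
      rw [List.drop_eq_getElem_cons h3, h4]
    rw [← h2, List.take_append_drop]
  rw [hsplit, Reach_append]
  refine ⟨u, h1, e τ T, Or.inr hadj, Reach_refl M _ _⟩

theorem close_coll (M : Mdl V Ω) (x y : V) (t : ℕ) (C C' : ℕ → Finset V) (e e' : ℕ → Ω → V)
    (ε0 : ℝ)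
    (he : ∀ τ T, τ < t → ∃ u ∈ C τ, (M.gr T).Adj u (e τ T))
    (he' : ∀ τ T, τ < t → ∃ u ∈ C' τ, (M.gr T).Adj u (e' τ T))
    (hC : EL M.w t (fun l => ind (∃ τ ≤ t, ∃ z ∈ C τ, ¬ Reach M (l.take τ) x z)) ≤ ε0)
    (hC' : EL M.w t (fun l => ind (∃ τ ≤ t, ∃ z ∈ C' τ, ¬ Reach M (l.take τ) y z)) ≤ ε0)
    (K : ℝ) (hK : 0 ≤ K)
    (hF : ∀ z, ∑ τ ∈ range t, P1 M (fun T => e τ T = z) ≤ K)
    (hF' : ∀ z, ∑ τ ∈ range t, P1 M (fun T => e' τ T = z) ≤ K)
    (E : ℝ) (hE : E = ∑ z, (∑ τ ∈ range t, P1 M (fun T => e τ T = z)) *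
      (∑ τ ∈ range t, P1 M (fun T => e' τ T = z))) (hE0 : 0 < E) :
    E / (E + 1 + 2 * K) - 2 * ε0 ≤ pr M (2 * t) x {y} := by
  set A : V → ℝ := fun z => ∑ τ ∈ range t, P1 M (fun T => e τ T = z) with hA
  set B : V → ℝ := fun z => ∑ τ ∈ range t, P1 M (fun T => e' τ T = z) with hB
  have hP0 : ∀ p : Ω → Prop, 0 ≤ P1 M p := fun p =>
    Finset.sum_nonneg (fun T _ => mul_nonneg (M.w0 T) (ind_nonneg _))
  have hA0 : ∀ z, 0 ≤ A z := fun z => Finset.sum_nonneg (fun τ _ => hP0 _)
  have hB0 : ∀ z, 0 ≤ B z := fun z => Finset.sum_nonneg (fun τ _ => hP0 _)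
  have hsome : ∀ (f : ℕ → Ω → V) (z : V) , ∑ τ ∈ range t, P1 M (fun T => f τ T = z) =
      ∑ i : Fin t, ∑ T, M.w T * ind (some (f i T) = some z) := by
    intro f z
    rw [← Fin.sum_univ_eq_sum_range (fun τ => P1 M (fun T => f τ T = z)) t]
    apply Finset.sum_congr rfl; intro i _
    unfold P1
    apply Finset.sum_congr rfl; intro T _
    have : (some (f i T) = some z) = (f i T = z) := by simp
    rw [this]
  have hcol := collision M.w M.w M.w0 M.w1 M.w0 M.w1 (fun (i : Fin t) T => some (e i T))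
    (fun (i : Fin t) T => some (e' i T)) A B (fun z => hsome e z) (fun z => hsome e' z) E
    (2 * K) hE (by linarith) (by
      rw [hE, Finset.mul_sum]
      apply Finset.sum_le_sum; intro z _
      have h1 := mul_le_mul_of_nonneg_right (hF z) (mul_nonneg (hA0 z) (hB0 z))
      have h2 := mul_le_mul_of_nonneg_right (hF' z) (mul_nonneg (hA0 z) (hB0 z))
      have h3 : A z ^ 2 * B z + A z * B z ^ 2 = A z * (A z * B z) + B z * (A z * B z) := by ring
      rw [h3]
      have h4 : (∑ τ ∈ range t, P1 M (fun T => e τ T = z)) = A z := rfl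
      have h5 : (∑ τ ∈ range t, P1 M (fun T => e' τ T = z)) = B z := rfl
      rw [h4] at h1 ⊢
      rw [h5] at h2 ⊢
      linarith)
  set J : List Ω → List Ω → Prop := fun l1 l2 => ∃ (i j : Fin t) (d : V),
    (l1[(i : ℕ)]?).map (e i) = some d ∧ (l2[(j : ℕ)]?).map (e' j) = some d with hJ
  have hJeq : EL M.w t (fun l1 => EL M.w t (fun l2 => ind (J l1 l2))) =
      EX M.w (fun θ : Fin t → Ω => EX M.w (fun θ' : Fin t → Ω =>
      ind (∃ i j d, (fun (i : Fin t) T => some (e i T)) i (θ i) = some d ∧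
        (fun (i : Fin t) T => some (e' i T)) j (θ' j) = some d))) := by
    rw [EL_eq_EX]
    congr 1
    funext θ
    rw [EL_eq_EX]
    congr 1
    funext θ'
    congr 1
    simp only [hJ]
    apply propext
    have h1 : ∀ (θ : Fin t → Ω) (i : Fin t), (List.ofFn θ)[(i : ℕ)]? = some (θ i) := by
      intro θ i
      rw [List.getElem?_ofFn]
      simp
    constructor
    · rintro ⟨i, j, d, h2, h3⟩
      refine ⟨i, j, d, ?_, ?_⟩
      · rw [h1] at h2; exact h2
      · rw [h1] at h3; exact h3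
    · rintro ⟨i, j, d, h2, h3⟩
      refine ⟨i, j, d, ?_, ?_⟩
      · rw [h1]; exact h2
      · rw [h1]; exact h3
  rw [← hJeq] at hcol
  set bad : List Ω → Prop := fun l => ∃ τ ≤ t, ∃ z ∈ C τ, ¬ Reach M (l.take τ) x z with hbad
  set bad' : List Ω → Prop := fun l => ∃ τ ≤ t, ∃ z ∈ C' τ, ¬ Reach M (l.take τ) y z with hbad'
  have hmain : EL M.w t (fun l1 => EL M.w t (fun l2 => ind (J l1 l2))) - 2 * ε0 ≤
      pr M (2 * t) x {y} := by
    have h1 : pr M (2 * t) x {y} = EL M.w t (fun l1 => EL M.w t (fun l2 =>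
        ind (∃ y' ∈ ({y} : Set V), Reach M (l1 ++ l2.reverse) x y'))) := by
      unfold pr
      rw [two_mul, EL_append]
      congr 1
      funext l1
      exact (EL_reverse M.w t (fun l2 => ind (∃ y' ∈ ({y} : Set V),
        Reach M (l1 ++ l2) x y'))).symm
    rw [h1]
    have h2 : EL M.w t (fun l1 => EL M.w t (fun l2 => ind (J l1 l2))) ≤
        EL M.w t (fun l1 => EL M.w t (fun l2 =>
        (ind (∃ y' ∈ ({y} : Set V), Reach M (l1 ++ l2.reverse) x y') + ind (bad l1)) +
          ind (bad' l2))) := by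
      apply EL_mono M.w M.w0; intro l1 hl1
      apply EL_mono M.w M.w0; intro l2 hl2
      by_cases hj : J l1 l2
      · by_cases hb : bad l1
        · rw [ind_true hb]
          have := ind_nonneg (∃ y' ∈ ({y} : Set V), Reach M (l1 ++ l2.reverse) x y')
          have := ind_nonneg (bad' l2)
          have := ind_le_one (J l1 l2)
          linarith
        · by_cases hb' : bad' l2
          · rw [ind_true hb']
            have := ind_nonneg (∃ y' ∈ ({y} : Set V), Reach M (l1 ++ l2.reverse) x y')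
            have := ind_nonneg (bad l1)
            have := ind_le_one (J l1 l2)
            linarith
          · have : ∃ y' ∈ ({y} : Set V), Reach M (l1 ++ l2.reverse) x y' := by
              refine ⟨y, rfl, ?_⟩
              obtain ⟨i, j, d, h3, h4⟩ := hj
              obtain ⟨T, hT, h5⟩ := Option.map_eq_some_iff.mp h3
              obtain ⟨T', hT', h6⟩ := Option.map_eq_some_iff.mp h4
              have h7 := close_exit M x t C e l1 hl1 he hb i T hT
              have h8 := close_exit M y t C' e' l2 hl2 he' hb' j T' hT'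
              rw [Reach_append]
              refine ⟨d, ?_, ?_⟩
              · rw [← h5]; exact h7
              · rw [Reach_reverse, ← h6]; exact h8
            rw [ind_true this]
            have := ind_nonneg (bad l1)
            have := ind_nonneg (bad' l2)
            have := ind_le_one (J l1 l2)
            linarith
      · rw [ind_false hj]
        have := ind_nonneg (∃ y' ∈ ({y} : Set V), Reach M (l1 ++ l2.reverse) x y')
        have := ind_nonneg (bad l1)
        have := ind_nonneg (bad' l2)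
        linarith
    have h3 : EL M.w t (fun l1 => EL M.w t (fun l2 =>
        (ind (∃ y' ∈ ({y} : Set V), Reach M (l1 ++ l2.reverse) x y') + ind (bad l1)) +
          ind (bad' l2))) =
        EL M.w t (fun l1 => EL M.w t (fun l2 =>
        ind (∃ y' ∈ ({y} : Set V), Reach M (l1 ++ l2.reverse) x y'))) +
        EL M.w t (fun l1 => ind (bad l1)) + EL M.w t (fun l2 => ind (bad' l2)) := by
      have e1 : ∀ l1, EL M.w t (fun l2 =>
        (ind (∃ y' ∈ ({y} : Set V), Reach M (l1 ++ l2.reverse) x y') + ind (bad l1)) +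
          ind (bad' l2)) = (EL M.w t (fun l2 =>
        ind (∃ y' ∈ ({y} : Set V), Reach M (l1 ++ l2.reverse) x y')) + ind (bad l1)) +
          EL M.w t (fun l2 => ind (bad' l2)) := by
        intro l1
        rw [EL_add M.w t (fun l2 => ind (∃ y' ∈ ({y} : Set V), Reach M (l1 ++ l2.reverse) x y') +
          ind (bad l1)) (fun l2 => ind (bad' l2)),
          EL_add M.w t (fun l2 => ind (∃ y' ∈ ({y} : Set V), Reach M (l1 ++ l2.reverse) x y'))
          (fun _ => ind (bad l1)), EL_const M.w M.w1]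
      simp_rw [e1]
      rw [EL_add M.w t (fun l1 => EL M.w t (fun l2 =>
        ind (∃ y' ∈ ({y} : Set V), Reach M (l1 ++ l2.reverse) x y')) + ind (bad l1))
        (fun _ => EL M.w t (fun l2 => ind (bad' l2))),
        EL_add M.w t (fun l1 => EL M.w t (fun l2 =>
        ind (∃ y' ∈ ({y} : Set V), Reach M (l1 ++ l2.reverse) x y'))) (fun l1 => ind (bad l1)),
        EL_const M.w M.w1]
    rw [h3] at h2
    linarith
  have h9 : E / (E + 1 + 2 * K) ≤ EL M.w t (fun l1 => EL M.w t (fun l2 => ind (J l1 l2))) := by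
    rw [div_le_iff₀ (by linarith)]
    linarith
  linarith

/-- existence of a pair with a large inner product -/
theorem close_pair {m : ℕ} (U : Finset (Fin m)) (hU : U.Nonempty) (F : Fin m → V → ℝ)
    (hF0 : ∀ i y, 0 ≤ F i y) (t K : ℝ) (ht0 : 0 < t) (hFs : ∀ i ∈ U, ∑ y, F i y = t)
    (hFK : ∀ i ∈ U, ∀ y, F i y ≤ K + 1) (hn : 0 < Fintype.card V)
    (h1 : 2 * (Fintype.card V : ℝ) * (K + 1) ≤ U.card * t)
    (h2 : 9 * (Fintype.card V : ℝ) ≤ t ^ 2) :
    ∃ i ∈ U, ∃ j ∈ U, i ≠ j ∧ 4.5 ≤ ∑ y, F i y * F j y := by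
  by_contra hcon
  push Not at hcon
  have hn0 : (0 : ℝ) < Fintype.card V := by exact_mod_cast hn
  have hU0 : (1 : ℝ) ≤ U.card := by exact_mod_cast Finset.card_pos.mpr hU
  have e1 : (∑ y, ∑ i ∈ U, F i y) = U.card * t := by
    rw [Finset.sum_comm, Finset.sum_congr rfl (fun i hi => hFs i hi), Finset.sum_const,
      nsmul_eq_mul]
  have e2 : (U.card * t) ^ 2 ≤ Fintype.card V * ∑ y, (∑ i ∈ U, F i y) ^ 2 := by
    rw [← e1]
    have := sq_sum_le_card_mul_sum_sq (s := (Finset.univ : Finset V)) (f := fun y => ∑ i ∈ U, F i y)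
    simpa using this
  have e3 : ∑ y, (∑ i ∈ U, F i y) ^ 2 = ∑ i ∈ U, ∑ j ∈ U, ∑ y, F i y * F j y := by
    simp_rw [sq, Finset.sum_mul_sum]
    rw [Finset.sum_comm]
    apply Finset.sum_congr rfl; intro i _
    rw [Finset.sum_comm]
  have e4 : ∀ i ∈ U, ∑ j ∈ U, ∑ y, F i y * F j y ≤ (K + 1) * t + 4.5 * (U.card - 1) := by
    intro i hi
    rw [← Finset.add_sum_erase U _ hi]
    apply add_le_add
    · rw [← hFs i hi, Finset.mul_sum]
      apply Finset.sum_le_sum; intro y _
      exact mul_le_mul_of_nonneg_right (hFK i hi y) (hF0 i y)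
    · calc ∑ j ∈ U.erase i, ∑ y, F i y * F j y ≤ ∑ j ∈ U.erase i, (4.5 : ℝ) := by
            apply Finset.sum_le_sum; intro j hj
            rw [Finset.mem_erase] at hj
            exact (hcon i hi j hj.2 (Ne.symm hj.1)).le
        _ = 4.5 * (U.card - 1) := by
            rw [Finset.sum_const, nsmul_eq_mul, Finset.card_erase_of_mem hi,
              Nat.cast_sub (Finset.card_pos.mpr hU)]
            push_cast; ring
  have e5 : ∑ y, (∑ i ∈ U, F i y) ^ 2 ≤ U.card * ((K + 1) * t + 4.5 * (U.card - 1)) := by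
    rw [e3]
    calc _ ≤ ∑ i ∈ U, ((K + 1) * t + 4.5 * ((U.card : ℝ) - 1)) := Finset.sum_le_sum e4
      _ = _ := by rw [Finset.sum_const, nsmul_eq_mul]
  have e6 : (U.card * t) ^ 2 ≤ Fintype.card V * (U.card * ((K + 1) * t + 4.5 * (U.card - 1))) :=
    e2.trans (mul_le_mul_of_nonneg_left e5 hn0.le)
  set N : ℝ := (Fintype.card V : ℝ) with hN
  set u : ℝ := (U.card : ℝ) with hu
  have e7 : u * t ^ 2 ≤ N * ((K + 1) * t + 4.5 * (u - 1)) := by
    have : u * (u * t ^ 2) ≤ u * (N * ((K + 1) * t + 4.5 * (u - 1))) := by nlinarith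
    exact le_of_mul_le_mul_left this (by linarith)
  have e8 : N * (K + 1) * t ≤ u * t ^ 2 / 2 := by
    have := mul_le_mul_of_nonneg_right h1 ht0.le
    nlinarith
  have e9 : 4.5 * N * u ≤ u * t ^ 2 / 2 := by
    have := mul_le_mul_of_nonneg_left h2 (show 0 ≤ u by linarith)
    nlinarith
  nlinarith

theorem closeness (M : Mdl V Ω) {m : ℕ} (hm : 2 ≤ m) (hmn : m ≤ Fintype.card V) (x : Fin m → V) :
    ∃ i j, i ≠ j ∧ 1 / (4 + 4 * Kc (Fintype.card V) m) ≤
      pr M (2 * tcl (Fintype.card V) m) (x i) {x j} := by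
  classical
  set n : ℕ := Fintype.card V with hn
  set K : ℝ := Kc n m with hK
  set t : ℕ := tcl n m with ht
  set cap : ℕ := ⌈2 * (n : ℝ) / m⌉₊ + 1 with hcap
  obtain ⟨hK10, hK68, hε⟩ := close_num n m hm hmn
  rw [← hK, ← hcap] at hε
  rw [← hK] at hK10 hK68
  set ε0 : ℝ := (cap : ℝ) * Real.exp (-K) with hε0
  have hm0 : (0 : ℝ) < m := by exact_mod_cast (by omega : 0 < m)
  have hn0 : (0 : ℝ) < n := by exact_mod_cast (by omega : 0 < n)
  have hr1 : 1 ≤ (n : ℝ) / m := by
    rw [le_div_iff₀ hm0, one_mul]; exact_mod_cast hmn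
  have hr0 : 0 < (n : ℝ) / m := by linarith
  have hε00 : 0 ≤ ε0 := by positivity
  have hε1 : ε0 ≤ 1 / 4096 := by
    refine hε.trans ?_
    apply one_div_le_one_div_of_le (by norm_num)
    linarith
  have hq : 1 / (4 + 4 * K) ≤ 1 / 44 := one_div_le_one_div_of_le (by norm_num) (by linarith)
  have hbs := fun i => base_sets M (x i) K (by linarith) cap (by omega) t
  choose C e hC0 hCs hCc hCe hCF hCb using hbs
  have hmono : ∀ i, Monotone (C i) := fun i => monotone_nat_of_le_succ (hCs i)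
  -- case A
  by_cases hA : ∃ i, C i t = univ
  · obtain ⟨i, hi⟩ := hA
    obtain ⟨j, hj⟩ : ∃ j : Fin m, i ≠ j := by
      by_cases h0 : i = ⟨0, by omega⟩
      · refine ⟨⟨1, by omega⟩, ?_⟩
        rw [h0]; intro h; simp at h
      · exact ⟨⟨0, by omega⟩, h0⟩
    refine ⟨i, j, hj, ?_⟩
    have h1 := close_base M (x i) t (C i) ε0 (hCb i) (x j) (by rw [hi]; exact Finset.mem_univ _)
    have h2 := pr_mono M (show t ≤ 2 * t by omega) (x i) ({x j} : Set V)
    linarith
  push Not at hA
  set S : Finset (Fin m) := univ.filter (fun i => cap ≤ (C i t).card) with hS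
  set U : Finset (Fin m) := univ.filter (fun i => ¬ cap ≤ (C i t).card) with hU
  have hSU : S.card + U.card = m := by
    have := Finset.card_filter_add_card_filter_not (s := (univ : Finset (Fin m)))
      (fun i => cap ≤ (C i t).card)
    rw [Finset.card_univ, Fintype.card_fin] at this
    exact this
  by_cases hcase : m ≤ 2 * S.card
  · -- case B
    have hex : ∃ i ∈ S, ∃ j ∈ S, i ≠ j ∧ ¬ Disjoint (C i t) (C j t) := by
      by_contra hcon
      push Not at hcon
      have hd : (S.biUnion (fun i => C i t)).card = ∑ i ∈ S, (C i t).card :=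
        Finset.card_biUnion (fun i hi j hj hij => hcon i hi j hj hij)
      have h1 : (S.biUnion (fun i => C i t)).card ≤ n := Finset.card_le_univ _
      have h2 : S.card * cap ≤ ∑ i ∈ S, (C i t).card := by
        rw [← smul_eq_mul]
        apply Finset.card_nsmul_le_sum
        intro i hi
        exact (Finset.mem_filter.mp hi).2
      have h3 : (n : ℝ) < S.card * cap := by
        have h4 : 2 * (n : ℝ) / m ≤ ⌈2 * (n : ℝ) / m⌉₊ := Nat.le_ceil _
        have h5 : 2 * (n : ℝ) / m < cap := by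
          rw [hcap]; push_cast; linarith
        have h6 : (m : ℝ) ≤ 2 * S.card := by exact_mod_cast hcase
        have h7 : 2 * (n : ℝ) < cap * m := by
          rw [div_lt_iff₀ hm0] at h5; exact h5
        have h8 : (0 : ℝ) ≤ cap := Nat.cast_nonneg _
        nlinarith
      have h9 : n < S.card * cap := by exact_mod_cast h3
      omega
    obtain ⟨i, hi, j, hj, hij, hdis⟩ := hex
    obtain ⟨y, hyi, hyj⟩ := Finset.not_disjoint_iff.mp hdis
    refine ⟨i, j, hij, ?_⟩
    have h1 := close_base M (x i) t (C i) ε0 (hCb i) y hyi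
    have h2 := close_base M (x j) t (C j) ε0 (hCb j) y hyj
    rw [pr_symm] at h2
    have h3 := pr_mul M t t (x i) y ({x j} : Set V)
    rw [← two_mul] at h3
    have h4 : (1 - ε0) * (1 - ε0) ≤ pr M t (x i) {y} * pr M t y {x j} :=
      mul_le_mul h1 h2 (by linarith) (by linarith)
    nlinarith
  · -- case C
    push Not at hcase
    have hU2 : (m : ℝ) / 2 ≤ U.card := by
      have : m ≤ 2 * U.card := by omega
      have : (m : ℝ) ≤ 2 * U.card := by exact_mod_cast this
      linarith
    have hUne : U.Nonempty := Finset.card_pos.mp (by omega)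
    have htge : 16 * K * n / m + 3 * Real.sqrt n ≤ (t : ℝ) := by
      rw [ht]; unfold tcl; exact Nat.le_ceil _
    have hsq : 0 ≤ Real.sqrt n := Real.sqrt_nonneg _
    have ht1 : 16 * K * n / m ≤ (t : ℝ) := by linarith
    have h16 : 0 < 16 * K * n / m := by positivity
    have ht0 : 0 < (t : ℝ) := by linarith
    set F : Fin m → V → ℝ := fun i y => ∑ τ ∈ range t, P1 M (fun T => e i τ T = y) with hF
    have hP0 : ∀ p : Ω → Prop, 0 ≤ P1 M p := fun p =>
      Finset.sum_nonneg (fun T _ => mul_nonneg (M.w0 T) (ind_nonneg _))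
    have hF0 : ∀ i y, 0 ≤ F i y := fun i y => Finset.sum_nonneg (fun τ _ => hP0 _)
    have hFs : ∀ i, ∑ y, F i y = t := by
      intro i
      simp only [hF]
      rw [Finset.sum_comm]
      have : ∀ τ ∈ range t, ∑ y, P1 M (fun T => e i τ T = y) = 1 := by
        intro τ _
        unfold P1
        rw [Finset.sum_comm]
        have h1 : ∀ T, ∑ y, M.w T * ind (e i τ T = y) = M.w T := by
          intro T
          rw [Finset.sum_eq_single (e i τ T)]
          · rw [ind_true rfl, mul_one]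
          · intro y _ h
            rw [ind_false (fun h' => h h'.symm), mul_zero]
          · intro h; exact absurd (Finset.mem_univ _) h
        simp_rw [h1]
        exact M.w1
      rw [Finset.sum_congr rfl this]
      simp
    have hFK : ∀ i ∈ U, ∀ y, F i y ≤ K + 1 := by
      intro i hi y
      have h1 : (C i t).card < cap := not_le.mp (Finset.mem_filter.mp hi).2
      exact hCF i h1 (hA i) y
    obtain ⟨i, hi, j, hj, hij, hE⟩ := close_pair U hUne F hF0 t K ht0 (fun i _ => hFs i) hFK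
      (by exact_mod_cast hn0) (by
        have h1 : 8 * K * n ≤ U.card * t := by
          calc 8 * K * n = (m : ℝ) / 2 * (16 * K * n / m) := by field_simp; norm_num
            _ ≤ U.card * t := mul_le_mul hU2 ht1 h16.le (Nat.cast_nonneg _)
        have h2 : 2 * (n : ℝ) * (K + 1) ≤ 8 * K * n := by nlinarith
        rw [← hn]
        linarith) (by
        have h1 : 3 * Real.sqrt n ≤ (t : ℝ) := by linarith
        have h2 : (3 * Real.sqrt n) ^ 2 ≤ (t : ℝ) ^ 2 := pow_le_pow_left₀ (by positivity) h1 2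
        rw [mul_pow, Real.sq_sqrt hn0.le] at h2
        rw [← hn]
        linarith)
    refine ⟨i, j, hij, ?_⟩
    have hCt : ∀ i τ, τ < t → C i τ ≠ univ := by
      intro i τ hτ h
      apply hA i
      rw [← Finset.univ_subset_iff, ← h]
      exact hmono i hτ.le
    have hcc := close_coll M (x i) (x j) t (C i) (C j) (e i) (e j) ε0
      (fun τ T hτ => (hCe i τ T (hCt i τ hτ)).2) (fun τ T hτ => (hCe j τ T (hCt j τ hτ)).2)
      (hCb i) (hCb j) (K + 1) (by linarith) (hFK i hi) (hFK j hj) (∑ y, F i y * F j y) rfl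
      (by linarith)
    refine le_trans ?_ hcc
    set E : ℝ := ∑ y, F i y * F j y with hEdef
    have h1 : 4.5 / (2 * K + 7.5) ≤ E / (E + 1 + 2 * (K + 1)) := by
      rw [div_le_div_iff₀ (by linarith) (by linarith)]
      nlinarith
    have h2 : 1 / (68 * ((n : ℝ) / m)) ≤ 1 / K := one_div_le_one_div_of_le (by linarith) hK68
    have h3 : 2 * ε0 ≤ 1 / K := by
      have : 2 * (1 / (4096 * ((n : ℝ) / m))) ≤ 1 / (68 * ((n : ℝ) / m)) := by
        have e1 : 2 * (1 / (4096 * ((n : ℝ) / m))) = 1 / (2048 * ((n : ℝ) / m)) := by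
          field_simp; norm_num
        rw [e1]
        apply one_div_le_one_div_of_le (by positivity)
        linarith
      linarith
    have h4 : 1 / (4 + 4 * K) + 1 / K ≤ 4.5 / (2 * K + 7.5) := by
      have hK0 : 0 < K := by linarith
      rw [div_add_div _ _ (by positivity) (by positivity), div_le_div_iff₀ (by positivity)
        (by positivity)]
      nlinarith [mul_pos hK0 hK0, mul_pos (mul_pos hK0 hK0) hK0]
    linarith

end CLOSE

end Pool.Agent.RST
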