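import Mathlib
import Pool.Agent.Lib_helper42.RST.Defs
import Pool.Agent.Lib_helper42.RST.Stmt
import Pool.Agent.Lib_helper42.RSTF.Base
import Pool.Agent.Lib_helper42.RSTF.CLOSE
import Pool.Agent.Lib_helper42.RSTF.HT
import Pool.Agent.Lib_helper42.RSTF.PR

/- block LEGa proved by helper85 -/

set_option autoImplicit false

open Finset

namespace Pool.Agent.RST

/-- basic logarithm estimate, uniform in `m` -/
theorem LEG_Kc_le {n m : ℕ} (hm : 1 ≤ m) (hmn : m ≤ n) :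
    4 ≤ Kc n m ∧ Kc n m ≤ 2 * Real.log (32 * n) + 4 := by
  have hm' : (1 : ℝ) ≤ m := by exact_mod_cast hm
  have hmn' : (m : ℝ) ≤ n := by exact_mod_cast hmn
  have hn' : (1 : ℝ) ≤ n := hm'.trans hmn'
  unfold Kc
  constructor
  · have : 0 ≤ Real.log (32 * n / m) := by
      apply Real.log_nonneg
      rw [le_div_iff₀ (by linarith)]
      linarith
    linarith
  · have : Real.log (32 * n / m) ≤ Real.log (32 * n) := by
      apply Real.log_le_log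
      · positivity
      · exact div_le_self (by positivity) hm'
    linarith

/-- for large `n`, `2 log (32 n) + 4 ≤ n ^ 0.005` -/
theorem LEG_log_small : ∃ N0 : ℕ, ∀ n : ℕ, N0 ≤ n →
    2 * Real.log (32 * n) + 4 ≤ (n : ℝ) ^ (0.005 : ℝ) := by
  have h1 : (fun x : ℝ => Real.log x) =o[Filter.atTop] fun x => x ^ (0.005 : ℝ) :=
    isLittleO_log_rpow_atTop (by norm_num)
  have h2 := h1.def (c := 1 / 4) (by norm_num)
  have h3 : Filter.Tendsto (fun x : ℝ => x ^ (0.005 : ℝ)) Filter.atTop Filter.atTop :=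
    tendsto_rpow_atTop (by norm_num)
  have h4 := h3.eventually_ge_atTop (2 * (2 * Real.log 32 + 4))
  have h5 := (h2.and h4).and (Filter.eventually_ge_atTop (1 : ℝ))
  obtain ⟨N, hN⟩ := Filter.eventually_atTop.1 (tendsto_natCast_atTop_atTop.eventually h5)
  refine ⟨N, fun n hn => ?_⟩
  obtain ⟨⟨ha, hb⟩, hc⟩ := hN n hn
  have hn1 : (0 : ℝ) < n := by linarith
  rw [Real.norm_of_nonneg (Real.log_nonneg hc),
    Real.norm_of_nonneg (Real.rpow_nonneg hn1.le _)] at ha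
  rw [Real.log_mul (by norm_num) hn1.ne']
  linarith

theorem LEG_tcl_le {n m : ℕ} (hn : 1 ≤ n) (hm : 1 ≤ m) (hmn : m ≤ n) :
    (tcl n m : ℝ) ≤ 16 * Kc n m * n / m + 4 * Real.sqrt n := by
  have hn' : (1 : ℝ) ≤ n := by exact_mod_cast hn
  have h1 : 1 ≤ Real.sqrt n := Real.one_le_sqrt.2 hn'
  have hK := (LEG_Kc_le hm hmn).1
  unfold tcl
  have h2 : (0 : ℝ) ≤ 16 * Kc n m * n / m + 3 * Real.sqrt n := by positivity
  have := (Nat.ceil_lt_add_one h2).le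
  linarith

/-- the cost of a leg for not too small `m` -/
theorem LEG_cost_small : ∃ N0 : ℕ, ∀ n : ℕ, N0 ≤ n → ∀ m : ℕ, 1 ≤ m → m ≤ n →
    (n : ℝ) ^ (0.12 : ℝ) ≤ m →
    8 * (tcl n m : ℝ) * (4 + 4 * Kc n m) ≤ (n : ℝ) ^ (0.9 : ℝ) / 2 := by
  obtain ⟨N1, h1⟩ := LEG_log_small
  have h3 : Filter.Tendsto (fun x : ℝ => x ^ (0.005 : ℝ)) Filter.atTop Filter.atTop :=
    tendsto_rpow_atTop (by norm_num)
  have h4 := (h3.eventually_ge_atTop 2560).and (Filter.eventually_ge_atTop (1 : ℝ))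
  obtain ⟨N2, h2⟩ := Filter.eventually_atTop.1 (tendsto_natCast_atTop_atTop.eventually h4)
  refine ⟨max N1 N2, fun n hn m hm hmn hnm => ?_⟩
  have hlog := h1 n (le_trans (le_max_left _ _) hn)
  obtain ⟨hbig, hn1⟩ := h2 n (le_trans (le_max_right _ _) hn)
  have hn1' : 1 ≤ n := by exact_mod_cast hn1
  have hn0 : (0 : ℝ) < n := by linarith
  obtain ⟨hK4, hK⟩ := LEG_Kc_le hm hmn
  have hm0 : (0 : ℝ) < m := by exact_mod_cast (show 0 < m by omega)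
  set K := Kc n m
  set κ : ℝ := (n : ℝ) ^ (0.005 : ℝ) with hκ
  have hκ1 : 2560 ≤ κ := hbig
  have hKκ : K ≤ κ := hK.trans hlog
  have htcl := LEG_tcl_le hn1' hm hmn
  -- n / m ≤ n ^ 0.88
  have hdiv : (n : ℝ) / m ≤ (n : ℝ) ^ (0.88 : ℝ) := by
    rw [div_le_iff₀ hm0]
    calc (n : ℝ) = (n : ℝ) ^ (0.88 : ℝ) * (n : ℝ) ^ (0.12 : ℝ) := by
          rw [← Real.rpow_add hn0]; norm_num
      _ ≤ (n : ℝ) ^ (0.88 : ℝ) * m := by gcongr
  have hsq : Real.sqrt n ≤ (n : ℝ) ^ (0.88 : ℝ) := by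
    rw [Real.sqrt_eq_rpow]
    exact Real.rpow_le_rpow_of_exponent_le hn1 (by norm_num)
  have hpos : (0 : ℝ) < (n : ℝ) ^ (0.88 : ℝ) := Real.rpow_pos_of_pos hn0 _
  have ht2 : (tcl n m : ℝ) ≤ 17 * κ * (n : ℝ) ^ (0.88 : ℝ) := by
    have e1 : 16 * K * n / m = 16 * K * (n / m) := by ring
    have e2 : 16 * K * (n / m) ≤ 16 * κ * (n : ℝ) ^ (0.88 : ℝ) := by gcongr
    have e3 : 4 * Real.sqrt n ≤ κ * (n : ℝ) ^ (0.88 : ℝ) := by
      have : 4 ≤ κ := by linarith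
      gcongr
    calc (tcl n m : ℝ) ≤ 16 * K * n / m + 4 * Real.sqrt n := htcl
      _ ≤ 16 * κ * (n : ℝ) ^ (0.88 : ℝ) + κ * (n : ℝ) ^ (0.88 : ℝ) := by rw [e1]; linarith
      _ = 17 * κ * (n : ℝ) ^ (0.88 : ℝ) := by ring
  have ht0 : (0 : ℝ) ≤ tcl n m := Nat.cast_nonneg _
  have hfin : 8 * (tcl n m : ℝ) * (4 + 4 * K) ≤ 8 * (17 * κ * (n : ℝ) ^ (0.88 : ℝ)) * (5 * κ) := by
    have : 4 + 4 * K ≤ 5 * κ := by linarith
    gcongr
  have hpow : (n : ℝ) ^ (0.9 : ℝ) = κ ^ 4 * (n : ℝ) ^ (0.88 : ℝ) := by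
    rw [hκ, ← Real.rpow_natCast, ← Real.rpow_mul hn0.le, ← Real.rpow_add hn0]
    norm_num
  rw [hpow]
  have h680 : 680 * κ ^ 2 ≤ κ ^ 4 / 2 := by
    have hk2 : 1360 ≤ κ ^ 2 := by nlinarith
    have e : κ ^ 4 / 2 - 680 * κ ^ 2 = κ ^ 2 * (κ ^ 2 - 1360) / 2 := by ring
    have : 0 ≤ κ ^ 2 * (κ ^ 2 - 1360) / 2 := by
      have := sq_nonneg κ
      have : 0 ≤ κ ^ 2 - 1360 := by linarith
      positivity
    linarith
  calc 8 * (tcl n m : ℝ) * (4 + 4 * K) ≤ 8 * (17 * κ * (n : ℝ) ^ (0.88 : ℝ)) * (5 * κ) := hfin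
    _ = 680 * κ ^ 2 * (n : ℝ) ^ (0.88 : ℝ) := by ring
    _ ≤ κ ^ 4 / 2 * (n : ℝ) ^ (0.88 : ℝ) := by gcongr
    _ = κ ^ 4 * (n : ℝ) ^ (0.88 : ℝ) / 2 := by ring

theorem leg_close : ∃ N0 : ℕ, ∀ (V Ω : Type) [Fintype Ω] [Fintype V] [DecidableEq V] (M : Mdl V Ω)
    (Φ : V → Finset V → ℝ), N0 ≤ Fintype.card V → Calc M (1 / Fintype.card V) Φ →
    ∀ m, 2 ≤ m → m ≤ Fintype.card V → ∀ x : Fin m → V, ∃ i j, i ≠ j ∧
      Hit Φ (1 / Fintype.card V) (x i) {x j} (cst (Fintype.card V) m) ∧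
      Hit Φ (1 / Fintype.card V) (x j) {x i} (cst (Fintype.card V) m) := by
  obtain ⟨N1, h1⟩ := LEG_cost_small
  refine ⟨max N1 1, fun V Ω _ _ _ M Φ hN C m hm hmn x => ?_⟩
  set n := Fintype.card V with hn
  have hn1 : 1 ≤ n := le_trans (le_max_right _ _) hN
  have hn1' : (1 : ℝ) ≤ n := by exact_mod_cast hn1
  have hlam : (0 : ℝ) ≤ 1 / n := by positivity
  by_cases hsm : (m : ℝ) < (n : ℝ) ^ (0.12 : ℝ)
  · have hc : cst n m = n := by unfold cst; rw [if_pos hsm]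
    refine ⟨⟨0, by omega⟩, ⟨1, by omega⟩, by simp, ?_, ?_⟩ <;> rw [hc] <;> exact hit_det C hlam _ _
  · have hc : cst n m = 8 * (tcl n m : ℝ) * (4 + 4 * Kc n m) := by unfold cst; rw [if_neg hsm]
    obtain ⟨i, j, hij, hp⟩ := closeness M hm hmn x
    rw [← hn] at hp
    have hK4 := (LEG_Kc_le (show 1 ≤ m by omega) hmn).1
    have hb := h1 n (le_trans (le_max_left _ _) hN) m (by omega) hmn (not_lt.1 hsm)
    have hp0 : (0 : ℝ) < 1 / (4 + 4 * Kc n m) := by positivity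
    have hn9 : (n : ℝ) ^ (0.9 : ℝ) ≤ n := by
      calc (n : ℝ) ^ (0.9 : ℝ) ≤ (n : ℝ) ^ (1 : ℝ) :=
            Real.rpow_le_rpow_of_exponent_le hn1' (by norm_num)
        _ = n := Real.rpow_one _
    have hs : (1 / (n : ℝ)) * ((2 * tcl n m : ℕ) : ℝ) ≤ 1 / (4 + 4 * Kc n m) / 4 := by
      rw [div_div, one_div, inv_mul_eq_div, div_le_div_iff₀ (by linarith) (by positivity)]
      push_cast
      nlinarith
    have hcost : 4 * ((2 * tcl n m : ℕ) : ℝ) / (1 / (4 + 4 * Kc n m)) = cst n m := by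
      rw [hc]; push_cast; field_simp; ring
    refine ⟨i, j, hij, ?_, ?_⟩
    · have := hit_leg C hlam hp0 hp hs
      rwa [hcost] at this
    · rw [pr_symm] at hp
      have := hit_leg C hlam hp0 hp hs
      rwa [hcost] at this

end Pool.Agent.RST
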