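import Mathlib
import Pool.Agent.Lib_helper42.RST.Defs
import Pool.Agent.Lib_helper42.RST.Stmt
import Pool.Agent.Lib_helper42.RSTF.Base
import Pool.Agent.Lib_helper42.RSTF.HT
import Pool.Agent.Lib_helper42.RSTF.LEGa

/- block LEGb proved by helper85 -/

set_option autoImplicit false

open Finset

namespace Pool.Agent.RST

theorem LEGb_rpow_small : ∃ N0 : ℕ, ∀ n : ℕ, N0 ≤ n → (n : ℝ) ^ (0.12 : ℝ) + 2 ≤ n := by
  have h3 : Filter.Tendsto (fun x : ℝ => x ^ (0.88 : ℝ)) Filter.atTop Filter.atTop :=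
    tendsto_rpow_atTop (by norm_num)
  have h4 := (h3.eventually_ge_atTop 3).and (Filter.eventually_ge_atTop (1 : ℝ))
  obtain ⟨N2, h2⟩ := Filter.eventually_atTop.1 (tendsto_natCast_atTop_atTop.eventually h4)
  refine ⟨N2, fun n hn => ?_⟩
  obtain ⟨hb, h1⟩ := h2 n hn
  have hn0 : (0 : ℝ) < n := by linarith
  have hp : 1 ≤ (n : ℝ) ^ (0.12 : ℝ) := Real.one_le_rpow h1 (by norm_num)
  have e : (n : ℝ) = (n : ℝ) ^ (0.88 : ℝ) * (n : ℝ) ^ (0.12 : ℝ) := by
    rw [← Real.rpow_add hn0]; norm_num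
  nlinarith

theorem clusters : ∃ N0 : ℕ, ∀ (V Ω : Type) [Fintype Ω] [Fintype V] [DecidableEq V] (M : Mdl V Ω)
    (Φ : V → Finset V → ℝ), N0 ≤ Fintype.card V → Calc M (1 / Fintype.card V) Φ →
    ∃ cl : V → V, ((univ.image cl).card : ℝ) ≤ (Fintype.card V : ℝ) ^ (0.12 : ℝ) + 2 ∧
      ∀ u v, cl u = cl v → Hit Φ (1 / Fintype.card V) u {v} ((Fintype.card V : ℝ) ^ (0.9 : ℝ)) := by
  classical
  obtain ⟨N1, h1⟩ := LEG_cost_small
  obtain ⟨N2, h2⟩ := leg_close
  obtain ⟨N3, h3⟩ := LEGb_rpow_small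
  refine ⟨max (max N1 N2) (max N3 1), fun V Ω _ _ _ M Φ hN C => ?_⟩
  set n := Fintype.card V with hn
  have hN1 : N1 ≤ n := le_trans (le_trans (le_max_left _ _) (le_max_left _ _)) hN
  have hN2 : N2 ≤ n := le_trans (le_trans (le_max_right _ _) (le_max_left _ _)) hN
  have hN3 : N3 ≤ n := le_trans (le_trans (le_max_left _ _) (le_max_right _ _)) hN
  have hn1 : 1 ≤ n := le_trans (le_trans (le_max_right _ _) (le_max_right _ _)) hN
  have hn1' : (1 : ℝ) ≤ n := by exact_mod_cast hn1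
  have hlam : (0 : ℝ) ≤ 1 / n := by positivity
  set m0 : ℕ := ⌈(n : ℝ) ^ (0.12 : ℝ)⌉₊ + 1 with hm0
  have hp1 : 1 ≤ (n : ℝ) ^ (0.12 : ℝ) := Real.one_le_rpow hn1' (by norm_num)
  have hceil := Nat.le_ceil ((n : ℝ) ^ (0.12 : ℝ))
  have hceil2 := Nat.ceil_lt_add_one (show (0 : ℝ) ≤ (n : ℝ) ^ (0.12 : ℝ) by positivity)
  have hm2 : 2 ≤ m0 := by
    have : 1 ≤ ⌈(n : ℝ) ^ (0.12 : ℝ)⌉₊ := Nat.one_le_ceil_iff.2 (by linarith)
    omega
  have hm0r : (m0 : ℝ) = (⌈(n : ℝ) ^ (0.12 : ℝ)⌉₊ : ℝ) + 1 := by rw [hm0]; push_cast; ring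
  have hmn : m0 ≤ n := by
    have := h3 n hN3
    have h' : (m0 : ℝ) ≤ n := by rw [hm0r]; linarith
    exact_mod_cast h'
  have hmlow : (n : ℝ) ^ (0.12 : ℝ) ≤ m0 := by rw [hm0r]; linarith
  have hcost := h1 n hN1 m0 (by omega) hmn hmlow
  have hcst : cst n m0 = 8 * (tcl n m0 : ℝ) * (4 + 4 * Kc n m0) := by
    unfold cst; rw [if_neg (not_lt.2 hmlow)]
  rw [← hcst] at hcost
  set D := cst n m0 with hD
  have hK4 := (LEG_Kc_le (show 1 ≤ m0 by omega) hmn).1
  have hD0 : 0 ≤ D := by rw [hcst]; positivity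
  -- closeness relation
  let Cl : V → V → Prop := fun u v => Hit Φ (1 / n) u {v} D ∧ Hit Φ (1 / n) v {u} D
  have hClself : ∀ u, Cl u u := fun u =>
    ⟨hit_self hlam (Set.mem_singleton u) hD0, hit_self hlam (Set.mem_singleton u) hD0⟩
  have hClsymm : ∀ u v, Cl u v → Cl v u := fun u v h => ⟨h.2, h.1⟩
  -- a maximal family of pairwise non-close vertices
  let F : Finset (Finset V) := univ.filter (fun Z => ∀ u ∈ Z, ∀ v ∈ Z, u ≠ v → ¬ Cl u v)
  have hF : F.Nonempty := ⟨∅, by simp [F]⟩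
  obtain ⟨Z, hZF, hZmax⟩ := Finset.exists_max_image F Finset.card hF
  have hZ : ∀ u ∈ Z, ∀ v ∈ Z, u ≠ v → ¬ Cl u v := by simpa [F] using hZF
  have hZcard : Z.card < m0 := by
    by_contra hcon
    push Not at hcon
    have e : Fin Z.card ≃ Z := Z.equivFin.symm
    let x : Fin m0 → V := fun i => (e (Fin.castLE hcon i) : V)
    obtain ⟨i, j, hij, hc1, hc2⟩ := h2 V Ω M Φ hN2 C m0 hm2 hmn x
    have hxij : x i ≠ x j := by
      intro h
      apply hij
      have := e.injective (Subtype.ext h)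
      exact Fin.castLE_injective hcon this
    exact hZ (x i) (e _).2 (x j) (e _).2 hxij ⟨hc1, hc2⟩
  have hcov : ∀ u, ∃ z ∈ Z, Cl u z := by
    intro u
    by_contra hcon
    push Not at hcon
    have huZ : u ∉ Z := fun h => hcon u h (hClself u)
    have hins : insert u Z ∈ F := by
      simp only [F, mem_filter, mem_univ, true_and]
      intro a ha b hb hab
      rcases mem_insert.1 ha with h1a | h1a <;> rcases mem_insert.1 hb with h1b | h1b
      · exact absurd (h1a.trans h1b.symm) hab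
      · rw [h1a]; exact hcon b h1b
      · rw [h1b]; exact fun h => hcon a h1a (hClsymm _ _ h)
      · exact hZ a h1a b h1b hab
    have := hZmax _ hins
    rw [card_insert_of_notMem huZ] at this
    omega
  choose cl hclZ hclC using hcov
  refine ⟨cl, ?_, ?_⟩
  · have : (univ.image cl).card ≤ Z.card := by
      apply card_le_card
      intro a ha
      obtain ⟨u, _, rfl⟩ := mem_image.1 ha
      exact hclZ u
    have h' : (univ.image cl).card ≤ ⌈(n : ℝ) ^ (0.12 : ℝ)⌉₊ := by omega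
    have h'' : ((univ.image cl).card : ℝ) ≤ (⌈(n : ℝ) ^ (0.12 : ℝ)⌉₊ : ℝ) := by exact_mod_cast h'
    linarith
  · intro u v huv
    have a1 := (hclC u).1
    have a2 := (hclC v).2
    rw [← huv] at a2
    have := hit_trans hlam hD0 a1 (W' := {v}) (c' := D) (by
      intro w hw
      rw [Set.mem_singleton_iff] at hw
      rw [hw]; exact a2)
    exact hit_mono hlam this (by linarith)

end Pool.Agent.RST
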