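import Mathlib
import Pool.Agent.Lib_helper42.RST.Defs
import Pool.Agent.Lib_helper42.RST.Stmt
import Pool.Agent.Lib_helper42.RSTF.Base
import Pool.Agent.Lib_helper42.RSTF.LEGa

/- block LEGc proved by helper85 -/

set_option autoImplicit false

open Finset

namespace Pool.Agent.RST

theorem LEGc_sum_inv_sqrt (r : ℕ) : ∑ j ∈ Icc 2 r, 1 / Real.sqrt (j : ℝ) ≤ 2 * Real.sqrt r := by
  induction r with
  | zero => simp
  | succ r ih =>
    rcases Nat.lt_or_ge r 1 with hr | hr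
    · have : r = 0 := by omega
      subst this
      simp
    · rw [Finset.sum_Icc_succ_top (by omega : 2 ≤ r + 1)]
      have h0 : (0 : ℝ) < ((r + 1 : ℕ) : ℝ) := by positivity
      have hs1 : 0 < Real.sqrt ((r + 1 : ℕ) : ℝ) := Real.sqrt_pos.2 h0
      have hs0 : 0 ≤ Real.sqrt (r : ℝ) := Real.sqrt_nonneg _
      have hle : Real.sqrt (r : ℝ) ≤ Real.sqrt ((r + 1 : ℕ) : ℝ) :=
        Real.sqrt_le_sqrt (by push_cast; linarith)
      have e1 : Real.sqrt ((r + 1 : ℕ) : ℝ) ^ 2 = ((r + 1 : ℕ) : ℝ) := Real.sq_sqrt h0.le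
      have e2 : Real.sqrt (r : ℝ) ^ 2 = (r : ℝ) := Real.sq_sqrt (Nat.cast_nonneg _)
      have key : 1 / Real.sqrt ((r + 1 : ℕ) : ℝ) ≤
          2 * Real.sqrt ((r + 1 : ℕ) : ℝ) - 2 * Real.sqrt (r : ℝ) := by
        rw [div_le_iff₀ hs1]
        push_cast at e1 ⊢
        push_cast at hle hs1
        nlinarith [sq_nonneg (Real.sqrt ((r : ℝ) + 1) - Real.sqrt (r : ℝ))]
      linarith

theorem LEGc_card_small (n : ℕ) (hn : 1 ≤ n) (r : ℕ) :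
    (((Icc 2 r).filter (fun j : ℕ => (j : ℝ) < (n : ℝ) ^ (0.12 : ℝ))).card : ℝ) ≤
      (n : ℝ) ^ (0.12 : ℝ) := by
  have hp : 0 ≤ (n : ℝ) ^ (0.12 : ℝ) := by positivity
  have hsub : (Icc 2 r).filter (fun j : ℕ => (j : ℝ) < (n : ℝ) ^ (0.12 : ℝ)) ⊆
      Icc 1 ⌊(n : ℝ) ^ (0.12 : ℝ)⌋₊ := by
    intro j hj
    rw [mem_filter, mem_Icc] at hj
    rw [mem_Icc]
    exact ⟨by omega, Nat.le_floor hj.2.le⟩
  have h1 := card_le_card hsub
  rw [Nat.card_Icc] at h1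
  have h2 : (((Icc 2 r).filter (fun j : ℕ => (j : ℝ) < (n : ℝ) ^ (0.12 : ℝ))).card : ℝ) ≤
      (⌊(n : ℝ) ^ (0.12 : ℝ)⌋₊ : ℝ) := by
    exact_mod_cast (by omega)
  exact h2.trans (Nat.floor_le hp)

/-- bound of one leg -/
theorem LEGc_leg : ∃ N0 : ℕ, ∀ n : ℕ, N0 ≤ n → ∀ j : ℕ, 1 ≤ j → j ≤ n →
    (n : ℝ) ^ (0.12 : ℝ) ≤ j →
    8 * (tcl n j : ℝ) * (4 + 4 * Kc n j) ≤
      (1024 * (n : ℝ) ^ (0.95 : ℝ) + 1536 * n) * (1 / Real.sqrt j) := by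
  obtain ⟨N1, h1⟩ := LEG_log_small
  refine ⟨max N1 1, fun n hn j hj hjn hnj => ?_⟩
  have hlog := h1 n (le_trans (le_max_left _ _) hn)
  have hn1 : 1 ≤ n := le_trans (le_max_right _ _) hn
  have hn1' : (1 : ℝ) ≤ n := by exact_mod_cast hn1
  have hn0 : (0 : ℝ) < n := by linarith
  obtain ⟨hK4, hK⟩ := LEG_Kc_le hj hjn
  have hj1 : (1 : ℝ) ≤ j := by exact_mod_cast hj
  have hj0 : (0 : ℝ) < j := by linarith
  have hjn' : (j : ℝ) ≤ n := by exact_mod_cast hjn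
  have htcl := LEG_tcl_le hn1 hj hjn
  set K := Kc n j with hKdef
  set κ : ℝ := (n : ℝ) ^ (0.005 : ℝ) with hκ
  have hKκ : K ≤ κ := hK.trans hlog
  have hκ4 : 4 ≤ κ := hK4.trans hKκ
  set s := Real.sqrt (j : ℝ) with hs
  have hs0 : 0 < s := Real.sqrt_pos.2 hj0
  have hs2 : s ^ 2 = j := Real.sq_sqrt hj0.le
  have hs1 : 1 ≤ s := Real.one_le_sqrt.2 hj1
  set q := Real.sqrt (n : ℝ) with hq
  have hq2 : q ^ 2 = n := Real.sq_sqrt hn0.le
  have hq1 : 1 ≤ q := Real.one_le_sqrt.2 hn1'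
  have hsq : s ≤ q := Real.sqrt_le_sqrt hjn'
  -- (a) n / j ≤ n ^ 0.94 / s
  have hs12 : (n : ℝ) ^ (0.06 : ℝ) ≤ s := by
    rw [hs, Real.sqrt_eq_rpow]
    calc (n : ℝ) ^ (0.06 : ℝ) = ((n : ℝ) ^ (0.12 : ℝ)) ^ (1 / 2 : ℝ) := by
          rw [← Real.rpow_mul hn0.le]; norm_num
      _ ≤ (j : ℝ) ^ (1 / 2 : ℝ) := Real.rpow_le_rpow (by positivity) hnj (by norm_num)
  have ha : (n : ℝ) / j ≤ (n : ℝ) ^ (0.94 : ℝ) * (1 / s) := by
    rw [div_le_iff₀ hj0]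
    have e : (n : ℝ) = (n : ℝ) ^ (0.94 : ℝ) * (n : ℝ) ^ (0.06 : ℝ) := by
      rw [← Real.rpow_add hn0]; norm_num
    have e2 : (n : ℝ) ^ (0.94 : ℝ) * (1 / s) * j = (n : ℝ) ^ (0.94 : ℝ) * s := by
      rw [← hs2]; field_simp
    rw [e2]
    calc (n : ℝ) = (n : ℝ) ^ (0.94 : ℝ) * (n : ℝ) ^ (0.06 : ℝ) := e
      _ ≤ (n : ℝ) ^ (0.94 : ℝ) * s := by gcongr
  -- (b) 1 + K ≤ 12 q / s
  have hb : 1 + K ≤ 12 * (q / s) := by
    have hy : 1 ≤ q / s := by rw [le_div_iff₀ hs0]; linarith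
    have hqs0 : 0 < q / s := by linarith
    have e1 : (32 : ℝ) * n / j = 32 * (q / s) ^ 2 := by
      rw [← hq2, ← hs2]; field_simp
    have e2 : K = 2 * (Real.log 32 + 2 * Real.log (q / s)) + 4 := by
      rw [hKdef, Kc, e1, Real.log_mul (by norm_num) (by positivity), Real.log_pow]
      push_cast; ring
    have e3 : Real.log (q / s) ≤ q / s - 1 := Real.log_le_sub_one_of_pos hqs0
    have e4 : Real.log 32 ≤ 3.5 := by
      have : (32 : ℝ) = 2 ^ 5 := by norm_num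
      rw [this, Real.log_pow]
      have := Real.log_two_lt_d9
      push_cast
      linarith
    rw [e2]
    linarith
  -- the total
  have hKK : K * (1 + K) ≤ 2 * κ ^ 2 := by nlinarith
  have ht0 : (0 : ℝ) ≤ tcl n j := Nat.cast_nonneg _
  have e0 : 8 * (tcl n j : ℝ) * (4 + 4 * K) ≤ 8 * (16 * K * n / j + 4 * q) * (4 + 4 * K) := by
    gcongr
  have hA : 512 * (K * (1 + K)) * ((n : ℝ) / j) ≤
      512 * (2 * κ ^ 2) * ((n : ℝ) ^ (0.94 : ℝ) * (1 / s)) := by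
    gcongr
  have hB : 128 * (1 + K) * q ≤ 128 * (12 * (q / s)) * q := by gcongr
  have hpow : κ ^ 2 * (n : ℝ) ^ (0.94 : ℝ) = (n : ℝ) ^ (0.95 : ℝ) := by
    rw [hκ, ← Real.rpow_natCast, ← Real.rpow_mul hn0.le, ← Real.rpow_add hn0]
    norm_num
  calc 8 * (tcl n j : ℝ) * (4 + 4 * K) ≤ 8 * (16 * K * n / j + 4 * q) * (4 + 4 * K) := e0
    _ = 512 * (K * (1 + K)) * ((n : ℝ) / j) + 128 * (1 + K) * q := by ring
    _ ≤ 512 * (2 * κ ^ 2) * ((n : ℝ) ^ (0.94 : ℝ) * (1 / s)) + 128 * (12 * (q / s)) * q := by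
        linarith
    _ = (1024 * (κ ^ 2 * (n : ℝ) ^ (0.94 : ℝ)) + 1536 * q ^ 2) * (1 / s) := by ring
    _ = (1024 * (n : ℝ) ^ (0.95 : ℝ) + 1536 * n) * (1 / s) := by rw [hpow, hq2]

theorem tour_asymp : ∀ δ : ℝ, 0 < δ → ∃ η : ℝ, 0 < η ∧ ∃ N0 : ℕ, ∀ n, N0 ≤ n → ∀ r : ℕ,
    (r : ℝ) ≤ η * n → ∑ j ∈ Icc 2 r, cst n j ≤ δ * (n : ℝ) ^ (3 / 2 : ℝ) := by
  intro δ hδ
  obtain ⟨N1, h1⟩ := LEGc_leg
  have t1 : Filter.Tendsto (fun x : ℝ => x ^ (0.38 : ℝ)) Filter.atTop Filter.atTop :=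
    tendsto_rpow_atTop (by norm_num)
  have t2 : Filter.Tendsto (fun x : ℝ => x ^ (0.05 : ℝ)) Filter.atTop Filter.atTop :=
    tendsto_rpow_atTop (by norm_num)
  have h4 := ((t1.eventually_ge_atTop (4 / δ)).and (t2.eventually_ge_atTop (8192 / δ))).and
    (Filter.eventually_ge_atTop (1 : ℝ))
  obtain ⟨N2, h2⟩ := Filter.eventually_atTop.1 (tendsto_natCast_atTop_atTop.eventually h4)
  set e : ℝ := min 1 (δ / 12288) with he
  have he0 : 0 < e := lt_min one_pos (by positivity)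
  have he1 : e ≤ 1 := min_le_left _ _
  have heδ : e ≤ δ / 12288 := min_le_right _ _
  refine ⟨e ^ 2, by positivity, max N1 N2, fun n hn r hr => ?_⟩
  obtain ⟨⟨ha, hb⟩, hc⟩ := h2 n (le_trans (le_max_right _ _) hn)
  have hn1 : 1 ≤ n := by exact_mod_cast hc
  have hn0 : (0 : ℝ) < n := by linarith
  set q := Real.sqrt (n : ℝ) with hq
  have hq2 : q ^ 2 = n := Real.sq_sqrt hn0.le
  have hq0 : 0 < q := Real.sqrt_pos.2 hn0
  have hrn : r ≤ n := by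
    have he2 : e ^ 2 ≤ 1 := by nlinarith
    have : (r : ℝ) ≤ n := hr.trans (by
      calc e ^ 2 * (n : ℝ) ≤ 1 * n := by gcongr
        _ = n := one_mul _)
    exact_mod_cast this
  have hsr : Real.sqrt (r : ℝ) ≤ e * q := by
    rw [← Real.sqrt_sq he0.le, hq, ← Real.sqrt_mul (by positivity)]
    exact Real.sqrt_le_sqrt hr
  set A : ℝ := 1024 * (n : ℝ) ^ (0.95 : ℝ) + 1536 * n with hA
  have hA0 : 0 ≤ A := by positivity
  -- termwise bound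
  have hterm : ∀ j ∈ Icc 2 r, cst n j ≤
      (if (j : ℝ) < (n : ℝ) ^ (0.12 : ℝ) then (n : ℝ) else 0) + A * (1 / Real.sqrt j) := by
    intro j hj
    rw [mem_Icc] at hj
    unfold cst
    have hpos : 0 ≤ A * (1 / Real.sqrt (j : ℝ)) := by positivity
    split_ifs with h
    · linarith
    · rw [zero_add]
      exact h1 n (le_trans (le_max_left _ _) hn) j (by omega) (by omega) (not_lt.1 h)
  have hsum := Finset.sum_le_sum hterm
  rw [Finset.sum_add_distrib, ← Finset.mul_sum, ← Finset.sum_filter, Finset.sum_const,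
    nsmul_eq_mul] at hsum
  have hcard := LEGc_card_small n hn1 r
  have hs := LEGc_sum_inv_sqrt r
  have hx : (n : ℝ) ^ (3 / 2 : ℝ) = n * q := by
    rw [hq, Real.sqrt_eq_rpow]
    nth_rewrite 2 [← Real.rpow_one (n : ℝ)]
    rw [← Real.rpow_add hn0]; norm_num
  -- first part
  have p1 : (((Icc 2 r).filter (fun j : ℕ => (j : ℝ) < (n : ℝ) ^ (0.12 : ℝ))).card : ℝ) * n ≤
      δ / 4 * (n * q) := by
    have e1 : (n : ℝ) * q = (n : ℝ) ^ (0.12 : ℝ) * n * (n : ℝ) ^ (0.38 : ℝ) := by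
      rw [← hx]
      nth_rewrite 3 [← Real.rpow_one (n : ℝ)]
      rw [← Real.rpow_add hn0, ← Real.rpow_add hn0]; norm_num
    rw [e1]
    have e2 : 1 ≤ δ / 4 * (n : ℝ) ^ (0.38 : ℝ) := by
      have := mul_le_mul_of_nonneg_left ha (show 0 ≤ δ / 4 by positivity)
      calc (1 : ℝ) = δ / 4 * (4 / δ) := by field_simp
        _ ≤ _ := this
    calc _ ≤ (n : ℝ) ^ (0.12 : ℝ) * n := by gcongr
      _ = ((n : ℝ) ^ (0.12 : ℝ) * n) * 1 := by ring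
      _ ≤ ((n : ℝ) ^ (0.12 : ℝ) * n) * (δ / 4 * (n : ℝ) ^ (0.38 : ℝ)) := by gcongr
      _ = _ := by ring
  -- second part
  have p2 : A * ∑ j ∈ Icc 2 r, 1 / Real.sqrt (j : ℝ) ≤ δ / 2 * (n * q) := by
    have e1 : (n : ℝ) = (n : ℝ) ^ (0.95 : ℝ) * (n : ℝ) ^ (0.05 : ℝ) := by
      rw [← Real.rpow_add hn0]; norm_num
    have e2 : 2048 * (n : ℝ) ^ (0.95 : ℝ) ≤ δ / 4 * n := by
      have h8 : 2048 ≤ δ / 4 * (n : ℝ) ^ (0.05 : ℝ) := by
        have := mul_le_mul_of_nonneg_left hb (show 0 ≤ δ / 4 by positivity)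
        calc (2048 : ℝ) = δ / 4 * (8192 / δ) := by field_simp; norm_num
          _ ≤ _ := this
      calc 2048 * (n : ℝ) ^ (0.95 : ℝ) ≤ (δ / 4 * (n : ℝ) ^ (0.05 : ℝ)) * (n : ℝ) ^ (0.95 : ℝ) := by
            gcongr
        _ = δ / 4 * ((n : ℝ) ^ (0.95 : ℝ) * (n : ℝ) ^ (0.05 : ℝ)) := by ring
        _ = δ / 4 * n := by rw [← e1]
    have e3 : A * ∑ j ∈ Icc 2 r, 1 / Real.sqrt (j : ℝ) ≤ A * (2 * (e * q)) := by
      gcongr
      linarith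
    have e4 : A * (2 * (e * q)) = 2048 * (n : ℝ) ^ (0.95 : ℝ) * e * q + 3072 * e * (n * q) := by
      rw [hA]; ring
    have e5 : 2048 * (n : ℝ) ^ (0.95 : ℝ) * e * q ≤ δ / 4 * n * 1 * q := by gcongr
    have e6 : 3072 * e * (n * q) ≤ δ / 4 * (n * q) := by
      have : 3072 * e ≤ δ / 4 := by linarith
      gcongr
    rw [e4] at e3
    linarith
  rw [hx]
  have hnq : 0 < (n : ℝ) * q := by positivity
  nlinarith

end Pool.Agent.RST
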