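import Mathlib
import Pool.Agent.Lib_helper42.RST.Defs
import Pool.Agent.Lib_helper42.RST.Stmt
import Pool.Agent.Lib_helper42.RSTF.Base
import Pool.Agent.Lib_helper42.RSTF.Asm3

set_option autoImplicit false
open Finset

namespace Pool.Agent.RST

theorem lrg_pow (C a b : ℝ) (h : a < b) : ∀ᶠ n : ℕ in Filter.atTop, C * (n : ℝ) ^ a ≤ (n : ℝ) ^ b := by
  have h1 : Filter.Tendsto (fun n : ℕ => (n : ℝ) ^ (b - a)) Filter.atTop Filter.atTop :=
    (tendsto_rpow_atTop (by linarith)).comp tendsto_natCast_atTop_atTop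
  filter_upwards [h1.eventually_ge_atTop C, Filter.eventually_ge_atTop 1] with n hn hn1
  have hn0 : (0 : ℝ) < n := by exact_mod_cast hn1
  have h2 : (n : ℝ) ^ b = (n : ℝ) ^ (b - a) * (n : ℝ) ^ a := by
    rw [← Real.rpow_add hn0]; congr 1; ring
  rw [h2]
  exact mul_le_mul_of_nonneg_right hn (by positivity)

theorem lrg_sqrt (C : ℝ) : ∀ᶠ n : ℕ in Filter.atTop, C ≤ Real.sqrt n := by
  have h1 : Filter.Tendsto (fun n : ℕ => Real.sqrt (n : ℝ)) Filter.atTop Filter.atTop :=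
    Real.tendsto_sqrt_atTop.comp tendsto_natCast_atTop_atTop
  exact h1.eventually_ge_atTop C

set_option maxHeartbeats 4000000 in
theorem ev_lrg {δ : ℝ} (p : Prm δ) : ∃ N0 : ℕ, ∀ n : ℕ, N0 ≤ n → ∃ q : ℕ, Lrg p n q := by
  have hδ := p.hδ
  have hδ2 := p.hδ2
  have hL := p.hL
  have hLr : (4 : ℝ) ≤ p.L := by exact_mod_cast hL
  have hdt := p.hdt
  have hCk := Ck_pos p
  have hK0 := p.hK0
  have hK1 := p.hK1
  have hM' := p.hM'
  have hdv := p.hdv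
  have hcb := p.hcb
  have hεs := p.hεs
  have hlog : 0 < Real.log (1 + δ) := Real.log_pos (by linarith)
  have hdtL : 100 * p.L * p.dt ≤ δ := p.hdt1
  set B : ℝ := (((p.L - 1) * p.B' : ℕ) : ℝ) with hB
  have hev := (lrg_sqrt 2).and ((lrg_sqrt (p.L / p.dt)).and ((lrg_sqrt (p.Ck / p.dt)).and
    ((lrg_sqrt (((p.L - 1) * ((p.L - 1) * p.B') : ℕ) / p.dt)).and
    ((lrg_sqrt (((p.L + p.L * (p.L * p.K2) : ℕ) : ℝ) / p.dt)).and
    ((lrg_sqrt (96 * p.L * p.dt)).and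
    ((lrg_sqrt ((12 * p.L * p.dt + p.K0 + 1) / Real.log (1 + δ))).and
    ((lrg_sqrt p.K0).and ((lrg_sqrt (6 * B * p.dt * p.M')).and
    ((lrg_sqrt (100 * (p.L * (p.W * p.Ck)) / p.dv / p.dt)).and
    ((lrg_pow (2 * (p.W * p.Ck) / p.dt) 0.45 0.5 (by norm_num)).and
    ((lrg_pow 8 0.45 1 (by norm_num)).and ((lrg_pow 80 0.45 0.5 (by norm_num)).and
    ((lrg_pow (8 / δ) 0.45 0.5 (by norm_num)).and
    ((lrg_pow (2 / (p.cb * δ)) 1.45 1.5 (by norm_num)).and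
    ((lrg_pow (8 / δ) 1.12 1.5 (by norm_num)).and
    ((lrg_sqrt (3 * p.L)).and ((lrg_sqrt (18 * p.L ^ 2)).and ((lrg_sqrt (1 / δ)).and
    ((lrg_sqrt (1 / p.εs)))))))))))))))))))))
  obtain ⟨N0, hN0⟩ := Filter.eventually_atTop.1 hev
  refine ⟨N0 + 1, fun n hn => ?_⟩
  obtain ⟨s1, s2, s3, s4, s5, s6, s7, s8, s9, s10, r1, r2, r3, r4, r5, r6, s11, s12, s13, s14⟩ :=
    hN0 n (by omega)
  have hn1 : 1 ≤ n := by omega
  have hn1r : (1 : ℝ) ≤ n := by exact_mod_cast hn1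
  have hn0 : (0 : ℝ) < n := by linarith
  set sq := Real.sqrt (n : ℝ) with hsq
  have hsq0 : 0 < sq := by linarith
  have hsqsq : sq * sq = n := Real.mul_self_sqrt hn0.le
  have hsqn : sq ≤ n := by nlinarith
  have hsq5 : (n : ℝ) ^ (0.5 : ℝ) = sq := by
    rw [hsq, Real.sqrt_eq_rpow]; norm_num
  set q : ℕ := ⌈p.dt * sq / p.L⌉₊ with hq
  have hLp : (0 : ℝ) < p.L := by linarith
  have hP1 : p.dt * sq ≤ ((p.L * q : ℕ) : ℝ) := by
    have : p.dt * sq / p.L ≤ q := Nat.le_ceil _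
    rw [div_le_iff₀ hLp] at this
    push_cast
    linarith
  have hPP : ((p.L * q : ℕ) : ℝ) ≤ p.dt * sq + p.L := by
    have : (q : ℝ) < p.dt * sq / p.L + 1 := Nat.ceil_lt_add_one (by positivity)
    push_cast
    calc (p.L : ℝ) * q ≤ p.L * (p.dt * sq / p.L + 1) := by gcongr
      _ = p.dt * sq + p.L := by field_simp
  have hLs : (p.L : ℝ) ≤ p.dt * sq := by
    rw [div_le_iff₀ hdt] at s2; linarith
  have hP2 : ((p.L * q : ℕ) : ℝ) ≤ 2 * p.dt * sq := by linarith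
  have hPpos : (0 : ℝ) < ((p.L * q : ℕ) : ℝ) := by
    have : 0 < p.dt * sq := by positivity
    linarith
  have hn32 : (n : ℝ) ^ (3 / 2 : ℝ) = n * sq := by
    rw [show (3 / 2 : ℝ) = 1 + 0.5 by norm_num, Real.rpow_add hn0, Real.rpow_one, hsq5]
  have hθinv : 8 / (n : ℝ) ^ (-0.45 : ℝ) = 8 * (n : ℝ) ^ (0.45 : ℝ) := by
    rw [Real.rpow_neg hn0.le, div_inv_eq_mul]
  have h45pos : 0 < (n : ℝ) ^ (0.45 : ℝ) := Real.rpow_pos_of_pos hn0 _
  have hm45 : (n : ℝ) ^ (-0.45 : ℝ) = ((n : ℝ) ^ (0.45 : ℝ))⁻¹ := by rw [Real.rpow_neg hn0.le]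
  have hbig : ∀ X : ℝ, X / p.dt ≤ sq → X ≤ ((p.L * q : ℕ) : ℝ) := by
    intro X hX
    rw [div_le_iff₀ hdt] at hX
    linarith
  have h6L : ((6 * p.L * (p.L * q) : ℕ) : ℝ) ≤ 12 * p.L * p.dt * sq := by
    have : ((6 * p.L * (p.L * q) : ℕ) : ℝ) = 6 * p.L * ((p.L * q : ℕ) : ℝ) := by push_cast; ring
    rw [this]
    calc 6 * (p.L : ℝ) * ((p.L * q : ℕ) : ℝ) ≤ 6 * (p.L : ℝ) * (2 * p.dt * sq) := by gcongr
      _ = 12 * p.L * p.dt * sq := by ring
  refine ⟨q, ?_⟩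
  exact
  { hn := hn1
    hq := by
      apply Nat.one_le_ceil_iff.2
      positivity
    hP1 := hP1
    hP2 := hP2
    hκ := by
      rw [div_le_one hPpos]
      exact hbig _ s3
    hBP := by
      have := hbig _ s4
      exact_mod_cast this
    hKP := by
      have := hbig _ s5
      exact_mod_cast this
    hS := by
      rw [one_div, inv_mul_le_iff₀ hn0]
      have h1 : (96 * p.L * p.dt) * sq ≤ sq * sq := mul_le_mul_of_nonneg_right s6 hsq0.le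
      rw [hsqsq] at h1
      linarith
    hexp := by
      have h1 : (1 / n : ℝ) * ((6 * p.L * (p.L * q) + ⌈p.K0 * sq⌉₊ : ℕ) : ℝ) ≤ Real.log (1 + δ) := by
        rw [one_div, inv_mul_le_iff₀ hn0]
        have h2 : (⌈p.K0 * sq⌉₊ : ℝ) < p.K0 * sq + 1 := Nat.ceil_lt_add_one (by positivity)
        rw [div_le_iff₀ hlog] at s7
        have h3 : (12 * p.L * p.dt + p.K0 + 1) * sq ≤ n * Real.log (1 + δ) := by
          calc (12 * p.L * p.dt + p.K0 + 1) * sq ≤ (sq * Real.log (1 + δ)) * sq := by gcongr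
            _ = n * Real.log (1 + δ) := by rw [← hsqsq]; ring
        rw [Nat.cast_add]
        have h4 : 12 * p.L * p.dt * sq + (p.K0 * sq + 1) ≤ (12 * p.L * p.dt + p.K0 + 1) * sq := by
          linarith
        linarith
      calc Real.exp ((1 / n : ℝ) * ((6 * p.L * (p.L * q) + ⌈p.K0 * sq⌉₊ : ℕ) : ℝ))
          ≤ Real.exp (Real.log (1 + δ)) := Real.exp_le_exp.2 h1
        _ = 1 + δ := Real.exp_log (by linarith)
    hK0n := by
      have h1 : 1 * 2 ≤ p.K0 * sq := mul_le_mul hK0 s1 (by norm_num) (by linarith)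
      linarith
    hS0n := by
      apply Nat.ceil_le.2
      have h1 : p.K0 * sq ≤ sq * sq := mul_le_mul_of_nonneg_right s8 hsq0.le
      rw [hsqsq] at h1
      exact h1
    hsm := by
      have h1 : B * (((p.L * q : ℕ) : ℝ) * p.M' / n) * 3 = (3 * B * p.M' * ((p.L * q : ℕ) : ℝ)) / n := by
        ring
      rw [h1, div_le_one hn0]
      have hB0 : 0 ≤ B := by positivity
      calc 3 * B * p.M' * ((p.L * q : ℕ) : ℝ) ≤ 3 * B * p.M' * (2 * p.dt * sq) := by gcongr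
        _ = (6 * B * p.dt * p.M') * sq := by ring
        _ ≤ sq * sq := by gcongr
        _ = n := hsqsq
    hLκ := by
      have h1 : p.L * (p.W * (p.Ck / ((p.L * q : ℕ) : ℝ))) = (p.L * (p.W * p.Ck)) / ((p.L * q : ℕ) : ℝ) := by
        ring
      rw [h1, div_le_iff₀ hPpos]
      have h2 := hbig _ s10
      rw [div_le_iff₀ hdv] at h2
      linarith
    hWκ := by
      rw [hm45]
      have h1 : p.W * (p.Ck / ((p.L * q : ℕ) : ℝ)) = (p.W * p.Ck) / ((p.L * q : ℕ) : ℝ) := by ring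
      rw [h1, div_le_iff₀ hPpos]
      rw [hsq5] at r1
      have h2 : 2 * (p.W * p.Ck) * (n : ℝ) ^ (0.45 : ℝ) ≤ p.dt * sq := by
        have h3 : 2 * (p.W * p.Ck) / p.dt * (n : ℝ) ^ (0.45 : ℝ) =
          (2 * (p.W * p.Ck) * (n : ℝ) ^ (0.45 : ℝ)) / p.dt := by ring
        rw [h3, div_le_iff₀ hdt] at r1
        linarith
      have h4 : ((n : ℝ) ^ (0.45 : ℝ))⁻¹ / 2 * ((p.L * q : ℕ) : ℝ) =
          ((p.L * q : ℕ) : ℝ) / (2 * (n : ℝ) ^ (0.45 : ℝ)) := by field_simp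
      rw [h4, le_div_iff₀ (by positivity)]
      linarith
    hlθ := by
      rw [hm45]
      rw [Real.rpow_one] at r2
      have h4 : ((n : ℝ) ^ (0.45 : ℝ))⁻¹ / 8 = 1 / (8 * (n : ℝ) ^ (0.45 : ℝ)) := by field_simp
      rw [h4]
      exact one_div_le_one_div_of_le (by positivity) r2
    hmc := by
      rw [hθinv]
      rw [hsq5] at r3
      linarith
    hθδ := by
      rw [hθinv]
      rw [hsq5] at r4
      have h3 : 8 / δ * (n : ℝ) ^ (0.45 : ℝ) = (8 * (n : ℝ) ^ (0.45 : ℝ)) / δ := by ring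
      rw [h3, div_le_iff₀ hδ] at r4
      linarith
    hD1 := by
      have h1 : (n : ℝ) ^ (1.5 : ℝ) = (n : ℝ) ^ (3 / 2 : ℝ) := by norm_num
      rw [h1] at r5
      have h2 : 2 * (n : ℝ) ^ (0.9 : ℝ) / p.cb * (n * (n : ℝ) ^ (-0.45 : ℝ)) =
          2 / p.cb * (n : ℝ) ^ (1.45 : ℝ) := by
        have h3 : (n : ℝ) ^ (1.45 : ℝ) = (n : ℝ) ^ (0.9 : ℝ) * ((n : ℝ) ^ (1 : ℝ) * (n : ℝ) ^ (-0.45 : ℝ)) := by
          rw [← Real.rpow_add hn0, ← Real.rpow_add hn0]; norm_num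
        rw [h3, Real.rpow_one]; ring
      rw [h2]
      have h4 : 2 / (p.cb * δ) * (n : ℝ) ^ (1.45 : ℝ) = (2 / p.cb * (n : ℝ) ^ (1.45 : ℝ)) / δ := by
        field_simp
      rw [h4, div_le_iff₀ hδ] at r5
      linarith
    hcl := by
      have h1 : (n : ℝ) ^ (1.5 : ℝ) = (n : ℝ) ^ (3 / 2 : ℝ) := by norm_num
      rw [h1] at r6
      have h2 : (n : ℝ) ^ (0.9 : ℝ) ≤ n := by
        calc (n : ℝ) ^ (0.9 : ℝ) ≤ (n : ℝ) ^ (1 : ℝ) :=
              Real.rpow_le_rpow_of_exponent_le hn1r (by norm_num)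
          _ = n := Real.rpow_one _
      have h3 : (1 : ℝ) ≤ (n : ℝ) ^ (0.12 : ℝ) := Real.one_le_rpow hn1r (by norm_num)
      have h4 : (n : ℝ) ^ (1.12 : ℝ) = n * (n : ℝ) ^ (0.12 : ℝ) := by
        rw [show (1.12 : ℝ) = 1 + 0.12 by norm_num, Real.rpow_add hn0, Real.rpow_one]
      have h5 : 8 / δ * (n : ℝ) ^ (1.12 : ℝ) = (8 * (n : ℝ) ^ (1.12 : ℝ)) / δ := by ring
      rw [h5, div_le_iff₀ hδ, h4] at r6
      calc (n + (n : ℝ) ^ (0.9 : ℝ)) * ((n : ℝ) ^ (0.12 : ℝ) + 2 + 1)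
          ≤ (n + n) * ((n : ℝ) ^ (0.12 : ℝ) + 2 * (n : ℝ) ^ (0.12 : ℝ) + (n : ℝ) ^ (0.12 : ℝ)) := by
            gcongr
            linarith
        _ = 8 * (n * (n : ℝ) ^ (0.12 : ℝ)) := by ring
        _ ≤ δ * (n : ℝ) ^ (3 / 2 : ℝ) := by linarith
    hα := by
      rw [one_div, inv_mul_le_iff₀ hn0]
      have h1 : 3 * p.L * sq ≤ sq * sq := mul_le_mul_of_nonneg_right s11 hsq0.le
      rw [hsqsq] at h1
      linarith
    hα2 := by
      have h1 : (1 / n : ℝ) * (2 * (1.5 * sq) * p.L) ^ 2 = 9 * p.L ^ 2 := by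
        have : (2 * (1.5 * sq) * (p.L : ℝ)) ^ 2 = 9 * p.L ^ 2 * (sq * sq) := by ring
        rw [this, hsqsq]
        field_simp
      rw [h1]
      linarith
    hn3 := by
      rw [hn32]
      rw [div_le_iff₀ hδ] at s13
      have h1 : 1 * (n : ℝ) ≤ (sq * δ) * n := mul_le_mul_of_nonneg_right s13 hn0.le
      linarith
    hS1 := by
      have h1 : 12 * p.L * p.dt ≤ 1 / 2 := by linarith
      have h2 : 12 * p.L * p.dt * sq ≤ 1 / 2 * sq := mul_le_mul_of_nonneg_right h1 hsq0.le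
      linarith
    hr := by
      rw [div_le_iff₀ hεs] at s14
      have h1 : sq * p.εs ≤ n * p.εs := mul_le_mul_of_nonneg_right hsqn hεs.le
      linarith }

end Pool.Agent.RST
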