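import Mathlib
import Pool.Agent.Lib_helper42.RST.Defs
import Pool.Agent.Lib_helper42.RST.Stmt
import Pool.Agent.Lib_helper42.RSTF.Base
import Pool.Agent.Lib_helper42.RSTF.EL1
import Pool.Agent.Lib_helper42.RSTF.PR
import Pool.Agent.Lib_helper42.RSTF.RW

/- block PC proved by helper24 -/

/-!
# Block PC (helper24): partition into pieces
-/

set_option autoImplicit false

open Finset

namespace Pool.Agent.RST

section PC
variable {V Ω : Type} [Fintype Ω] [Fintype V] [DecidableEq V]

/-- the graph of likely edges -/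
def pcH (M : Mdl V Ω) (κ : ℝ) (x y : V) : Prop := κ ≤ P1 M (fun T => (M.gr T).Adj x y)

theorem pcH_symm (M : Mdl V Ω) (κ : ℝ) {x y : V} (h : pcH M κ x y) : pcH M κ y x := by
  unfold pcH at *
  have : (fun T => (M.gr T).Adj y x) = (fun T => (M.gr T).Adj x y) := by
    funext T
    exact propext ((M.gr T).adj_comm y x)
  rw [this]
  exact h

/-- reachable in at most `k` steps -/
def pcR (M : Mdl V Ω) (κ : ℝ) : ℕ → V → V → Prop
  | 0, x, y => x = y
  | k + 1, x, y => ∃ z, (z = x ∨ pcH M κ x z) ∧ pcR M κ k z y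

theorem pcR_refl (M : Mdl V Ω) (κ : ℝ) (k : ℕ) (x : V) : pcR M κ k x x := by
  induction k with
  | zero => rfl
  | succ k ih => exact ⟨x, Or.inl rfl, ih⟩

theorem pcR_add (M : Mdl V Ω) (κ : ℝ) (k l : ℕ) {x y z : V} (h1 : pcR M κ k x y)
    (h2 : pcR M κ l y z) : pcR M κ (k + l) x z := by
  induction k generalizing x with
  | zero =>
    have h : x = y := h1
    subst h
    rw [Nat.zero_add]
    exact h2
  | succ k ih =>
    obtain ⟨u, hu, h3⟩ := h1
    rw [Nat.succ_add]
    exact ⟨u, hu, ih h3⟩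

theorem pcR_mono (M : Mdl V Ω) (κ : ℝ) {k l : ℕ} (h : k ≤ l) {x y : V} (h1 : pcR M κ k x y) :
    pcR M κ l x y := by
  obtain ⟨m, rfl⟩ := Nat.exists_eq_add_of_le h
  exact pcR_add M κ k m h1 (pcR_refl M κ m y)

theorem pcR_one (M : Mdl V Ω) (κ : ℝ) {x y : V} (h : y = x ∨ pcH M κ x y) : pcR M κ 1 x y :=
  ⟨y, h, rfl⟩

theorem pcR_symm (M : Mdl V Ω) (κ : ℝ) (k : ℕ) {x y : V} (h1 : pcR M κ k x y) :
    pcR M κ k y x := by
  induction k generalizing x with
  | zero =>
    have h : x = y := h1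
    exact h.symm
  | succ k ih =>
    obtain ⟨u, hu, h3⟩ := h1
    refine pcR_add M κ k 1 (ih h3) (pcR_one M κ ?_)
    rcases hu with h | h
    · exact Or.inl h.symm
    · exact Or.inr (pcH_symm M κ h)

/-- same component -/
def pcC (M : Mdl V Ω) (κ : ℝ) (x y : V) : Prop := ∃ k, pcR M κ k x y

/-- the component -/
noncomputable def pcComp (M : Mdl V Ω) (κ : ℝ) (x : V) : Finset V := by
  classical exact univ.filter (fun y => pcC M κ x y)

/-- the ball -/
noncomputable def pcBall (M : Mdl V Ω) (κ : ℝ) (k : ℕ) (x : V) : Finset V := by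
  classical exact univ.filter (fun y => pcR M κ k x y)

theorem mem_pcComp (M : Mdl V Ω) (κ : ℝ) (x y : V) : y ∈ pcComp M κ x ↔ pcC M κ x y := by
  classical
  unfold pcComp
  simp

theorem mem_pcBall (M : Mdl V Ω) (κ : ℝ) (k : ℕ) (x y : V) :
    y ∈ pcBall M κ k x ↔ pcR M κ k x y := by
  classical
  unfold pcBall
  simp

theorem pcC_refl (M : Mdl V Ω) (κ : ℝ) (x : V) : pcC M κ x x := ⟨0, rfl⟩

theorem pcC_symm (M : Mdl V Ω) (κ : ℝ) {x y : V} (h : pcC M κ x y) : pcC M κ y x := by
  obtain ⟨k, hk⟩ := h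
  exact ⟨k, pcR_symm M κ k hk⟩

theorem pcC_trans (M : Mdl V Ω) (κ : ℝ) {x y z : V} (h : pcC M κ x y) (h' : pcC M κ y z) :
    pcC M κ x z := by
  obtain ⟨k, hk⟩ := h
  obtain ⟨l, hl⟩ := h'
  exact ⟨k + l, pcR_add M κ k l hk hl⟩

theorem pcComp_eq (M : Mdl V Ω) (κ : ℝ) {x y : V} (h : pcC M κ x y) :
    pcComp M κ x = pcComp M κ y := by
  ext z
  rw [mem_pcComp, mem_pcComp]
  exact ⟨fun h1 => pcC_trans M κ (pcC_symm M κ h) h1, fun h1 => pcC_trans M κ h h1⟩

theorem pc_closed (M : Mdl V Ω) (κ : ℝ) (B : Finset V)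
    (hB : ∀ u ∈ B, ∀ v, pcH M κ u v → v ∈ B) (k : ℕ) {u v : V} (hu : u ∈ B)
    (h : pcR M κ k u v) : v ∈ B := by
  induction k generalizing u with
  | zero =>
    have h1 : u = v := h
    rwa [← h1]
  | succ k ih =>
    obtain ⟨z, hz, h3⟩ := h
    refine ih ?_ h3
    rcases hz with h4 | h4
    · rwa [h4]
    · exact hB u hu z h4

theorem pc_growth (M : Mdl V Ω) (κ : ℝ) (x : V) (k : ℕ) :
    min (k + 1) (pcComp M κ x).card ≤ (pcBall M κ k x).card := by
  induction k with
  | zero =>
    refine (min_le_left _ _).trans ?_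
    rw [Nat.zero_add]
    exact Finset.card_pos.2 ⟨x, (mem_pcBall M κ 0 x x).2 rfl⟩
  | succ k ih =>
    have hsub : pcBall M κ k x ⊆ pcBall M κ (k + 1) x := by
      intro y hy
      rw [mem_pcBall] at hy ⊢
      exact pcR_mono M κ (Nat.le_succ k) hy
    by_cases heq : pcBall M κ k x = pcBall M κ (k + 1) x
    · have hcl : pcComp M κ x ⊆ pcBall M κ k x := by
        intro y hy
        rw [mem_pcComp] at hy
        obtain ⟨l, hl⟩ := hy
        refine pc_closed M κ (pcBall M κ k x) (fun u hu v huv => ?_) l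
          ((mem_pcBall M κ k x x).2 (pcR_refl M κ k x)) hl
        rw [heq, mem_pcBall]
        rw [mem_pcBall] at hu
        exact pcR_add M κ k 1 hu (pcR_one M κ (Or.inr huv))
      refine (min_le_right _ _).trans ?_
      exact (Finset.card_le_card hcl).trans (Finset.card_le_card hsub)
    · have hlt : (pcBall M κ k x).card < (pcBall M κ (k + 1) x).card :=
        Finset.card_lt_card (Finset.ssubset_iff_subset_ne.2 ⟨hsub, heq⟩)
      have h1 : min (k + 1 + 1) (pcComp M κ x).card ≤ min (k + 1) (pcComp M κ x).card + 1 := by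
        omega
      omega

theorem pc_small_dist (M : Mdl V Ω) (κ : ℝ) (W : ℕ) {x y : V}
    (hW : (pcComp M κ x).card ≤ W) (h : pcC M κ x y) : pcR M κ W x y := by
  have h1 := pc_growth M κ x W
  have h2 : (pcComp M κ x).card ≤ (pcBall M κ W x).card := by omega
  have h3 : pcBall M κ W x ⊆ pcComp M κ x := by
    intro z hz
    rw [mem_pcBall] at hz
    rw [mem_pcComp]
    exact ⟨W, hz⟩
  have h4 : pcBall M κ W x = pcComp M κ x := Finset.eq_of_subset_of_card_le h3 h2
  rw [← mem_pcBall, h4, mem_pcComp]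
  exact h

theorem pc_P1_le_one (M : Mdl V Ω) (p : Ω → Prop) : P1 M p ≤ 1 := by
  unfold P1
  rw [← M.w1]
  refine Finset.sum_le_sum fun T _ => ?_
  calc M.w T * ind (p T) ≤ M.w T * 1 := mul_le_mul_of_nonneg_left (ind_le_one _) (M.w0 T)
    _ = M.w T := mul_one _

/-- one likely edge -/
theorem pc_edge (M : Mdl V Ω) (κ : ℝ) (hκ : 0 < κ) (hκ1 : κ ≤ 1) {x z : V}
    (h : pcH M κ x z) (t : ℕ) : 1 - (1 - κ) ^ t ≤ pr M t x {z} := by
  induction t with
  | zero =>
    rw [pow_zero, sub_self]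
    exact pr_nonneg M 0 x {z}
  | succ t ih =>
    have h1 : ∑ T, M.w T * (ind ((M.gr T).Adj x z) +
        (1 - ind ((M.gr T).Adj x z)) * pr M t x {z}) ≤ pr M (t + 1) x {z} := by
      show _ ≤ ∑ T, M.w T * EL M.w t (fun l => ind (∃ y ∈ ({z} : Set V), Reach M (T :: l) x y))
      refine Finset.sum_le_sum fun T _ => mul_le_mul_of_nonneg_left ?_ (M.w0 T)
      by_cases hT : (M.gr T).Adj x z
      · rw [ind_true hT, sub_self, zero_mul, add_zero]
        have h2 : EL M.w t (fun l => ind (∃ y ∈ ({z} : Set V), Reach M (T :: l) x y)) =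
            EL M.w t (fun _ => (1 : ℝ)) := by
          refine EL_congr M.w t _ _ (fun l _ => ?_)
          exact ind_true ⟨z, rfl, z, Or.inr hT, Reach_refl M l z⟩
        rw [h2, EL_const M.w M.w1]
      · rw [ind_false hT, zero_add, sub_zero, one_mul]
        unfold pr
        refine EL_mono M.w M.w0 t _ _ (fun l _ => ind_mono ?_)
        rintro ⟨y, hy, hr⟩
        exact ⟨y, hy, x, Or.inl rfl, hr⟩
    set p := P1 M (fun T => (M.gr T).Adj x z) with hp
    have h2 : ∑ T, M.w T * (ind ((M.gr T).Adj x z) +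
        (1 - ind ((M.gr T).Adj x z)) * pr M t x {z}) = p + (1 - p) * pr M t x {z} := by
      have h3 : ∀ T, M.w T * (ind ((M.gr T).Adj x z) +
          (1 - ind ((M.gr T).Adj x z)) * pr M t x {z}) =
          M.w T * ind ((M.gr T).Adj x z) + M.w T * pr M t x {z} -
            M.w T * ind ((M.gr T).Adj x z) * pr M t x {z} := fun T => by ring
      rw [Finset.sum_congr rfl fun T _ => h3 T, Finset.sum_sub_distrib, Finset.sum_add_distrib,
        ← Finset.sum_mul, ← Finset.sum_mul, M.w1]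
      show p + 1 * pr M t x {z} - p * pr M t x {z} = _
      ring
    rw [h2] at h1
    refine le_trans ?_ h1
    have hpk : κ ≤ p := h
    have hp1 : p ≤ 1 := pc_P1_le_one M _
    have h4 : (1 - p) * (1 - (1 - κ) ^ t) ≤ (1 - p) * pr M t x {z} :=
      mul_le_mul_of_nonneg_left ih (sub_nonneg.2 hp1)
    have h5 : 0 ≤ (1 - κ) ^ t := pow_nonneg (sub_nonneg.2 hκ1) t
    have h6 : (1 - p) * (1 - κ) ^ t ≤ (1 - κ) * (1 - κ) ^ t :=
      mul_le_mul_of_nonneg_right (by linarith) h5
    have h7 : (1 - κ) ^ (t + 1) = (1 - κ) * (1 - κ) ^ t := by ring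
    rw [h7]
    nlinarith [h4, h6]

theorem pc_path (M : Mdl V Ω) (κ : ℝ) (hκ : 0 < κ) (hκ1 : κ ≤ 1) (t : ℕ) (ε : ℝ)
    (hε0 : 0 ≤ ε) (hε : (1 - κ) ^ t ≤ ε) (k : ℕ) {x y : V} (h : pcR M κ k x y) :
    1 - k * ε ≤ pr M (k * t) x {y} := by
  induction k generalizing x with
  | zero =>
    have h1 : x = y := h
    rw [Nat.zero_mul, Nat.cast_zero, zero_mul, sub_zero, pr_self M 0 x {y} h1]
  | succ k ih =>
    obtain ⟨z, hz, h3⟩ := h
    have h4 := ih h3
    have h5 : 1 - ε ≤ pr M t x {z} := by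
      rcases hz with h6 | h6
      · rw [pr_self M t x {z} h6.symm]
        linarith
      · have := pc_edge M κ hκ hκ1 h6 t
        linarith
    have h6 := pr_mul M t (k * t) x z {y}
    have h7 : (k + 1) * t = t + k * t := by ring
    rw [h7]
    refine le_trans ?_ h6
    have h8 := pr_le_one M t x {z}
    have h9 := pr_le_one M (k * t) z {y}
    push_cast
    nlinarith [mul_nonneg (sub_nonneg.2 h8) (sub_nonneg.2 h9)]

theorem pc_cover (M : Mdl V Ω) (P W : ℕ) (κ δ : ℝ) (hW : 1 ≤ W) (hκ : 0 < κ) (hκ1 : κ ≤ 1)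
    (hδ : 0 < δ) (hδ1 : δ ≤ 1) (hP : 8 * W * (Real.log (8 * W / δ) + 1) ≤ κ * P) {x y : V}
    (h : pcR M κ (2 * W) x y) : 1 - δ ≤ pr M P x {y} := by
  have hW1 : (1 : ℝ) ≤ W := by exact_mod_cast hW
  have hL0 : 0 ≤ Real.log (2 * W / δ) := by
    refine Real.log_nonneg ?_
    rw [le_div_iff₀ hδ]
    linarith
  have hL1 : Real.log (2 * W / δ) ≤ Real.log (8 * W / δ) := by
    refine Real.log_le_log (by positivity) ?_
    gcongr
    norm_num
  set t : ℕ := ⌈Real.log (2 * W / δ) / κ⌉₊ with ht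
  have ht1 : Real.log (2 * W / δ) / κ ≤ t := Nat.le_ceil _
  have ht2 : (t : ℝ) < Real.log (2 * W / δ) / κ + 1 := Nat.ceil_lt_add_one (by positivity)
  have hε : (1 - κ) ^ t ≤ δ / (2 * W) := by
    have h1 : (1 - κ) ^ t ≤ Real.exp (-κ) ^ t :=
      pow_le_pow_left₀ (sub_nonneg.2 hκ1) (by linarith [Real.add_one_le_exp (-κ)]) t
    have h2 : Real.exp (-κ) ^ t = Real.exp (-(κ * t)) := by
      rw [← Real.exp_nat_mul]
      congr 1
      ring
    have h3 : Real.log (2 * W / δ) ≤ κ * t := by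
      rw [div_le_iff₀ hκ] at ht1
      linarith
    have h4 : Real.exp (-(κ * t)) ≤ Real.exp (-Real.log (2 * W / δ)) :=
      Real.exp_le_exp.2 (by linarith)
    have h5 : Real.exp (-Real.log (2 * W / δ)) = δ / (2 * W) := by
      rw [Real.exp_neg, Real.exp_log (by positivity), inv_div]
    rw [h2] at h1
    linarith [h1.trans h4]
  have h1 := pc_path M κ hκ hκ1 t (δ / (2 * W)) (by positivity) hε (2 * W) h
  have h2 : 1 - ((2 * W : ℕ) : ℝ) * (δ / (2 * W)) = 1 - δ := by
    push_cast
    field_simp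
  rw [h2] at h1
  refine h1.trans (pr_mono M ?_ x {y})
  have h3 : (2 * W : ℝ) * t ≤ P := by
    have h4 : κ * ((2 * W : ℝ) * t) ≤ κ * P := by
      have h5 : κ * t ≤ Real.log (2 * W / δ) + κ := by
        have h6 : κ * t < κ * (Real.log (2 * W / δ) / κ + 1) := mul_lt_mul_of_pos_left ht2 hκ
        have h7 : κ * (Real.log (2 * W / δ) / κ + 1) = Real.log (2 * W / δ) + κ := by
          field_simp
        linarith
      have h6 : κ * ((2 * W : ℝ) * t) = 2 * W * (κ * t) := by ring
      rw [h6]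
      have h7 : (2 * W : ℝ) * (κ * t) ≤ 2 * W * (Real.log (8 * W / δ) + 1) :=
        mul_le_mul_of_nonneg_left (by linarith) (by positivity)
      have h8 : (2 * W : ℝ) * (Real.log (8 * W / δ) + 1) ≤
          8 * W * (Real.log (8 * W / δ) + 1) :=
        mul_le_mul_of_nonneg_right (by linarith) (by linarith)
      linarith
    exact le_of_mul_le_mul_left h4 hκ
  have h4 : ((2 * W * t : ℕ) : ℝ) ≤ (P : ℝ) := by
    push_cast
    exact h3
  exact_mod_cast h4

theorem exists_pieces (M : Mdl V Ω) (P W : ℕ) (κ δ : ℝ) (hW : 1 ≤ W) (hκ : 0 < κ)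
    (hκ1 : κ ≤ 1) (hδ : 0 < δ) (hδ1 : δ ≤ 1)
    (hP : 8 * W * (Real.log (8 * W / δ) + 1) ≤ κ * P) :
    Nonempty (Pieces M P W κ δ) := by
  classical
  set r : ℕ := (W + 1) / 2 - 1 with hr
  have hr1 : r + 1 = (W + 1) / 2 := by omega
  have hr2 : W ≤ 2 * (r + 1) := by omega
  have hr3 : r + 1 ≤ W := by omega
  have hr4 : 2 * r + 2 * r ≤ 2 * W := by omega
  let S : Finset V := univ.filter (fun x => W < (pcComp M κ x).card)
  have memS : ∀ x, x ∈ S ↔ W < (pcComp M κ x).card := fun x => by simp [S]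
  have hScomp : ∀ x y, pcC M κ x y → (x ∈ S ↔ y ∈ S) := fun x y h => by
    rw [memS, memS, pcComp_eq M κ h]
  -- maximal separated set
  let sep : Finset V → Prop := fun C => C ⊆ S ∧ ∀ c ∈ C, ∀ c' ∈ C, pcR M κ (2 * r) c c' → c = c'
  obtain ⟨C, hC, hCmax⟩ := Finset.exists_max_image ((Finset.univ : Finset (Finset V)).filter sep)
    Finset.card ⟨∅, by simp [sep]⟩
  have hCsep : sep C := (Finset.mem_filter.1 hC).2
  have hcent : ∀ x ∈ S, ∃ c ∈ C, pcR M κ (2 * r) x c := by
    intro x hx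
    by_contra hcon
    push Not at hcon
    have hxC : x ∉ C := fun h => hcon x h (pcR_refl M κ (2 * r) x)
    have hsep : sep (insert x C) := by
      refine ⟨?_, ?_⟩
      · intro y hy
        rcases Finset.mem_insert.1 hy with h | h
        · rwa [h]
        · exact hCsep.1 h
      · intro c hc c' hc' hR
        rcases Finset.mem_insert.1 hc with h | h
        · rcases Finset.mem_insert.1 hc' with h' | h'
          · rw [h, h']
          · rw [h] at hR
            exact absurd hR (hcon c' h')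
        · rcases Finset.mem_insert.1 hc' with h' | h'
          · rw [h'] at hR
            exact absurd (pcR_symm M κ (2 * r) hR) (hcon c h)
          · exact hCsep.2 c h c' h' hR
    have h1 := hCmax (insert x C) (Finset.mem_filter.2 ⟨Finset.mem_univ _, hsep⟩)
    rw [Finset.card_insert_of_notMem hxC] at h1
    omega
  let st : Setoid V := ⟨pcC M κ, pcC_refl M κ, fun h => pcC_symm M κ h,
    fun h h' => pcC_trans M κ h h'⟩
  let pc : V → V := fun x => if x ∈ C then x else if hx : x ∈ S then (hcent x hx).choose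
    else (Quotient.mk st x).out
  have hpcC : ∀ x, x ∈ C → pc x = x := fun x h => by simp only [pc, if_pos h]
  have hpcS : ∀ x, x ∈ S → pc x ∈ C ∧ pcR M κ (2 * r) x (pc x) := by
    intro x hx
    by_cases hxC : x ∈ C
    · rw [hpcC x hxC]
      exact ⟨hxC, pcR_refl M κ _ x⟩
    · have : pc x = (hcent x hx).choose := by simp only [pc, if_neg hxC, dif_pos hx]
      rw [this]
      exact (hcent x hx).choose_spec
  have hpcN : ∀ x, x ∉ S → pc x = (Quotient.mk st x).out := by
    intro x hx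
    have hxC : x ∉ C := fun h => hx (hCsep.1 h)
    simp only [pc, if_neg hxC, dif_neg hx]
  have hpcN' : ∀ x, x ∉ S → pcC M κ (pc x) x := by
    intro x hx
    rw [hpcN x hx]
    exact Quotient.exact (s := st) (Quotient.out_eq _)
  have hpcNS : ∀ x, x ∉ S → pc x ∉ S := by
    intro x hx h
    exact hx ((hScomp _ _ (hpcN' x hx)).1 h)
  refine ⟨⟨pc, ?_, C, ?_, ?_, ?_, ?_⟩⟩
  · intro x
    by_cases hx : x ∈ S
    · exact hpcC _ (hpcS x hx).1
    · rw [hpcN (pc x) (hpcNS x hx), hpcN x hx, Quotient.out_eq]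
  · -- number of big pieces
    have hdisj : ∀ c ∈ C, ∀ c' ∈ C, c ≠ c' → Disjoint (pcBall M κ r c) (pcBall M κ r c') := by
      intro c hc c' hc' hne
      rw [Finset.disjoint_left]
      intro y hy hy'
      rw [mem_pcBall] at hy hy'
      apply hne
      refine hCsep.2 c hc c' hc' ?_
      have := pcR_add M κ r r hy (pcR_symm M κ r hy')
      rwa [← two_mul] at this
    have hball : ∀ c ∈ C, r + 1 ≤ (pcBall M κ r c).card := by
      intro c hc
      have h1 := pc_growth M κ c r
      have h2 : W < (pcComp M κ c).card := (memS c).1 (hCsep.1 hc)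
      omega
    have h1 : C.card * (r + 1) ≤ Fintype.card V := by
      calc C.card * (r + 1) = ∑ _c ∈ C, (r + 1) := by
            rw [Finset.sum_const, smul_eq_mul]
        _ ≤ ∑ c ∈ C, (pcBall M κ r c).card := Finset.sum_le_sum hball
        _ = (C.biUnion (fun c => pcBall M κ r c)).card := by
            rw [Finset.card_biUnion hdisj]
        _ ≤ Fintype.card V := Finset.card_le_univ _
    have h2 : C.card * W ≤ 2 * Fintype.card V := by
      calc C.card * W ≤ C.card * (2 * (r + 1)) := Nat.mul_le_mul_left _ hr2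
        _ = 2 * (C.card * (r + 1)) := by ring
        _ ≤ 2 * Fintype.card V := Nat.mul_le_mul_left _ h1
    exact_mod_cast h2
  · intro i hi
    have hsub : ∀ x, pc x = i → x ∉ S ∧ pcC M κ i x := by
      intro x hx
      have hxS : x ∉ S := fun h => hi (hx ▸ (hpcS x h).1)
      refine ⟨hxS, ?_⟩
      rw [← hx]
      exact hpcN' x hxS
    by_cases hex : ∃ x, pc x = i
    · obtain ⟨x, hx⟩ := hex
      have h1 := hsub x hx
      have h2 : (pcComp M κ i).card ≤ W := by
        rw [pcComp_eq M κ h1.2]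
        have := h1.1
        rw [memS] at this
        omega
      refine le_trans (Finset.card_le_card ?_) h2
      intro y hy
      rw [mem_pcComp]
      exact (hsub y (Finset.mem_filter.1 hy).2).2
    · rw [Finset.card_eq_zero.2]
      · exact Nat.zero_le _
      · rw [Finset.filter_eq_empty_iff]
        intro x _ hx
        exact hex ⟨x, hx⟩
  · intro x y hx hxy
    by_contra hcon
    push Not at hcon
    have hxS : x ∉ S := fun h => hx (hpcS x h).1
    have hC' : pcC M κ x y := ⟨1, pcR_one M κ (Or.inr hcon.le)⟩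
    have hyS : y ∉ S := fun h => hxS ((hScomp x y hC').2 h)
    apply hxy
    rw [hpcN x hxS, hpcN y hyS]
    have : Quotient.mk st y = Quotient.mk st x := Quotient.sound (s := st) (pcC_symm M κ hC')
    rw [this]
  · intro x y hxy
    refine pc_cover M P W κ δ hW hκ hκ1 hδ hδ1 hP ?_
    by_cases hx : x ∈ S
    · have hy : y ∈ S := by
        by_contra hy
        have h1 := hpcNS y hy
        rw [← hxy] at h1
        exact h1 (hCsep.1 (hpcS x hx).1)
      have h1 := (hpcS x hx).2
      have h2 := (hpcS y hy).2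
      rw [← hxy] at h2
      exact pcR_mono M κ hr4 (pcR_add M κ _ _ h1 (pcR_symm M κ _ h2))
    · have hy : y ∉ S := by
        intro hy
        have h1 := hpcNS x hx
        rw [hxy] at h1
        exact h1 (hCsep.1 (hpcS y hy).1)
      have h1 : pcC M κ x y := by
        refine pcC_trans M κ (pcC_symm M κ (hpcN' x hx)) ?_
        rw [hxy]
        exact hpcN' y hy
      have h2 : (pcComp M κ x).card ≤ W := by
        rw [memS] at hx
        omega
      exact pcR_mono M κ (by omega) (pc_small_dist M κ W h2 h1)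

end PC

end Pool.Agent.RST
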