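import Mathlib
import Pool.Agent.Lib_helper42.RST.Defs
import Pool.Agent.Lib_helper42.RST.Stmt
import Pool.Agent.Lib_helper42.RSTF.Base
import Pool.Agent.Lib_helper42.RSTF.Asm3

/- block PRM proved by helper50 -/

set_option autoImplicit false

open Finset

namespace Pool.Agent.RST

set_option linter.unusedVariables false

theorem PRM_K (ε : ℝ) (hε : 0 < ε) : ∃ K : ℝ, 1 ≤ K ∧ 2 * Real.exp (-K ^ 2 / 8) ≤ ε := by
  refine ⟨1 + 16 / ε, ?_, ?_⟩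
  · have : 0 < 16 / ε := by positivity
    linarith
  · set K := 1 + 16 / ε with hK
    have h0 : 0 < 16 / ε := by positivity
    have hK1 : 1 ≤ K := by linarith
    have h1 : 2 / ε ≤ K ^ 2 / 8 := by
      have : K ≤ K ^ 2 := by nlinarith
      have h3 : 16 / ε = 8 * (2 / ε) := by ring
      linarith
    have h2 : Real.exp (-K ^ 2 / 8) ≤ Real.exp (-(2 / ε)) := by
      apply Real.exp_le_exp.mpr
      have : -K ^ 2 / 8 = -(K ^ 2 / 8) := by ring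
      rw [this]
      linarith
    have h3 : Real.exp (-(2 / ε)) ≤ ε / 2 := by
      rw [Real.exp_neg]
      have h4 : 2 / ε ≤ Real.exp (2 / ε) := by
        have := Real.add_one_le_exp (2 / ε)
        linarith
      have h5 : 0 < 2 / ε := by positivity
      calc (Real.exp (2 / ε))⁻¹ ≤ (2 / ε)⁻¹ := inv_anti₀ h5 h4
        _ = ε / 2 := by rw [inv_div]
    linarith

theorem PRM_exp (d c : ℝ) (hd : 0 < d) (hc : 0 < c) : ∃ K : ℕ, Real.exp (-(K * c)) ≤ d := by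
  obtain ⟨K, hK⟩ := exists_nat_ge (1 / (d * c))
  refine ⟨K, ?_⟩
  have h1 : 1 / d ≤ K * c := by
    calc 1 / d = 1 / (d * c) * c := by field_simp
      _ ≤ K * c := mul_le_mul_of_nonneg_right hK hc.le
  have h0 : 0 < 1 / d := by positivity
  rw [Real.exp_neg]
  have h4 : 1 / d ≤ Real.exp (K * c) := by
    have := Real.add_one_le_exp (K * c)
    linarith
  calc (Real.exp (K * c))⁻¹ ≤ (1 / d)⁻¹ := inv_anti₀ h0 h4
    _ = d := by rw [one_div, inv_inv]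

/-- Block PRM: the constants exist -/
theorem exists_prm (δ : ℝ) (hδ : 0 < δ) (hδ2 : δ ≤ 1 / 200) (η : ℝ) (hη : 0 < η) :
    ∃ p : Prm δ, p.η = η := by
  obtain ⟨K0, hK0, hK0e⟩ := PRM_K δ hδ
  have hK0p : 0 < K0 := by linarith
  obtain ⟨dv, hdvdef⟩ : ∃ dv, dv = δ ^ 2 / (8 * K0) := ⟨_, rfl⟩
  have hdv : 0 < dv := by rw [hdvdef]; positivity
  obtain ⟨K1, hK1, hK1e⟩ := PRM_K (dv / 100) (by positivity)
  have hK1p : 0 < K1 := by linarith
  have hdv2 : dv / δ ≤ δ / (8 * K0) := by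
    rw [hdvdef]
    apply le_of_eq
    field_simp
  -- es
  obtain ⟨εs, hεs, hεη, hε1, hεK⟩ : ∃ εs : ℝ, 0 < εs ∧ 2 * εs ≤ η ∧ εs ≤ 1 ∧
      8 * εs * (K1 + 2) ≤ δ := by
    refine ⟨min (δ / (8 * (K1 + 2))) (min (η / 2) 1), ?_, ?_, ?_, ?_⟩
    · refine lt_min (by positivity) (lt_min (by positivity) one_pos)
    · have : min (δ / (8 * (K1 + 2))) (min (η / 2) 1) ≤ η / 2 :=
        (min_le_right _ _).trans (min_le_left _ _)
      linarith
    · exact (min_le_right _ _).trans (min_le_right _ _)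
    · have h1 : min (δ / (8 * (K1 + 2))) (min (η / 2) 1) ≤ δ / (8 * (K1 + 2)) := min_le_left _ _
      have h2 : 0 < 8 * (K1 + 2) := by positivity
      have h3 := mul_le_mul_of_nonneg_right h1 h2.le
      rw [div_mul_cancel₀ _ h2.ne'] at h3
      linarith
  obtain ⟨Θ, hΘ, hΘe⟩ : ∃ Θ : ℝ, 0 < Θ ∧ Real.exp (-(Θ * εs)) ≤ δ := by
    refine ⟨-Real.log δ / εs, ?_, ?_⟩
    · have : Real.log δ < 0 := Real.log_neg hδ (by linarith)
      apply div_pos (by linarith) hεs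
    · rw [div_mul_cancel₀ _ hεs.ne', neg_neg, Real.exp_log hδ]
  obtain ⟨L, hL, hLΘ⟩ : ∃ L : ℕ, 4 ≤ L ∧ Θ / δ ≤ dv * L / 100 := by
    obtain ⟨N, hN⟩ := exists_nat_ge (100 * (Θ / δ) / dv)
    refine ⟨N + 4, by omega, ?_⟩
    rw [div_le_iff₀ hdv] at hN
    push_cast
    nlinarith
  have hL' : (4 : ℝ) ≤ L := by exact_mod_cast hL
  obtain ⟨d6, hd6def⟩ : ∃ d6, d6 = δ * dv / 2000 := ⟨_, rfl⟩
  have hd6 : 0 < d6 := by rw [hd6def]; positivity
  have hd6a : 2 * d6 / δ ≤ δ / (8 * K0) := by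
    refine le_trans ?_ hdv2
    rw [hd6def]
    have h1 : 2 * (δ * dv / 2000) / δ = dv / 1000 := by field_simp; ring
    rw [h1]
    apply div_le_div_of_nonneg_left hdv.le hδ
    linarith
  have hd6b : 20 * d6 ≤ dv / 100 := by
    rw [hd6def]; nlinarith
  have hd6c : d6 ≤ dv / 1000 := by
    rw [hd6def]; nlinarith
  obtain ⟨d14, hd14def⟩ : ∃ d14, d14 = d6 / 12 := ⟨_, rfl⟩
  have hd14 : 0 < d14 := by rw [hd14def]; positivity
  have hd14a : 12 * d14 ≤ d6 := by rw [hd14def]; linarith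
  obtain ⟨dt, hdtdef⟩ : ∃ dt : ℝ, dt = δ / (100 * L) := ⟨_, rfl⟩
  have hdt : 0 < dt := by rw [hdtdef]; positivity
  have hdt1 : 100 * L * dt ≤ δ := by
    rw [hdtdef]; apply le_of_eq; field_simp
  obtain ⟨c1, hc1def⟩ : ∃ c1, c1 = dt ^ 2 * d6 ^ 2 / 200 := ⟨_, rfl⟩
  have hc1 : 0 < c1 := by rw [hc1def]; positivity
  obtain ⟨M', hM'def⟩ : ∃ M', M' = 1600 / (dt ^ 2 * d14) := ⟨_, rfl⟩
  have hM' : 0 < M' := by rw [hM'def]; positivity
  have hM'1 : 1600 ≤ dt ^ 2 * M' * d14 := by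
    rw [hM'def]; apply le_of_eq; field_simp
  obtain ⟨cb, hcb, hcb1, hcb2, hcb3⟩ : ∃ cb : ℝ, 0 < cb ∧ 4 * cb ≤ d14 ∧ 32 * M' * cb ≤ d6 ^ 2 ∧
      2 * cb ≤ c1 := by
    refine ⟨min (d14 / 4) (min (d6 ^ 2 / (32 * M')) (c1 / 2)), ?_, ?_, ?_, ?_⟩
    · exact lt_min (by positivity) (lt_min (by positivity) (by positivity))
    · have : min (d14 / 4) (min (d6 ^ 2 / (32 * M')) (c1 / 2)) ≤ d14 / 4 := min_le_left _ _
      linarith
    · have h1 : min (d14 / 4) (min (d6 ^ 2 / (32 * M')) (c1 / 2)) ≤ d6 ^ 2 / (32 * M') :=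
        (min_le_right _ _).trans (min_le_left _ _)
      have h2 : 0 < 32 * M' := by positivity
      have h3 := mul_le_mul_of_nonneg_left h1 h2.le
      rwa [mul_div_cancel₀ _ h2.ne'] at h3
    · have : min (d14 / 4) (min (d6 ^ 2 / (32 * M')) (c1 / 2)) ≤ c1 / 2 :=
        (min_le_right _ _).trans (min_le_right _ _)
      linarith
  obtain ⟨d7, hd7p, hd7, hd7v⟩ : ∃ d7 : ℝ, 0 < d7 ∧ d7 ≤ δ / (8 * K0) ∧ d7 ≤ dv / 100 :=
    ⟨min (δ / (8 * K0)) (dv / 100), lt_min (by positivity) (by positivity), min_le_left _ _,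
      min_le_right _ _⟩
  obtain ⟨K2, hK2⟩ := PRM_exp d7 (L * (c1 - cb)) hd7p (by
    apply mul_pos (by linarith) (by linarith))
  obtain ⟨W, hW, hW1, hW2⟩ : ∃ W : ℕ, 1 ≤ W ∧ 2 * M' ≤ d14 * W ∧ 2 ≤ η * W := by
    obtain ⟨N1, hN1⟩ := exists_nat_ge (2 * M' / d14)
    obtain ⟨N2, hN2⟩ := exists_nat_ge (2 / η)
    refine ⟨N1 + N2 + 1, by omega, ?_, ?_⟩
    · rw [div_le_iff₀ hd14] at hN1
      push_cast
      have h2 : 0 ≤ (N2 : ℝ) := Nat.cast_nonneg _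
      nlinarith [mul_nonneg hd14.le h2]
    · rw [div_le_iff₀ hη] at hN2
      push_cast
      have h2 : 0 ≤ (N1 : ℝ) := Nat.cast_nonneg _
      nlinarith [mul_nonneg hη.le h2]
  obtain ⟨d5, hd5, hd5a, hd5b, hd5c⟩ : ∃ d5 : ℝ, 0 < d5 ∧ (2 * L + 1) * d5 ≤ δ / (8 * K0) ∧
      (2 * L + 1) * d5 ≤ dv / 100 ∧ (2 * L + 1) * d5 ≤ 1 / 4 := by
    have h0 : (0 : ℝ) < 2 * L + 1 := by positivity
    refine ⟨min (min (δ / (8 * K0)) (dv / 100)) (1 / 4) / (2 * L + 1), ?_, ?_, ?_, ?_⟩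
    · refine div_pos (lt_min (lt_min (by positivity) (by positivity)) (by norm_num)) h0
    · rw [mul_div_cancel₀ _ h0.ne']
      exact (min_le_left _ _).trans (min_le_left _ _)
    · rw [mul_div_cancel₀ _ h0.ne']
      exact (min_le_left _ _).trans (min_le_right _ _)
    · rw [mul_div_cancel₀ _ h0.ne']
      exact min_le_right _ _
  obtain ⟨B', hB', hB'1⟩ : ∃ B' : ℕ, 1 ≤ B' ∧
      3 * (3 + 4 * dt ^ 2 * M' + W * (8 * W * (Real.log (8 * W / d5) + 1)) + B' * L * c1) ≤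
      ((L - 1) * B' : ℕ) * dt ^ 2 * d6 ^ 2 / 16 := by
    have hgap : 0 < ((L : ℝ) - 1) * dt ^ 2 * d6 ^ 2 / 16 - 3 * L * c1 := by
      rw [hc1def]
      have h1 : ((L : ℝ) - 1) * dt ^ 2 * d6 ^ 2 / 16 - 3 * L * (dt ^ 2 * d6 ^ 2 / 200) =
          (dt ^ 2 * d6 ^ 2) * (((L : ℝ) - 1) / 16 - 3 * L / 200) := by ring
      rw [h1]
      apply mul_pos (by positivity)
      linarith
    obtain ⟨N, hN⟩ := exists_nat_ge
      (3 * (3 + 4 * dt ^ 2 * M' + W * (8 * W * (Real.log (8 * W / d5) + 1))) /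
        (((L : ℝ) - 1) * dt ^ 2 * d6 ^ 2 / 16 - 3 * L * c1))
    rw [div_le_iff₀ hgap] at hN
    refine ⟨N + 1, by omega, ?_⟩
    have hc : (((L - 1) * (N + 1) : ℕ) : ℝ) = ((L : ℝ) - 1) * (N + 1) := by
      rw [Nat.cast_mul, Nat.cast_sub (by omega)]
      push_cast
      ring
    rw [hc]
    push_cast
    nlinarith
  have hK2' : Real.exp (-(K2 * L * (c1 - cb))) ≤ d7 := by
    have : (K2 : ℝ) * L * (c1 - cb) = K2 * (L * (c1 - cb)) := by ring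
    rw [this]; exact hK2
  exact ⟨⟨K0, K1, dv, Θ, εs, η, L, d6, d14, dt, c1, M', cb, d7, K2, W, d5, B',
    hδ, hδ2, hL, hK0, hK0e, hK1, hK1e, hdv, hdv2, hd7, hd7v, hd5, hd5a, hd5b,
    hd5c, hd6, hd6a, hd6b, hd6c, hLΘ, hΘ, hεs, hΘe, hη, hεη, hε1, hεK, hd14,
    hd14a, hdt, hdt1, hc1, hM', hM'1, hcb, hcb1, hcb2, hcb3, hK2', hW, hW1, hW2, hB', hB'1⟩, rfl⟩

end Pool.Agent.RST
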