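import Mathlib
import Pool.Agent.Lib_helper42.RST.Defs
import Pool.Agent.Lib_helper42.RST.Stmt
import Pool.Agent.Lib_helper42.RSTF.Base
import Pool.Agent.Lib_helper42.RSTF.Asm6
import Pool.Agent.Lib_helper42.RSTF.BDb
import Pool.Agent.Lib_helper42.RSTF.BDc
import Pool.Agent.Lib_helper42.RSTF.CALC
import Pool.Agent.Lib_helper42.RSTF.EXT
import Pool.Agent.Lib_helper42.RSTF.FIN
import Pool.Agent.Lib_helper42.RSTF.FT
import Pool.Agent.Lib_helper42.RSTF.LEGa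
import Pool.Agent.Lib_helper42.RSTF.LEGb
import Pool.Agent.Lib_helper42.RSTF.LEGc
import Pool.Agent.Lib_helper42.RSTF.LRG
import Pool.Agent.Lib_helper42.RSTF.PC
import Pool.Agent.Lib_helper42.RSTF.PRM

/- block Asm7 proved by helper42 -/

/-!
# Assembly 7: the final theorem (helper42)
-/

set_option autoImplicit false

open Finset MeasureTheory ProbabilityTheory

namespace Pool.Agent.RST

/-- main bound, uniform in the model -/
theorem main_phi (δ : ℝ) (hδ : 0 < δ) (hδ2 : δ ≤ 1 / 200) : ∃ N0 : ℕ, ∀ (V Ω : Type) [Fintype Ω]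
    [Fintype V] [DecidableEq V] (M : Mdl V Ω) (N : ℕ), N0 ≤ Fintype.card V → ∀ x : V,
    Phi M (1 / Fintype.card V) N x ∅ ≤ Real.exp ((1 / Fintype.card V : ℝ) *
      ((Real.sqrt (2 * Real.pi / 27) + 40 * δ) * (Fintype.card V : ℝ) ^ (3 / 2 : ℝ))) := by
  obtain ⟨η, hη, Nt, hNt⟩ := tour_asymp δ hδ
  obtain ⟨p, hpη⟩ := exists_prm δ hδ hδ2 η hη
  obtain ⟨Nl, hNl⟩ := ev_lrg p
  obtain ⟨Nb, hNb⟩ := birthday δ hδ (by linarith)
  obtain ⟨N1, hN1⟩ := birthday_tail p.K0 p.hK0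
  obtain ⟨N2, hN2⟩ := birthday_tail p.K1 p.hK1
  obtain ⟨N3, hN3⟩ := leg_close
  obtain ⟨N4, hN4⟩ := clusters
  refine ⟨Nt + Nl + Nb + N1 + N2 + N3 + N4, ?_⟩
  intro V Ω _ _ _ M N hn x
  obtain ⟨q, g⟩ := hNl (Fintype.card V) (by omega)
  have hnp := n_pos p g
  have hlam : (0 : ℝ) ≤ 1 / Fintype.card V := by positivity
  have C := calc_Phi M (1 / Fintype.card V) hlam N
  have hPp := P_pos p g
  have hκ : 0 < p.Ck / (p.L * q : ℕ) := div_pos (Ck_pos p) hPp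
  have hd51 : p.d5 ≤ 1 := by
    have h1 := p.hd5c
    have h2 : (4 : ℝ) ≤ p.L := by exact_mod_cast p.hL
    have h3 := p.hd5
    nlinarith
  obtain ⟨pcs⟩ := exists_pieces M (p.L * q) p.W (p.Ck / (p.L * q : ℕ)) p.d5 p.hW hκ g.hκ p.hd5 hd51
    (by
      rw [div_mul_cancel₀ _ hPp.ne']
      exact le_rfl)
  by_cases hs : ∃ z, ∀ u, pcs.pc u = pcs.pc z
  · refine (single_piece p g C pcs hs x).trans ?_
    apply Real.exp_le_exp.2
    apply mul_le_mul_of_nonneg_left _ hlam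
    apply mul_le_mul_of_nonneg_right _ (by positivity)
    have := Real.sqrt_nonneg (2 * Real.pi / 27)
    linarith
  · push Not at hs
    obtain ⟨a, he⟩ := exists_ext M pcs.pc hs
    have ht0 : TailB p.K0 (Fintype.card V) := hN1 (Fintype.card V) (by omega)
    have ht1 : TailB p.K1 (Fintype.card V) := hN2 (Fintype.card V) (by omega)
    have hbd : ∀ k' : ℝ, δ * Fintype.card V ≤ k' → k' ≤ Fintype.card V →
        ∃ f, BdF δ p.K0 (Fintype.card V) k' f := by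
      intro k' h1 h2
      obtain ⟨f, hf1, hf2, hf3⟩ := hNb (Fintype.card V) (by omega) k' h1 h2
      exact ⟨f, ⟨hf1, hf2, hf3⟩⟩
    obtain ⟨D⟩ := mc_exists p g C pcs he ht0 ht1 hbd
    exact main_bound' p g C pcs he D
      (hN3 V Ω M _ (by omega) C) (hN4 V Ω M _ (by omega) C)
      (fun r hr => hNt (Fintype.card V) (by omega) r (by rwa [hpη] at hr)) x

/-- **Q1 of MP_864bf0_pr is true.** -/
theorem q1.{u} : ∀ ε : ℝ, 0 < ε → ∃ N : ℕ, ∀ n : ℕ, N ≤ n → 2 ≤ n →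
    ∀ (𝒯 : Set (SimpleGraph (Fin n))), (∀ G ∈ 𝒯, G.IsTree) →
    ∀ (μ : Measure (SimpleGraph (Fin n))), IsProbabilityMeasure μ → μ 𝒯ᶜ = 0 →
    ∀ (Ω : Type u) (_ : MeasurableSpace Ω) (Pm : Measure Ω), IsProbabilityMeasure Pm →
    ∀ (X : ℕ → Ω → SimpleGraph (Fin n)), (∀ i, 1 ≤ i → Measurable (X i)) →
      (∀ i, 1 ≤ i → Pm.map (X i) = μ) → iIndepFun (fun i => X (i + 1)) Pm →
      ENNReal.ofReal (1 - ε) ≤
        Pm {ω | ∃ t : ℕ, texp (fun i => X i ω) = t ∧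
          (t : ℝ) ≤ (1 + ε) * Real.sqrt (2 * Real.pi / 27) * (n : ℝ) ^ (3 / 2 : ℝ)} := by
  intro ε hε
  set c := Real.sqrt (2 * Real.pi / 27) with hc
  have hc0 : 0 < c := Real.sqrt_pos.2 (by positivity)
  set δ : ℝ := min (1 / 200) (ε * c / 100) with hδdef
  have hδ : 0 < δ := lt_min (by norm_num) (by positivity)
  have hδ2 : δ ≤ 1 / 200 := min_le_left _ _
  have hδε : 100 * δ ≤ ε * c := by
    have : δ ≤ ε * c / 100 := min_le_right _ _
    linarith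
  obtain ⟨N0, hN0⟩ := main_phi δ hδ hδ2
  -- n large: exp(-(ε c / 4) √n) ≤ ε and n + 1 ≤ (ε c / 10) n^{3/2}
  have hev : ∀ᶠ n : ℕ in Filter.atTop, (1 : ℝ) ≤ n ∧ 20 ≤ (ε * c) * Real.sqrt n ∧
      Real.exp (-(ε * c / 4 * Real.sqrt n)) ≤ ε := by
    have h1 : Filter.Tendsto (fun n : ℕ => Real.sqrt (n : ℝ)) Filter.atTop Filter.atTop :=
      Real.tendsto_sqrt_atTop.comp tendsto_natCast_atTop_atTop
    have h2 : Filter.Tendsto (fun n : ℕ => (ε * c) * Real.sqrt (n : ℝ)) Filter.atTop Filter.atTop :=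
      h1.const_mul_atTop (by positivity)
    have h3 : Filter.Tendsto (fun n : ℕ => Real.exp (-(ε * c / 4 * Real.sqrt (n : ℝ))))
        Filter.atTop (nhds 0) :=
      Real.tendsto_exp_neg_atTop_nhds_zero.comp (h1.const_mul_atTop (by positivity))
    filter_upwards [tendsto_natCast_atTop_atTop.eventually_ge_atTop (1 : ℝ),
      h2.eventually_ge_atTop 20, h3.eventually_le_const hε] with n hn1 hn2 hn3
    exact ⟨hn1, hn2, hn3⟩
  obtain ⟨N1, hN1⟩ := Filter.eventually_atTop.1 hev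
  refine ⟨N0 + N1, ?_⟩
  intro n hn h2n 𝒯 h𝒯 μ hμp hμ Ω _ Pm hP X hX hlaw hind
  obtain ⟨hn1, hn20, hnε⟩ := hN1 n (by omega)
  let _ : Fintype (TreeN n) := Fintype.ofFinite _
  obtain ⟨M, hgr, hw⟩ := exists_model 𝒯 h𝒯 μ hμp hμ
  have hn0 : (0 : ℝ) < n := by linarith
  set sq := Real.sqrt (n : ℝ) with hsq
  have hsq0 : 0 < sq := Real.sqrt_pos.2 hn0
  have hN3 : (n : ℝ) ^ (3 / 2 : ℝ) = n * sq := N3_eq n
  -- the time
  set T : ℝ := (1 + ε) * c * (n : ℝ) ^ (3 / 2 : ℝ) with hT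
  have hTn : (n : ℝ) + 1 ≤ T := by
    rw [hT, hN3]
    have h1 : 20 * n ≤ (ε * c * sq) * n := mul_le_mul_of_nonneg_right hn20 hn0.le
    have h2 : 0 ≤ c * (n * sq) := by positivity
    nlinarith
  set t : ℕ := ⌊T⌋₊ with ht
  have htn : n ≤ t := Nat.le_floor (by linarith)
  obtain ⟨N, hN⟩ := Nat.exists_eq_add_of_le htn
  have htT : (t : ℝ) ≤ T := Nat.floor_le (by linarith)
  have hNT : T - n - 1 ≤ N := by
    have h1 : T < t + 1 := Nat.lt_floor_add_one T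
    have h2 : (t : ℝ) = n + N := by exact_mod_cast hN
    linarith
  have hne : Nonempty (Fin n) := ⟨⟨0, by omega⟩⟩
  obtain ⟨x0⟩ := hne
  have hcard : Fintype.card (Fin n) = n := Fintype.card_fin n
  have hphi := hN0 (Fin n) (TreeN n) M N (by rw [hcard]; omega) x0
  rw [hcard] at hphi
  have hfin := fin_prob M (1 / (n : ℝ)) (by positivity) N x0
  rw [hcard, ← hN] at hfin
  have hfinal : EL M.w t (fun l => ind (¬ ∀ v, ∃ y, Wlk M l v y univ)) ≤ ε := by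
    refine hfin.trans (le_trans (mul_le_mul_of_nonneg_left hphi (Real.exp_pos _).le) ?_)
    rw [← Real.exp_add]
    refine le_trans (Real.exp_le_exp.2 ?_) hnε
    rw [hN3]
    have h1 : (1 / (n : ℝ)) * ((c + 40 * δ) * (n * sq)) = (c + 40 * δ) * sq := by
      field_simp
    rw [h1]
    have h2 : (1 / (n : ℝ)) * (T - n - 1) ≤ 1 / n * N := mul_le_mul_of_nonneg_left hNT (by positivity)
    have h3 : (1 / (n : ℝ)) * (T - n - 1) = (1 + ε) * c * sq - 1 - 1 / n := by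
      rw [hT, hN3]
      field_simp
    have h4 : 1 / (n : ℝ) ≤ 1 := by
      rw [div_le_one hn0]; exact hn1
    have h5 : 40 * δ * sq ≤ (2 / 5) * (ε * c * sq) := by nlinarith
    nlinarith
  have h := transfer h2n M hgr 𝒯 h𝒯 μ hμp hμ hw Ω _ Pm hP X
    (fun i => hX (i + 1) (by omega)) (fun i => hlaw (i + 1) (by omega)) hind t ε hfinal
  refine h.trans (measure_mono ?_)
  rintro ω ⟨t', ht1, ht2⟩
  refine ⟨t', ht1, ?_⟩
  have : (t' : ℝ) ≤ t := by exact_mod_cast ht2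
  exact this.trans htT

end Pool.Agent.RST
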