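import Mathlib
import Pool.Agent.Lib_helper42.RST.Defs
import Pool.Agent.Lib_helper42.RST.Stmt
import Pool.Agent.Lib_helper42.RSTF.Base
import Pool.Agent.Lib_helper42.RSTF.EL1
import Pool.Agent.Lib_helper42.RSTF.HT

/- block PEEL proved by helper30 -/

/-!
# Block PEEL of the RST project: the peeling potential
-/

set_option autoImplicit false
set_option linter.unusedSectionVars false

open Finset

namespace Pool.Agent.RST

section peel_P1
variable {V Ω : Type} [Fintype Ω]

theorem peel_P1_nonneg (M : Mdl V Ω) (p : Ω → Prop) : 0 ≤ P1 M p :=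
  Finset.sum_nonneg (fun T _ => mul_nonneg (M.w0 T) (ind_nonneg _))

theorem peel_P1_mono (M : Mdl V Ω) {p q : Ω → Prop} (h : ∀ T, p T → q T) : P1 M p ≤ P1 M q :=
  Finset.sum_le_sum (fun T _ => mul_le_mul_of_nonneg_left (ind_mono (h T)) (M.w0 T))

theorem peel_ind_or (p q : Prop) : ind (p ∨ q) ≤ ind p + ind q := by
  by_cases hp : p
  · rw [ind_true (Or.inl hp : p ∨ q), ind_true hp]
    have := ind_nonneg q
    linarith
  · by_cases hq : q
    · rw [ind_true (Or.inr hq : p ∨ q), ind_true hq]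
      have := ind_nonneg p
      linarith
    · rw [ind_false (not_or.mpr ⟨hp, hq⟩), ind_false hp, ind_false hq]
      norm_num

theorem peel_P1_or (M : Mdl V Ω) (p q : Ω → Prop) :
    P1 M (fun T => p T ∨ q T) ≤ P1 M p + P1 M q := by
  unfold P1
  rw [← Finset.sum_add_distrib]
  refine Finset.sum_le_sum (fun T _ => ?_)
  rw [← mul_add]
  exact mul_le_mul_of_nonneg_left (peel_ind_or _ _) (M.w0 T)

theorem peel_P1_true (M : Mdl V Ω) : P1 M (fun _ => True) = 1 := by
  unfold P1
  rw [← M.w1]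
  refine Finset.sum_congr rfl (fun T _ => ?_)
  rw [ind_true trivial, mul_one]

theorem peel_P1_cover (M : Mdl V Ω) (p q : Ω → Prop) (h : ∀ T, p T ∨ q T) :
    1 ≤ P1 M p + P1 M q := by
  rw [← peel_P1_true M]
  exact le_trans (peel_P1_mono M (fun T _ => h T)) (peel_P1_or M p q)

theorem peel_P1_congr (M : Mdl V Ω) {p q : Ω → Prop} (h : ∀ T, p T ↔ q T) : P1 M p = P1 M q :=
  le_antisymm (peel_P1_mono M (fun T => (h T).1)) (peel_P1_mono M (fun T => (h T).2))

theorem peel_P1_false (M : Mdl V Ω) : P1 M (fun _ => False) = 0 := by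
  unfold P1
  refine Finset.sum_eq_zero (fun T _ => ?_)
  rw [ind_false (fun h => h), mul_zero]

/-- union bound over a finite set -/
theorem peel_P1_exists {ι : Type} (M : Mdl V Ω) (s : Finset ι) (p : ι → Ω → Prop) :
    P1 M (fun T => ∃ i ∈ s, p i T) ≤ ∑ i ∈ s, P1 M (p i) := by
  classical
  induction s using Finset.induction_on with
  | empty =>
    rw [Finset.sum_empty, ← peel_P1_false M]
    exact peel_P1_mono M (fun T h => by
      obtain ⟨i, hi, _⟩ := h
      exact absurd hi (Finset.notMem_empty i))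
  | insert a s ha ih =>
    rw [Finset.sum_insert ha]
    refine le_trans (peel_P1_mono (q := fun T => p a T ∨ ∃ i ∈ s, p i T) M (fun T h => ?_))
      (le_trans (peel_P1_or M _ _) (by linarith))
    obtain ⟨i, hi, h⟩ := h
    rcases Finset.mem_insert.mp hi with rfl | hi
    · exact Or.inl h
    · exact Or.inr ⟨i, hi, h⟩

/-- disjoint pairs: `P1 p + P1 q ≤ P1 r` when `p,q` are exclusive and imply `r` -/
theorem peel_P1_excl (M : Mdl V Ω) (p q r : Ω → Prop) (h : ∀ T, p T → ¬ q T)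
    (hp : ∀ T, p T → r T) (hq : ∀ T, q T → r T) : P1 M p + P1 M q ≤ P1 M r := by
  unfold P1
  rw [← Finset.sum_add_distrib]
  refine Finset.sum_le_sum (fun T _ => ?_)
  rw [← mul_add]
  refine mul_le_mul_of_nonneg_left ?_ (M.w0 T)
  by_cases hpT : p T
  · rw [ind_true hpT, ind_false (h T hpT), ind_true (hp T hpT)]
    norm_num
  · by_cases hqT : q T
    · rw [ind_false hpT, ind_true hqT, ind_true (hq T hqT)]
      norm_num
    · rw [ind_false hpT, ind_false hqT]
      have := ind_nonneg (r T)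
      linarith

end peel_P1

section PEEL
variable {V Ω : Type} [Fintype Ω] [Fintype V] [DecidableEq V]

theorem peel_fG_mono (M : Mdl V Ω) (pc : V → V) {G G' : Finset V} (h : G' ⊆ G) (y : V) :
    fG M pc G' y ≤ fG M pc G y := by
  refine peel_P1_mono M (fun T hT => ?_)
  obtain ⟨c, h1, h2, h3⟩ := hT
  exact ⟨c, h h1, h2, h3⟩

/-- exits of the family at `y` are adjacent to the family -/
theorem peel_exit_le {M : Mdl V Ω} {pc : V → V} {a : Ω → V → V} (he : Ext M pc a) (G : Finset V)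
    (hG : ∀ D ∈ G, pc D = D) (y : V) :
    P1 M (fun T => ∃ D ∈ G, a T D = y) ≤ fG M pc G y := by
  refine peel_P1_mono M (fun T hT => ?_)
  obtain ⟨D, hD, hy⟩ := hT
  obtain ⟨u, hu1, hu2⟩ := he.edge T D
  rw [hG D hD] at hu1
  refine ⟨u, ?_, ?_, ?_⟩
  · rw [hu1]; exact hD
  · rw [hu1, ← hy]
    intro hc
    exact he.out T D (by rw [← hc, hG D hD])
  · rw [← hy]; exact hu2

theorem Pot_nonneg (M : Mdl V Ω) (pc : V → V) (a : Ω → V → V) (θ : ℝ) (hθ : 0 ≤ θ)
    (G : Finset V) : 0 ≤ Pot M pc a θ G := by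
  classical
  unfold Pot
  refine Finset.sum_nonneg (fun y _ => ?_)
  split_ifs
  · exact peel_P1_nonneg M _
  · exact hθ

theorem Pot_le {M : Mdl V Ω} {pc : V → V} {a : Ω → V → V} (he : Ext M pc a) (θ : ℝ)
    (G : Finset V) (hG : ∀ D ∈ G, pc D = D) : Pot M pc a θ G ≤ Fintype.card V * θ := by
  classical
  unfold Pot
  have h : ∀ y ∈ (univ : Finset V),
      (if fG M pc G y < θ then P1 M (fun T => ∃ D ∈ G, a T D = y) else θ) ≤ θ := by
    intro y _
    split_ifs with hy
    · exact le_trans (peel_exit_le he G hG y) hy.le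
    · exact le_refl _
  refine le_trans (Finset.sum_le_sum h) ?_
  rw [Finset.sum_const, Finset.card_univ, nsmul_eq_mul]

theorem Pot_anti {M : Mdl V Ω} {pc : V → V} {a : Ω → V → V} (he : Ext M pc a) (θ : ℝ)
    (G G' : Finset V) (hG : ∀ D ∈ G, pc D = D) (h : G' ⊆ G) :
    Pot M pc a θ G' ≤ Pot M pc a θ G := by
  classical
  unfold Pot
  refine Finset.sum_le_sum (fun y _ => ?_)
  have hf := peel_fG_mono M pc h y
  split_ifs with h1 h2 h2
  · refine peel_P1_mono M (fun T hT => ?_)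
    obtain ⟨D, hD, hy⟩ := hT
    exact ⟨D, h hD, hy⟩
  · exact le_trans (peel_exit_le he G' (fun D hD => hG D (h hD)) y) h1.le
  · exact absurd (lt_of_le_of_lt hf h2) h1
  · exact le_refl _

theorem Pot_bad {M : Mdl V Ω} {pc : V → V} {a : Ω → V → V} (he : Ext M pc a) (θ cb : ℝ)
    (G : Finset V) (hG : ∀ D ∈ G, pc D = D) (D : V) (hD : D ∈ G) (hb : BadP M pc a θ cb G D) :
    Pot M pc a θ (G.erase D) ≤ Pot M pc a θ G - cb := by
  classical
  unfold BadP at hb
  set g : V → ℝ := fun y => P1 M (fun T => a T D = y ∧ fG M pc G y < θ ∧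
    ∀ D' ∈ G, D' ≠ D → a T D' ≠ a T D) with hg
  have hsum : P1 M (fun T => fG M pc G (a T D) < θ ∧ ∀ D' ∈ G, D' ≠ D → a T D' ≠ a T D) ≤
      ∑ y, g y := by
    refine le_trans (peel_P1_mono M (q := fun T => ∃ y ∈ (univ : Finset V), a T D = y ∧
      fG M pc G y < θ ∧ ∀ D' ∈ G, D' ≠ D → a T D' ≠ a T D) (fun T hT => ?_)) (peel_P1_exists M _ _)
    exact ⟨a T D, Finset.mem_univ _, rfl, hT.1, hT.2⟩
  have hterm : ∀ y ∈ (univ : Finset V),
      (if fG M pc (G.erase D) y < θ then P1 M (fun T => ∃ D' ∈ G.erase D, a T D' = y) else θ) ≤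
      (if fG M pc G y < θ then P1 M (fun T => ∃ D' ∈ G, a T D' = y) else θ) - g y := by
    intro y _
    have hf := peel_fG_mono M pc (Finset.erase_subset D G) y
    by_cases h1 : fG M pc G y < θ
    · rw [if_pos h1, if_pos (lt_of_le_of_lt hf h1)]
      have := peel_P1_excl M (fun T => ∃ D' ∈ G.erase D, a T D' = y)
        (fun T => a T D = y ∧ fG M pc G y < θ ∧ ∀ D' ∈ G, D' ≠ D → a T D' ≠ a T D)
        (fun T => ∃ D' ∈ G, a T D' = y) ?_ ?_ ?_
      · linarith
      · rintro T ⟨D', hD', hy⟩ ⟨h2, _, h3⟩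
        exact h3 D' (Finset.mem_of_mem_erase hD') (Finset.ne_of_mem_erase hD') (by rw [hy, h2])
      · rintro T ⟨D', hD', hy⟩
        exact ⟨D', Finset.mem_of_mem_erase hD', hy⟩
      · rintro T ⟨h2, _, _⟩
        exact ⟨D, hD, h2⟩
    · have hg0 : g y = 0 := by
        rw [hg, ← peel_P1_false M]
        exact peel_P1_congr M (fun T => ⟨fun h => h1 h.2.1, fun h => h.elim⟩)
      rw [if_neg h1, hg0, sub_zero]
      split_ifs with h2
      · exact le_trans (peel_exit_le he _ (fun D' hD' => hG D' (Finset.mem_of_mem_erase hD')) y)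
          h2.le
      · exact le_refl _
  have := Finset.sum_le_sum hterm
  rw [Finset.sum_sub_distrib] at this
  unfold Pot
  linarith

theorem peel_pr_one (M : Mdl V Ω) (x : V) (W : Set V) (p : Ω → Prop)
    (h : ∀ T, p T → ∃ y ∈ W, Stp M T x y) : P1 M p ≤ pr M 1 x W := by
  unfold pr
  rw [EL_one]
  refine Finset.sum_le_sum (fun T _ => mul_le_mul_of_nonneg_left (ind_mono (fun hT => ?_)) (M.w0 T))
  obtain ⟨y, hy, hs⟩ := h T hT
  exact ⟨y, hy, y, hs, rfl⟩

/-- jumping from the piece `D` of a stable family to another piece of the family -/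
theorem move_step {M : Mdl V Ω} {lam : ℝ} {Φ : V → Finset V → ℝ} (C : Calc M lam Φ)
    (hlam : 0 ≤ lam) {P W : ℕ} {κ δ : ℝ} (pcs : Pieces M P W κ δ) {a : Ω → V → V}
    (he : Ext M pcs.pc a) (cb θ c : ℝ) (hθ : 0 < θ) (hκ : 0 ≤ κ) (hκθ : W * κ ≤ θ / 2)
    (hlθ : lam ≤ θ / 8)
    (G : Finset V) (hG : ∀ D ∈ G, pcs.pc D = D ∧ D ∉ pcs.big) (D : V) (hD : D ∈ G)
    (hst : ¬ BadP M pcs.pc a θ cb G D) (x : V) (hx : pcs.pc x = D)
    (hmv : ∀ Wt : Set V, CondN M a cb x Wt → Hit Φ lam x Wt c) :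
    Hit Φ lam x {u | pcs.pc u ∈ G.erase D} (c + 8 / θ) := by
  classical
  set Wt : Set V := {y | (θ ≤ fG M pcs.pc G y ∧ pcs.pc y ≠ D) ∨ pcs.pc y ∈ G.erase D} with hWt
  have hxD : ∀ T, a T x = a T D := fun T => he.dep T x D (by rw [hx, (hG D hD).1])
  have hN : CondN M a cb x Wt := by
    unfold BadP at hst
    push Not at hst
    have h := peel_P1_cover M (fun T => ∃ u ∈ Wt, Stp M T (a T x) u)
      (fun T => fG M pcs.pc G (a T D) < θ ∧ ∀ D' ∈ G, D' ≠ D → a T D' ≠ a T D) ?_
    · unfold CondN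
      linarith
    · intro T
      by_cases hT : fG M pcs.pc G (a T D) < θ ∧ ∀ D' ∈ G, D' ≠ D → a T D' ≠ a T D
      · exact Or.inr hT
      · left
        by_cases h1 : fG M pcs.pc G (a T D) < θ
        · have h2 : ∃ D' ∈ G, D' ≠ D ∧ a T D' = a T D := by
            by_contra hcon
            push Not at hcon
            exact hT ⟨h1, hcon⟩
          obtain ⟨D', hD', hne, heq⟩ := h2
          obtain ⟨u, hu1, hu2⟩ := he.edge T D'
          refine ⟨u, Or.inr ?_, Or.inr ?_⟩
          · rw [hu1, (hG D' hD').1]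
            exact Finset.mem_erase.mpr ⟨hne, hD'⟩
          · rw [hxD, ← heq]
            exact hu2.symm
        · refine ⟨a T x, Or.inl ⟨?_, ?_⟩, Or.inl rfl⟩
          · rw [hxD]; exact not_lt.mp h1
          · have := he.out T D
            rw [(hG D hD).1] at this
            rw [hxD]; exact this
  have h8 : 0 ≤ 8 / θ := by positivity
  refine hit_trans hlam h8 (hmv Wt hN) (fun u hu => ?_)
  rcases hu with ⟨hu1, hu2⟩ | hu
  · -- `u` is high
    have hsmall : P1 M (fun T => ∃ v ∈ univ.filter (fun v => pcs.pc v = D), (M.gr T).Adj v u) ≤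
        θ / 2 := by
      refine le_trans (peel_P1_exists M _ _) (le_trans ?_ hκθ)
      have hc : ∀ v ∈ univ.filter (fun v => pcs.pc v = D),
          P1 M (fun T => (M.gr T).Adj v u) ≤ κ := by
        intro v hv
        have hvD : pcs.pc v = D := (Finset.mem_filter.mp hv).2
        refine pcs.small_edge v u ?_ ?_
        · rw [hvD]; exact (hG D hD).2
        · rw [hvD]; exact hu2
      refine le_trans (Finset.sum_le_sum hc) ?_
      rw [Finset.sum_const, nsmul_eq_mul]
      refine mul_le_mul_of_nonneg_right ?_ hκ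
      exact_mod_cast pcs.small_card D (hG D hD).2
    have hcov : fG M pcs.pc G u ≤
        P1 M (fun T => ∃ v, pcs.pc v ∈ G.erase D ∧ (M.gr T).Adj v u) +
        P1 M (fun T => ∃ v ∈ univ.filter (fun v => pcs.pc v = D), (M.gr T).Adj v u) := by
      refine le_trans (peel_P1_mono M (fun T hT => ?_)) (peel_P1_or M _ _)
      obtain ⟨v, h1, h2, h3⟩ := hT
      by_cases hv : pcs.pc v = D
      · exact Or.inr ⟨v, Finset.mem_filter.mpr ⟨Finset.mem_univ _, hv⟩, h3⟩
      · exact Or.inl ⟨v, Finset.mem_erase.mpr ⟨hv, h1⟩, h3⟩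
    have hpr : θ / 2 ≤ pr M 1 u {u | pcs.pc u ∈ G.erase D} := by
      refine le_trans ?_ (peel_pr_one M u _
        (fun T => ∃ v, pcs.pc v ∈ G.erase D ∧ (M.gr T).Adj v u) (fun T hT => ?_))
      · linarith
      · obtain ⟨v, hv1, hv2⟩ := hT
        exact ⟨v, hv1, Or.inr hv2.symm⟩
    have hleg := hit_leg C hlam (half_pos hθ) hpr (by push_cast; linarith)
    have heq : 4 * ((1 : ℕ) : ℝ) / (θ / 2) = 8 / θ := by
      field_simp
      norm_num
    rw [heq] at hleg
    exact hleg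
  · exact hit_self (x := u) (W := {u | pcs.pc u ∈ G.erase D}) hlam hu h8

end PEEL

end Pool.Agent.RST
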