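import Mathlib
import Pool.Agent.Lib_helper42.RST.Defs
import Pool.Agent.Lib_helper42.RST.Stmt
import Pool.Agent.Lib_helper42.RSTF.Base
import Pool.Agent.Lib_helper42.RSTF.HT
import Pool.Agent.Lib_helper42.RSTF.PEEL

/- block ST1 proved by helper30 -/

/-!
# Block ST1 of the RST project: stage 1 (all small pieces)
-/

set_option autoImplicit false
set_option linter.unusedSectionVars false

open Finset

namespace Pool.Agent.RST

section ST1
variable {V Ω : Type} [Fintype Ω] [Fintype V] [DecidableEq V]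

/-- the cell of an index -/
def st1_cell (pc : V → V) (i : V) : Finset V := univ.filter (fun y => pc y = i)

/-- the clusters met by a family of pieces -/
def st1_cl (pc cl : V → V) (F : Finset V) : Finset V := (univ.filter (fun v => pc v ∈ F)).image cl

theorem st1_cl_mono (pc cl : V → V) {F F' : Finset V} (h : F ⊆ F') :
    st1_cl pc cl F ⊆ st1_cl pc cl F' := by
  refine Finset.image_subset_image (fun v hv => ?_)
  exact Finset.mem_filter.mpr ⟨Finset.mem_univ _, h (Finset.mem_filter.mp hv).2⟩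

theorem st1_mem_cl (pc cl : V → V) {F : Finset V} {v : V} (h : pc v ∈ F) :
    cl v ∈ st1_cl pc cl F :=
  Finset.mem_image.mpr ⟨v, Finset.mem_filter.mpr ⟨Finset.mem_univ _, h⟩, rfl⟩

/-- the cost of touring the cell of `i` -/
noncomputable def st1_t (pc : V → V) (tc : ℝ) (i : V) : ℝ := tc * ((st1_cell pc i).card + 1)

theorem st1_t_nonneg (pc : V → V) {tc : ℝ} (h : 0 ≤ tc) (i : V) : 0 ≤ st1_t pc tc i := by
  unfold st1_t; positivity

/-- the base potential -/
noncomputable def st1_psi (M : Mdl V Ω) (pc : V → V) (a : Ω → V → V) (mc : V → ℝ)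
    (θ cb tc D1 : ℝ) (cl : V → V) (G Z : Finset V) : ℝ :=
  ∑ i ∈ G, (mc i + 8 / θ) + ∑ i ∈ G ∪ Z, st1_t pc tc i + D1 * (Z.card : ℝ) +
    2 * D1 / cb * Pot M pc a θ G + (Fintype.card V + D1) * ((st1_cl pc cl (G ∪ Z)).card : ℝ)

theorem st1_psi_nonneg (M : Mdl V Ω) (pc : V → V) (a : Ω → V → V) (mc : V → ℝ)
    (hmc : ∀ i, 0 ≤ mc i) {θ cb tc D1 : ℝ} (hθ : 0 < θ) (hcb : 0 < cb) (htc : 0 ≤ tc)
    (hD1 : 0 ≤ D1) (cl : V → V) (G Z : Finset V) : 0 ≤ st1_psi M pc a mc θ cb tc D1 cl G Z := by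
  unfold st1_psi
  have h1 : 0 ≤ ∑ i ∈ G, (mc i + 8 / θ) :=
    Finset.sum_nonneg (fun i _ => add_nonneg (hmc i) (by positivity))
  have h2 : 0 ≤ ∑ i ∈ G ∪ Z, st1_t pc tc i := Finset.sum_nonneg (fun i _ => st1_t_nonneg pc htc i)
  have h3 : 0 ≤ 2 * D1 / cb * Pot M pc a θ G :=
    mul_nonneg (by positivity) (Pot_nonneg M pc a θ hθ.le G)
  positivity

theorem st1_psi_bad {M : Mdl V Ω} {pc : V → V} {a : Ω → V → V} (mc : V → ℝ)
    (hmc : ∀ i, 0 ≤ mc i) {θ cb tc D1 : ℝ} (hθ : 0 < θ) (hcb : 0 < cb)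
    (hD1 : 0 ≤ D1) (cl : V → V) (G Z : Finset V) (D : V) (hD : D ∈ G) (hDZ : D ∉ Z)
    (hPot : Pot M pc a θ (G.erase D) ≤ Pot M pc a θ G - cb) :
    st1_psi M pc a mc θ cb tc D1 cl (G.erase D) (insert D Z) ≤
      st1_psi M pc a mc θ cb tc D1 cl G Z - D1 := by
  have hU : G.erase D ∪ insert D Z = G ∪ Z := by
    ext i
    simp only [Finset.mem_union, Finset.mem_erase, Finset.mem_insert]
    constructor
    · rintro (⟨_, h⟩ | rfl | h)
      · exact Or.inl h
      · exact Or.inl hD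
      · exact Or.inr h
    · rintro (h | h)
      · by_cases hi : i = D
        · exact Or.inr (Or.inl hi)
        · exact Or.inl ⟨hi, h⟩
      · exact Or.inr (Or.inr h)
  unfold st1_psi
  rw [hU, Finset.card_insert_of_notMem hDZ]
  have h1 := Finset.add_sum_erase G (fun i => mc i + 8 / θ) hD
  have h2 : 0 ≤ mc D + 8 / θ := add_nonneg (hmc D) (by positivity)
  have h3 : 2 * D1 / cb * Pot M pc a θ (G.erase D) ≤ 2 * D1 / cb * Pot M pc a θ G - 2 * D1 := by
    have h4 : 2 * D1 / cb * Pot M pc a θ (G.erase D) ≤ 2 * D1 / cb * (Pot M pc a θ G - cb) :=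
      mul_le_mul_of_nonneg_left hPot (by positivity)
    have h5 : 2 * D1 / cb * (Pot M pc a θ G - cb) = 2 * D1 / cb * Pot M pc a θ G - 2 * D1 := by
      field_simp
    linarith
  push_cast
  linarith

theorem st1_psi_G {M : Mdl V Ω} {pc : V → V} {a : Ω → V → V} (mc : V → ℝ)
    {θ cb tc D1 : ℝ} (hcb : 0 < cb)
    (hD1 : 0 ≤ D1) (cl : V → V) (G Z : Finset V) (D : V) (hD : D ∈ G) (hDZ : D ∉ Z)
    (hPot : Pot M pc a θ (G.erase D) ≤ Pot M pc a θ G) :
    st1_psi M pc a mc θ cb tc D1 cl (G.erase D) Z + (mc D + 8 / θ) + st1_t pc tc D ≤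
      st1_psi M pc a mc θ cb tc D1 cl G Z := by
  have hU : G.erase D ∪ Z = (G ∪ Z).erase D := by
    ext i
    simp only [Finset.mem_union, Finset.mem_erase]
    constructor
    · rintro (⟨h1, h⟩ | h)
      · exact ⟨h1, Or.inl h⟩
      · exact ⟨fun hi => hDZ (hi ▸ h), Or.inr h⟩
    · rintro ⟨h1, h | h⟩
      · exact Or.inl ⟨h1, h⟩
      · exact Or.inr h
  unfold st1_psi
  have h1 := Finset.add_sum_erase G (fun i => mc i + 8 / θ) hD
  have h2 := Finset.add_sum_erase (G ∪ Z) (fun i => st1_t pc tc i) (Finset.mem_union_left Z hD)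
  have h3 : 2 * D1 / cb * Pot M pc a θ (G.erase D) ≤ 2 * D1 / cb * Pot M pc a θ G :=
    mul_le_mul_of_nonneg_left hPot (by positivity)
  have h4 : ((st1_cl pc cl (G.erase D ∪ Z)).card : ℝ) ≤ ((st1_cl pc cl (G ∪ Z)).card : ℝ) := by
    have := Finset.card_le_card (st1_cl_mono pc cl
      (Finset.union_subset_union_left (t := Z) (Finset.erase_subset D G)))
    exact_mod_cast this
  have h5 : ((Fintype.card V : ℝ) + D1) * ((st1_cl pc cl (G.erase D ∪ Z)).card : ℝ) ≤
      ((Fintype.card V : ℝ) + D1) * ((st1_cl pc cl (G ∪ Z)).card : ℝ) :=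
    mul_le_mul_of_nonneg_left h4 (by positivity)
  rw [hU] at h5 ⊢
  linarith

theorem st1_psi_Z {M : Mdl V Ω} {pc : V → V} {a : Ω → V → V} (mc : V → ℝ)
    {θ cb tc D1 : ℝ} (cl : V → V) (G Z : Finset V) (D : V) (hD : D ∈ Z) (hDG : D ∉ G) :
    st1_psi M pc a mc θ cb tc D1 cl G (Z.erase D) + st1_t pc tc D + D1 +
      (Fintype.card V + D1) * (((st1_cl pc cl (G ∪ Z)).card : ℝ) -
        ((st1_cl pc cl (G ∪ Z.erase D)).card : ℝ)) = st1_psi M pc a mc θ cb tc D1 cl G Z := by
  have hU : G ∪ Z.erase D = (G ∪ Z).erase D := by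
    ext i
    simp only [Finset.mem_union, Finset.mem_erase]
    constructor
    · rintro (h | ⟨h1, h⟩)
      · exact ⟨fun hi => hDG (hi ▸ h), Or.inl h⟩
      · exact ⟨h1, Or.inr h⟩
    · rintro ⟨h1, h | h⟩
      · exact Or.inl h
      · exact Or.inr ⟨h1, h⟩
  unfold st1_psi
  have h2 := Finset.add_sum_erase (G ∪ Z) (fun i => st1_t pc tc i) (Finset.mem_union_right G hD)
  have h3 : (((Z.erase D).card : ℕ) : ℝ) + 1 = Z.card := by
    exact_mod_cast Finset.card_erase_add_one hD
  rw [hU]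
  rw [← h2, ← h3]
  ring

theorem st1_main {M : Mdl V Ω} {lam : ℝ} {Φ : V → Finset V → ℝ} (C : Calc M lam Φ)
    (hlam : 0 ≤ lam) {P W : ℕ} {κ δ : ℝ} (pcs : Pieces M P W κ δ) {a : Ω → V → V}
    (he : Ext M pcs.pc a) (mc : V → ℝ) (hmc0 : ∀ i, 0 ≤ mc i) (cb θ tc D1 : ℝ) (cl : V → V)
    (hcb : 0 < cb) (hθ : 0 < θ) (hκ : 0 ≤ κ) (hκθ : W * κ ≤ θ / 2) (hlθ : lam ≤ θ / 8)
    (hmv : ∀ (x : V) (Wt : Set V), pcs.pc x ∉ pcs.big → CondN M a cb x Wt →
      Hit Φ lam x Wt (mc (pcs.pc x)))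
    (htc0 : 0 ≤ tc) (htc : ∀ u v, pcs.pc u = pcs.pc v → Hit Φ lam u {v} tc)
    (hD1 : 0 ≤ D1) (hcl : ∀ u v, cl u = cl v → Hit Φ lam u {v} D1)
    (A : Finset V) (M2 : ℝ) (hM2 : 1 ≤ M2)
    (hend : ∀ x' A', A ⊆ A' → (∀ y, pcs.pc y ∉ pcs.big → y ∈ A') → Φ x' A' ≤ M2) (N : ℕ) :
    ∀ (G Z : Finset V), 2 * G.card + Z.card = N → Disjoint G Z →
      (∀ i ∈ G ∪ Z, pcs.pc i = i ∧ i ∉ pcs.big) →
      ∀ (x : V) (A' : Finset V), A ⊆ A' →
      (∀ i, pcs.pc i = i → i ∉ pcs.big → i ∉ G ∪ Z → st1_cell pcs.pc i ⊆ A') →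
      (pcs.pc x ∈ G → Φ x A' ≤ M2 * Real.exp (lam * st1_psi M pcs.pc a mc θ cb tc D1 cl G Z)) ∧
      (cl x ∈ st1_cl pcs.pc cl (G ∪ Z) →
        Φ x A' ≤ M2 * Real.exp (lam * (st1_psi M pcs.pc a mc θ cb tc D1 cl G Z + D1))) ∧
      Φ x A' ≤ M2 * Real.exp (lam * (st1_psi M pcs.pc a mc θ cb tc D1 cl G Z +
        (Fintype.card V + D1))) := by
  classical
  induction N using Nat.strong_induction_on with
  | _ N IH =>
  intro G Z hN hdis hidx
  have hM0 : 0 ≤ M2 := by linarith
  -- monotonicity of the bound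
  have hmon : ∀ {s t : ℝ}, s ≤ t → M2 * Real.exp (lam * s) ≤ M2 * Real.exp (lam * t) := by
    intro s t hst
    exact mul_le_mul_of_nonneg_left (Real.exp_le_exp.mpr (mul_le_mul_of_nonneg_left hst hlam)) hM0
  have hone : ∀ {s : ℝ}, 0 ≤ s → 1 ≤ M2 * Real.exp (lam * s) := by
    intro s hs
    have h1 := Real.one_le_exp (mul_nonneg hlam hs)
    calc (1 : ℝ) = 1 * 1 := by norm_num
      _ ≤ M2 * Real.exp (lam * s) := mul_le_mul hM2 h1 zero_le_one hM0
  have hpsi0 : ∀ G Z, 0 ≤ st1_psi M pcs.pc a mc θ cb tc D1 cl G Z := fun G Z =>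
    st1_psi_nonneg M pcs.pc a mc hmc0 hθ hcb htc0 hD1 cl G Z
  have hnn : (0 : ℝ) ≤ Fintype.card V := Nat.cast_nonneg _
  -- following a hit
  have hhit : ∀ (x : V) (W : Set V) (c s : ℝ) (A' : Finset V), 0 ≤ s → Hit Φ lam x W c →
      (∀ u ∈ W, Φ u A' ≤ M2 * Real.exp (lam * s)) → Φ x A' ≤ M2 * Real.exp (lam * (s + c)) := by
    intro x W c s A' hs h hu
    refine le_trans (h A' _ (hone hs) hu) (le_of_eq ?_)
    rw [mul_assoc, ← Real.exp_add, mul_add]
  -- touring a cell
  have htour : ∀ (i x : V) (s : ℝ) (A' : Finset V), pcs.pc x = i →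
      Φ x (A' ∪ st1_cell pcs.pc i) ≤ M2 * Real.exp (lam * s) →
      Φ x A' ≤ M2 * Real.exp (lam * (s + st1_t pcs.pc tc i)) := by
    intro i x s A' hx h
    have hxi : x ∈ st1_cell pcs.pc i := Finset.mem_filter.mpr ⟨Finset.mem_univ _, hx⟩
    have h1 := tour_cell C hlam (st1_cell pcs.pc i) tc htc0
      (fun u hu w hw => htc u w (by
        rw [(Finset.mem_filter.mp hu).2, (Finset.mem_filter.mp hw).2])) x x hxi hxi A'
    refine le_trans h1 (le_trans (mul_le_mul_of_nonneg_right h (Real.exp_pos _).le) (le_of_eq ?_))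
    unfold st1_t
    rw [mul_assoc, ← Real.exp_add]
    congr 2
    ring
  by_cases hemp : G ∪ Z = ∅
  · -- nothing left
    intro x A' hAA' hInv
    have h1 : Φ x A' ≤ M2 := by
      refine hend x A' hAA' (fun y hy => ?_)
      refine hInv (pcs.pc y) (pcs.idem y) hy (by rw [hemp]; exact Finset.notMem_empty _) ?_
      exact Finset.mem_filter.mpr ⟨Finset.mem_univ _, rfl⟩
    have h2 : ∀ {s : ℝ}, 0 ≤ s → Φ x A' ≤ M2 * Real.exp (lam * s) := by
      intro s hs
      refine le_trans h1 ?_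
      have := Real.one_le_exp (mul_nonneg hlam hs)
      nlinarith
    have h3 := hpsi0 G Z
    exact ⟨fun _ => h2 h3, fun _ => h2 (by linarith), h2 (by linarith)⟩
  by_cases hbad : ∃ D ∈ G, BadP M pcs.pc a θ cb G D
  · -- peel off a bad piece
    obtain ⟨D, hD, hb⟩ := hbad
    have hDZ : D ∉ Z := fun h => Finset.disjoint_left.mp hdis hD h
    have hPot := Pot_bad he θ cb G (fun i hi => (hidx i (Finset.mem_union_left Z hi)).1) D hD hb
    have hpsi := st1_psi_bad (M := M) (pc := pcs.pc) (a := a) mc hmc0 (tc := tc) hθ hcb hD1 cl G Z D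
      hD hDZ hPot
    have hU : G.erase D ∪ insert D Z = G ∪ Z := by
      ext i
      simp only [Finset.mem_union, Finset.mem_erase, Finset.mem_insert]
      constructor
      · rintro (⟨_, h⟩ | rfl | h)
        · exact Or.inl h
        · exact Or.inl hD
        · exact Or.inr h
      · rintro (h | h)
        · by_cases hi : i = D
          · exact Or.inr (Or.inl hi)
          · exact Or.inl ⟨hi, h⟩
        · exact Or.inr (Or.inr h)
    have hcE := Finset.card_erase_add_one hD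
    have hcI := Finset.card_insert_of_notMem hDZ
    have hdis' : Disjoint (G.erase D) (insert D Z) := by
      rw [Finset.disjoint_left]
      intro i hi hi'
      rcases Finset.mem_insert.mp hi' with rfl | h
      · exact Finset.notMem_erase _ _ hi
      · exact Finset.disjoint_left.mp hdis (Finset.mem_of_mem_erase hi) h
    intro x A' hAA' hInv
    obtain ⟨ha, hb', hc⟩ := IH (2 * (G.erase D).card + (insert D Z).card) (by omega)
      (G.erase D) (insert D Z) rfl hdis' (by rw [hU]; exact hidx) x A' hAA' (by rw [hU]; exact hInv)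
    rw [hU] at hb'
    refine ⟨fun hx => ?_, fun hx => ?_, ?_⟩
    · by_cases hxD : pcs.pc x = D
      · refine le_trans (hb' (st1_mem_cl pcs.pc cl ?_)) (hmon ?_)
        · exact Finset.mem_union_left Z hx
        · linarith
      · refine le_trans (ha (Finset.mem_erase.mpr ⟨hxD, hx⟩)) (hmon ?_)
        linarith
    · refine le_trans (hb' hx) (hmon ?_)
      linarith
    · refine le_trans hc (hmon ?_)
      linarith
  · -- no bad piece
    have part_a : ∀ (x : V) (A' : Finset V), A ⊆ A' →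
        (∀ i, pcs.pc i = i → i ∉ pcs.big → i ∉ G ∪ Z → st1_cell pcs.pc i ⊆ A') →
        pcs.pc x ∈ G → Φ x A' ≤ M2 * Real.exp (lam * st1_psi M pcs.pc a mc θ cb tc D1 cl G Z) := by
      intro x A' hAA' hInv hx
      set D := pcs.pc x with hDdef
      have hDZ : D ∉ Z := fun h => Finset.disjoint_left.mp hdis hx h
      have hidD := hidx D (Finset.mem_union_left Z hx)
      have hmove := move_step C hlam pcs he cb θ (mc D) hθ hκ hκθ hlθ G
        (fun i hi => hidx i (Finset.mem_union_left Z hi)) D hx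
        (fun h => hbad ⟨D, hx, h⟩) x hDdef.symm (fun Wt hW => hmv x Wt hidD.2 hW)
      have hcE := Finset.card_erase_add_one hx
      have hPot := Pot_anti he θ G (G.erase D)
        (fun i hi => (hidx i (Finset.mem_union_left Z hi)).1) (Finset.erase_subset D G)
      have hpsi := st1_psi_G (M := M) (pc := pcs.pc) (a := a) mc (tc := tc) (θ := θ) hcb hD1 cl G Z D
        hx hDZ hPot
      have hdis' : Disjoint (G.erase D) Z :=
        Finset.disjoint_of_subset_left (Finset.erase_subset D G) hdis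
      have hInv' : ∀ i, pcs.pc i = i → i ∉ pcs.big → i ∉ G.erase D ∪ Z →
          st1_cell pcs.pc i ⊆ A' ∪ st1_cell pcs.pc D := by
        intro i h1 h2 h3
        by_cases hi : i = D
        · rw [hi]; exact Finset.subset_union_right
        · refine (hInv i h1 h2 (fun h => h3 ?_)).trans Finset.subset_union_left
          rcases Finset.mem_union.mp h with h | h
          · exact Finset.mem_union_left _ (Finset.mem_erase.mpr ⟨hi, h⟩)
          · exact Finset.mem_union_right _ h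
      have h1 : Φ x (A' ∪ st1_cell pcs.pc D) ≤ M2 * Real.exp (lam *
          (st1_psi M pcs.pc a mc θ cb tc D1 cl (G.erase D) Z + (mc D + 8 / θ))) := by
        refine hhit x _ _ _ _ (hpsi0 _ _) hmove (fun u hu => ?_)
        exact (IH (2 * (G.erase D).card + Z.card) (by omega) (G.erase D) Z rfl hdis'
          (fun i hi => hidx i (Finset.union_subset_union_left (Finset.erase_subset D G) hi)) u
          (A' ∪ st1_cell pcs.pc D) (hAA'.trans Finset.subset_union_left) hInv').1 hu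
      refine le_trans (htour D x _ A' hDdef.symm h1) (hmon ?_)
      linarith
    have part_b : ∀ (x : V) (A' : Finset V), A ⊆ A' →
        (∀ i, pcs.pc i = i → i ∉ pcs.big → i ∉ G ∪ Z → st1_cell pcs.pc i ⊆ A') →
        cl x ∈ st1_cl pcs.pc cl (G ∪ Z) →
        Φ x A' ≤ M2 * Real.exp (lam * (st1_psi M pcs.pc a mc θ cb tc D1 cl G Z + D1)) := by
      intro x A' hAA' hInv hx
      obtain ⟨v, hv, hvx⟩ := Finset.mem_image.mp hx
      have hv' := (Finset.mem_filter.mp hv).2
      have hleg := hcl x v hvx.symm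
      rcases Finset.mem_union.mp hv' with hvG | hvZ
      · refine hhit x {v} D1 _ A' (hpsi0 _ _) hleg (fun u hu => ?_)
        rw [Set.mem_singleton_iff.mp hu]
        exact part_a v A' hAA' hInv hvG
      · set D := pcs.pc v with hDdef
        have hDG : D ∉ G := fun h => Finset.disjoint_left.mp hdis h hvZ
        have hcE := Finset.card_erase_add_one hvZ
        have hpsi := st1_psi_Z (M := M) (pc := pcs.pc) (a := a) mc (tc := tc) (θ := θ) (cb := cb)
          (D1 := D1) cl G Z D hvZ hDG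
        have hsubE : G ∪ Z.erase D ⊆ G ∪ Z :=
          Finset.union_subset_union_right (Finset.erase_subset D Z)
        have hdis' : Disjoint G (Z.erase D) :=
          Finset.disjoint_of_subset_right (Finset.erase_subset D Z) hdis
        have hInv' : ∀ i, pcs.pc i = i → i ∉ pcs.big → i ∉ G ∪ Z.erase D →
            st1_cell pcs.pc i ⊆ A' ∪ st1_cell pcs.pc D := by
          intro i h1 h2 h3
          by_cases hi : i = D
          · rw [hi]; exact Finset.subset_union_right
          · refine (hInv i h1 h2 (fun h => h3 ?_)).trans Finset.subset_union_left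
            rcases Finset.mem_union.mp h with h | h
            · exact Finset.mem_union_left _ h
            · exact Finset.mem_union_right _ (Finset.mem_erase.mpr ⟨hi, h⟩)
        obtain ⟨_, hIb, hIc⟩ := IH (2 * G.card + (Z.erase D).card) (by omega) G (Z.erase D) rfl
          hdis' (fun i hi => hidx i (hsubE hi)) v (A' ∪ st1_cell pcs.pc D)
          (hAA'.trans Finset.subset_union_left) hInv'
        have hcm : ((st1_cl pcs.pc cl (G ∪ Z.erase D)).card : ℝ) ≤
            ((st1_cl pcs.pc cl (G ∪ Z)).card : ℝ) := by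
          exact_mod_cast Finset.card_le_card (st1_cl_mono pcs.pc cl hsubE)
        have hnD : (0 : ℝ) ≤ Fintype.card V + D1 := by linarith
        by_cases hcv : cl v ∈ st1_cl pcs.pc cl (G ∪ Z.erase D)
        · have h1 := htour D v _ A' hDdef.symm (hIb hcv)
          have h2 := hhit x {v} D1 _ A' (add_nonneg (add_nonneg (hpsi0 _ _) hD1)
            (st1_t_nonneg pcs.pc htc0 D)) hleg (fun u hu => by
              rw [Set.mem_singleton_iff.mp hu]; exact h1)
          refine le_trans h2 (hmon ?_)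
          have h3 := mul_nonneg hnD (sub_nonneg.mpr hcm)
          linarith
        · have h1 := htour D v _ A' hDdef.symm hIc
          have h2 := hhit x {v} D1 _ A' (add_nonneg (add_nonneg (hpsi0 _ _) hnD)
            (st1_t_nonneg pcs.pc htc0 D)) hleg (fun u hu => by
              rw [Set.mem_singleton_iff.mp hu]; exact h1)
          refine le_trans h2 (hmon ?_)
          have hlt : (st1_cl pcs.pc cl (G ∪ Z.erase D)).card + 1 ≤
              (st1_cl pcs.pc cl (G ∪ Z)).card := by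
            refine Finset.card_lt_card ?_
            refine (Finset.ssubset_iff_of_subset (st1_cl_mono pcs.pc cl hsubE)).mpr
              ⟨cl v, st1_mem_cl pcs.pc cl hv', hcv⟩
          have hlt' : ((st1_cl pcs.pc cl (G ∪ Z.erase D)).card : ℝ) + 1 ≤
              ((st1_cl pcs.pc cl (G ∪ Z)).card : ℝ) := by exact_mod_cast hlt
          have h3 : (Fintype.card V + D1) * 1 ≤ (Fintype.card V + D1) *
              (((st1_cl pcs.pc cl (G ∪ Z)).card : ℝ) -
                ((st1_cl pcs.pc cl (G ∪ Z.erase D)).card : ℝ)) :=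
            mul_le_mul_of_nonneg_left (by linarith) hnD
          linarith
    intro x A' hAA' hInv
    refine ⟨part_a x A' hAA' hInv, part_b x A' hAA' hInv, ?_⟩
    obtain ⟨i, hi⟩ := Finset.nonempty_iff_ne_empty.mpr hemp
    have h1 := part_b i A' hAA' hInv (st1_mem_cl pcs.pc cl (by rw [(hidx i hi).1]; exact hi))
    have h2 := hhit x {i} (Fintype.card V) _ A' (add_nonneg (hpsi0 _ _) hD1)
      (hit_det C hlam x i) (fun u hu => by rw [Set.mem_singleton_iff.mp hu]; exact h1)
    refine le_trans h2 (hmon ?_)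
    linarith

theorem stage1 {M : Mdl V Ω} {lam : ℝ} {Φ : V → Finset V → ℝ} (C : Calc M lam Φ)
    (hlam : 0 ≤ lam) {P W : ℕ} {κ δ : ℝ} (pcs : Pieces M P W κ δ) {a : Ω → V → V}
    (he : Ext M pcs.pc a) (mc : V → ℝ) (hmc0 : ∀ i, 0 ≤ mc i) (cb θ tc D1 Nc : ℝ) (cl : V → V)
    (hcb : 0 < cb) (hθ : 0 < θ) (hκ : 0 ≤ κ) (hκθ : W * κ ≤ θ / 2) (hlθ : lam ≤ θ / 8)
    (hmv : ∀ (x : V) (Wt : Set V), pcs.pc x ∉ pcs.big → CondN M a cb x Wt →
      Hit Φ lam x Wt (mc (pcs.pc x)))
    (htc0 : 0 ≤ tc) (htc : ∀ u v, pcs.pc u = pcs.pc v → Hit Φ lam u {v} tc)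
    (hD1 : 0 ≤ D1) (hcl : ∀ u v, cl u = cl v → Hit Φ lam u {v} D1)
    (hNc : ((univ.image cl).card : ℝ) ≤ Nc)
    (x : V) (A : Finset V) (M2 : ℝ) (hM2 : 1 ≤ M2)
    (hend : ∀ x' A', A ⊆ A' → (∀ y, pcs.pc y ∉ pcs.big → y ∈ A') → Φ x' A' ≤ M2) :
    Φ x A ≤ M2 * Real.exp (lam *
      (∑ i ∈ univ.filter (fun i => pcs.pc i = i ∧ i ∉ pcs.big ∧ ∃ y, pcs.pc y = i ∧ y ∉ A),
        (mc i + 8 / θ) + 2 * tc * Fintype.card V + 2 * D1 / cb * (Fintype.card V * θ) +
        (Fintype.card V + D1) * (Nc + 1))) := by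
  classical
  set G : Finset V := univ.filter (fun i => pcs.pc i = i ∧ i ∉ pcs.big ∧
    ∃ y, pcs.pc y = i ∧ y ∉ A) with hG
  have hGm : ∀ i, i ∈ G ↔ pcs.pc i = i ∧ i ∉ pcs.big ∧ ∃ y, pcs.pc y = i ∧ y ∉ A := by
    intro i
    rw [hG, Finset.mem_filter]
    exact ⟨fun h => h.2, fun h => ⟨Finset.mem_univ _, h⟩⟩
  have hmain := (st1_main C hlam pcs he mc hmc0 cb θ tc D1 cl hcb hθ hκ hκθ hlθ hmv htc0 htc hD1
    hcl A M2 hM2 hend (2 * G.card + (∅ : Finset V).card) G ∅ rfl (Finset.disjoint_empty_right _)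
    (fun i hi => by
      rw [Finset.union_empty] at hi
      exact ⟨((hGm i).mp hi).1, ((hGm i).mp hi).2.1⟩) x A (Finset.Subset.refl _)
    (fun i h1 h2 h3 y hy => by
      rw [Finset.union_empty] at h3
      by_contra hyA
      exact h3 ((hGm i).mpr ⟨h1, h2, y, (Finset.mem_filter.mp hy).2, hyA⟩))).2.2
  refine le_trans hmain (mul_le_mul_of_nonneg_left (Real.exp_le_exp.mpr
    (mul_le_mul_of_nonneg_left ?_ hlam)) (by linarith))
  unfold st1_psi
  rw [Finset.union_empty, Finset.card_empty, Nat.cast_zero, mul_zero, add_zero]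
  have h1 : ∑ i ∈ G, st1_t pcs.pc tc i ≤ 2 * tc * Fintype.card V := by
    have h2 : ∑ i ∈ G, ((st1_cell pcs.pc i).card : ℝ) ≤ Fintype.card V := by
      have h2 : ∑ i ∈ G, (st1_cell pcs.pc i).card ≤ (univ : Finset V).card := by
        rw [← Finset.card_biUnion]
        · exact Finset.card_le_card (Finset.subset_univ _)
        · intro i _ j _ hij
          rw [Function.onFun, Finset.disjoint_left]
          intro y hy hy'
          exact hij ((Finset.mem_filter.mp hy).2.symm.trans (Finset.mem_filter.mp hy').2)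
      rw [Finset.card_univ] at h2
      exact_mod_cast h2
    have h3 : (G.card : ℝ) ≤ Fintype.card V := by exact_mod_cast Finset.card_le_univ _
    have h4 : ∑ i ∈ G, st1_t pcs.pc tc i =
        tc * (∑ i ∈ G, ((st1_cell pcs.pc i).card : ℝ) + G.card) := by
      unfold st1_t
      rw [← Finset.mul_sum, Finset.sum_add_distrib, Finset.sum_const, nsmul_eq_mul, mul_one]
    rw [h4]
    have h5 := mul_le_mul_of_nonneg_left (add_le_add h2 h3) htc0
    linarith
  have h2 : 2 * D1 / cb * Pot M pcs.pc a θ G ≤ 2 * D1 / cb * (Fintype.card V * θ) :=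
    mul_le_mul_of_nonneg_left (Pot_le he θ G (fun i hi => ((hGm i).mp hi).1)) (by positivity)
  have h3 : (Fintype.card V + D1) * ((st1_cl pcs.pc cl G).card : ℝ) ≤
      (Fintype.card V + D1) * Nc := by
    refine mul_le_mul_of_nonneg_left (le_trans ?_ hNc) (by positivity)
    exact_mod_cast Finset.card_le_card (Finset.image_subset_image (Finset.subset_univ _))
  have h4 : (Fintype.card V + D1) * (Nc + 1) =
      (Fintype.card V + D1) * Nc + (Fintype.card V + D1) := by ring
  rw [h4]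
  linarith

end ST1

end Pool.Agent.RST
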